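import Pool.Agent.W_MP_5f6b2a_mon.Defs

/-!
`MonW t ⊆ MonW (t + 1)` and `NSat t ∈ MonW (t + 1)`.
-/

namespace Pool.Agent.W_MP_5f6b2a_mon

open Finset

theorem Weft.mono {N M s t d : ℕ} {F : Finset (Fin N) → (Fin M → Prop) → Prop}
    (h : Weft s t d F) : Weft s (t + 1) d F := by
  induction h with
  | sel t d l => exact Weft.sel _ _ l
  | nsel t d l => exact Weft.nsel _ _ l
  | data t d j => exact Weft.data _ _ j
  | and _ _ ih1 ih2 => exact Weft.and ih1 ih2
  | or _ _ ih1 ih2 => exact Weft.or ih1 ih2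
  | all m hm F _ ih => exact Weft.all m hm F ih
  | ex m hm F _ ih => exact Weft.ex m hm F ih

theorem MonW_mono (t : ℕ) : MonW t ⊆ MonW (t + 1) := by
  rintro Q ⟨c, d, f, g, h⟩
  refine ⟨c, d, f, g, fun k n => ?_⟩
  obtain ⟨s, N, k', p, F, h1, h2, h3, h4, h5, h6⟩ := h k n
  exact ⟨s, N, k', p, F, h1, h2, h3, h4, h5.mono, h6⟩

theorem member_weft_alt {N M s t d m : ℕ} (hm : m ≤ s) (j : ℕ) :
    ∀ (b : Bool) (F : (Fin j → Fin m) → Finset (Fin N) → (Fin M → Prop) → Prop),
      (∀ q, Weft s t d (F q)) → Weft s (t + j) (d + j) fun S y => alt j b fun q => F q S y := by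
  induction j with
  | zero =>
    intro b F hF
    cases b
    · exact hF Fin.elim0
    · exact hF Fin.elim0
  | succ j ih =>
    intro b F hF
    cases b
    · exact Weft.ex m hm (fun i S y => alt j true fun q => F (Fin.cons i q) S y)
        fun i => ih true (fun q => F (Fin.cons i q)) fun q => hF _
    · exact Weft.all m hm (fun i S y => alt j false fun q => F (Fin.cons i q) S y)
        fun i => ih false (fun q => F (Fin.cons i q)) fun q => hF _

theorem member_leaf {M s m : ℕ} (hm : m ≤ s) (P : Prop) [Decidable P] (idx : Fin m → Fin M) :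
    Weft s 1 2 fun (S : Finset (Fin m)) (y : Fin M → Prop) =>
      if P then ∀ l ∈ S, y (idx l) else ∃ l ∈ S, y (idx l) := by
  by_cases h : P
  · have e : (fun (S : Finset (Fin m)) (y : Fin M → Prop) =>
        if P then ∀ l ∈ S, y (idx l) else ∃ l ∈ S, y (idx l)) =
        fun S y => ∀ l : Fin m, l ∉ S ∨ y (idx l) := by
      funext S y
      rw [if_pos h]
      apply propext
      exact forall_congr' fun l => by tauto
    rw [e]
    exact Weft.all m hm (fun l S y => l ∉ S ∨ y (idx l))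
      fun l => Weft.or (Weft.nsel 0 0 l) (Weft.data 0 0 (idx l))
  · have e : (fun (S : Finset (Fin m)) (y : Fin M → Prop) =>
        if P then ∀ l ∈ S, y (idx l) else ∃ l ∈ S, y (idx l)) =
        fun S y => ∃ l : Fin m, l ∈ S ∧ y (idx l) := by
      funext S y
      rw [if_neg h]
    rw [e]
    exact Weft.ex m hm (fun l S y => l ∈ S ∧ y (idx l))
      fun l => Weft.and (Weft.sel 0 0 l) (Weft.data 0 0 (idx l))

theorem nsat_mem (t : ℕ) : NSat t ∈ MonW (t + 1) := by
  refine ⟨1, 2 + t, fun _ => 1, id, fun k n => ?_⟩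
  by_cases h : ∃ m : ℕ, m ^ (t + 1) = n
  · obtain ⟨m, rfl⟩ := h
    have hm : m ≤ 1 * (m ^ (t + 1) + 1) ^ 1 := by
      rw [one_mul, pow_one]
      exact (Nat.le_self_pow (Nat.succ_ne_zero t) m).trans (Nat.le_succ _)
    refine ⟨m ^ (t + 1), m, k, fun i x => x i = true, fun S y => alt t true fun q =>
      if Even t then ∀ l ∈ S, y (finFunctionFinEquiv (Fin.snoc q l))
      else ∃ l ∈ S, y (finFunctionFinEquiv (Fin.snoc q l)), ?_, hm, le_rfl,
      fun i => Or.inl ⟨i, fun x => Iff.rfl⟩, ?_, fun x => ?_⟩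
    · rw [one_mul, pow_one]
      exact Nat.le_succ _
    · have := member_weft_alt (N := m) (M := m ^ (t + 1)) (t := 1) (d := 2) hm t true
        (fun q S y => if Even t then ∀ l ∈ S, y (finFunctionFinEquiv (Fin.snoc q l))
          else ∃ l ∈ S, y (finFunctionFinEquiv (Fin.snoc q l)))
        fun q => member_leaf hm (Even t) fun l => finFunctionFinEquiv (Fin.snoc q l)
      rw [add_comm 1 t] at this
      exact this
    · constructor
      · rintro ⟨m', h', S, hS, hA⟩
        obtain rfl : m' = m := Nat.pow_left_injective (Nat.succ_ne_zero t) h'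
        exact ⟨S, hS, hA⟩
      · rintro ⟨S, hS, hA⟩
        exact ⟨m, rfl, S, hS, hA⟩
  · refine ⟨n, 0, k, fun i x => x i = true, fun S y => ∃ i : Fin 0,
      (fun (_ : Fin 0) (_ : Finset (Fin 0)) (_ : Fin n → Prop) => True) i S y, ?_, Nat.zero_le _,
      le_rfl, fun i => Or.inl ⟨i, fun x => Iff.rfl⟩, ?_, fun x => ?_⟩
    · rw [one_mul, pow_one]
      exact Nat.le_succ _
    · have : 2 + t = (1 + t) + 1 := by omega
      rw [this]
      exact Weft.ex 0 (Nat.zero_le _) _ fun i => i.elim0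
    · constructor
      · rintro ⟨m, hm, _⟩
        exact absurd ⟨m, hm⟩ h
      · rintro ⟨_, _, i, _⟩
        exact i.elim0

end Pool.Agent.W_MP_5f6b2a_mon
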