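import Pool.Agent.W_MP_5f6b2a_mon.SupplyOdd
import Pool.Agent.W_MP_5f6b2a_mon.Member

/-!
The monotone W-hierarchy is strict.
-/

namespace Pool.Agent.W_MP_5f6b2a_mon

/-- `NSat t` is not in `MonW t`. -/
theorem nsat_not_mem (t : ℕ) (ht : 1 ≤ t) : NSat t ∉ MonW t := by
  rcases Nat.even_or_odd' t with ⟨h, rfl | rfl⟩
  · obtain ⟨h, rfl⟩ : ∃ h', h = h' + 1 := ⟨h - 1, by omega⟩
    have e : 2 * (h + 1) = 2 + 2 * h := by ring
    rw [e]
    refine finish (w₀ := 1 + 2 * h) (by ring) ?_ (supply_odd h)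
    simp only [true_iff]
    exact ⟨h + 1, by ring⟩
  · have e : 2 * h + 1 = 1 + 2 * h := by ring
    rw [e]
    refine finish (w₀ := 2 * h) (by ring) ?_ (supply_even h)
    have : ¬ Even (1 + 2 * h) := by
      rw [Nat.not_even_iff_odd]
      exact ⟨h, by ring⟩
    simpa using this

theorem monotone_strict (t : ℕ) (ht : 1 ≤ t) :
    MonW t ⊂ MonW (t + 1) ∧ NSat t ∈ MonW (t + 1) ∧ NSat t ∉ MonW t :=
  ⟨⟨MonW_mono t, fun h => nsat_not_mem t ht (h (nsat_mem t))⟩, nsat_mem t, nsat_not_mem t ht⟩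

end Pool.Agent.W_MP_5f6b2a_mon
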