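import Pool.Agent.W_MP_5f6b2a_mon.Core

/-!
Monotone formulas and their composition with monotone programs.
-/

namespace Pool.Agent.W_MP_5f6b2a_mon

open Finset

/-- `MF a f`: `f` has a monotone formula with at most `a` nodes. -/
inductive MF {V : Type} : ℕ → ((V → Prop) → Prop) → Prop
  | var (v : V) : MF 1 fun x => x v
  | tru : MF 1 fun _ => True
  | fls : MF 1 fun _ => False
  | and {a b : ℕ} {f g : (V → Prop) → Prop} (hf : MF a f) (hg : MF b g) :
      MF (a + b + 1) fun x => f x ∧ g x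
  | or {a b : ℕ} {f g : (V → Prop) → Prop} (hf : MF a f) (hg : MF b g) :
      MF (a + b + 1) fun x => f x ∨ g x
  | mono {a b : ℕ} (h : a ≤ b) {f : (V → Prop) → Prop} (hf : MF a f) : MF b f

theorem MF.congr {V : Type} {a : ℕ} {f g : (V → Prop) → Prop} (h : MF a f)
    (hfg : ∀ x, f x ↔ g x) : MF a g := by
  have : f = g := funext fun z => propext (hfg z)
  rwa [← this]

/-- Conjunction of `m` formulas of size at most `a`. -/
theorem MF.forall {V : Type} {a m : ℕ} {f : Fin m → (V → Prop) → Prop} (h : ∀ i, MF a (f i)) :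
    MF (m * (a + 1) + 1) fun x => ∀ i, f i x := by
  induction m with
  | zero =>
    refine MF.mono (by simp) (MF.congr MF.tru fun x => ?_)
    simp
  | succ m ih =>
    refine MF.mono ?_ (MF.congr (MF.and (h 0) (ih fun i => h i.succ)) fun x => ?_)
    · ring_nf
      omega
    · exact (Fin.forall_fin_succ (P := fun i => f i x)).symm

/-- Disjunction of `m` formulas of size at most `a`. -/
theorem MF.exists {V : Type} {a m : ℕ} {f : Fin m → (V → Prop) → Prop} (h : ∀ i, MF a (f i)) :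
    MF (m * (a + 1) + 1) fun x => ∃ i, f i x := by
  induction m with
  | zero =>
    refine MF.mono (by simp) (MF.congr MF.fls fun x => ?_)
    simp
  | succ m ih =>
    refine MF.mono ?_ (MF.congr (MF.or (h 0) (ih fun i => h i.succ)) fun x => ?_)
    · ring_nf
      omega
    · exact (Fin.exists_fin_succ (P := fun i => f i x)).symm

/-- Appending a gate to a monotone program. -/
theorem MonProg.snoc {V : Type} {s : ℕ} {p : Fin s → (V → Bool) → Prop} (hp : MonProg p)
    {q : (V → Bool) → Prop}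
    (hq : (∃ v, ∀ x, q x ↔ x v = true) ∨ (∀ x, q x) ∨ (∀ x, ¬ q x) ∨
      (∃ j k, ∀ x, q x ↔ p j x ∧ p k x) ∨ (∃ j k, ∀ x, q x ↔ p j x ∨ p k x)) :
    MonProg (Fin.snoc (α := fun _ => (V → Bool) → Prop) p q) := by
  intro i
  refine Fin.lastCases ?_ (fun i => ?_) i
  · simp only [Fin.snoc_last]
    rcases hq with h | h | h | ⟨j, k, h⟩ | ⟨j, k, h⟩
    · exact Or.inl h
    · exact Or.inr (Or.inl h)
    · exact Or.inr (Or.inr (Or.inl h))
    · refine Or.inr (Or.inr (Or.inr (Or.inl ⟨j.castSucc, k.castSucc, Fin.castSucc_lt_last j,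
        Fin.castSucc_lt_last k, ?_⟩)))
      simpa only [Fin.snoc_castSucc] using h
    · refine Or.inr (Or.inr (Or.inr (Or.inr ⟨j.castSucc, k.castSucc, Fin.castSucc_lt_last j,
        Fin.castSucc_lt_last k, ?_⟩)))
      simpa only [Fin.snoc_castSucc] using h
  · simp only [Fin.snoc_castSucc]
    rcases hp i with h | h | h | ⟨j, k, hj, hk, h⟩ | ⟨j, k, hj, hk, h⟩
    · exact Or.inl h
    · exact Or.inr (Or.inl h)
    · exact Or.inr (Or.inr (Or.inl h))
    · refine Or.inr (Or.inr (Or.inr (Or.inl ⟨j.castSucc, k.castSucc,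
        Fin.castSucc_lt_castSucc_iff.2 hj, Fin.castSucc_lt_castSucc_iff.2 hk, ?_⟩)))
      simpa only [Fin.snoc_castSucc] using h
    · refine Or.inr (Or.inr (Or.inr (Or.inr ⟨j.castSucc, k.castSucc,
        Fin.castSucc_lt_castSucc_iff.2 hj, Fin.castSucc_lt_castSucc_iff.2 hk, ?_⟩)))
      simpa only [Fin.snoc_castSucc] using h

/-- The strong form of `MF.comp`: the new program extends the old one. -/
theorem MF.comp_aux {V W : Type} {a : ℕ} {f : (W → Prop) → Prop} (hf : MF a f) :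
    ∀ {s : ℕ} {p : Fin s → (V → Bool) → Prop} (_ : MonProg p) (e : W → Fin s),
    ∃ (s' : ℕ) (hs : s ≤ s') (p' : Fin s' → (V → Bool) → Prop), s' ≤ s + a ∧ MonProg p' ∧
      (∀ i, p' (Fin.castLE hs i) = p i) ∧ ∃ i, ∀ x, p' i x ↔ f fun j => p (e j) x := by
  induction hf with
  | var v =>
    intro s p hp e
    exact ⟨s, le_rfl, p, by omega, hp, fun i => rfl, e v, fun x => Iff.rfl⟩
  | tru =>
    intro s p hp e
    refine ⟨s + 1, Nat.le_succ s, Fin.snoc (α := fun _ => (V → Bool) → Prop) p fun _ => True,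
      le_rfl, hp.snoc (Or.inr (Or.inl fun _ => trivial)), fun i => ?_, Fin.last s, fun x => ?_⟩
    · exact Fin.snoc_castSucc (α := fun _ => (V → Bool) → Prop) _ _ i
    · simp
  | fls =>
    intro s p hp e
    refine ⟨s + 1, Nat.le_succ s, Fin.snoc (α := fun _ => (V → Bool) → Prop) p fun _ => False,
      le_rfl, hp.snoc (Or.inr (Or.inr (Or.inl fun _ => id))), fun i => ?_, Fin.last s, fun x => ?_⟩
    · exact Fin.snoc_castSucc (α := fun _ => (V → Bool) → Prop) _ _ i
    · simp
  | @and a b f g hf hg ihf ihg =>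
    intro s p hp e
    obtain ⟨s2, h2, p2, hs2, hp2, hc2, i2, hi2⟩ := ihf hp e
    obtain ⟨s3, h3, p3, hs3, hp3, hc3, i3, hi3⟩ := ihg hp2 fun w => Fin.castLE h2 (e w)
    refine ⟨s3 + 1, by omega, Fin.snoc (α := fun _ => (V → Bool) → Prop) p3
      fun x => p3 (Fin.castLE h3 i2) x ∧ p3 i3 x, by omega,
      hp3.snoc (Or.inr (Or.inr (Or.inr (Or.inl ⟨_, _, fun x => Iff.rfl⟩)))), fun i => ?_,
      Fin.last s3, fun x => ?_⟩
    · rw [← hc2, ← hc3]
      exact Fin.snoc_castSucc (α := fun _ => (V → Bool) → Prop) _ _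
        (Fin.castLE h3 (Fin.castLE h2 i))
    · simp only [Fin.snoc_last]
      rw [hc3, hi2, hi3]
      simp only [hc2]
  | @or a b f g hf hg ihf ihg =>
    intro s p hp e
    obtain ⟨s2, h2, p2, hs2, hp2, hc2, i2, hi2⟩ := ihf hp e
    obtain ⟨s3, h3, p3, hs3, hp3, hc3, i3, hi3⟩ := ihg hp2 fun w => Fin.castLE h2 (e w)
    refine ⟨s3 + 1, by omega, Fin.snoc (α := fun _ => (V → Bool) → Prop) p3
      fun x => p3 (Fin.castLE h3 i2) x ∨ p3 i3 x, by omega,
      hp3.snoc (Or.inr (Or.inr (Or.inr (Or.inr ⟨_, _, fun x => Iff.rfl⟩)))), fun i => ?_,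
      Fin.last s3, fun x => ?_⟩
    · rw [← hc2, ← hc3]
      exact Fin.snoc_castSucc (α := fun _ => (V → Bool) → Prop) _ _
        (Fin.castLE h3 (Fin.castLE h2 i))
    · simp only [Fin.snoc_last]
      rw [hc3, hi2, hi3]
      simp only [hc2]
  | mono h hf ih =>
    intro s p hp e
    obtain ⟨s2, h2, p2, hs2, hr⟩ := ih hp e
    exact ⟨s2, h2, p2, by omega, hr⟩

/-- A formula in the gates of a monotone program extends to a monotone program. -/
theorem MF.comp {V : Type} {s a : ℕ} {p : Fin s → (V → Bool) → Prop} (hp : MonProg p)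
    {f : (Fin s → Prop) → Prop} (hf : MF a f) :
    ∃ (s' : ℕ) (p' : Fin s' → (V → Bool) → Prop), s' ≤ s + a ∧ MonProg p' ∧
      ∃ i, ∀ x, p' i x ↔ f fun j => p j x := by
  obtain ⟨s', hs, p', h1, h2, h3, h4⟩ := hf.comp_aux hp id
  exact ⟨s', p', h1, h2, h4⟩

/-- A monotone program on bit strings, read through a map all of whose bits are variables or `0`,
is a program on inputs `ι → E → Bool`. -/
theorem MonProg.toSProg {ι E V : Type} {s : ℕ} {p : Fin s → (V → Bool) → Prop} (hp : MonProg p)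
    (μ : (ι → E → Bool) → V → Bool)
    (hμ : ∀ v, (∃ l e, ∀ x, μ x v = x l e) ∨ ∀ x, μ x v = false) :
    SProg fun i x => p i (μ x) := by
  intro i
  rcases hp i with ⟨v, h⟩ | h | h | ⟨j, k, hj, hk, h⟩ | ⟨j, k, hj, hk, h⟩
  · rcases hμ v with ⟨l, e, hv⟩ | hv
    · exact Or.inl ⟨l, e, fun x => (h _).trans (by rw [hv])⟩
    · exact Or.inr (Or.inr (Or.inl fun x hx => by
        have := (h _).1 hx
        rw [hv] at this
        exact Bool.false_ne_true this))
  · exact Or.inr (Or.inl fun x => h _)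
  · exact Or.inr (Or.inr (Or.inl fun x => h _))
  · exact Or.inr (Or.inr (Or.inr (Or.inl ⟨j, k, hj, hk, fun x => h _⟩)))
  · exact Or.inr (Or.inr (Or.inr (Or.inr ⟨j, k, hj, hk, fun x => h _⟩)))

end Pool.Agent.W_MP_5f6b2a_mon
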