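import Pool.Agent.W_MP_5f6b2a_mon.WLemma

/-!
The truncation error at an AND gate.
-/

namespace Pool.Agent.W_MP_5f6b2a_mon

open Finset

/-! ### auxiliary facts -/

open Classical in
/-- indicator of a proposition -/
noncomputable def Trunc_ind (p : Prop) : ℝ := if p then 1 else 0

theorem Trunc_pr_eq {Ω : Type*} [Fintype Ω] (E : Ω → Prop) :
    pr E = av fun ω => Trunc_ind (E ω) := rfl

theorem Trunc_ind_nonneg (p : Prop) : 0 ≤ Trunc_ind p := by
  unfold Trunc_ind; split_ifs <;> norm_num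

theorem Trunc_ind_of {p : Prop} (h : p) : Trunc_ind p = 1 := by simp [Trunc_ind, h]

theorem Trunc_ind_of_not {p : Prop} (h : ¬ p) : Trunc_ind p = 0 := by simp [Trunc_ind, h]

theorem Trunc_card_sel {k n : ℕ} (S : Fin k → Fin n) (J : Finset (Fin k)) :
    (sel S J).card = J.card :=
  card_image_of_injective _ fun _ _ h => (Prod.mk.inj h).1

theorem Trunc_sel_congr {k n : ℕ} {S S' : Fin k → Fin n} {J : Finset (Fin k)}
    (h : ∀ j ∈ J, S j = S' j) : sel S J = sel S' J := by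
  unfold sel
  exact image_congr fun j hj => by simp only [h j hj]

theorem Trunc_sel_union {k n : ℕ} (S : Fin k → Fin n) (J J' : Finset (Fin k)) :
    sel S (J ∪ J') = sel S J ∪ sel S J' := image_union _ _

theorem Trunc_fst_mem_sel {k n : ℕ} {S : Fin k → Fin n} {J : Finset (Fin k)} {l : Fin k × Fin n}
    (h : l ∈ sel S J) : l.1 ∈ J := by
  obtain ⟨j, hj, rfl⟩ := mem_image.1 h
  exact hj

theorem Trunc_acc_congr {ι E : Type} {r : ℕ} (G : Fam ι E r) {R : Finset ι} {x x' : ι → E → Bool}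
    (h : ∀ l ∈ R, x l = x' l) : G.acc R x ↔ G.acc R x' :=
  ⟨G.mono R x x' fun l hl => (h l hl).le, G.mono R x' x fun l hl => (h l hl).ge⟩

theorem Trunc_Min_congr {ι E : Type} {r : ℕ} (G : Fam ι E r) {R : Finset ι} {x x' : ι → E → Bool}
    (h : ∀ l ∈ R, x l = x' l) : G.Min R x ↔ G.Min R x' := by
  unfold Fam.Min
  refine and_congr (Trunc_acc_congr G h) (forall₂_congr fun R' hR' => not_congr ?_)
  exact Trunc_acc_congr G fun l hl => h l (hR'.subset hl)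

section main

variable {k n r B mt p : ℕ} {E P : Type} [Fintype E] [DecidableEq E] [Fintype P] [Nonempty P]

/-- One step: fixing the rows of the colours in `J₁`. -/
theorem Trunc_step
    (w : P → Fin k → E → Bool) (Ty : Finset (Fin k) → (Fin k → E → Bool) → Prop) {θ err : ℝ}
    (hn : p * r + 1 ≤ n) (hp : 1 ≤ p) (hB : 0 < B) (hθ : 0 < θ)
    (hTy : ∀ K κ κ', (∀ j ∈ K, κ j = κ' j) → Ty K κ → Ty K κ')
    (hTy' : ∀ K K' κ, K ⊆ K' → Ty K' κ → Ty K κ)
    (hDom : Dom w Ty B mt r err) (hle : θ ^ mt + err ≤ (1 / (n : ℝ)) ^ r)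
    (G₁ G₂ : Fam (Fin k × Fin n) E r) (hG₂ : G₂.Closed B θ p)
    (J₁ J₂ : Finset (Fin k)) (h1 : J₁.card ≤ r) (h2 : J₂.card ≤ r) (S₀ : Fin k → Fin n) :
    (av fun S' : Fin k → Fin n => pr fun ω : P => Ty (J₁ ∪ J₂) (w ω) ∧
      G₁.Min (sel S₀ J₁) (full (w ω)) ∧
      G₂.Min (sel S₀ (J₁ ∩ J₂) ∪ sel S' (J₂ \ J₁)) (full (w ω))) ≤
    (((p * r + 1 : ℕ) : ℝ) / n) ^ (J₂ \ J₁).card *
      pr fun ω : P => Ty J₁ (w ω) ∧ G₁.Min (sel S₀ J₁) (full (w ω)) := by
  classical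
  set c : ℝ := (((p * r + 1 : ℕ) : ℝ) / n) ^ (J₂ \ J₁).card with hc
  have hc0 : 0 ≤ c := by positivity
  set R₀ := sel S₀ (J₁ ∩ J₂) with hR₀
  -- the inner average
  let h : P → ℝ := fun ω => av fun S' : Fin k → Fin n => Trunc_ind (Ty (J₁ ∪ J₂) (w ω) ∧
    G₂.Min (R₀ ∪ sel S' (J₂ \ J₁)) (full (w ω)))
  have hlhs : (av fun S' : Fin k → Fin n => pr fun ω : P => Ty (J₁ ∪ J₂) (w ω) ∧
      G₁.Min (sel S₀ J₁) (full (w ω)) ∧
      G₂.Min (R₀ ∪ sel S' (J₂ \ J₁)) (full (w ω))) =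
      av fun ω : P => Trunc_ind (G₁.Min (sel S₀ J₁) (full (w ω))) * h ω := by
    simp only [Trunc_pr_eq]
    rw [av_comm]
    refine av_congr fun ω => ?_
    rw [← av_mul_left]
    refine av_congr fun S' => ?_
    by_cases hm : G₁.Min (sel S₀ J₁) (full (w ω))
    · rw [Trunc_ind_of hm, one_mul]
      congr 1
      exact propext ⟨fun ⟨a, _, b⟩ => ⟨a, b⟩, fun ⟨a, b⟩ => ⟨a, hm, b⟩⟩
    · rw [Trunc_ind_of_not hm, zero_mul]
      exact Trunc_ind_of_not fun ⟨_, b, _⟩ => hm b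
  rw [hlhs, Trunc_pr_eq, ← av_mul_left, ← sub_nonpos, ← av_sub]
  refine av_le_of_cells le_rfl (fun ω : P => (fun j => if j ∈ J₁ then w ω j else ⊥ :
    Fin k → E → Bool)) fun κ => ?_
  rcases isEmpty_or_nonempty {ω : P // (fun j => if j ∈ J₁ then w ω j else ⊥ :
    Fin k → E → Bool) = κ} with he | ⟨⟨ω₀, hω₀⟩⟩
  · rw [av_of_isEmpty]
  have hcell : ∀ ω : P, ((fun j => if j ∈ J₁ then w ω j else ⊥ : Fin k → E → Bool) = κ) ↔
      ∀ j ∈ J₁, w ω j = κ j := by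
    intro ω
    constructor
    · intro hq j hj
      have := congrFun hq j
      simpa [hj] using this
    · intro hq
      funext j
      by_cases hj : j ∈ J₁
      · simp [hj, hq j hj]
      · have := congrFun hω₀ j
        simp only [hj, if_false] at this
        simp [hj, ← this]
  -- transport to the cell used in `wlemma`
  let e : {ω : P // ∀ j ∈ J₁, w ω j = κ j} ≃ {ω : P // (fun j => if j ∈ J₁ then w ω j else ⊥ :
    Fin k → E → Bool) = κ} := Equiv.subtypeEquivRight fun ω => (hcell ω).symm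
  rw [← av_equiv e]
  have hconstMin : ∀ ω : {ω : P // ∀ j ∈ J₁, w ω j = κ j},
      G₁.Min (sel S₀ J₁) (full (w ω)) ↔ G₁.Min (sel S₀ J₁) (full κ) := by
    intro ω
    refine Trunc_Min_congr G₁ fun l hl => ?_
    exact ω.2 _ (Trunc_fst_mem_sel hl)
  have hconstTy : ∀ ω : {ω : P // ∀ j ∈ J₁, w ω j = κ j}, Ty J₁ (w ω) ↔ Ty J₁ κ := by
    intro ω
    exact ⟨hTy _ _ _ ω.2, hTy _ _ _ fun j hj => (ω.2 j hj).symm⟩
  have hgoal : ∀ ω : {ω : P // ∀ j ∈ J₁, w ω j = κ j},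
      (Trunc_ind (G₁.Min (sel S₀ J₁) (full (w (e ω)))) * h (e ω) -
        c * Trunc_ind (Ty J₁ (w (e ω)) ∧ G₁.Min (sel S₀ J₁) (full (w (e ω))))) =
      Trunc_ind (Ty J₁ κ ∧ G₁.Min (sel S₀ J₁) (full κ)) * (h ω - c) := by
    intro ω
    have he' : ((e ω : {ω : P // (fun j => if j ∈ J₁ then w ω j else ⊥ :
      Fin k → E → Bool) = κ}) : P) = (ω : P) := rfl
    rw [he']
    by_cases hm : G₁.Min (sel S₀ J₁) (full κ)
    · have hm' := (hconstMin ω).2 hm
      by_cases ht : Ty J₁ κ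
      · have ht' := (hconstTy ω).2 ht
        rw [Trunc_ind_of hm', Trunc_ind_of ⟨ht', hm'⟩, Trunc_ind_of ⟨ht, hm⟩]
        ring
      · have ht' := fun hx => ht ((hconstTy ω).1 hx)
        have h0 : h ω = 0 := by
          have : ∀ S' : Fin k → Fin n, Trunc_ind (Ty (J₁ ∪ J₂) (w ω) ∧
              G₂.Min (R₀ ∪ sel S' (J₂ \ J₁)) (full (w ω))) = 0 := fun S' =>
            Trunc_ind_of_not fun hx => ht' (hTy' _ _ _ subset_union_left hx.1)
          show (av fun S' : Fin k → Fin n => Trunc_ind (Ty (J₁ ∪ J₂) (w ω) ∧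
              G₂.Min (R₀ ∪ sel S' (J₂ \ J₁)) (full (w ω)))) = 0
          rw [av_congr this]
          simp [av]
        rw [h0, Trunc_ind_of_not (fun hx : Ty J₁ (w ω) ∧ _ => ht' hx.1),
          Trunc_ind_of_not (fun hx : Ty J₁ κ ∧ _ => ht hx.1)]
        ring
    · have hm' := fun hx => hm ((hconstMin ω).1 hx)
      rw [Trunc_ind_of_not hm', Trunc_ind_of_not (fun hx : Ty J₁ (w ω) ∧ _ => hm' hx.2),
        Trunc_ind_of_not (fun hx : Ty J₁ κ ∧ _ => hm hx.2)]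
      ring
  rw [av_congr hgoal, av_mul_left]
  refine mul_nonpos_of_nonneg_of_nonpos (Trunc_ind_nonneg _) ?_
  have hne : Nonempty {ω : P // ∀ j ∈ J₁, w ω j = κ j} := ⟨⟨ω₀, (hcell ω₀).1 hω₀⟩⟩
  rw [av_sub, av_const, sub_nonpos]
  -- now use the weight lemma
  have hdisj : Disjoint J₁ (J₂ \ J₁) := disjoint_sdiff
  have hun : J₁ ∪ J₂ \ J₁ = J₁ ∪ J₂ := union_sdiff_self_eq_union
  have hcard : (J₂ \ J₁).card ≤ r := (card_le_card sdiff_subset).trans h2
  have hinter : (J₁ ∩ J₂).card + (J₂ \ J₁).card = J₂.card := by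
    rw [inter_comm, add_comm]; exact card_sdiff_add_card_inter J₂ J₁
  have key := wlemma w Ty (le_trans (Nat.succ_le_succ (Nat.zero_le _)) hn) hp hB hθ hTy hTy' hDom
    hle G₂ hG₂ (J₂ \ J₁) J₁ R₀ hdisj (by omega)
    (fun l hl => (mem_inter.1 (Trunc_fst_mem_sel hl)).1)
    (by rw [hR₀, Trunc_card_sel]; omega) κ
  rw [hun] at key
  refine le_trans (le_of_eq ?_) key
  show (av fun ω : {ω : P // ∀ j ∈ J₁, w ω j = κ j} => av fun S' : Fin k → Fin n =>
    Trunc_ind (Ty (J₁ ∪ J₂) (w ω) ∧ G₂.Min (R₀ ∪ sel S' (J₂ \ J₁)) (full (w ω)))) = _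
  rw [av_comm]
  rfl

theorem trunc
    (w : P → Fin k → E → Bool) (Ty : Finset (Fin k) → (Fin k → E → Bool) → Prop) {θ err : ℝ}
    (hn : p * r + 1 ≤ n) (hp : 1 ≤ p) (hB : 0 < B) (hθ : 0 < θ)
    (hTy : ∀ K κ κ', (∀ j ∈ K, κ j = κ' j) → Ty K κ → Ty K κ')
    (hTy' : ∀ K K' κ, K ⊆ K' → Ty K' κ → Ty K κ)
    (hDom : Dom w Ty B mt r err) (hle : θ ^ mt + err ≤ (1 / (n : ℝ)) ^ r)
    (G₁ G₂ : Fam (Fin k × Fin n) E r) (hG₁ : G₁.Closed B θ p) (hG₂ : G₂.Closed B θ p) :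
    pr (fun q : (Fin k → Fin n) × P =>
      (∀ K : Finset (Fin k), K.card ≤ 2 * r → Ty K (w q.2)) ∧
      ∃ J₁ J₂ : Finset (Fin k), r < (J₁ ∪ J₂).card ∧ G₁.Min (sel q.1 J₁) (full (w q.2)) ∧
        G₂.Min (sel q.1 J₂) (full (w q.2))) ≤
      4 ^ k * (((p * r + 1 : ℕ) : ℝ) / n) ^ (r + 1) := by
  classical
  have hn1 : 1 ≤ n := le_trans (Nat.succ_le_succ (Nat.zero_le _)) hn
  have hn0 : (0 : ℝ) < n := by exact_mod_cast hn1
  set C : ℝ := ((p * r + 1 : ℕ) : ℝ) / n with hC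
  have hC0 : 0 ≤ C := by positivity
  have hC1 : C ≤ 1 := by
    rw [hC, div_le_one hn0]
    exact_mod_cast hn
  -- union bound
  have hub : pr (fun q : (Fin k → Fin n) × P =>
      (∀ K : Finset (Fin k), K.card ≤ 2 * r → Ty K (w q.2)) ∧
      ∃ J₁ J₂ : Finset (Fin k), r < (J₁ ∪ J₂).card ∧ G₁.Min (sel q.1 J₁) (full (w q.2)) ∧
        G₂.Min (sel q.1 J₂) (full (w q.2))) ≤
      ∑ J : Finset (Fin k) × Finset (Fin k), pr (fun q : (Fin k → Fin n) × P =>
        (∀ K : Finset (Fin k), K.card ≤ 2 * r → Ty K (w q.2)) ∧ r < (J.1 ∪ J.2).card ∧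
          G₁.Min (sel q.1 J.1) (full (w q.2)) ∧ G₂.Min (sel q.1 J.2) (full (w q.2))) := by
    refine (pr_mono fun q hq => ?_).trans (pr_exists_le _)
    obtain ⟨ht, J₁, J₂, h⟩ := hq
    exact ⟨(J₁, J₂), ht, h⟩
  refine hub.trans ?_
  have hcardJ : (Fintype.card (Finset (Fin k) × Finset (Fin k)) : ℝ) = 4 ^ k := by
    rw [Fintype.card_prod, Fintype.card_finset, Fintype.card_fin]
    push_cast
    rw [← mul_pow]
    norm_num
  have hall : ∀ J : Finset (Fin k) × Finset (Fin k), pr (fun q : (Fin k → Fin n) × P =>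
        (∀ K : Finset (Fin k), K.card ≤ 2 * r → Ty K (w q.2)) ∧ r < (J.1 ∪ J.2).card ∧
          G₁.Min (sel q.1 J.1) (full (w q.2)) ∧ G₂.Min (sel q.1 J.2) (full (w q.2))) ≤
        C ^ (r + 1) := by
    rintro ⟨J₁, J₂⟩
    dsimp only
    by_cases hr : r < (J₁ ∪ J₂).card
    swap
    · rw [pr_false _ fun q hq => hr hq.2.1]
      positivity
    by_cases h1 : J₁.card ≤ r
    swap
    · rw [pr_false _ fun q hq => h1 (by
        have := G₁.card_le _ _ hq.2.2.1.1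
        rwa [Trunc_card_sel] at this)]
      positivity
    by_cases h2 : J₂.card ≤ r
    swap
    · rw [pr_false _ fun q hq => h2 (by
        have := G₂.card_le _ _ hq.2.2.2.1
        rwa [Trunc_card_sel] at this)]
      positivity
    have hcu : (J₁ ∪ J₂).card ≤ 2 * r := (card_union_le _ _).trans (by omega)
    have hcard : (J₂ \ J₁).card + J₁.card = (J₁ ∪ J₂).card := by
      rw [card_sdiff_add_card, union_comm]
    have e1 : pr (fun q : (Fin k → Fin n) × P =>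
        (∀ K : Finset (Fin k), K.card ≤ 2 * r → Ty K (w q.2)) ∧ r < (J₁ ∪ J₂).card ∧
          G₁.Min (sel q.1 J₁) (full (w q.2)) ∧ G₂.Min (sel q.1 J₂) (full (w q.2))) ≤
        pr (fun q : (Fin k → Fin n) × P => Ty (J₁ ∪ J₂) (w q.2) ∧
          G₁.Min (sel q.1 J₁) (full (w q.2)) ∧ G₂.Min (sel q.1 J₂) (full (w q.2))) :=
      pr_mono fun q hq => ⟨hq.1 _ hcu, hq.2.2⟩
    refine e1.trans ?_
    rw [pr_prod (fun (S : Fin k → Fin n) (ω : P) => Ty (J₁ ∪ J₂) (w ω) ∧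
          G₁.Min (sel S J₁) (full (w ω)) ∧ G₂.Min (sel S J₂) (full (w ω))), av_glue J₁]
    have e2 : ∀ S₀ : Fin k → Fin n, (av fun S' : Fin k → Fin n => pr fun ω : P =>
        Ty (J₁ ∪ J₂) (w ω) ∧ G₁.Min (sel (glue J₁ S₀ S') J₁) (full (w ω)) ∧
          G₂.Min (sel (glue J₁ S₀ S') J₂) (full (w ω))) ≤
        C ^ (J₂ \ J₁).card *
          pr fun ω : P => Ty J₁ (w ω) ∧ G₁.Min (sel S₀ J₁) (full (w ω)) := by
      intro S₀
      refine le_trans (le_of_eq ?_) (Trunc_step w Ty hn hp hB hθ hTy hTy' hDom hle G₁ G₂ hG₂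
        J₁ J₂ h1 h2 S₀)
      refine av_congr fun S' => ?_
      have s1 : sel (glue J₁ S₀ S') J₁ = sel S₀ J₁ :=
        Trunc_sel_congr fun j hj => glue_of_mem hj
      have s2 : sel (glue J₁ S₀ S') J₂ = sel S₀ (J₁ ∩ J₂) ∪ sel S' (J₂ \ J₁) := by
        have : J₂ = (J₁ ∩ J₂) ∪ (J₂ \ J₁) := by
          ext j
          simp only [mem_union, mem_inter, mem_sdiff]
          tauto
        conv_lhs => rw [this]
        rw [Trunc_sel_union]
        congr 1
        · exact Trunc_sel_congr fun j hj => glue_of_mem (mem_inter.1 hj).1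
        · exact Trunc_sel_congr fun j hj => glue_of_notMem (mem_sdiff.1 hj).2
      rw [s1, s2]
    refine (av_mono e2).trans ?_
    rw [av_mul_left]
    have key := wlemma w Ty hn1 hp hB hθ hTy hTy' hDom hle G₁ hG₁ J₁ ∅ ∅ (disjoint_empty_left _)
      (by simp only [card_empty]; omega) (fun l hl => absurd hl (notMem_empty l))
      (by simp only [card_empty]; omega) ⊥
    have e3 : (av fun S : Fin k → Fin n => pr fun ω : P =>
        Ty J₁ (w ω) ∧ G₁.Min (sel S J₁) (full (w ω))) ≤ C ^ J₁.card := by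
      refine le_trans (le_of_eq ?_) key
      refine av_congr fun S => ?_
      let e : {ω : P // ∀ j ∈ (∅ : Finset (Fin k)), w ω j = (⊥ : Fin k → E → Bool) j} ≃ P :=
        Equiv.subtypeUnivEquiv fun ω j hj => absurd hj (notMem_empty j)
      rw [← pr_equiv e]
      simp only [empty_union]
      rfl
    calc C ^ (J₂ \ J₁).card * (av fun S : Fin k → Fin n => pr fun ω : P =>
          Ty J₁ (w ω) ∧ G₁.Min (sel S J₁) (full (w ω)))
        ≤ C ^ (J₂ \ J₁).card * C ^ J₁.card := mul_le_mul_of_nonneg_left e3 (by positivity)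
      _ = C ^ (J₁ ∪ J₂).card := by rw [← pow_add, hcard]
      _ ≤ C ^ (r + 1) := pow_le_pow_of_le_one hC0 hC1 hr
  refine (sum_le_sum fun J _ => hall J).trans ?_
  rw [sum_const, card_univ, nsmul_eq_mul, hcardJ]

end main

end Pool.Agent.W_MP_5f6b2a_mon
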