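import Pool.Agent.W_MP_5f6b2a_mon.Closure
import Pool.Agent.W_MP_5f6b2a_mon.Trunc

/-!
Approximation of monotone straight-line programs by closed families.
-/

namespace Pool.Agent.W_MP_5f6b2a_mon

open Finset

/-- Recursion along `Fin s` for a relation between the earlier values and the new value. -/
theorem exists_rec {s : ℕ} {α : Type*} [Nonempty α] (P : Fin s → (Fin s → α) → α → Prop)
    (hloc : ∀ i G G' g, (∀ j < i, G j = G' j) → P i G g → P i G' g)
    (hex : ∀ i G, (∀ j < i, P j G (G j)) → ∃ g, P i G g) : ∃ G : Fin s → α, ∀ i, P i G (G i) := by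
  have h : ∀ t : ℕ, ∃ G : Fin s → α, ∀ i : Fin s, (i : ℕ) < t → P i G (G i) := by
    intro t
    induction t with
    | zero =>
      obtain ⟨a⟩ := ‹Nonempty α›
      exact ⟨fun _ => a, fun i hi => absurd hi (Nat.not_lt_zero _)⟩
    | succ t ih =>
      obtain ⟨G, hG⟩ := ih
      by_cases ht : t < s
      · obtain ⟨g, hg⟩ := hex ⟨t, ht⟩ G fun j hj => hG j (Fin.lt_def.1 hj)
        refine ⟨Function.update G ⟨t, ht⟩ g, fun i hi => ?_⟩
        have hagree : ∀ j : Fin s, (j : ℕ) < t → Function.update G ⟨t, ht⟩ g j = G j := by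
          intro j hj
          rw [Function.update_of_ne]
          intro h
          rw [h] at hj
          exact lt_irrefl _ hj
        rcases Nat.lt_succ_iff_lt_or_eq.1 hi with h | h
        · rw [hagree i h]
          exact hloc i G _ _ (fun j hj => (hagree j (lt_trans hj h)).symm) (hG i h)
        · have : i = ⟨t, ht⟩ := Fin.ext h
          subst this
          rw [Function.update_self]
          exact hloc _ G _ _ (fun j hj => (hagree j (Fin.lt_def.1 hj)).symm) hg
      · exact ⟨G, fun i _ => hG i (by omega)⟩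
  obtain ⟨G, hG⟩ := h s
  exact ⟨G, fun i => hG i i.2⟩

section fams

variable {ι E : Type} {r : ℕ}

/-- The family of a variable. -/
def Fam.var (hr : 1 ≤ r) (l : ι) (e : E) : Fam ι E r where
  acc R x := R = {l} ∧ x l e = true
  mono R x x' h := by
    rintro ⟨rfl, hx⟩
    refine ⟨rfl, ?_⟩
    have := h l (by simp) e
    rw [hx] at this
    exact top_le_iff.1 this
  card_le R x := by
    rintro ⟨rfl, _⟩
    simpa using hr
  ne_bot R x := by
    rintro ⟨rfl, hx⟩ l' hl' hbot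
    rw [Finset.mem_singleton] at hl'
    subst hl'
    rw [hbot] at hx
    simp at hx

/-- The family of the constant `true`. -/
def Fam.one : Fam ι E r where
  acc R _ := R = ∅
  mono _ _ _ _ h := h
  card_le R x h := by rw [h]; simp
  ne_bot R x h := by rw [h]; simp

/-- The family of the constant `false`. -/
def Fam.zero : Fam ι E r where
  acc _ _ := False
  mono _ _ _ _ h := h
  card_le _ _ h := h.elim
  ne_bot _ _ h := h.elim

/-- The family of a disjunction. -/
def Fam.sup (G₁ G₂ : Fam ι E r) : Fam ι E r where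
  acc R x := G₁.acc R x ∨ G₂.acc R x
  mono R x x' h := Or.imp (G₁.mono R x x' h) (G₂.mono R x x' h)
  card_le R x h := h.elim (G₁.card_le R x) (G₂.card_le R x)
  ne_bot R x h := h.elim (G₁.ne_bot R x) (G₂.ne_bot R x)

/-- The family of a conjunction. -/
def Fam.inf [DecidableEq ι] (G₁ G₂ : Fam ι E r) : Fam ι E r where
  acc R x := R.card ≤ r ∧ ∃ R₁ R₂, R₁ ∪ R₂ = R ∧ G₁.acc R₁ x ∧ G₂.acc R₂ x
  mono R x x' h := by
    rintro ⟨hc, R₁, R₂, rfl, h1, h2⟩
    exact ⟨hc, R₁, R₂, rfl, G₁.mono _ _ _ (fun l hl => h l (by simp [hl])) h1,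
      G₂.mono _ _ _ (fun l hl => h l (by simp [hl])) h2⟩
  card_le R x h := h.1
  ne_bot R x := by
    rintro ⟨_, R₁, R₂, rfl, h1, h2⟩ l hl
    rcases Finset.mem_union.1 hl with h | h
    · exact G₁.ne_bot _ _ h1 l h
    · exact G₂.ne_bot _ _ h2 l h

/-- Minimal accepting sets exist. -/
theorem Fam.exists_min (G : Fam ι E r) {x : ι → E → Bool} (h : G.val x) : ∃ R, G.Min R x := by
  obtain ⟨R, hR⟩ := h
  induction R using Finset.strongInduction with
  | H R ih =>
    by_cases hm : ∃ R', R' ⊂ R ∧ G.acc R' x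
    · obtain ⟨R', h1, h2⟩ := hm
      exact ih R' h1 h2
    · exact ⟨R, hR, fun R' h1 h2 => hm ⟨R', h1, h2⟩⟩

end fams

theorem mem_sel {k n : ℕ} {S : Fin k → Fin n} {J : Finset (Fin k)} {l : Fin k × Fin n} :
    l ∈ sel S J ↔ l.1 ∈ J ∧ l.2 = S l.1 := by
  unfold sel
  rw [Finset.mem_image]
  constructor
  · rintro ⟨j, hj, rfl⟩
    exact ⟨hj, rfl⟩
  · rintro ⟨h1, h2⟩
    exact ⟨l.1, h1, Prod.ext rfl h2.symm⟩

theorem card_sel_le {k n : ℕ} (S : Fin k → Fin n) (J : Finset (Fin k)) :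
    (sel S J).card ≤ J.card := Finset.card_image_le

theorem sel_union {k n : ℕ} (S : Fin k → Fin n) (J₁ J₂ : Finset (Fin k)) :
    sel S J₁ ∪ sel S J₂ = sel S (J₁ ∪ J₂) := by
  unfold sel
  rw [Finset.image_union]

theorem negIn_eq_glue {k n B : ℕ} {E : Type} (S : Fin k → Fin n) (z : Fin k → E → Bool)
    (b : Fin k × Fin n → E → Fin B) :
    negIn S z b = glue (sel S univ) (full z) (nul b) := by
  funext l
  unfold negIn glue full
  by_cases h : l.2 = S l.1
  · rw [if_pos h, if_pos (mem_sel.2 ⟨Finset.mem_univ _, h⟩)]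
  · rw [if_neg h, if_neg fun hm => h (mem_sel.1 hm).2]

/-- On positive inputs, minimal accepting sets are of the form `sel S J`. -/
theorem min_posIn {k n r : ℕ} {E : Type} (G : Fam (Fin k × Fin n) E r) (S : Fin k → Fin n)
    (z : Fin k → E → Bool) {R : Finset (Fin k × Fin n)} (h : G.Min R (posIn S z)) :
    ∃ J : Finset (Fin k), R = sel S J ∧ G.Min (sel S J) (full z) := by
  have hl : ∀ l ∈ R, l.2 = S l.1 := by
    intro l hl
    by_contra hne
    refine G.ne_bot _ _ h.1 l hl ?_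
    unfold posIn
    rw [if_neg hne]
  have hx : ∀ l ∈ R, posIn S z l = full z l := by
    intro l hlR
    unfold posIn full
    rw [if_pos (hl l hlR)]
  have hR : R = sel S (R.image Prod.fst) := by
    ext l
    rw [mem_sel, Finset.mem_image]
    constructor
    · intro hlR
      exact ⟨⟨l, hlR, rfl⟩, hl l hlR⟩
    · rintro ⟨⟨l', hl', h1⟩, h2⟩
      have : l = l' := by
        refine Prod.ext h1.symm ?_
        rw [h2, hl l' hl', h1]
      rw [this]; exact hl'
  refine ⟨R.image Prod.fst, hR, ?_⟩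
  rw [← hR]
  refine ⟨G.mono _ _ _ (fun l hlR => (hx l hlR).le) h.1, fun R' hR' hacc => h.2 R' hR' ?_⟩
  exact G.mono _ _ _ (fun l hlR => (hx l (hR'.1 hlR)).ge) hacc

theorem approx {k n r B mt p : ℕ} {E P : Type} [Fintype E] [DecidableEq E] [Fintype P]
    [Nonempty P]
    (w : P → Fin k → E → Bool) (Ty : Finset (Fin k) → (Fin k → E → Bool) → Prop) {θ err : ℝ}
    (hr : 1 ≤ r) (hn : p * r + 1 ≤ n) (hp : 1 ≤ p) (hB : 0 < B) (hθ : 0 < θ) (hθ1 : θ ≤ 1)
    (hTy : ∀ K κ κ', (∀ j ∈ K, κ j = κ' j) → Ty K κ → Ty K κ')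
    (hTy' : ∀ K K' κ, K ⊆ K' → Ty K' κ → Ty K κ)
    (hDom : Dom w Ty B mt r err) (hle : θ ^ mt + err ≤ (1 / (n : ℝ)) ^ r)
    {s : ℕ} (f : Fin s → (Fin k × Fin n → E → Bool) → Prop) (hf : SProg f) :
    ∃ G : Fin s → Fam (Fin k × Fin n) E r,
      pr (fun q : (Fin k → Fin n) × P =>
        (∀ K : Finset (Fin k), K.card ≤ 2 * r → Ty K (w q.2)) ∧
        ∃ i, f i (posIn q.1 (w q.2)) ∧ ¬ (G i).val (posIn q.1 (w q.2))) ≤
        s * (4 ^ k * (((p * r + 1 : ℕ) : ℝ) / n) ^ (r + 1)) ∧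
      ∀ (S : Fin k → Fin n) (z : Fin k → E → Bool),
        pr (fun b : Fin k × Fin n → E → Fin B =>
          ∃ i, (G i).val (negIn S z b) ∧ ¬ f i (negIn S z b)) ≤
          s * ((((k * n : ℕ) : ℝ) + 1) ^ r * (1 - θ) ^ (p - k)) := by
  classical
  set e1 : ℝ := 4 ^ k * (((p * r + 1 : ℕ) : ℝ) / n) ^ (r + 1) with he1
  set e2 : ℝ := (((k * n : ℕ) : ℝ) + 1) ^ r * (1 - θ) ^ (p - k) with he2
  have he1' : 0 ≤ e1 := by positivity
  -- the local properties
  let P' : Fin s → (Fin s → Fam (Fin k × Fin n) E r) → Fam (Fin k × Fin n) E r → Prop :=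
    fun i G g => g.Closed B θ p ∧
      pr (fun q : (Fin k → Fin n) × P =>
        (∀ K : Finset (Fin k), K.card ≤ 2 * r → Ty K (w q.2)) ∧
        (∀ j < i, f j (posIn q.1 (w q.2)) → (G j).val (posIn q.1 (w q.2))) ∧
        f i (posIn q.1 (w q.2)) ∧ ¬ g.val (posIn q.1 (w q.2))) ≤ e1 ∧
      ∀ (S : Fin k → Fin n) (z : Fin k → E → Bool),
        pr (fun b : Fin k × Fin n → E → Fin B =>
          (∀ j < i, (G j).val (negIn S z b) → f j (negIn S z b)) ∧
          g.val (negIn S z b) ∧ ¬ f i (negIn S z b)) ≤ e2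
  have hne : Nonempty (Fam (Fin k × Fin n) E r) := ⟨Fam.zero⟩
  have hstep : ∀ i G, (∀ j < i, P' j G (G j)) → ∃ g, P' i G g := by
    intro i G hG
    -- closure of a family `H`
    have key : ∀ H : Fam (Fin k × Fin n) E r,
        pr (fun q : (Fin k → Fin n) × P =>
          (∀ K : Finset (Fin k), K.card ≤ 2 * r → Ty K (w q.2)) ∧
          (∀ j < i, f j (posIn q.1 (w q.2)) → (G j).val (posIn q.1 (w q.2))) ∧
          f i (posIn q.1 (w q.2)) ∧ ¬ H.val (posIn q.1 (w q.2))) ≤ e1 →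
        (∀ x, (∀ j < i, (G j).val x → f j x) → H.val x → f i x) → ∃ g, P' i G g := by
      intro H h1 h2
      obtain ⟨H', hc, hsup, hneg⟩ := Fam.exists_closure B p hB hθ hθ1 hp H
      refine ⟨H', hc, (pr_mono ?_).trans h1, ?_⟩
      · rintro q ⟨a, b, c, d⟩
        exact ⟨a, b, c, fun ⟨R, hR⟩ => d ⟨R, hsup R _ hR⟩⟩
      · intro S z
        have := hneg k (sel S univ) ((card_sel_le S univ).trans (by simp)) (full z)
        rw [Fintype.card_prod, Fintype.card_fin, Fintype.card_fin] at this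
        refine le_trans (pr_mono ?_) this
        rintro b ⟨a, c, d⟩
        rw [negIn_eq_glue] at a c d
        exact ⟨c, fun hH => d (h2 _ a hH)⟩
    rcases hf i with ⟨l, e, hle'⟩ | htrue | hfalse | ⟨j, j', hj, hj', hand⟩ | ⟨j, j', hj, hj', hor⟩
    · refine key (Fam.var hr l e) ?_ ?_
      · rw [pr_false]
        · exact he1'
        · rintro q ⟨_, _, h1, h2⟩
          exact h2 ⟨{l}, rfl, (hle' _).1 h1⟩
      · rintro x _ ⟨R, _, h⟩
        exact (hle' x).2 h
    · refine key Fam.one ?_ fun x _ _ => htrue x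
      rw [pr_false]
      · exact he1'
      · rintro q ⟨_, _, h1, h2⟩
        exact h2 ⟨∅, rfl⟩
    · refine key Fam.zero ?_ ?_
      · rw [pr_false]
        · exact he1'
        · rintro q ⟨_, _, h1, _⟩
          exact hfalse _ h1
      · rintro x _ ⟨R, h⟩
        exact h.elim
    · refine key (Fam.inf (G j) (G j')) ?_ ?_
      · refine le_trans (pr_mono ?_) (trunc w Ty hn hp hB hθ hTy hTy' hDom hle (G j) (G j')
          (hG j hj).1 (hG j' hj').1)
        rintro ⟨S, ω⟩ ⟨h1, h2, h3, h4⟩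
        refine ⟨h1, ?_⟩
        have h5 := (hand _).1 h3
        obtain ⟨R₁, hR₁⟩ := (G j).exists_min (h2 j hj h5.1)
        obtain ⟨R₂, hR₂⟩ := (G j').exists_min (h2 j' hj' h5.2)
        obtain ⟨J₁, hJ₁, hm₁⟩ := min_posIn (G j) S (w ω) hR₁
        obtain ⟨J₂, hJ₂, hm₂⟩ := min_posIn (G j') S (w ω) hR₂
        refine ⟨J₁, J₂, ?_, hm₁, hm₂⟩
        by_contra hc
        apply h4
        refine ⟨R₁ ∪ R₂, ?_, R₁, R₂, rfl, hR₁.1, hR₂.1⟩
        rw [hJ₁, hJ₂, sel_union]
        exact (card_sel_le _ _).trans (not_lt.1 hc)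
      · rintro x hx ⟨R, _, R₁, R₂, _, h1, h2⟩
        exact (hand x).2 ⟨hx j hj ⟨R₁, h1⟩, hx j' hj' ⟨R₂, h2⟩⟩
    · refine key (Fam.sup (G j) (G j')) ?_ ?_
      · rw [pr_false]
        · exact he1'
        · rintro q ⟨_, h0, h1, h2⟩
          apply h2
          rcases (hor _).1 h1 with h | h
          · obtain ⟨R, hR⟩ := h0 j hj h
            exact ⟨R, Or.inl hR⟩
          · obtain ⟨R, hR⟩ := h0 j' hj' h
            exact ⟨R, Or.inr hR⟩
      · rintro x hx ⟨R, h | h⟩
        · exact (hor x).2 (Or.inl (hx j hj ⟨R, h⟩))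
        · exact (hor x).2 (Or.inr (hx j' hj' ⟨R, h⟩))
  have hloc : ∀ i G G' g, (∀ j < i, G j = G' j) → P' i G g → P' i G' g := by
    intro i G G' g hGG' hP
    obtain ⟨h1, h2, h3⟩ := hP
    refine ⟨h1, le_trans (pr_mono ?_) h2, fun S z => le_trans (pr_mono ?_) (h3 S z)⟩
    · rintro q ⟨a, b, c⟩
      exact ⟨a, fun j hj hfj => by rw [hGG' j hj]; exact b j hj hfj, c⟩
    · rintro b ⟨a, c⟩
      exact ⟨fun j hj hfj => a j hj (by rw [← hGG' j hj]; exact hfj), c⟩
  obtain ⟨G, hG⟩ := exists_rec P' hloc hstep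
  refine ⟨G, ?_, ?_⟩
  · calc _ ≤ pr (fun q : (Fin k → Fin n) × P => ∃ i : Fin s,
          (∀ K : Finset (Fin k), K.card ≤ 2 * r → Ty K (w q.2)) ∧
          (∀ j < i, f j (posIn q.1 (w q.2)) → (G j).val (posIn q.1 (w q.2))) ∧
          f i (posIn q.1 (w q.2)) ∧ ¬ (G i).val (posIn q.1 (w q.2))) := by
          apply pr_mono
          rintro q ⟨hty, hex⟩
          obtain ⟨i, hi, hmin⟩ := WellFounded.has_min (wellFounded_lt (α := Fin s))
            {i | f i (posIn q.1 (w q.2)) ∧ ¬ (G i).val (posIn q.1 (w q.2))} hex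
          refine ⟨i, hty, fun j hj hfj => ?_, hi.1, hi.2⟩
          by_contra hc
          exact hmin j ⟨hfj, hc⟩ hj
      _ ≤ ∑ _i : Fin s, e1 := (pr_exists_le _).trans (Finset.sum_le_sum fun i _ => (hG i).2.1)
      _ = s * e1 := by simp
  · intro S z
    calc _ ≤ pr (fun b : Fin k × Fin n → E → Fin B => ∃ i : Fin s,
          (∀ j < i, (G j).val (negIn S z b) → f j (negIn S z b)) ∧
          (G i).val (negIn S z b) ∧ ¬ f i (negIn S z b)) := by
          apply pr_mono
          rintro b hex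
          obtain ⟨i, hi, hmin⟩ := WellFounded.has_min (wellFounded_lt (α := Fin s))
            {i | (G i).val (negIn S z b) ∧ ¬ f i (negIn S z b)} hex
          refine ⟨i, fun j hj hfj => ?_, hi.1, hi.2⟩
          by_contra hc
          exact hmin j ⟨hfj, hc⟩ hj
      _ ≤ ∑ _i : Fin s, e2 := (pr_exists_le _).trans (Finset.sum_le_sum fun i _ => (hG i).2.2 S z)
      _ = s * e2 := by simp

end Pool.Agent.W_MP_5f6b2a_mon
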