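import Mathlib

/-!
Perfect hash families.
-/

namespace Pool.Agent.W_MP_5f6b2a_mon

open Finset

/-- Few maps identify two given points. -/
theorem Hash_pair {N c : ℕ} (i j : Fin N) (hij : i ≠ j) :
    c * (univ.filter fun h : Fin N → Fin c => h i = h j).card ≤ c ^ N := by
  classical
  have h1 : ((univ : Finset (Fin c)) ×ˢ
      (univ.filter fun h : Fin N → Fin c => h i = h j)).card ≤
      (univ : Finset (Fin N → Fin c)).card := by
    refine Finset.card_le_card_of_injOn (fun p => Function.update p.2 j p.1)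
      (fun _ _ => Finset.mem_coe.2 (Finset.mem_univ _)) ?_
    rintro ⟨x, h⟩ hp ⟨x', h'⟩ hp' he
    simp only [Finset.coe_product, Finset.coe_univ, Set.mem_prod, Set.mem_univ, true_and,
      Finset.coe_filter, Finset.mem_univ, Set.mem_ofPred_eq] at hp hp'
    simp only at he
    have hx : x = x' := by
      have := congrFun he j
      simpa using this
    have hk : ∀ k, k ≠ j → h k = h' k := by
      intro k hkj
      have := congrFun he k
      simpa [Function.update_of_ne hkj] using this
    have hh : h = h' := by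
      funext k
      by_cases hkj : k = j
      · subst hkj
        rw [← hp, ← hp', hk i hij]
      · exact hk k hkj
    rw [hx, hh]
  rw [Finset.card_product, Finset.card_univ, Finset.card_univ, Fintype.card_fin,
    Fintype.card_fun, Fintype.card_fin, Fintype.card_fin] at h1
  exact h1

open Classical in
/-- At most half of the maps are not injective on a given set of size `k'`. -/
theorem Hash_bad {N : ℕ} (k' : ℕ) (S : Finset (Fin N)) (hS : S.card = k') :
    2 * (univ.filter fun h : Fin N → Fin (k' ^ 2 + 1) => ¬ Set.InjOn h S).card ≤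
      (k' ^ 2 + 1) ^ N := by
  set c := k' ^ 2 + 1 with hc
  have h1 : ∀ h ∈ (univ.filter fun h : Fin N → Fin c => ¬ Set.InjOn h S),
      2 ≤ (S.offDiag.filter fun p => h p.1 = h p.2).card := by
    intro h hh
    have hh' := (Finset.mem_filter.1 hh).2
    unfold Set.InjOn at hh'
    push Not at hh'
    obtain ⟨i, hi, j, hj, hij, hne⟩ := hh'
    have hsub : ({(i, j), (j, i)} : Finset (Fin N × Fin N)) ⊆
        S.offDiag.filter fun p => h p.1 = h p.2 := by
      intro p hp
      rw [Finset.mem_insert, Finset.mem_singleton] at hp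
      rcases hp with rfl | rfl
      · exact Finset.mem_filter.2 ⟨Finset.mem_offDiag.2 ⟨hi, hj, hne⟩, hij⟩
      · exact Finset.mem_filter.2 ⟨Finset.mem_offDiag.2 ⟨hj, hi, hne.symm⟩, hij.symm⟩
    have hcard : ({(i, j), (j, i)} : Finset (Fin N × Fin N)).card = 2 := by
      rw [Finset.card_pair]
      intro he
      exact hne (Prod.ext_iff.1 he).1
    rw [← hcard]
    exact Finset.card_le_card hsub
  have h2 : 2 * (univ.filter fun h : Fin N → Fin c => ¬ Set.InjOn h S).card ≤
      ∑ p ∈ S.offDiag, (univ.filter fun h : Fin N → Fin c => h p.1 = h p.2).card := by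
    have e1 : ∑ p ∈ S.offDiag, (univ.filter fun h : Fin N → Fin c => h p.1 = h p.2).card =
        ∑ h : Fin N → Fin c, (S.offDiag.filter fun p => h p.1 = h p.2).card := by
      simp only [Finset.card_filter]
      rw [Finset.sum_comm]
    rw [e1, mul_comm, ← smul_eq_mul]
    refine (Finset.card_nsmul_le_sum _ _ 2 h1).trans ?_
    exact Finset.sum_le_sum_of_subset (Finset.filter_subset _ _)
  have h3 : c * ∑ p ∈ S.offDiag, (univ.filter fun h : Fin N → Fin c => h p.1 = h p.2).card ≤
      c * c ^ N := by
    rw [Finset.mul_sum]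
    calc ∑ p ∈ S.offDiag, c * (univ.filter fun h : Fin N → Fin c => h p.1 = h p.2).card
        ≤ ∑ _p ∈ S.offDiag, c ^ N :=
          Finset.sum_le_sum fun p hp => Hash_pair p.1 p.2 (Finset.mem_offDiag.1 hp).2.2
      _ = S.offDiag.card * c ^ N := by rw [Finset.sum_const, smul_eq_mul]
      _ ≤ c * c ^ N := by
          apply Nat.mul_le_mul_right
          rw [Finset.offDiag_card, hS, hc]
          have : k' * k' - k' ≤ k' * k' := Nat.sub_le _ _
          nlinarith
  have hcpos : 0 < c := by omega
  exact h2.trans (Nat.le_of_mul_le_mul_left h3 hcpos)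

open Classical in
/-- For every family of `k'`-sets some map is injective on at least half of it. -/
theorem Hash_half {N : ℕ} (k' : ℕ) (F : Finset (Finset (Fin N)))
    (hF : ∀ S ∈ F, S.card = k') : ∃ h : Fin N → Fin (k' ^ 2 + 1),
      2 * (F.filter fun S : Finset (Fin N) => ¬ Set.InjOn h (S : Set (Fin N))).card ≤ F.card := by
  by_contra hcon
  push Not at hcon
  set c := k' ^ 2 + 1 with hc
  have h1 : ∑ _h : Fin N → Fin c, F.card <
      ∑ h : Fin N → Fin c, 2 * (F.filter fun S : Finset (Fin N) => ¬ Set.InjOn h (S : Set (Fin N))).card := by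
    have : Nonempty (Fin N → Fin c) := ⟨fun _ => ⟨0, by omega⟩⟩
    exact Finset.sum_lt_sum_of_nonempty Finset.univ_nonempty fun h _ => hcon h
  have h2 : ∑ h : Fin N → Fin c, 2 * (F.filter fun S : Finset (Fin N) => ¬ Set.InjOn h (S : Set (Fin N))).card =
      ∑ S ∈ F, 2 * (univ.filter fun h : Fin N → Fin c => ¬ Set.InjOn h S).card := by
    rw [← Finset.mul_sum, ← Finset.mul_sum]
    congr 1
    simp only [Finset.card_filter]
    rw [Finset.sum_comm]
  have h3 : ∑ S ∈ F, 2 * (univ.filter fun h : Fin N → Fin c => ¬ Set.InjOn h S).card ≤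
      ∑ _S ∈ F, c ^ N := Finset.sum_le_sum fun S hS => Hash_bad k' S (hF S hS)
  rw [h2] at h1
  have h4 := h1.trans_le h3
  rw [Finset.sum_const, Finset.sum_const, Finset.card_univ, Fintype.card_fun, Fintype.card_fin,
    Fintype.card_fin, smul_eq_mul, smul_eq_mul, mul_comm] at h4
  exact lt_irrefl _ h4

theorem Hash_step {N : ℕ} (k' : ℕ) : ∀ (n : ℕ) (F : Finset (Finset (Fin N))),
    (∀ S ∈ F, S.card = k') → F.card < 2 ^ n →
    ∃ H : Fin n → Fin N → Fin (k' ^ 2 + 1), ∀ S ∈ F, ∃ a, Set.InjOn (H a) S := by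
  classical
  intro n
  induction n with
  | zero =>
    intro F hF hc
    have : F = ∅ := by
      rw [← Finset.card_eq_zero]
      simpa using hc
    subst this
    exact ⟨fun a => a.elim0, by simp⟩
  | succ n ih =>
    intro F hF hc
    obtain ⟨h, hh⟩ := Hash_half k' F hF
    have h1 : (F.filter fun S : Finset (Fin N) => ¬ Set.InjOn h (S : Set (Fin N))).card < 2 ^ n := by
      rw [pow_succ] at hc
      omega
    obtain ⟨H, hH⟩ := ih (F.filter fun S : Finset (Fin N) => ¬ Set.InjOn h (S : Set (Fin N)))
      (fun S hS => hF S (Finset.mem_filter.1 hS).1) h1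
    refine ⟨Fin.cons h H, ?_⟩
    intro S hS
    by_cases hi : Set.InjOn h S
    · exact ⟨0, by simpa using hi⟩
    · obtain ⟨a, ha⟩ := hH S (Finset.mem_filter.2 ⟨hS, hi⟩)
      exact ⟨a.succ, by simpa using ha⟩

/-- There are `O(k' N)` maps from `Fin N` to a set of `k' ^ 2 + 1` colours such that every
`k'`-element set is mapped injectively by one of them. -/
theorem exists_hash (k' N : ℕ) :
    ∃ (L : ℕ) (H : Fin L → Fin N → Fin (k' ^ 2 + 1)), L ≤ N + 1 ∧
      ∀ S : Finset (Fin N), S.card = k' → ∃ a, Set.InjOn (H a) S := by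
  classical
  obtain ⟨H, hH⟩ := Hash_step k' (N + 1) ((univ : Finset (Finset (Fin N))).filter
    fun S => S.card = k') (fun S hS => (Finset.mem_filter.1 hS).2) (by
      refine (Finset.card_le_card (Finset.filter_subset _ _)).trans_lt ?_
      rw [Finset.card_univ, Fintype.card_finset, Fintype.card_fin]
      exact Nat.pow_lt_pow_right (by norm_num) (Nat.lt_succ_self N))
  exact ⟨N + 1, H, le_rfl, fun S hS => hH S (Finset.mem_filter.2 ⟨Finset.mem_univ _, hS⟩)⟩

end Pool.Agent.W_MP_5f6b2a_mon
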