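import Pool.Agent.W_MP_5f6b2a_mon.Core

/-!
Levelled combinations: monotonicity, pull-back, closure properties.
-/

namespace Pool.Agent.W_MP_5f6b2a_mon

open Finset

variable {Z Z' : Type}

theorem Lv.congr {𝓑 : (Z → Prop) → Prop} {M w : ℕ} {b : Bool} {f g : Z → Prop}
    (h : Lv 𝓑 M w b f) (hfg : ∀ z, f z ↔ g z) : Lv 𝓑 M w b g := by
  have : f = g := funext fun z => propext (hfg z)
  rwa [← this]

theorem JnOf.congr {𝓡 : (Z → Prop) → Prop} {e : ℕ} {f g : Z → Prop}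
    (h : JnOf 𝓡 e f) (hfg : ∀ z, f z ↔ g z) : JnOf 𝓡 e g := by
  have : f = g := funext fun z => propext (hfg z)
  rwa [← this]

/-- Pull back along a map. -/
theorem Lv.pull {𝓑 : (Z → Prop) → Prop} {𝓑' : (Z' → Prop) → Prop} (π : Z' → Z)
    (h𝓑 : ∀ f, 𝓑 f → 𝓑' fun z => f (π z)) {M w : ℕ} {b : Bool} {f : Z → Prop}
    (h : Lv 𝓑 M w b f) : Lv 𝓑' M w b fun z => f (π z) := by
  induction w generalizing b f with
  | zero => exact h𝓑 f h
  | succ w ih =>
    cases b with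
    | true =>
      obtain ⟨g, hg, hfg⟩ := h
      exact ⟨fun i z => g i (π z), fun i => ih (hg i), fun z => hfg (π z)⟩
    | false =>
      obtain ⟨g, hg, hfg⟩ := h
      exact ⟨fun i z => g i (π z), fun i => ih (hg i), fun z => hfg (π z)⟩

theorem JnOf.pull {𝓡 : (Z → Prop) → Prop} {𝓡' : (Z' → Prop) → Prop} (π : Z' → Z)
    (h𝓡 : ∀ f, 𝓡 f → 𝓡' fun z => f (π z)) {e : ℕ} {f : Z → Prop}
    (h : JnOf 𝓡 e f) : JnOf 𝓡' e fun z => f (π z) := by
  obtain ⟨F, β, hF, hβ, h⟩ := h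
  exact ⟨fun c z => F c (π z), β, fun c => h𝓡 _ (hF c), hβ, fun z => h (π z)⟩

/-- Levelled combinations of monotone functions are monotone. -/
theorem Lv.monotone [Preorder Z] {𝓑 : (Z → Prop) → Prop} (h𝓑 : ∀ f, 𝓑 f → Monotone f) {M w : ℕ}
    {b : Bool} {f : Z → Prop} (h : Lv 𝓑 M w b f) : Monotone f := by
  induction w generalizing b f with
  | zero => exact h𝓑 f h
  | succ w ih =>
    cases b with
    | true =>
      obtain ⟨g, hg, hfg⟩ := h
      intro x y hxy hx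
      exact (hfg y).2 fun i => ih (hg i) hxy ((hfg x).1 hx i)
    | false =>
      obtain ⟨g, hg, hfg⟩ := h
      intro x y hxy hx
      obtain ⟨i, hi⟩ := (hfg x).1 hx
      exact (hfg y).2 ⟨i, ih (hg i) hxy hi⟩

theorem JnOf.monotone [Preorder Z] {𝓡 : (Z → Prop) → Prop} (h𝓡 : ∀ f, 𝓡 f → Monotone f) {e : ℕ}
    {f : Z → Prop} (h : JnOf 𝓡 e f) : Monotone f := by
  obtain ⟨F, β, hF, hβ, h⟩ := h
  intro x y hxy hx
  exact (h y).2 (hβ (fun c => h𝓡 _ (hF c) hxy) ((h x).1 hx))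

theorem LvLemmas_surj {M M' : ℕ} (hM : 1 ≤ M) (hMM : M ≤ M') :
    ∃ e : Fin M' → Fin M, Function.Surjective e := by
  refine ⟨fun i => if h : (i : ℕ) < M then ⟨i, h⟩ else ⟨0, hM⟩, fun j => ?_⟩
  refine ⟨⟨j, j.2.trans_le hMM⟩, ?_⟩
  simp

/-- Larger fan-in. -/
theorem Lv.mono {𝓑 : (Z → Prop) → Prop} {M M' w : ℕ} (hM : 1 ≤ M) (hMM : M ≤ M') {b : Bool}
    {f : Z → Prop} (h : Lv 𝓑 M w b f) : Lv 𝓑 M' w b f := by
  obtain ⟨e, he⟩ := LvLemmas_surj hM hMM
  induction w generalizing b f with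
  | zero => exact h
  | succ w ih =>
    cases b with
    | true =>
      obtain ⟨g, hg, hfg⟩ := h
      exact ⟨fun i => g (e i), fun i => ih (hg _), fun z => (hfg z).trans he.forall⟩
    | false =>
      obtain ⟨g, hg, hfg⟩ := h
      exact ⟨fun i => g (e i), fun i => ih (hg _), fun z => (hfg z).trans he.exists⟩

theorem JnOf.mono {𝓡 : (Z → Prop) → Prop} (h𝓡 : ∃ f, 𝓡 f) {e e' : ℕ} (he : e ≤ e')
    {f : Z → Prop} (h : JnOf 𝓡 e f) : JnOf 𝓡 e' f := by
  obtain ⟨f₀, hf₀⟩ := h𝓡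
  obtain ⟨F, β, hF, hβ, h⟩ := h
  refine ⟨fun c => if hc : (c : ℕ) < e then F ⟨c, hc⟩ else f₀,
    fun v => β fun c => v (Fin.castLE he c), ?_, ?_, ?_⟩
  · intro c
    by_cases hc : (c : ℕ) < e
    · simp only [hc, dif_pos]; exact hF _
    · simp only [hc, dif_neg, not_false_eq_true]; exact hf₀
  · intro v v' hv
    exact hβ fun c => hv (Fin.castLE he c)
  · intro z
    rw [h z]
    simp

theorem JnOf.and {𝓡 : (Z → Prop) → Prop} {e e' : ℕ} {f g : Z → Prop} (hf : JnOf 𝓡 e f)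
    (hg : JnOf 𝓡 e' g) : JnOf 𝓡 (e + e') fun z => f z ∧ g z := by
  obtain ⟨F, β, hF, hβ, h⟩ := hf
  obtain ⟨F', β', hF', hβ', h'⟩ := hg
  refine ⟨Fin.append F F', fun v => β (fun c => v (Fin.castAdd e' c)) ∧
    β' (fun c => v (Fin.natAdd e c)), ?_, ?_, ?_⟩
  · intro c
    refine Fin.addCases (fun c => ?_) (fun c => ?_) c
    · rw [Fin.append_left]; exact hF c
    · rw [Fin.append_right]; exact hF' c
  · intro v v' hv hh
    exact ⟨hβ (fun c => hv _) hh.1, hβ' (fun c => hv _) hh.2⟩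
  · intro z
    simp only [Fin.append_left, Fin.append_right]
    rw [h z, h' z]

theorem JnOf.or {𝓡 : (Z → Prop) → Prop} {e e' : ℕ} {f g : Z → Prop} (hf : JnOf 𝓡 e f)
    (hg : JnOf 𝓡 e' g) : JnOf 𝓡 (e + e') fun z => f z ∨ g z := by
  obtain ⟨F, β, hF, hβ, h⟩ := hf
  obtain ⟨F', β', hF', hβ', h'⟩ := hg
  refine ⟨Fin.append F F', fun v => β (fun c => v (Fin.castAdd e' c)) ∨
    β' (fun c => v (Fin.natAdd e c)), ?_, ?_, ?_⟩
  · intro c
    refine Fin.addCases (fun c => ?_) (fun c => ?_) c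
    · rw [Fin.append_left]; exact hF c
    · rw [Fin.append_right]; exact hF' c
  · intro v v' hv hh
    rcases hh with hh | hh
    · exact Or.inl (hβ (fun c => hv _) hh)
    · exact Or.inr (hβ' (fun c => hv _) hh)
  · intro z
    simp only [Fin.append_left, Fin.append_right]
    rw [h z, h' z]

theorem JnOf.const {𝓡 : (Z → Prop) → Prop} (p : Prop) : JnOf 𝓡 0 fun _ : Z => p :=
  ⟨fun c => c.elim0, fun _ => p, fun c => c.elim0, fun _ _ _ h => h, fun _ => Iff.rfl⟩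

/-- Conjunctions over a finite type. -/
theorem JnOf.forall {𝓡 : (Z → Prop) → Prop} {κ : Type} [Fintype κ] {f : κ → Z → Prop}
    (hf : ∀ i, 𝓡 (f i)) : JnOf 𝓡 (Fintype.card κ) fun z => ∀ i, f i z := by
  refine ⟨fun c => f ((Fintype.equivFin κ).symm c), fun v => ∀ c, v c, fun c => hf _, ?_, ?_⟩
  · intro v v' hv hh c
    exact hv c (hh c)
  · intro z
    exact ((Fintype.equivFin κ).symm.surjective.forall)

/-- Disjunctions over a finite type. -/
theorem JnOf.exists {𝓡 : (Z → Prop) → Prop} {κ : Type} [Fintype κ] {f : κ → Z → Prop}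
    (hf : ∀ i, 𝓡 (f i)) : JnOf 𝓡 (Fintype.card κ) fun z => ∃ i, f i z := by
  refine ⟨fun c => f ((Fintype.equivFin κ).symm c), fun v => ∃ c, v c, fun c => hf _, ?_, ?_⟩
  · rintro v v' hv ⟨c, hc⟩
    exact ⟨c, hv c hc⟩
  · intro z
    exact ((Fintype.equivFin κ).symm.surjective.exists)

theorem Lv.and {𝓡 : (Z → Prop) → Prop} {M w e : ℕ} (hM : 1 ≤ M) {b : Bool} {f g : Z → Prop}
    (hf : Lv (JnOf 𝓡 e) M w b f) (hg : Lv (JnOf 𝓡 e) M w b g) :
    Lv (JnOf 𝓡 (e + e)) (M * M) w b fun z => f z ∧ g z := by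
  have i₀ : Fin M := ⟨0, hM⟩
  induction w generalizing b f g with
  | zero => exact JnOf.and hf hg
  | succ w ih =>
    cases b with
    | true =>
      obtain ⟨f', hf', hff⟩ := hf
      obtain ⟨g', hg', hgg⟩ := hg
      refine ⟨fun k z => f' (finProdFinEquiv.symm k).1 z ∧ g' (finProdFinEquiv.symm k).2 z,
        fun k => ih (hf' _) (hg' _), fun z => ?_⟩
      beta_reduce
      rw [hff z, hgg z]
      constructor
      · intro h k
        exact ⟨h.1 _, h.2 _⟩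
      · intro h
        refine ⟨fun i => ?_, fun i => ?_⟩
        · have := (h (finProdFinEquiv (i, i₀))).1
          simpa using this
        · have := (h (finProdFinEquiv (i₀, i))).2
          simpa using this
    | false =>
      obtain ⟨f', hf', hff⟩ := hf
      obtain ⟨g', hg', hgg⟩ := hg
      refine ⟨fun k z => f' (finProdFinEquiv.symm k).1 z ∧ g' (finProdFinEquiv.symm k).2 z,
        fun k => ih (hf' _) (hg' _), fun z => ?_⟩
      beta_reduce
      rw [hff z, hgg z]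
      constructor
      · rintro ⟨⟨i, hi⟩, ⟨j, hj⟩⟩
        refine ⟨finProdFinEquiv (i, j), ?_⟩
        simp [hi, hj]
      · rintro ⟨k, hk⟩
        exact ⟨⟨_, hk.1⟩, ⟨_, hk.2⟩⟩

theorem Lv.or {𝓡 : (Z → Prop) → Prop} {M w e : ℕ} (hM : 1 ≤ M) {b : Bool} {f g : Z → Prop}
    (hf : Lv (JnOf 𝓡 e) M w b f) (hg : Lv (JnOf 𝓡 e) M w b g) :
    Lv (JnOf 𝓡 (e + e)) (M * M) w b fun z => f z ∨ g z := by
  have i₀ : Fin M := ⟨0, hM⟩
  induction w generalizing b f g with
  | zero => exact JnOf.or hf hg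
  | succ w ih =>
    cases b with
    | true =>
      obtain ⟨f', hf', hff⟩ := hf
      obtain ⟨g', hg', hgg⟩ := hg
      refine ⟨fun k z => f' (finProdFinEquiv.symm k).1 z ∨ g' (finProdFinEquiv.symm k).2 z,
        fun k => ih (hf' _) (hg' _), fun z => ?_⟩
      beta_reduce
      rw [hff z, hgg z]
      constructor
      · rintro (h | h) k
        · exact Or.inl (h _)
        · exact Or.inr (h _)
      · intro h
        by_contra hcon
        push Not at hcon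
        obtain ⟨⟨i, hi⟩, ⟨j, hj⟩⟩ := hcon
        have := h (finProdFinEquiv (i, j))
        simp [hi, hj] at this
    | false =>
      obtain ⟨f', hf', hff⟩ := hf
      obtain ⟨g', hg', hgg⟩ := hg
      refine ⟨fun k z => f' (finProdFinEquiv.symm k).1 z ∨ g' (finProdFinEquiv.symm k).2 z,
        fun k => ih (hf' _) (hg' _), fun z => ?_⟩
      beta_reduce
      rw [hff z, hgg z]
      constructor
      · rintro (⟨i, hi⟩ | ⟨j, hj⟩)
        · refine ⟨finProdFinEquiv (i, i₀), ?_⟩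
          simp [hi]
        · refine ⟨finProdFinEquiv (i₀, j), ?_⟩
          simp [hj]
      · rintro ⟨k, hk | hk⟩
        · exact Or.inl ⟨_, hk⟩
        · exact Or.inr ⟨_, hk⟩

/-- One more dummy quantifier in front. -/
theorem Lv.lift_top {𝓑 : (Z → Prop) → Prop} {M w : ℕ} (hM : 1 ≤ M) {b : Bool} {f : Z → Prop}
    (h : Lv 𝓑 M w b f) : Lv 𝓑 M (w + 1) (!b) f := by
  have i₀ : Fin M := ⟨0, hM⟩
  cases b with
  | true => exact ⟨fun _ => f, fun _ => h, fun z => ⟨fun hz => ⟨i₀, hz⟩, fun ⟨_, hz⟩ => hz⟩⟩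
  | false => exact ⟨fun _ => f, fun _ => h, fun z => ⟨fun hz _ => hz, fun hz => hz i₀⟩⟩

/-- One more dummy quantifier at the bottom. -/
theorem Lv.lift_bot {𝓑 : (Z → Prop) → Prop} {M w : ℕ} (hM : 1 ≤ M) {b : Bool} {f : Z → Prop}
    (h : Lv 𝓑 M w b f) : Lv 𝓑 M (w + 1) b f := by
  induction w generalizing b f with
  | zero =>
    have h' : Lv 𝓑 M 0 (!b) f := h
    have := Lv.lift_top hM h'
    rwa [Bool.not_not] at this
  | succ w ih =>
    cases b with
    | true =>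
      obtain ⟨g, hg, hfg⟩ := h
      exact ⟨g, fun i => ih (hg i), hfg⟩
    | false =>
      obtain ⟨g, hg, hfg⟩ := h
      exact ⟨g, fun i => ih (hg i), hfg⟩

theorem Lv.forall {𝓑 : (Z → Prop) → Prop} {M M' w m : ℕ} (hm : m ≤ M') (hm1 : 1 ≤ m)
    {f : Fin m → Z → Prop} (h : ∀ i, Lv 𝓑 M (w + 1) true (f i)) (hM : 1 ≤ M) :
    Lv 𝓑 (M' * M) (w + 1) true fun z => ∀ i, f i z := by
  obtain ⟨e, he⟩ := LvLemmas_surj hm1 hm
  have hMM : M ≤ M' * M := Nat.le_mul_of_pos_left M (hm1.trans hm)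
  choose g hg hfg using h
  refine ⟨fun k => g (e (finProdFinEquiv.symm k).1) (finProdFinEquiv.symm k).2,
    fun k => Lv.mono hM hMM (hg _ _), fun z => ?_⟩
  constructor
  · intro h k
    exact (hfg _ z).1 (h _) _
  · intro h i
    obtain ⟨j, rfl⟩ := he i
    refine (hfg _ z).2 fun l => ?_
    have := h (finProdFinEquiv (j, l))
    simpa using this

theorem Lv.exists {𝓑 : (Z → Prop) → Prop} {M M' w m : ℕ} (hm : m ≤ M') (hm1 : 1 ≤ m)
    {f : Fin m → Z → Prop} (h : ∀ i, Lv 𝓑 M (w + 1) false (f i)) (hM : 1 ≤ M) :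
    Lv 𝓑 (M' * M) (w + 1) false fun z => ∃ i, f i z := by
  obtain ⟨e, he⟩ := LvLemmas_surj hm1 hm
  have hMM : M ≤ M' * M := Nat.le_mul_of_pos_left M (hm1.trans hm)
  choose g hg hfg using h
  refine ⟨fun k => g (e (finProdFinEquiv.symm k).1) (finProdFinEquiv.symm k).2,
    fun k => Lv.mono hM hMM (hg _ _), fun z => ?_⟩
  constructor
  · rintro ⟨i, hi⟩
    obtain ⟨j, rfl⟩ := he i
    obtain ⟨l, hl⟩ := (hfg _ z).1 hi
    refine ⟨finProdFinEquiv (j, l), ?_⟩
    simpa using hl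
  · rintro ⟨k, hk⟩
    exact ⟨_, (hfg _ z).2 ⟨_, hk⟩⟩

/-- Row functions are monotone. -/
theorem RowFn.monotone {k r : ℕ} {E : Type} {f : (Fin k → E → Bool) → Prop} (h : RowFn r f) :
    Monotone f := by
  obtain ⟨G, h1, h2, h3⟩ := h
  intro z z' hz hh
  obtain ⟨J, hJ⟩ := (h3 z).1 hh
  exact (h3 z').2 ⟨J, h2 J z z' (fun j _ => hz j) hJ⟩

/-- Row functions pull back along monotone row-wise maps. -/
theorem RowFn.pull {k r : ℕ} {E E' : Type} {f : (Fin k → E → Bool) → Prop} (h : RowFn r f)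
    (τ : Fin k → (E' → Bool) → E → Bool) (hτ : ∀ j, Monotone (τ j)) :
    RowFn r fun z : Fin k → E' → Bool => f fun j => τ j (z j) := by
  obtain ⟨G, h1, h2, h3⟩ := h
  exact ⟨fun J z => G J fun j => τ j (z j), fun J z => h1 J _,
    fun J z z' hz => h2 J _ _ fun j hj => hτ j (hz j hj), fun z => h3 _⟩

end Pool.Agent.W_MP_5f6b2a_mon
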