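import Pool.Agent.W_MP_5f6b2a_mon.MF
import Pool.Agent.W_MP_5f6b2a_mon.Hash
import Pool.Agent.W_MP_5f6b2a_mon.LvLemmas

/-!
Formulas of weft `0`, and a large gate over formulas of weft `0`.
-/

namespace Pool.Agent.W_MP_5f6b2a_mon

open Finset

theorem Bottom_inter {N M₀ : ℕ} {F : Finset (Fin N) → (Fin M₀ → Prop) → Prop}
    {V V' : Finset (Fin N)} (h : ∀ S y, F S y ↔ F (S ∩ V) y) (hV : V ⊆ V') :
    ∀ S y, F S y ↔ F (S ∩ V') y := by
  intro S y
  have h1 : (S ∩ V') ∩ V = S ∩ V := by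
    rw [Finset.inter_assoc, Finset.inter_eq_right.2 hV]
  rw [h S y, h (S ∩ V') y, h1]

theorem Bottom_weft_zero {N M₀ s t d : ℕ} {F : Finset (Fin N) → (Fin M₀ → Prop) → Prop}
    (hF : Weft s t d F) : t = 0 →
    ∃ V : Finset (Fin N), V.card ≤ 2 ^ d ∧ (∀ S y, F S y ↔ F (S ∩ V) y) ∧
      ∀ S, MF (2 ^ (d + 1) - 1) (F S) := by
  have hsz : ∀ d : ℕ, 1 ≤ 2 ^ (d + 1) - 1 := by
    intro d
    have h1 : 1 ≤ 2 ^ d := Nat.one_le_two_pow
    rw [pow_succ]
    omega
  have hadd : ∀ d : ℕ, (2 ^ (d + 1) - 1) + (2 ^ (d + 1) - 1) + 1 ≤ 2 ^ (d + 1 + 1) - 1 := by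
    intro d
    have h1 : 1 ≤ 2 ^ (d + 1) := Nat.one_le_two_pow
    rw [pow_succ 2 (d + 1)]
    omega
  have hconst : ∀ (d : ℕ) (p : Prop), MF (V := Fin M₀) (2 ^ (d + 1) - 1) (fun _ => p) := by
    intro d p
    by_cases hp : p
    · exact (MF.mono (hsz d) MF.tru).congr fun _ => by simp [hp]
    · exact (MF.mono (hsz d) MF.fls).congr fun _ => by simp [hp]
  induction hF with
  | sel t d l =>
    intro _
    refine ⟨{l}, ?_, ?_, fun S => hconst d _⟩
    · rw [Finset.card_singleton]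
      exact Nat.one_le_two_pow
    · intro S y
      simp
  | nsel t d l =>
    intro _
    refine ⟨{l}, ?_, ?_, fun S => hconst d _⟩
    · rw [Finset.card_singleton]
      exact Nat.one_le_two_pow
    · intro S y
      simp
  | data t d j =>
    intro _
    exact ⟨∅, by simp, fun S y => Iff.rfl, fun S => MF.mono (hsz d) (MF.var j)⟩
  | @and t d F G hF hG ihF ihG =>
    intro ht
    obtain ⟨V, hV, h1, m1⟩ := ihF ht
    obtain ⟨W, hW, h2, m2⟩ := ihG ht
    refine ⟨V ∪ W, ?_, ?_, ?_⟩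
    · have h3 := Finset.card_union_le V W
      rw [pow_succ]
      omega
    · intro S y
      exact and_congr (Bottom_inter h1 Finset.subset_union_left S y)
        (Bottom_inter h2 Finset.subset_union_right S y)
    · intro S
      exact MF.mono (hadd d) (MF.and (m1 S) (m2 S))
  | @or t d F G hF hG ihF ihG =>
    intro ht
    obtain ⟨V, hV, h1, m1⟩ := ihF ht
    obtain ⟨W, hW, h2, m2⟩ := ihG ht
    refine ⟨V ∪ W, ?_, ?_, ?_⟩
    · have h3 := Finset.card_union_le V W
      rw [pow_succ]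
      omega
    · intro S y
      exact or_congr (Bottom_inter h1 Finset.subset_union_left S y)
        (Bottom_inter h2 Finset.subset_union_right S y)
    · intro S
      exact MF.mono (hadd d) (MF.or (m1 S) (m2 S))
  | all m hm F hF ih =>
    intro ht
    omega
  | ex m hm F hF ih =>
    intro ht
    omega

/-- A formula of weft `0` and depth `d` depends only on `S ∩ V` for a set `V` of at most `2 ^ d`
elements, and for fixed `S` it is a small monotone formula in the data bits. -/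
theorem weft_zero {N M₀ s d : ℕ} {F : Finset (Fin N) → (Fin M₀ → Prop) → Prop}
    (hF : Weft s 0 d F) :
    ∃ V : Finset (Fin N), V.card ≤ 2 ^ d ∧ (∀ S y, F S y ↔ F (S ∩ V) y) ∧
      ∀ S, MF (2 ^ (d + 1)) (F S) := by
  obtain ⟨V, h1, h2, h3⟩ := Bottom_weft_zero hF rfl
  exact ⟨V, h1, h2, fun S => MF.mono (Nat.sub_le _ _) (h3 S)⟩

/-- The number of auxiliary data bits used for one large gate. -/
def botY (k' d N : ℕ) : ℕ := (N + 1) * ((N + 1) ^ (2 ^ d) * (2 ^ (k' ^ 2 + 1) * (N + 1) ^ (2 ^ d)))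

/-- index of an auxiliary data bit -/
abbrev BottomIdx (L N K q : ℕ) : Type :=
  Fin L × {W : Finset (Fin N) // W.card ≤ q} × Finset (Fin K) × {U : Finset (Fin N) // U.card ≤ q}

theorem Bottom_card_sub (N q : ℕ) :
    Fintype.card {W : Finset (Fin N) // W.card ≤ q} ≤ (N + 1) ^ q := by
  classical
  have h1 : Fintype.card (Fin q → Option (Fin N)) = (N + 1) ^ q := by
    simp
  rw [← h1]
  have hcard : ∀ g : Fin q → Option (Fin N),
      (Finset.univ.biUnion fun i => (g i).toFinset).card ≤ q := by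
    intro g
    refine Finset.card_biUnion_le.trans ?_
    calc ∑ i, ((g i).toFinset).card ≤ ∑ _i : Fin q, 1 := by
          refine Finset.sum_le_sum fun i _ => ?_
          cases g i with
          | none => simp
          | some x => simp
      _ = q := by simp
  refine Fintype.card_le_of_surjective
    (fun g : Fin q → Option (Fin N) =>
      (⟨Finset.univ.biUnion fun i => (g i).toFinset, hcard g⟩ :
        {W : Finset (Fin N) // W.card ≤ q})) ?_
  rintro ⟨W, hW⟩
  refine ⟨fun i => if h : (i : ℕ) < W.card then some (W.equivFin.symm ⟨i, h⟩ : Fin N) else none, ?_⟩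
  apply Subtype.ext
  ext x
  simp only [Finset.mem_biUnion, Finset.mem_univ, true_and, Option.mem_toFinset]
  constructor
  · rintro ⟨i, hi⟩
    by_cases h : (i : ℕ) < W.card
    · rw [dif_pos h, Option.mem_some_iff] at hi
      rw [← hi]
      exact (W.equivFin.symm ⟨i, h⟩).2
    · rw [dif_neg h] at hi
      exact absurd hi (by simp)
  · intro hx
    set j := W.equivFin ⟨x, hx⟩ with hj
    refine ⟨⟨j, lt_of_lt_of_le j.2 hW⟩, ?_⟩
    rw [dif_pos j.2, Option.mem_some_iff]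
    have : W.equivFin.symm ⟨(j : ℕ), j.2⟩ = ⟨x, hx⟩ := by
      rw [Equiv.symm_apply_eq]
    rw [this]

theorem Bottom_card_idx {k' d N L : ℕ} (hL : L ≤ N + 1) :
    Fintype.card (BottomIdx L N (k' ^ 2 + 1) (2 ^ d)) ≤ botY k' d N := by
  classical
  unfold botY BottomIdx
  rw [Fintype.card_prod, Fintype.card_prod, Fintype.card_prod, Fintype.card_fin,
    Fintype.card_finset, Fintype.card_fin]
  have h := Bottom_card_sub N (2 ^ d)
  exact Nat.mul_le_mul hL (Nat.mul_le_mul h (Nat.mul_le_mul le_rfl h))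

/-- the condition on the index `i` -/
def BottomCond {L N K q m : ℕ} (H : Fin L → Fin N → Fin K) (V : Fin m → Finset (Fin N))
    (x : BottomIdx L N K q) (i : Fin m) : Prop :=
  x.2.1.1 ⊆ V i ∧ (V i \ x.2.1.1).image (H x.1) = x.2.2.1 ∧ Disjoint (V i \ x.2.1.1) x.2.2.2.1

/-- `x` is an index for the set `S` with hash function `a` -/
def BottomFor {L N K q : ℕ} (H : Fin L → Fin N → Fin K) (S : Finset (Fin N)) (a : Fin L)
    (x : BottomIdx L N K q) : Prop :=
  x.1 = a ∧ x.2.1.1 ⊆ S ∧ x.2.2.2.1 = S.filter fun u => H a u ∈ x.2.2.1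

theorem Bottom_key1 {L N K q m : ℕ} {H : Fin L → Fin N → Fin K} {V : Fin m → Finset (Fin N)}
    {S : Finset (Fin N)} {a : Fin L} {x : BottomIdx L N K q} (hx : BottomFor H S a x) {i : Fin m}
    (hc : BottomCond H V x i) : S ∩ V i = x.2.1.1 := by
  obtain ⟨h1, h2, h3⟩ := hx
  obtain ⟨c1, c2, c3⟩ := hc
  apply Finset.Subset.antisymm
  · intro u hu
    rw [Finset.mem_inter] at hu
    by_contra hW
    have hu1 : u ∈ V i \ x.2.1.1 := Finset.mem_sdiff.2 ⟨hu.2, hW⟩
    have hu2 : H a u ∈ x.2.2.1 := by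
      rw [← c2, ← h1]
      exact Finset.mem_image_of_mem _ hu1
    have hu3 : u ∈ x.2.2.2.1 := by
      rw [h3]
      exact Finset.mem_filter.2 ⟨hu.1, hu2⟩
    exact Finset.disjoint_left.1 c3 hu1 hu3
  · exact Finset.subset_inter h2 c1

theorem Bottom_key2 {L N K q m : ℕ} {H : Fin L → Fin N → Fin K} {V : Fin m → Finset (Fin N)}
    (hV : ∀ i, (V i).card ≤ q) {S : Finset (Fin N)} {a : Fin L} (ha : Set.InjOn (H a) S)
    (i : Fin m) : ∃ x : BottomIdx L N K q, BottomFor H S a x ∧ BottomCond H V x i ∧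
      x.2.2.1.card ≤ q ∧ x.2.1.1 = S ∩ V i := by
  set W := S ∩ V i with hW
  set C := (V i \ W).image (H a) with hC
  set U := S.filter fun u => H a u ∈ C with hU
  have hWc : W.card ≤ q := (Finset.card_le_card Finset.inter_subset_right).trans (hV i)
  have hCc : C.card ≤ q := Finset.card_image_le.trans
    ((Finset.card_le_card Finset.sdiff_subset).trans (hV i))
  have hUc : U.card ≤ q := by
    refine le_trans ?_ hCc
    refine Finset.card_le_card_of_injOn (H a) ?_ ?_
    · intro u hu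
      exact (Finset.mem_filter.1 hu).2
    · intro u hu v hv huv
      exact ha (Finset.mem_filter.1 hu).1 (Finset.mem_filter.1 hv).1 huv
  refine ⟨(a, ⟨W, hWc⟩, C, ⟨U, hUc⟩), ⟨rfl, Finset.inter_subset_left, rfl⟩,
    ⟨Finset.inter_subset_right, rfl, ?_⟩, hCc, rfl⟩
  rw [Finset.disjoint_left]
  intro u hu hu'
  have h1 := Finset.mem_sdiff.1 hu
  have h2 := (Finset.mem_filter.1 hu').1
  exact h1.2 (Finset.mem_inter.2 ⟨h2, h1.1⟩)

/-- The coordinates used for `S`. -/
theorem Bottom_cidx {L N K q : ℕ} {H : Fin L → Fin N → Fin K} {S : Finset (Fin N)} {a : Fin L}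
    (ha : Set.InjOn (H a) S) :
    ∃ c : {W // W ∈ S.powerset} × Finset (Fin K) → BottomIdx L N K q,
      (∀ p, BottomFor H S a (c p)) ∧
      ∀ x : BottomIdx L N K q, BottomFor H S a x → x.2.2.1.card ≤ q → ∃ p, c p = x := by
  classical
  have hUc : ∀ C : Finset (Fin K), C.card ≤ q → (S.filter fun u => H a u ∈ C).card ≤ q := by
    intro C hCc
    refine le_trans ?_ hCc
    refine Finset.card_le_card_of_injOn (H a) ?_ ?_
    · intro u hu
      exact (Finset.mem_filter.1 hu).2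
    · intro u hu v hv huv
      exact ha (Finset.mem_filter.1 hu).1 (Finset.mem_filter.1 hv).1 huv
  have key : ∀ p : {W // W ∈ S.powerset} × Finset (Fin K), ∃ x : BottomIdx L N K q,
      BottomFor H S a x ∧ (p.1.1.card ≤ q → p.2.card ≤ q → x.2.1.1 = p.1.1 ∧ x.2.2.1 = p.2) := by
    intro p
    by_cases h : p.1.1.card ≤ q ∧ p.2.card ≤ q
    · exact ⟨(a, ⟨p.1.1, h.1⟩, p.2, ⟨S.filter fun u => H a u ∈ p.2, hUc p.2 h.2⟩),
        ⟨rfl, Finset.mem_powerset.1 p.1.2, rfl⟩, fun _ _ => ⟨rfl, rfl⟩⟩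
    · have h0 : (∅ : Finset (Fin N)).card ≤ q := by
        rw [Finset.card_empty]
        exact Nat.zero_le _
      refine ⟨(a, ⟨∅, h0⟩, ∅, ⟨∅, h0⟩), ⟨rfl, Finset.empty_subset _, ?_⟩,
        fun h1 h2 => absurd ⟨h1, h2⟩ h⟩
      simp
  choose c hc1 hc2 using key
  refine ⟨c, hc1, ?_⟩
  intro x hx hC
  refine ⟨(⟨x.2.1.1, Finset.mem_powerset.2 hx.2.1⟩, x.2.2.1), ?_⟩
  set p : {W // W ∈ S.powerset} × Finset (Fin K) :=
    (⟨x.2.1.1, Finset.mem_powerset.2 hx.2.1⟩, x.2.2.1) with hp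
  obtain ⟨e1, e2⟩ := hc2 p x.2.1.2 hC
  obtain ⟨f1, f2, f3⟩ := hc1 p
  have e3 : (c p).2.2.1 = x.2.2.1 := e2
  refine Prod.ext (f1.trans hx.1.symm) (Prod.ext (Subtype.ext e1) (Prod.ext e3 (Subtype.ext ?_)))
  rw [f3, hx.2.2, e3]

theorem Bottom_card_pairs {N k' K : ℕ} {S : Finset (Fin N)} (hS : S.card = k') :
    Fintype.card ({W // W ∈ S.powerset} × Finset (Fin K)) = 2 ^ k' * 2 ^ K := by
  rw [Fintype.card_prod, Fintype.card_coe, Finset.card_powerset, hS, Fintype.card_finset,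
    Fintype.card_fin]

theorem Bottom_extend {α β γ : Type*} (e : α ↪ β) (Y : α → γ) (t : γ) :
    ∃ y : β → γ, (∀ x, y (e x) = Y x) ∧ ∀ j, (∃ x, y j = Y x) ∨ y j = t := by
  classical
  refine ⟨Function.extend e Y fun _ => t, fun x => e.injective.extend_apply _ _ _, fun j => ?_⟩
  by_cases h : ∃ x, e x = j
  · obtain ⟨x, rfl⟩ := h
    exact Or.inl ⟨x, e.injective.extend_apply _ _ _⟩
  · exact Or.inr (Function.extend_apply' _ _ _ h)

/-- A large AND gate over formulas of weft `0` is, for every `k'`-element set `S`, a conjunction of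
boundedly many members of a family of polynomially many monotone functions of the data bits. -/
theorem bottom_all (k' d N M₀ s m : ℕ) (hm : m ≤ s)
    (F : Fin m → Finset (Fin N) → (Fin M₀ → Prop) → Prop) (hF : ∀ i, Weft s 0 d (F i)) :
    ∃ y : Fin (botY k' d N) → (Fin M₀ → Prop) → Prop,
      (∀ i, MF (s * (2 ^ (d + 1) + 1) + 1) (y i)) ∧
      ∀ S : Finset (Fin N), S.card = k' → ∃ Φ : (Fin (botY k' d N) → Prop) → Prop,
        JnOf Coord (2 ^ k' * 2 ^ (k' ^ 2 + 1)) Φ ∧ ∀ v, (∀ i, F i S v) ↔ Φ fun i => y i v := by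
  classical
  choose V hVc hV hMF using fun i => weft_zero (hF i)
  obtain ⟨L, H, hL, hH⟩ := exists_hash k' N
  obtain ⟨e⟩ : Nonempty (BottomIdx L N (k' ^ 2 + 1) (2 ^ d) ↪ Fin (botY k' d N)) :=
    Function.Embedding.nonempty_of_card_le (by
      rw [Fintype.card_fin]
      exact Bottom_card_idx hL)
  set Y : BottomIdx L N (k' ^ 2 + 1) (2 ^ d) → (Fin M₀ → Prop) → Prop := fun x v =>
    ∀ i, BottomCond H V x i → F i x.2.1.1 v with hY
  have hYMF : ∀ x, MF (s * (2 ^ (d + 1) + 1) + 1) (Y x) := by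
    intro x
    have h1 : ∀ i, MF (2 ^ (d + 1)) (fun v => BottomCond H V x i → F i x.2.1.1 v) := by
      intro i
      by_cases hc : BottomCond H V x i
      · exact (hMF i x.2.1.1).congr fun v => by simp [hc]
      · exact (MF.mono Nat.one_le_two_pow MF.tru).congr fun v => by simp [hc]
    exact MF.mono (Nat.add_le_add_right (Nat.mul_le_mul_right _ hm) 1) (MF.forall h1)
  obtain ⟨y, hy1, hy2⟩ := Bottom_extend e Y (fun _ => True)
  refine ⟨y, ?_, ?_⟩
  · intro j
    rcases hy2 j with ⟨x, hx⟩ | hx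
    · rw [hx]
      exact hYMF _
    · rw [hx]
      exact MF.mono (Nat.le_add_left _ _) MF.tru
  · intro S hS
    obtain ⟨a, ha⟩ := hH S hS
    obtain ⟨c, hc1, hc2⟩ := Bottom_cidx (q := 2 ^ d) ha
    refine ⟨fun u => ∀ p, u (e (c p)), ?_, ?_⟩
    · rw [← Bottom_card_pairs (K := k' ^ 2 + 1) hS]
      exact JnOf.forall (f := fun p (u : Fin (botY k' d N) → Prop) => u (e (c p)))
        fun p => ⟨e (c p), fun _ => Iff.rfl⟩
    · intro v
      have hval : ∀ x, y (e x) v ↔ Y x v := fun x => by rw [hy1]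
      constructor
      · intro hall p
        refine (hval _).2 ?_
        intro i hi
        have h1 := Bottom_key1 (hc1 p) hi
        rw [← h1]
        exact (hV i S v).1 (hall i)
      · intro hall i
        obtain ⟨x, hx1, hx2, hx3, hx4⟩ := Bottom_key2 (H := H) hVc ha i
        obtain ⟨p, hp⟩ := hc2 x hx1 hx3
        have h1 := (hval _).1 (hall p)
        rw [hp] at h1
        have h2 := h1 i hx2
        rw [hx4] at h2
        exact (hV i S v).2 h2

/-- The same for a large OR gate. -/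
theorem bottom_ex (k' d N M₀ s m : ℕ) (hm : m ≤ s)
    (F : Fin m → Finset (Fin N) → (Fin M₀ → Prop) → Prop) (hF : ∀ i, Weft s 0 d (F i)) :
    ∃ y : Fin (botY k' d N) → (Fin M₀ → Prop) → Prop,
      (∀ i, MF (s * (2 ^ (d + 1) + 1) + 1) (y i)) ∧
      ∀ S : Finset (Fin N), S.card = k' → ∃ Φ : (Fin (botY k' d N) → Prop) → Prop,
        JnOf Coord (2 ^ k' * 2 ^ (k' ^ 2 + 1)) Φ ∧ ∀ v, (∃ i, F i S v) ↔ Φ fun i => y i v := by
  classical
  choose V hVc hV hMF using fun i => weft_zero (hF i)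
  obtain ⟨L, H, hL, hH⟩ := exists_hash k' N
  obtain ⟨e⟩ : Nonempty (BottomIdx L N (k' ^ 2 + 1) (2 ^ d) ↪ Fin (botY k' d N)) :=
    Function.Embedding.nonempty_of_card_le (by
      rw [Fintype.card_fin]
      exact Bottom_card_idx hL)
  set Y : BottomIdx L N (k' ^ 2 + 1) (2 ^ d) → (Fin M₀ → Prop) → Prop := fun x v =>
    ∃ i, BottomCond H V x i ∧ F i x.2.1.1 v with hY
  have hYMF : ∀ x, MF (s * (2 ^ (d + 1) + 1) + 1) (Y x) := by
    intro x
    have h1 : ∀ i, MF (2 ^ (d + 1)) (fun v => BottomCond H V x i ∧ F i x.2.1.1 v) := by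
      intro i
      by_cases hc : BottomCond H V x i
      · exact (hMF i x.2.1.1).congr fun v => by simp [hc]
      · exact (MF.mono Nat.one_le_two_pow MF.fls).congr fun v => by simp [hc]
    exact MF.mono (Nat.add_le_add_right (Nat.mul_le_mul_right _ hm) 1) (MF.exists h1)
  obtain ⟨y, hy1, hy2⟩ := Bottom_extend e Y (fun _ => False)
  refine ⟨y, ?_, ?_⟩
  · intro j
    rcases hy2 j with ⟨x, hx⟩ | hx
    · rw [hx]
      exact hYMF _
    · rw [hx]
      exact MF.mono (Nat.le_add_left _ _) MF.fls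
  · intro S hS
    obtain ⟨a, ha⟩ := hH S hS
    obtain ⟨c, hc1, hc2⟩ := Bottom_cidx (q := 2 ^ d) ha
    refine ⟨fun u => ∃ p, u (e (c p)), ?_, ?_⟩
    · rw [← Bottom_card_pairs (K := k' ^ 2 + 1) hS]
      exact JnOf.exists (f := fun p (u : Fin (botY k' d N) → Prop) => u (e (c p)))
        fun p => ⟨e (c p), fun _ => Iff.rfl⟩
    · intro v
      have hval : ∀ x, y (e x) v ↔ Y x v := fun x => by rw [hy1]
      constructor
      · rintro ⟨i, hi⟩
        obtain ⟨x, hx1, hx2, hx3, hx4⟩ := Bottom_key2 (H := H) hVc ha i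
        obtain ⟨p, hp⟩ := hc2 x hx1 hx3
        refine ⟨p, (hval _).2 ?_⟩
        rw [hp]
        refine ⟨i, hx2, ?_⟩
        rw [hx4]
        exact (hV i S v).1 hi
      · rintro ⟨p, hp⟩
        obtain ⟨i, hi, hFi⟩ := (hval _).1 hp
        have h1 := Bottom_key1 (hc1 p) hi
        rw [← h1] at hFi
        exact ⟨i, (hV i S v).2 hFi⟩

end Pool.Agent.W_MP_5f6b2a_mon
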