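import Pool.Agent.W_MP_5f6b2a_mon.Core

/-!
Closing a family: the closure adds few false positives on negative inputs.
-/

namespace Pool.Agent.W_MP_5f6b2a_mon

open Finset

variable {ι E : Type} [Fintype ι] [DecidableEq ι] [Fintype E] [DecidableEq E] {r : ℕ}

/-- Number of small subsets. -/
theorem card_small_le (r : ℕ) :
    ((univ.filter fun R : Finset ι => R.card ≤ r).card : ℝ) ≤ ((Fintype.card ι : ℝ) + 1) ^ r := by
  classical
  have h1 : (univ.filter fun R : Finset ι => R.card ≤ r) ⊆
      (univ : Finset (Fin r → Option ι)).image fun f => (univ.image f).eraseNone := by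
    intro R hR
    rw [mem_filter] at hR
    rw [mem_image]
    refine ⟨fun i => if h : (i : ℕ) < R.card then some (R.equivFin.symm ⟨i, h⟩ : ι) else none,
      mem_univ _, ?_⟩
    ext a
    rw [mem_eraseNone, mem_image]
    constructor
    · rintro ⟨i, -, hi⟩
      split_ifs at hi with h
      · rw [Option.some.injEq] at hi
        rw [← hi]
        exact (R.equivFin.symm ⟨i, h⟩).2
    · intro ha
      refine ⟨⟨R.equivFin ⟨a, ha⟩, (R.equivFin ⟨a, ha⟩).2.trans_le hR.2⟩, mem_univ _, ?_⟩
      have h : ((R.equivFin ⟨a, ha⟩ : Fin R.card) : ℕ) < R.card := (R.equivFin ⟨a, ha⟩).2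
      rw [dif_pos h]
      simp
  have h2 := (card_le_card h1).trans card_image_le
  rw [card_univ, Fintype.card_fun, Fintype.card_option, Fintype.card_fin] at h2
  exact_mod_cast h2

/-- The closure, one set at a time: `Cl n R x` for sets with `r - R.card < n`. -/
def Fam.cl (B p : ℕ) (θ : ℝ) (G : Fam ι E r) : ℕ → Finset ι → (ι → E → Bool) → Prop
  | 0, R, x => G.acc R x
  | n + 1, R, x => G.acc R x ∨ (R.card ≤ r ∧ (∀ l ∈ R, x l ≠ ⊥) ∧
      ∃ 𝒬 : Finset (Finset ι), 𝒬.card = p ∧
      (∀ Q ∈ 𝒬, Q.Nonempty ∧ Disjoint Q R ∧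
        θ ≤ pr fun b : ι → E → Fin B => Fam.cl B p θ G n (R ∪ Q) (glue R x (nul b))) ∧
      ∀ Q ∈ 𝒬, ∀ Q' ∈ 𝒬, Q ≠ Q' → Disjoint Q Q')

theorem Fam.cl_mono (B p : ℕ) (θ : ℝ) (G : Fam ι E r) (n : ℕ) :
    ∀ R x x', (∀ l ∈ R, x l ≤ x' l) → G.cl B p θ n R x → G.cl B p θ n R x' := by
  induction n with
  | zero => exact G.mono
  | succ n ih =>
    rintro R x x' h (h1 | ⟨h1, h2, 𝒬, h3, h4, h5⟩)
    · exact Or.inl (G.mono R x x' h h1)
    · refine Or.inr ⟨h1, fun l hl h' => h2 l hl ?_, 𝒬, h3, fun Q hQ => ?_, h5⟩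
      · have := h l hl
        rw [h'] at this
        exact le_bot_iff.1 this
      · obtain ⟨a, b, c⟩ := h4 Q hQ
        refine ⟨a, b, c.trans (pr_mono fun ω hω => ih _ _ _ (fun l _ => ?_) hω)⟩
        unfold glue
        split_ifs with hl
        · exact h l hl
        · exact le_rfl

theorem Fam.cl_card (B p : ℕ) (θ : ℝ) (G : Fam ι E r) (n : ℕ) :
    ∀ R x, G.cl B p θ n R x → R.card ≤ r := by
  cases n with
  | zero => exact G.card_le
  | succ n =>
    rintro R x (h | h)
    · exact G.card_le R x h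
    · exact h.1

theorem Fam.cl_ne_bot (B p : ℕ) (θ : ℝ) (G : Fam ι E r) (n : ℕ) :
    ∀ R x, G.cl B p θ n R x → ∀ l ∈ R, x l ≠ ⊥ := by
  cases n with
  | zero => exact G.ne_bot
  | succ n =>
    rintro R x (h | h)
    · exact G.ne_bot R x h
    · exact h.2.1

/-- Levels stabilize. -/
theorem Fam.cl_stab (B p : ℕ) (θ : ℝ) (G : Fam ι E r) (n : ℕ) :
    ∀ m, n ≤ m → ∀ R : Finset ι, r < R.card + n → ∀ x,
      (G.cl B p θ m R x ↔ G.cl B p θ n R x) := by
  induction n with
  | zero =>
    intro m _ R hR x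
    constructor
    · intro h
      exact absurd (G.cl_card B p θ m R x h) (by omega)
    · intro h
      exact absurd (G.cl_card B p θ 0 R x h) (by omega)
  | succ n ih =>
    intro m hm R hR x
    obtain ⟨m, rfl⟩ : ∃ m', m = m' + 1 := ⟨m - 1, by omega⟩
    have key : ∀ Q : Finset ι, Q.Nonempty → Disjoint Q R → ∀ y,
        (G.cl B p θ m (R ∪ Q) y ↔ G.cl B p θ n (R ∪ Q) y) := by
      intro Q hQ hQR y
      refine ih m (by omega) (R ∪ Q) ?_ y
      rw [card_union_of_disjoint hQR.symm]
      have := hQ.card_pos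
      omega
    unfold Fam.cl
    refine or_congr_right (and_congr_right fun _ => and_congr_right fun _ =>
      exists_congr fun 𝒬 => and_congr_right fun _ => and_congr_left fun _ =>
      forall₂_congr fun Q _ => and_congr_right fun h1 => and_congr_right fun h2 => ?_)
    rw [pr_congr fun b => key Q h1 h2 _]

/-- Every family is contained in a closed family; on inputs in which the rows outside a set `T` of
at most `k` rows are null samples, the closed family accepts little more. -/
theorem Fam.exists_closure (B p : ℕ) (hB : 0 < B) {θ : ℝ} (hθ : 0 < θ) (hθ1 : θ ≤ 1) (hp : 1 ≤ p)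
    (G : Fam ι E r) :
    ∃ G' : Fam ι E r, G'.Closed B θ p ∧ (∀ R x, G.acc R x → G'.acc R x) ∧
      ∀ (k : ℕ) (T : Finset ι), T.card ≤ k → ∀ y : ι → E → Bool,
        pr (fun b : ι → E → Fin B => G'.val (glue T y (nul b)) ∧ ¬ G.val (glue T y (nul b))) ≤
          ((Fintype.card ι : ℝ) + 1) ^ r * (1 - θ) ^ (p - k) := by
  classical
  have : Nonempty (Fin B) := ⟨⟨0, hB⟩⟩
  let G' : Fam ι E r :=
    { acc := G.cl B p θ (r + 1)
      mono := G.cl_mono B p θ _
      card_le := G.cl_card B p θ _
      ne_bot := G.cl_ne_bot B p θ _ }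
  have hstep : ∀ R x, G'.acc R x ↔ (G.acc R x ∨ (R.card ≤ r ∧ (∀ l ∈ R, x l ≠ ⊥) ∧
      ∃ 𝒬 : Finset (Finset ι), 𝒬.card = p ∧
      (∀ Q ∈ 𝒬, Q.Nonempty ∧ Disjoint Q R ∧
        θ ≤ pr fun b : ι → E → Fin B => G'.acc (R ∪ Q) (glue R x (nul b))) ∧
      ∀ Q ∈ 𝒬, ∀ Q' ∈ 𝒬, Q ≠ Q' → Disjoint Q Q')) := by
    intro R x
    have h := G.cl_stab B p θ (r + 1) (r + 1 + 1) (by omega) R (by omega) x
    change G.cl B p θ (r + 1) R x ↔ _
    rw [← h]
    rfl
  refine ⟨G', ?_, fun R x h => (hstep R x).2 (Or.inl h), ?_⟩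
  · -- closed
    rintro R x ⟨𝒬, h1, h2, h3⟩
    obtain ⟨Q, hQ⟩ : 𝒬.Nonempty := by
      rw [← card_pos]; omega
    obtain ⟨b, hb⟩ := exists_of_pr_pos (lt_of_lt_of_le hθ (h2 Q hQ).2.2)
    refine (hstep R x).2 (Or.inr ⟨?_, ?_, 𝒬, h1, h2, h3⟩)
    · exact (card_le_card subset_union_left).trans (G'.card_le _ _ hb)
    · intro l hl h'
      refine G'.ne_bot _ _ hb l (mem_union_left _ hl) ?_
      rw [glue_of_mem hl, h']
  · intro k T hT y
    -- the event for one set `R`
    set EV : Finset ι → (ι → E → Fin B) → Prop := fun R b =>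
      (∃ 𝒬 : Finset (Finset ι), 𝒬.card = p ∧
        (∀ Q ∈ 𝒬, Q.Nonempty ∧ Disjoint Q R ∧
          θ ≤ pr fun b' : ι → E → Fin B => G'.acc (R ∪ Q) (glue R (glue T y (nul b)) (nul b'))) ∧
        ∀ Q ∈ 𝒬, ∀ Q' ∈ 𝒬, Q ≠ Q' → Disjoint Q Q') ∧
      ∀ Q : Finset ι, Q.Nonempty → Disjoint Q R → ¬ G'.acc (R ∪ Q) (glue T y (nul b)) with hEV
    have hsub : ∀ b : ι → E → Fin B,
        (G'.val (glue T y (nul b)) ∧ ¬ G.val (glue T y (nul b))) →
        ∃ R ∈ univ.filter (fun R : Finset ι => R.card ≤ r), EV R b := by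
      rintro b ⟨⟨R0, hR0⟩, hG⟩
      obtain ⟨R, hR, hmax⟩ := (univ.filter fun R : Finset ι =>
        G'.acc R (glue T y (nul b))).exists_max_image card ⟨R0, by simpa using hR0⟩
      rw [mem_filter] at hR
      refine ⟨R, mem_filter.2 ⟨mem_univ _, G'.card_le _ _ hR.2⟩, ?_⟩
      rcases (hstep R _).1 hR.2 with h | ⟨-, -, h⟩
      · exact absurd ⟨R, h⟩ hG
      · refine ⟨h, fun Q hQ hQR hacc => ?_⟩
        have h1 := hmax (R ∪ Q) (mem_filter.2 ⟨mem_univ _, hacc⟩)
        rw [card_union_of_disjoint hQR.symm] at h1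
        have := hQ.card_pos
        omega
    have hone : ∀ R : Finset ι, pr (EV R) ≤ (1 - θ) ^ (p - k) := by
      intro R
      rw [pr_glue R]
      refine av_le' (by have : 0 ≤ 1 - θ := by linarith
                        positivity) fun a => ?_
      -- the rows in `R` are fixed
      by_cases hex : ∃ 𝒬 : Finset (Finset ι), 𝒬.card = p ∧
          (∀ Q ∈ 𝒬, Q.Nonempty ∧ Disjoint Q R ∧
            θ ≤ pr fun b' : ι → E → Fin B => G'.acc (R ∪ Q) (glue R (glue T y (nul a))
              (nul b'))) ∧ ∀ Q ∈ 𝒬, ∀ Q' ∈ 𝒬, Q ≠ Q' → Disjoint Q Q'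
      · obtain ⟨𝒬, h1, h2, h3⟩ := hex
        -- the petals which do not meet `T`
        set 𝒬' := 𝒬.filter fun Q => Disjoint Q T with h𝒬'
        have hcard : p - k ≤ 𝒬'.card := by
          have h4 : (𝒬.filter fun Q => ¬ Disjoint Q T).card ≤ T.card := by
            rcases isEmpty_or_nonempty ι with hι | hι
            · rw [filter_false_of_mem fun Q _ h => h (disjoint_left.2 fun l => isEmptyElim l)]
              simp
            have hne : ∀ Q ∈ 𝒬.filter (fun Q => ¬ Disjoint Q T), ∃ l, l ∈ Q ∧ l ∈ T := by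
              intro Q hQ
              rw [mem_filter, not_disjoint_iff] at hQ
              exact hQ.2
            choose! f hf using hne
            refine card_le_card_of_injOn f (fun Q hQ => (hf Q hQ).2) ?_
            intro Q hQ Q' hQ' hff
            by_contra hne
            have hd := h3 Q (mem_filter.1 hQ).1 Q' (mem_filter.1 hQ').1 hne
            exact disjoint_left.1 hd (hf Q hQ).1 (hff ▸ (hf Q' hQ').1)
          have h5 := card_filter_add_card_filter_not (s := 𝒬) (fun Q => Disjoint Q T)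
          rw [← h𝒬'] at h5
          omega
        have hle : pr (fun b => EV R (glue R a b)) ≤
            pr (fun b : ι → E → Fin B => ∀ Q ∈ 𝒬', ¬ G'.acc (R ∪ Q)
              (glue R (glue T y (nul a)) (nul b))) := by
          refine pr_mono fun b hb Q hQ hacc => ?_
          rw [mem_filter] at hQ
          obtain ⟨hQne, hQR, -⟩ := h2 Q hQ.1
          refine hb.2 Q hQne hQR (G'.mono _ _ _ (fun l hl => ?_) hacc)
          rw [mem_union] at hl
          rcases hl with hl | hl
          · rw [glue_of_mem hl]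
            by_cases hlT : l ∈ T
            · rw [glue_of_mem hlT, glue_of_mem hlT]
            · rw [glue_of_notMem hlT, glue_of_notMem hlT]
              unfold nul
              rw [glue_of_mem hl]
          · have hlR : l ∉ R := disjoint_left.1 hQR hl
            have hlT : l ∉ T := disjoint_left.1 hQ.2 hl
            rw [glue_of_notMem hlR, glue_of_notMem hlT]
            unfold nul
            rw [glue_of_notMem hlR]
        refine hle.trans ?_
        rw [pr_forall_mem_of_disjoint 𝒬' (fun Q => Q)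
          (fun Q hQ Q' hQ' hne => h3 Q (mem_filter.1 hQ).1 Q' (mem_filter.1 hQ').1 hne)
          (fun Q b => ¬ G'.acc (R ∪ Q) (glue R (glue T y (nul a)) (nul b))) ?_]
        · calc ∏ Q ∈ 𝒬', pr (fun b : ι → E → Fin B => ¬ G'.acc (R ∪ Q)
                (glue R (glue T y (nul a)) (nul b))) ≤ ∏ _Q ∈ 𝒬', (1 - θ) := by
                refine prod_le_prod (fun Q _ => pr_nonneg _) fun Q hQ => ?_
                rw [pr_not]
                have := (h2 Q (mem_filter.1 hQ).1).2.2
                linarith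
            _ = (1 - θ) ^ 𝒬'.card := by rw [prod_const]
            _ ≤ (1 - θ) ^ (p - k) :=
                pow_le_pow_of_le_one (by linarith) (by linarith) hcard
        · intro Q hQ b b' hbb
          refine not_congr ⟨G'.mono _ _ _ fun l hl => ?_, G'.mono _ _ _ fun l hl => ?_⟩
          all_goals
            rw [mem_union] at hl
            by_cases hlR : l ∈ R
            · rw [glue_of_mem hlR, glue_of_mem hlR]
            · have hlQ : l ∈ Q := hl.resolve_left hlR
              rw [glue_of_notMem hlR, glue_of_notMem hlR]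
              unfold nul
              rw [hbb l hlQ]
      · have h0 : pr (fun b => EV R (glue R a b)) = 0 := by
          refine pr_false _ fun b hb => hex ?_
          obtain ⟨𝒬, h1, h2, h3⟩ := hb.1
          refine ⟨𝒬, h1, fun Q hQ => ⟨(h2 Q hQ).1, (h2 Q hQ).2.1, (h2 Q hQ).2.2.trans
            (pr_mono fun b' hb' => G'.mono _ _ _ (fun l _ => ?_) hb')⟩, h3⟩
          by_cases hlR : l ∈ R
          · rw [glue_of_mem hlR, glue_of_mem hlR]
            by_cases hlT : l ∈ T
            · rw [glue_of_mem hlT, glue_of_mem hlT]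
            · rw [glue_of_notMem hlT, glue_of_notMem hlT]
              unfold nul
              rw [glue_of_mem hlR]
          · rw [glue_of_notMem hlR, glue_of_notMem hlR]
        rw [h0]
        have : 0 ≤ 1 - θ := by linarith
        positivity
    calc pr (fun b : ι → E → Fin B => G'.val (glue T y (nul b)) ∧ ¬ G.val (glue T y (nul b))) ≤
        pr (fun b => ∃ R ∈ univ.filter (fun R : Finset ι => R.card ≤ r), EV R b) :=
          pr_mono hsub
      _ ≤ ∑ R ∈ univ.filter (fun R : Finset ι => R.card ≤ r), pr (EV R) :=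
          pr_exists_mem_le _ _
      _ ≤ ∑ _R ∈ univ.filter (fun R : Finset ι => R.card ≤ r), (1 - θ) ^ (p - k) :=
          sum_le_sum fun R _ => hone R
      _ = ((univ.filter fun R : Finset ι => R.card ≤ r).card : ℝ) * (1 - θ) ^ (p - k) := by
          rw [sum_const, nsmul_eq_mul]
      _ ≤ _ := by
          refine mul_le_mul_of_nonneg_right (card_small_le r) ?_
          have : 0 ≤ 1 - θ := by linarith
          positivity

end Pool.Agent.W_MP_5f6b2a_mon
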