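import Mathlib

/-!
Averages and probabilities over finite uniform sample spaces.
-/

namespace Pool.Agent.W_MP_5f6b2a_mon

open Finset

/-- The average of `f`. -/
noncomputable def av {Ω : Type*} [Fintype Ω] (f : Ω → ℝ) : ℝ := (∑ ω, f ω) / Fintype.card Ω

open Classical in
/-- The probability of `E`. -/
noncomputable def pr {Ω : Type*} [Fintype Ω] (E : Ω → Prop) : ℝ :=
  av fun ω => if E ω then (1 : ℝ) else 0

section av

variable {Ω Ω' : Type*} [Fintype Ω] [Fintype Ω']

theorem av_congr {f g : Ω → ℝ} (h : ∀ ω, f ω = g ω) : av f = av g := by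
  unfold av; rw [Finset.sum_congr rfl fun ω _ => h ω]

theorem av_nonneg {f : Ω → ℝ} (h : ∀ ω, 0 ≤ f ω) : 0 ≤ av f :=
  div_nonneg (Finset.sum_nonneg fun ω _ => h ω) (Nat.cast_nonneg _)

theorem av_mono {f g : Ω → ℝ} (h : ∀ ω, f ω ≤ g ω) : av f ≤ av g :=
  div_le_div_of_nonneg_right (Finset.sum_le_sum fun ω _ => h ω) (Nat.cast_nonneg _)

theorem av_const [Nonempty Ω] (c : ℝ) : av (fun _ : Ω => c) = c := by
  unfold av
  rw [Finset.sum_const, Finset.card_univ, nsmul_eq_mul]
  have : (Fintype.card Ω : ℝ) ≠ 0 := by exact_mod_cast Fintype.card_ne_zero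
  field_simp

theorem av_of_isEmpty [IsEmpty Ω] (f : Ω → ℝ) : av f = 0 := by simp [av]

theorem av_add (f g : Ω → ℝ) : av (fun ω => f ω + g ω) = av f + av g := by
  unfold av; rw [Finset.sum_add_distrib, add_div]

theorem av_sub (f g : Ω → ℝ) : av (fun ω => f ω - g ω) = av f - av g := by
  unfold av; rw [Finset.sum_sub_distrib, sub_div]

theorem av_mul_left (c : ℝ) (f : Ω → ℝ) : av (fun ω => c * f ω) = c * av f := by
  unfold av; rw [← Finset.mul_sum, mul_div_assoc]

theorem av_mul_right (c : ℝ) (f : Ω → ℝ) : av (fun ω => f ω * c) = av f * c := by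
  unfold av; rw [← Finset.sum_mul, div_mul_eq_mul_div]

theorem av_sum {κ : Type*} (s : Finset κ) (f : κ → Ω → ℝ) :
    av (fun ω => ∑ i ∈ s, f i ω) = ∑ i ∈ s, av (f i) := by
  unfold av; rw [Finset.sum_comm, Finset.sum_div]

theorem av_prod (f : Ω → Ω' → ℝ) :
    av (fun p : Ω × Ω' => f p.1 p.2) = av fun a => av fun b => f a b := by
  unfold av
  rw [Fintype.sum_prod_type, Fintype.card_prod, Nat.cast_mul, ← Finset.sum_div, div_div,
    mul_comm (Fintype.card Ω' : ℝ)]

theorem av_comm (f : Ω → Ω' → ℝ) :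
    (av fun a => av fun b => f a b) = av fun b => av fun a => f a b := by
  unfold av
  rw [← Finset.sum_div, ← Finset.sum_div, Finset.sum_comm, div_div, div_div,
    mul_comm (Fintype.card Ω : ℝ)]

theorem av_equiv (e : Ω ≃ Ω') (f : Ω' → ℝ) : av (fun ω => f (e ω)) = av f := by
  unfold av; rw [Equiv.sum_comp e f, Fintype.card_congr e]

theorem av_le [Nonempty Ω] {f : Ω → ℝ} {c : ℝ} (h : ∀ ω, f ω ≤ c) : av f ≤ c :=
  (av_mono h).trans_eq (av_const c)

theorem av_le' {f : Ω → ℝ} {c : ℝ} (hc : 0 ≤ c) (h : ∀ ω, f ω ≤ c) : av f ≤ c := by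
  rcases isEmpty_or_nonempty Ω with hΩ | hΩ
  · rw [av_of_isEmpty]; exact hc
  · exact av_le h

theorem le_av [Nonempty Ω] {f : Ω → ℝ} {c : ℝ} (h : ∀ ω, c ≤ f ω) : c ≤ av f :=
  (av_const c).symm.le.trans (av_mono h)

theorem exists_le_av [Nonempty Ω] (f : Ω → ℝ) : ∃ ω, f ω ≤ av f := by
  by_contra h
  push Not at h
  have hc : (0 : ℝ) < Fintype.card Ω := by exact_mod_cast Fintype.card_pos
  have : ∑ _ω : Ω, av f < ∑ ω, f ω :=
    Finset.sum_lt_sum_of_nonempty Finset.univ_nonempty fun ω _ => h ω
  rw [Finset.sum_const, Finset.card_univ, nsmul_eq_mul] at this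
  unfold av at this
  rw [mul_div_cancel₀ _ hc.ne'] at this
  exact lt_irrefl _ this

theorem exists_av_le [Nonempty Ω] (f : Ω → ℝ) : ∃ ω, av f ≤ f ω := by
  by_contra h
  push Not at h
  have hc : (0 : ℝ) < Fintype.card Ω := by exact_mod_cast Fintype.card_pos
  have : ∑ ω, f ω < ∑ _ω : Ω, av f :=
    Finset.sum_lt_sum_of_nonempty Finset.univ_nonempty fun ω _ => h ω
  rw [Finset.sum_const, Finset.card_univ, nsmul_eq_mul] at this
  unfold av at this
  rw [mul_div_cancel₀ _ hc.ne'] at this
  exact lt_irrefl _ this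

/-- Averaging over a map all of whose fibres have the same size. -/
theorem av_fiber [DecidableEq Ω'] {f : Ω' → ℝ} (q : Ω → Ω') (c : ℕ) (hc : 0 < c)
    (h : ∀ a : Ω', (Finset.univ.filter fun ω => q ω = a).card = c) :
    av (fun ω => f (q ω)) = av f := by
  classical
  have h1 : ∑ ω, f (q ω) = c * ∑ a, f a := by
    rw [← Finset.sum_fiberwise_of_maps_to (s := Finset.univ) (t := Finset.univ) (g := q)
      (fun _ _ => Finset.mem_univ _), Finset.mul_sum]
    refine Finset.sum_congr rfl fun a _ => ?_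
    rw [Finset.sum_congr rfl (g := fun _ => f a) fun ω hω => by rw [(Finset.mem_filter.1 hω).2],
      Finset.sum_const, nsmul_eq_mul, h a]
  have h2 : Fintype.card Ω = c * Fintype.card Ω' := by
    rw [← Finset.card_univ, ← Finset.card_univ,
      Finset.card_eq_sum_card_fiberwise (f := q) (t := Finset.univ)
      (fun _ _ => Finset.mem_univ _), Finset.sum_congr rfl fun a _ => h a, Finset.sum_const,
      smul_eq_mul, mul_comm]
  unfold av
  rw [h1, h2, Nat.cast_mul, mul_div_mul_left]
  exact_mod_cast hc.ne'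

/-- If on every cell `{a // q a = b}` the average of `f` is at most `c`, then the average of `f`
is at most `c`. -/
theorem av_le_of_cells {f : Ω → ℝ} {c : ℝ} (hc : 0 ≤ c) [DecidableEq Ω'] (q : Ω → Ω')
    (h : ∀ b, av (fun ω : {ω // q ω = b} => f ω) ≤ c) : av f ≤ c := by
  classical
  rcases isEmpty_or_nonempty Ω with hΩ | hΩ
  · rw [av_of_isEmpty]; exact hc
  have hpos : (0 : ℝ) < Fintype.card Ω := by exact_mod_cast Fintype.card_pos
  unfold av
  rw [div_le_iff₀ hpos]
  have h1 : ∑ ω, f ω = ∑ b, ∑ ω : {ω // q ω = b}, f ω := by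
    rw [← Finset.sum_fiberwise_of_maps_to (s := Finset.univ) (t := Finset.univ) (g := q)
      (fun _ _ => Finset.mem_univ _)]
    refine Finset.sum_congr rfl fun b _ => ?_
    rw [← Finset.sum_subtype_eq_sum_filter]
    simp
  have h2 : (Fintype.card Ω : ℝ) = ∑ b, (Fintype.card {ω // q ω = b} : ℝ) := by
    rw [← Nat.cast_sum]
    congr 1
    rw [← Finset.card_univ, Finset.card_eq_sum_card_fiberwise (f := q) (t := Finset.univ)
      (fun _ _ => Finset.mem_univ _)]
    refine Finset.sum_congr rfl fun b _ => ?_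
    rw [Fintype.card_subtype]
  rw [h1, h2, Finset.mul_sum]
  refine Finset.sum_le_sum fun b _ => ?_
  have h3 := h b
  unfold av at h3
  rcases Nat.eq_zero_or_pos (Fintype.card {ω // q ω = b}) with h0 | h0
  · have : IsEmpty {ω // q ω = b} := Fintype.card_eq_zero_iff.1 h0
    simp
  · rwa [div_le_iff₀ (by exact_mod_cast h0)] at h3

end av

section pr

variable {Ω Ω' : Type*} [Fintype Ω] [Fintype Ω']

theorem pr_congr {E F : Ω → Prop} (h : ∀ ω, E ω ↔ F ω) : pr E = pr F := by
  have : E = F := funext fun ω => propext (h ω)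
  rw [this]

theorem pr_nonneg (E : Ω → Prop) : 0 ≤ pr E := av_nonneg fun ω => by split_ifs <;> norm_num

theorem pr_le_one (E : Ω → Prop) : pr E ≤ 1 :=
  av_le' zero_le_one fun ω => by split_ifs <;> norm_num

theorem pr_mono {E F : Ω → Prop} (h : ∀ ω, E ω → F ω) : pr E ≤ pr F := by
  unfold pr
  refine av_mono fun ω => ?_
  by_cases hE : E ω
  · simp [hE, h ω hE]
  · rw [if_neg hE]; split_ifs <;> norm_num

theorem pr_eq_card (E : Ω → Prop) [DecidablePred E] :
    pr E = ((Finset.univ.filter E).card : ℝ) / Fintype.card Ω := by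
  have h : ∑ ω, (if E ω then (1 : ℝ) else 0) = ((Finset.univ.filter E).card : ℝ) := by simp
  rw [← h]
  unfold pr av
  congr 1
  refine Finset.sum_congr rfl fun ω _ => ?_
  by_cases hE : E ω <;> simp [hE]

theorem pr_false (E : Ω → Prop) (h : ∀ ω, ¬ E ω) : pr E = 0 := by
  classical
  rw [pr_eq_card]
  rw [Finset.filter_false_of_mem fun ω _ => h ω]; simp

theorem pr_true [Nonempty Ω] (E : Ω → Prop) (h : ∀ ω, E ω) : pr E = 1 := by
  unfold pr
  rw [av_congr (g := fun _ => 1) fun ω => by simp [h ω], av_const]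

theorem pr_or_le (E F : Ω → Prop) : pr (fun ω => E ω ∨ F ω) ≤ pr E + pr F := by
  unfold pr
  rw [← av_add]
  refine av_mono fun ω => ?_
  by_cases hE : E ω <;> by_cases hF : F ω <;> simp [hE, hF]

theorem pr_exists_le {κ : Type*} [Fintype κ] (E : κ → Ω → Prop) :
    pr (fun ω => ∃ i, E i ω) ≤ ∑ i, pr (E i) := by
  classical
  unfold pr
  rw [← av_sum]
  refine av_mono fun ω => ?_
  split_ifs with h
  · obtain ⟨i, hi⟩ := h
    calc (1 : ℝ) = if E i ω then (1 : ℝ) else 0 := by simp [hi]
      _ ≤ _ := Finset.single_le_sum (f := fun i => if E i ω then (1 : ℝ) else 0)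
        (fun j _ => by split_ifs <;> norm_num) (Finset.mem_univ i)
  · exact Finset.sum_nonneg fun j _ => by split_ifs <;> norm_num

theorem pr_exists_mem_le {κ : Type*} (s : Finset κ) (E : κ → Ω → Prop) :
    pr (fun ω => ∃ i ∈ s, E i ω) ≤ ∑ i ∈ s, pr (E i) := by
  classical
  unfold pr
  rw [← av_sum]
  refine av_mono fun ω => ?_
  split_ifs with h
  · obtain ⟨i, his, hi⟩ := h
    calc (1 : ℝ) = if E i ω then (1 : ℝ) else 0 := by simp [hi]
      _ ≤ _ := Finset.single_le_sum (f := fun i => if E i ω then (1 : ℝ) else 0)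
        (fun j _ => by split_ifs <;> norm_num) his
  · exact Finset.sum_nonneg fun j _ => by split_ifs <;> norm_num

theorem pr_not [Nonempty Ω] (E : Ω → Prop) : pr (fun ω => ¬ E ω) = 1 - pr E := by
  unfold pr
  rw [eq_sub_iff_add_eq, ← av_add, av_congr (g := fun _ => 1), av_const]
  intro ω
  by_cases h : E ω <;> simp [h]

theorem pr_add_not [Nonempty Ω] (E : Ω → Prop) : pr E + pr (fun ω => ¬ E ω) = 1 := by
  rw [pr_not]; ring

/-- Lower bound for an intersection. -/
theorem pr_and_ge (E F : Ω → Prop) : pr E - pr (fun ω => ¬ F ω) ≤ pr fun ω => E ω ∧ F ω := by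
  have h : pr E ≤ pr (fun ω => E ω ∧ F ω) + pr fun ω => ¬ F ω :=
    (pr_mono fun ω hE => by by_cases hF : F ω <;> simp [hE, hF]).trans (pr_or_le _ _)
  linarith

theorem exists_of_pr_pos {E : Ω → Prop} (h : 0 < pr E) : ∃ ω, E ω := by
  by_contra hc
  push Not at hc
  rw [pr_false E hc] at h
  exact lt_irrefl _ h

theorem exists_of_pr_lt_one [Nonempty Ω] {E : Ω → Prop} (h : pr E < 1) : ∃ ω, ¬ E ω := by
  by_contra hc
  push Not at hc
  rw [pr_true E hc] at h
  exact lt_irrefl _ h

theorem pr_equiv (e : Ω ≃ Ω') (E : Ω' → Prop) : pr (fun ω => E (e ω)) = pr E := by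
  classical
  unfold pr
  exact av_equiv e fun ω => if E ω then (1 : ℝ) else 0

theorem pr_prod (E : Ω → Ω' → Prop) :
    pr (fun p : Ω × Ω' => E p.1 p.2) = av fun a => pr fun b => E a b := by
  classical
  unfold pr
  exact av_prod fun a b => if E a b then (1 : ℝ) else 0

theorem pr_prod' (E : Ω → Ω' → Prop) :
    pr (fun p : Ω × Ω' => E p.1 p.2) = av fun b => pr fun a => E a b := by
  classical
  rw [pr_prod]
  unfold pr
  exact av_comm _

theorem pr_prod_and (E : Ω → Prop) (F : Ω' → Prop) :
    pr (fun p : Ω × Ω' => E p.1 ∧ F p.2) = pr E * pr F := by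
  classical
  rw [pr_prod fun a b => E a ∧ F b]
  have : ∀ a, pr (fun b => E a ∧ F b) = (if E a then (1 : ℝ) else 0) * pr F := by
    intro a
    by_cases h : E a
    · simp [h]
    · simp only [h, false_and, if_false, zero_mul]
      exact pr_false _ fun _ => id
  rw [av_congr this, av_mul_right]
  rfl

theorem pr_fst [Nonempty Ω'] (E : Ω → Prop) : pr (fun p : Ω × Ω' => E p.1) = pr E := by
  have h := pr_prod_and (Ω := Ω) (Ω' := Ω') E fun _ => True
  rw [pr_true (Ω := Ω') (fun _ => True) fun _ => trivial, mul_one] at h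
  rw [← h]
  exact pr_congr fun p => by simp

theorem pr_snd [Nonempty Ω] (E : Ω' → Prop) : pr (fun p : Ω × Ω' => E p.2) = pr E := by
  have h := pr_prod_and (Ω := Ω) (Ω' := Ω') (fun _ => True) E
  rw [pr_true (Ω := Ω) (fun _ => True) fun _ => trivial, one_mul] at h
  rw [← h]
  exact pr_congr fun p => by simp

/-- A popular value: if with probability at least `a` one of `M` events happens, one of them has
probability at least `a / M`. -/
theorem exists_pr_ge {M : ℕ} {E : Fin M → Ω → Prop} {a : ℝ} (ha : 0 < a)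
    (h : a ≤ pr fun ω => ∃ i, E i ω) : ∃ i, a / M ≤ pr (E i) := by
  have h2 := h.trans (pr_exists_le E)
  by_contra hc
  push Not at hc
  rcases Nat.eq_zero_or_pos M with rfl | hM
  · simp at h2; linarith
  have : ∑ i, pr (E i) < ∑ _i : Fin M, a / M :=
    Finset.sum_lt_sum_of_nonempty (by have := Fin.pos_iff_nonempty.1 hM; exact
      Finset.univ_nonempty) fun i _ => hc i
  rw [Finset.sum_const, Finset.card_univ, Fintype.card_fin, nsmul_eq_mul,
    mul_div_cancel₀ _ (by exact_mod_cast hM.ne')] at this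
  linarith

/-- The same with an arbitrary finite index type. -/
theorem exists_pr_ge' {κ : Type*} [Fintype κ] {E : κ → Ω → Prop} {a : ℝ} (ha : 0 < a)
    (h : a ≤ pr fun ω => ∃ i, E i ω) : ∃ i, a / Fintype.card κ ≤ pr (E i) := by
  obtain ⟨i, hi⟩ := exists_pr_ge (M := Fintype.card κ)
    (E := fun i => E ((Fintype.equivFin κ).symm i)) ha
    (h.trans (pr_mono fun ω ⟨i, hi⟩ => ⟨Fintype.equivFin κ i, by simpa using hi⟩))
  exact ⟨_, hi⟩

/-- Markov: an average of a `[0, 1]`-valued function is at most `P(f ≥ c) + c`. -/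
theorem av_le_pr_add {f : Ω → ℝ} (h1 : ∀ ω, f ω ≤ 1) {c : ℝ} (hc : 0 ≤ c) :
    av f ≤ pr (fun ω => c ≤ f ω) + c := by
  classical
  rcases isEmpty_or_nonempty Ω with hΩ | hΩ
  · rw [av_of_isEmpty]; exact add_nonneg (pr_nonneg _) hc
  unfold pr
  nth_rw 3 [← av_const (Ω := Ω) c]
  rw [← av_add]
  refine av_mono fun ω => ?_
  split_ifs with h
  · linarith [h1 ω]
  · linarith [not_le.1 h]

/-- Markov's inequality. -/
theorem pr_ge_le {f : Ω → ℝ} (h0 : ∀ ω, 0 ≤ f ω) {c : ℝ} (hc : 0 < c) :
    pr (fun ω => c ≤ f ω) ≤ av f / c := by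
  classical
  rw [le_div_iff₀ hc]
  unfold pr
  rw [← av_mul_right]
  refine av_mono fun ω => ?_
  split_ifs with h
  · linarith
  · simpa using h0 ω

theorem pr_or_eq_add {E F : Ω → Prop} (h : ∀ ω, ¬ (E ω ∧ F ω)) :
    pr (fun ω => E ω ∨ F ω) = pr E + pr F := by
  unfold pr
  rw [← av_add]
  refine av_congr fun ω => ?_
  by_cases hE : E ω <;> by_cases hF : F ω <;> simp [hE, hF]
  exact h ω ⟨hE, hF⟩

end pr

section pi

/-- Replace the coordinates in `A` by those of `a`. -/
def glue {I Y : Type*} [DecidableEq I] (A : Finset I) (a b : I → Y) : I → Y :=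
  fun i => if i ∈ A then a i else b i

@[simp] theorem glue_of_mem {I Y : Type*} [DecidableEq I] {A : Finset I} {a b : I → Y} {i : I}
    (h : i ∈ A) : glue A a b i = a i := if_pos h

@[simp] theorem glue_of_notMem {I Y : Type*} [DecidableEq I] {A : Finset I} {a b : I → Y} {i : I}
    (h : i ∉ A) : glue A a b i = b i := if_neg h

theorem glue_map {I Y Y' : Type*} [DecidableEq I] (A : Finset I) (a b : I → Y) (c : Y → Y') :
    (fun i => c (glue A a b i)) = glue A (fun i => c (a i)) fun i => c (b i) := by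
  funext i; unfold glue; split_ifs <;> rfl

variable {I Ω : Type*}

/-- `E` depends only on the coordinates in `A`. -/
def DepOn {I Y : Type*} (A : Finset I) (E : (I → Y) → Prop) : Prop :=
  ∀ a b : I → Y, (∀ i ∈ A, a i = b i) → (E a ↔ E b)

theorem DepOn.mono {Y : Type*} {A B : Finset I} (h : A ⊆ B) {E : (I → Y) → Prop}
    (hE : DepOn A E) : DepOn B E := fun a b hab => hE a b fun i hi => hab i (h hi)

theorem DepOn.not {Y : Type*} {A : Finset I} {E : (I → Y) → Prop} (hE : DepOn A E) :
    DepOn A fun a => ¬ E a := fun a b hab => not_congr (hE a b hab)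

theorem DepOn.and {Y : Type*} {A : Finset I} {E F : (I → Y) → Prop} (hE : DepOn A E)
    (hF : DepOn A F) : DepOn A fun a => E a ∧ F a :=
  fun a b hab => and_congr (hE a b hab) (hF a b hab)

variable [Fintype I] [DecidableEq I] [Fintype Ω]

/-- Resampling: averaging `f ω` is the same as averaging `f (glue A ω₀ ω)`. -/
theorem av_glue (A : Finset I) (f : (I → Ω) → ℝ) :
    av f = av fun a => av fun b => f (glue A a b) := by
  classical
  rcases isEmpty_or_nonempty (I → Ω) with hΩ | hΩ
  · rw [av_of_isEmpty, av_of_isEmpty]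
  let e : (I → Ω) × (I → Ω) ≃ (I → Ω) × (I → Ω) :=
    { toFun := fun p => (glue A p.1 p.2, glue A p.2 p.1)
      invFun := fun p => (glue A p.1 p.2, glue A p.2 p.1)
      left_inv := fun p => by
        refine Prod.ext ?_ ?_ <;> funext i <;> by_cases h : i ∈ A <;> simp [h]
      right_inv := fun p => by
        refine Prod.ext ?_ ?_ <;> funext i <;> by_cases h : i ∈ A <;> simp [h] }
  rw [← av_prod fun a b => f (glue A a b)]
  have h1 : av (fun p : (I → Ω) × (I → Ω) => f p.1) = av f := by
    rw [av_prod fun a (_ : I → Ω) => f a]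
    exact av_congr fun a => av_const _
  rw [← h1, ← av_equiv e fun p => f p.1]
  rfl

theorem pr_glue (A : Finset I) (E : (I → Ω) → Prop) :
    pr E = av fun a => pr fun b => E (glue A a b) := by
  classical
  unfold pr
  exact av_glue A _

theorem pr_and_of_disjoint {A B : Finset I} (hAB : Disjoint A B) {E F : (I → Ω) → Prop}
    (hE : DepOn A E) (hF : DepOn B F) : pr (fun ω => E ω ∧ F ω) = pr E * pr F := by
  classical
  rw [pr_glue A, ← pr_prod_and, pr_prod fun a b => E a ∧ F b]
  refine av_congr fun a => pr_congr fun b => and_congr (hE _ _ fun i hi => by simp [hi])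
    (hF _ _ fun i hi => ?_)
  have : i ∉ A := fun h => (Finset.disjoint_left.1 hAB h hi).elim
  simp [this]

/-- Independence of events depending on pairwise disjoint sets of coordinates. -/
theorem pr_forall_mem_of_disjoint [Nonempty Ω] {κ : Type*} (s : Finset κ) (A : κ → Finset I)
    (hA : ∀ i ∈ s, ∀ j ∈ s, i ≠ j → Disjoint (A i) (A j)) (E : κ → (I → Ω) → Prop)
    (hE : ∀ i ∈ s, DepOn (A i) (E i)) : pr (fun ω => ∀ i ∈ s, E i ω) = ∏ i ∈ s, pr (E i) := by
  classical
  induction s using Finset.induction_on with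
  | empty => simp only [Finset.notMem_empty, false_imp_iff, implies_true, Finset.prod_empty]
             exact pr_true _ fun _ => trivial
  | insert i s his ih =>
    rw [Finset.prod_insert his, ← ih
      (fun j hj k hk => hA j (Finset.mem_insert_of_mem hj) k (Finset.mem_insert_of_mem hk))
      (fun j hj => hE j (Finset.mem_insert_of_mem hj)),
      ← pr_and_of_disjoint (A := A i) (B := s.biUnion A) ?_ (hE i (Finset.mem_insert_self _ _)) ?_]
    · exact pr_congr fun ω => by simp
    · rw [Finset.disjoint_biUnion_right]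
      intro j hj
      exact hA i (Finset.mem_insert_self _ _) j (Finset.mem_insert_of_mem hj) fun h => his (h ▸ hj)
    · intro a b hab
      refine forall₂_congr fun j hj => (hE j (Finset.mem_insert_of_mem hj)) a b fun k hk =>
        hab k (Finset.mem_biUnion.2 ⟨j, hj, hk⟩)

/-- Averages over coordinates picked out by an injection. -/
theorem av_comp_injective {J : Type*} [Fintype J] [DecidableEq J] [Nonempty Ω] (q : J → I)
    (hq : Function.Injective q) (f : (J → Ω) → ℝ) :
    av (fun ω : I → Ω => f fun j => ω (q j)) = av f := by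
  classical
  rcases isEmpty_or_nonempty J with hJ | hJ
  · have : ∀ a : J → Ω, f a = f (fun j => hJ.elim j) := fun a => by
      congr 1; exact Subsingleton.elim _ _
    rw [av_congr (fun ω => this _), av_congr this, av_const, av_const]
  let inv := Function.invFun q
  have hinv : ∀ j, inv (q j) = j := Function.leftInverse_invFun hq
  let e : (I → Ω) × (J → Ω) ≃ (I → Ω) × (J → Ω) :=
    { toFun := fun p => (fun i => if i ∈ Set.range q then p.2 (inv i) else p.1 i,
        fun j => p.1 (q j))
      invFun := fun p => (fun i => if i ∈ Set.range q then p.2 (inv i) else p.1 i,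
        fun j => p.1 (q j))
      left_inv := fun p => by
        refine Prod.ext ?_ ?_
        · funext i
          by_cases h : i ∈ Set.range q
          · obtain ⟨j, rfl⟩ := h; simp [hinv]
          · simp only [h, if_false]
        · funext j; simp [hinv]
      right_inv := fun p => by
        refine Prod.ext ?_ ?_
        · funext i
          by_cases h : i ∈ Set.range q
          · obtain ⟨j, rfl⟩ := h; simp [hinv]
          · simp only [h, if_false]
        · funext j; simp [hinv] }
  have h1 : av (fun p : (I → Ω) × (J → Ω) => f fun j => p.1 (q j)) =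
      av (fun ω : I → Ω => f fun j => ω (q j)) := by
    rw [av_prod fun (a : I → Ω) (_ : J → Ω) => f fun j => a (q j)]
    exact av_congr fun a => av_const _
  have h2 : av (fun p : (I → Ω) × (J → Ω) => f p.2) = av f := by
    rw [av_prod fun (_ : I → Ω) (b : J → Ω) => f b]
    exact av_const _
  rw [← h1, ← h2, ← av_equiv e fun p => f p.2]
  rfl

theorem pr_comp_injective {J : Type*} [Fintype J] [DecidableEq J] [Nonempty Ω] (q : J → I)
    (hq : Function.Injective q) (E : (J → Ω) → Prop) :
    pr (fun ω : I → Ω => E fun j => ω (q j)) = pr E := by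
  classical
  unfold pr
  exact av_comp_injective q hq fun ω => if E ω then (1 : ℝ) else 0

end pi

section piprod

/-- The probability that all coordinates satisfy their condition is the product. -/
theorem pr_pi {I : Type*} [Fintype I] [DecidableEq I] {Ω : I → Type*} [∀ i, Fintype (Ω i)]
    (E : ∀ i, Ω i → Prop) : pr (fun ω : ∀ i, Ω i => ∀ i, E i (ω i)) = ∏ i, pr (E i) := by
  classical
  simp only [pr_eq_card]
  rw [Finset.prod_div_distrib, ← Nat.cast_prod, ← Nat.cast_prod, Fintype.card_pi,
    ← Fintype.card_piFinset]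
  congr 3
  ext ω
  simp [Fintype.mem_piFinset]

theorem pr_pi_const {I Ω : Type*} [Fintype I] [DecidableEq I] [Fintype Ω] (E : Ω → Prop) :
    pr (fun ω : I → Ω => ∀ i, E (ω i)) = pr E ^ Fintype.card I := by
  rw [pr_pi (Ω := fun _ => Ω) fun _ => E, Finset.prod_const, Finset.card_univ]

/-- Averages over a product of two families, coordinate by coordinate. -/
theorem av_prod_pi {I Ω : Type*} [Fintype I] [DecidableEq I] [Fintype Ω] (f : I → Ω → ℝ) :
    av (fun ω : I → Ω => ∏ i, f i (ω i)) = ∏ i, av (f i) := by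
  classical
  unfold av
  rw [Finset.prod_div_distrib, Finset.prod_const, Finset.card_univ, Fintype.card_fun,
    Nat.cast_pow, Finset.prod_univ_sum, Fintype.piFinset_univ]

end piprod

end Pool.Agent.W_MP_5f6b2a_mon
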