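import Pool.Agent.W_MP_5f6b2a_mon.Defs
import Pool.Agent.W_MP_5f6b2a_mon.Pr

/-!
Internal definitions for the strictness of the monotone W-hierarchy.

An input is a map `x : ι → E → Bool` (a row `x l : E → Bool` for every `l : ι`).
-/

namespace Pool.Agent.W_MP_5f6b2a_mon

open Finset

/-! ### Inputs -/

/-- The input whose bit `(l, e)` is `true` iff the sample `b l e` is `0`. -/
def nul {ι E : Type} {B : ℕ} (b : ι → E → Fin B) : ι → E → Bool :=
  fun l e => decide ((b l e : ℕ) = 0)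

/-- Bitwise AND of `mt` samples. -/
def meet {k mt B : ℕ} {E : Type} (b : Fin mt → Fin k → E → Fin B) : Fin k → E → Bool :=
  fun j e => decide (∀ u, ((b u j e : Fin B) : ℕ) = 0)

/-- The contents `κ` on `K`, `y` on `J` and empty elsewhere. -/
def mix {k : ℕ} {E : Type} (K J : Finset (Fin k)) (κ y : Fin k → E → Bool) : Fin k → E → Bool :=
  fun j => if j ∈ K then κ j else if j ∈ J then y j else ⊥

/-- The input in which all rows of colour `j` have contents `z j`. -/
def full {k n : ℕ} {E : Type} (z : Fin k → E → Bool) : Fin k × Fin n → E → Bool := fun l => z l.1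

/-- The rows selected by `S` in the colours `J`. -/
def sel {k n : ℕ} (S : Fin k → Fin n) (J : Finset (Fin k)) : Finset (Fin k × Fin n) :=
  J.image fun j => (j, S j)

/-- Positive inputs: contents `z` on the rows selected by `S`, other rows empty. -/
def posIn {k n : ℕ} {E : Type} (S : Fin k → Fin n) (z : Fin k → E → Bool) :
    Fin k × Fin n → E → Bool := fun l => if l.2 = S l.1 then z l.1 else ⊥

/-- Negative inputs: contents `z` on the rows selected by `S`, other rows given by `b`. -/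
def negIn {k n B : ℕ} {E : Type} (S : Fin k → Fin n) (z : Fin k → E → Bool)
    (b : Fin k × Fin n → E → Fin B) : Fin k × Fin n → E → Bool :=
  fun l => if l.2 = S l.1 then z l.1 else nul b l

/-! ### Local families -/

/-- A family of monotone local tests, each reading at most `r` rows, all of them non-empty. -/
structure Fam (ι E : Type) (r : ℕ) where
  acc : Finset ι → (ι → E → Bool) → Prop
  mono : ∀ R x x', (∀ l ∈ R, x l ≤ x' l) → acc R x → acc R x'
  card_le : ∀ R x, acc R x → R.card ≤ r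
  ne_bot : ∀ R x, acc R x → ∀ l ∈ R, x l ≠ ⊥

namespace Fam

variable {ι E : Type} {r : ℕ}

/-- The input `x` is accepted by one of the tests. -/
def val (G : Fam ι E r) (x : ι → E → Bool) : Prop := ∃ R, G.acc R x

/-- `R` is a minimal accepting set of rows. -/
def Min (G : Fam ι E r) (R : Finset ι) (x : ι → E → Bool) : Prop :=
  G.acc R x ∧ ∀ R', R' ⊂ R → ¬ G.acc R' x

variable [Fintype ι] [DecidableEq ι] [Fintype E] [DecidableEq E]

/-- The probability that `R ∪ Q` accepts when the rows outside `R` are replaced by samples. -/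
noncomputable def hv (B : ℕ) (G : Fam ι E r) (R Q : Finset ι) (x : ι → E → Bool) : ℝ :=
  pr fun b : ι → E → Fin B => G.acc (R ∪ Q) (glue R x (nul b))

/-- There are `p` pairwise disjoint heavy petals around `R`. -/
def Petals (B : ℕ) (θ : ℝ) (p : ℕ) (G : Fam ι E r) (R : Finset ι) (x : ι → E → Bool) : Prop :=
  ∃ 𝒬 : Finset (Finset ι), 𝒬.card = p ∧ (∀ Q ∈ 𝒬, Q.Nonempty ∧ Disjoint Q R ∧ θ ≤ G.hv B R Q x) ∧
    ∀ Q ∈ 𝒬, ∀ Q' ∈ 𝒬, Q ≠ Q' → Disjoint Q Q'

/-- Closed families. -/
def Closed (B : ℕ) (θ : ℝ) (p : ℕ) (G : Fam ι E r) : Prop :=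
  ∀ R x, G.Petals B θ p R x → G.acc R x

end Fam

/-- Monotone straight-line programs over inputs `x : ι → E → Bool`. -/
def SProg {ι E : Type} {s : ℕ} (p : Fin s → (ι → E → Bool) → Prop) : Prop :=
  ∀ i, (∃ l e, ∀ x, p i x ↔ x l e = true) ∨ (∀ x, p i x) ∨ (∀ x, ¬ p i x) ∨
    (∃ j k, j < i ∧ k < i ∧ ∀ x, p i x ↔ p j x ∧ p k x) ∨
    (∃ j k, j < i ∧ k < i ∧ ∀ x, p i x ↔ p j x ∨ p k x)

/-! ### Levelled combinations -/

/-- `Lv 𝓑 M w b f`: `f` is obtained from members of `𝓑` by `w` alternating quantifiers over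
`Fin M`, the first one being `∀` iff `b = true`. -/
def Lv {Z : Type} (𝓑 : (Z → Prop) → Prop) (M : ℕ) : ℕ → Bool → (Z → Prop) → Prop
  | 0, _, f => 𝓑 f
  | w + 1, true, f => ∃ g : Fin M → Z → Prop, (∀ i, Lv 𝓑 M w false (g i)) ∧ ∀ z, f z ↔ ∀ i, g i z
  | w + 1, false, f => ∃ g : Fin M → Z → Prop, (∀ i, Lv 𝓑 M w true (g i)) ∧ ∀ z, f z ↔ ∃ i, g i z

/-- Monotone Boolean combinations of `e` members of `𝓡`. -/
def JnOf {Z : Type} (𝓡 : (Z → Prop) → Prop) (e : ℕ) (f : Z → Prop) : Prop :=
  ∃ (F : Fin e → Z → Prop) (β : (Fin e → Prop) → Prop), (∀ c, 𝓡 (F c)) ∧ Monotone β ∧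
    ∀ z, f z ↔ β fun c => F c z

/-- The coordinate functions. -/
def Coord {Y : ℕ} (f : (Fin Y → Prop) → Prop) : Prop := ∃ i, ∀ v, f v ↔ v i

/-- Disjunctions of monotone tests each of which reads at most `r` of the `k` rows. -/
def RowFn {k : ℕ} {E : Type} (r : ℕ) (f : (Fin k → E → Bool) → Prop) : Prop :=
  ∃ G : Finset (Fin k) → (Fin k → E → Bool) → Prop, (∀ J z, G J z → J.card ≤ r) ∧
    (∀ J z z', (∀ j ∈ J, z j ≤ z' j) → G J z → G J z') ∧ ∀ z, f z ↔ ∃ J, G J z

/-! ### Levels -/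

/-- `∀ l ∈ S` (if `b = true`) or `∃ l ∈ S` (if `b = false`). -/
def bott (b : Bool) {ι : Type} (S : Finset ι) (φ : ι → Prop) : Prop :=
  if b then ∀ l ∈ S, φ l else ∃ l ∈ S, φ l

/-- The data of a level: the index set `E` of the quantifiers, the alternating quantifier `Fq`
over `E`, the sample space `P` of positive contents `w`, the sample space `Z` of negative
contents `z` and a typicality condition `Ty`. -/
structure Lev (k : ℕ) where
  E : Type
  fE : Fintype E
  dE : DecidableEq E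
  Fq : (E → Prop) → Prop
  P : Type
  fP : Fintype P
  nP : Nonempty P
  w : P → Fin k → E → Bool
  Z : Type
  fZ : Fintype Z
  nZ : Nonempty Z
  z : Z → Fin k → E → Bool
  Ty : Finset (Fin k) → (Fin k → E → Bool) → Prop

attribute [instance] Lev.fE Lev.dE Lev.fP Lev.nP Lev.fZ Lev.nZ

/-- Domination of the positive contents by the AND of `mt` null samples, conditionally on the
contents of the rows in `K`. -/
def Dom {k : ℕ} {E P : Type} [Fintype E] [DecidableEq E] [Fintype P]
    (w : P → Fin k → E → Bool) (Ty : Finset (Fin k) → (Fin k → E → Bool) → Prop)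
    (B mt r : ℕ) (err : ℝ) : Prop :=
  ∀ (K J : Finset (Fin k)), Disjoint K J → K.card ≤ 2 * r → J.card ≤ r → ∀ κ, Ty K κ →
    ∀ g : (Fin k → E → Bool) → ℝ, Monotone g → (∀ y, 0 ≤ g y) → (∀ y, g y ≤ 1) →
      av (fun ω : {ω : P // ∀ j ∈ K, w ω j = κ j} => g (mix K J κ (w ω))) ≤
        av (fun b : Fin mt → Fin k → E → Fin B => g (mix K J κ (meet b))) + err

namespace Lev

variable {k : ℕ} (L : Lev k)

/-- Positive contents are positive. -/
def PosOK (bt : Bool) : Prop := ∀ ω, L.Fq fun e => bott bt (univ : Finset (Fin k)) fun j =>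
  L.w ω j e = true

/-- The quantifier is monotone. -/
def FqMono : Prop := ∀ φ ψ : L.E → Prop, (∀ e, φ e → ψ e) → L.Fq φ → L.Fq ψ

/-- The typicality condition depends only on the rows in `K` and is antitone in `K`; positive
contents which are empty on `K` are typical on `K`. -/
def TyLoc : Prop := (∀ K κ κ', (∀ j ∈ K, κ j = κ' j) → L.Ty K κ → L.Ty K κ') ∧
  (∀ K K' κ, K ⊆ K' → L.Ty K' κ → L.Ty K κ) ∧
  ∀ K ω, (∀ j ∈ K, L.w ω j = ⊥) → L.Ty K (L.w ω)

/-- Positive contents are typical with probability at least `1 - δ`. -/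
def TyProb (r : ℕ) (δ : ℝ) : Prop :=
  pr (fun ω : L.P => ¬ ∀ K : Finset (Fin k), K.card ≤ 2 * r → L.Ty K (L.w ω)) ≤ δ

/-- The domination property. -/
def DomOK (B mt r : ℕ) (err : ℝ) : Prop := Dom L.w L.Ty B mt r err

/-- Negative contents together with null rows elsewhere are negative, with high probability for
every fixed set of rows. -/
def NullOK (bt : Bool) (B : ℕ) (η : ℝ) : Prop :=
  ∀ ζ : L.Z,
    (¬ L.Fq fun e => bott bt (univ : Finset (Fin k)) fun j => L.z ζ j e = true) ∧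
    ∀ (n : ℕ) (S : Fin k → Fin n) (S2 : Finset (Fin k × Fin n)), S2.card ≤ k →
      (bt = true → S2.card = k ∧ S2 ≠ sel S univ) →
      pr (fun b : Fin k × Fin n → L.E → Fin B =>
        L.Fq fun e => bott bt S2 fun l => negIn S (L.z ζ) b l e = true) ≤ η

/-- The transfer property: disjunctions of levelled combinations of row functions which accept
half of the positive contents accept an eighth of the negative contents. -/
def QOK (w0 r M e : ℕ) : Prop :=
  ∀ A : Fin M → (Fin k → L.E → Bool) → Prop, (∀ φ, Lv (JnOf (RowFn r) e) M w0 true (A φ)) →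
    1 / 2 ≤ pr (fun ω : L.P => ∃ φ, A φ (L.w ω)) → 1 / 8 ≤ pr fun ζ : L.Z => ∃ φ, A φ (L.z ζ)

/-- Two more quantifiers, over `Fin M1` and `Fin M2`. -/
def step (M1 M2 : ℕ) (h1 : 0 < M1) (h2 : 0 < M2) : Lev k where
  E := Fin M1 × Fin M2 × L.E
  fE := inferInstance
  dE := inferInstance
  Fq φ := ∀ i, ∃ j, L.Fq fun e => φ (i, j, e)
  P := Fin M1 → Fin M2 × L.P
  fP := inferInstance
  nP := by
    have := Fin.pos_iff_nonempty.1 h2
    infer_instance
  w ω j := fun e => if e.2.1 = (ω e.1).1 then L.w (ω e.1).2 j e.2.2 else false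
  Z := Fin M1 × (Fin M2 → L.Z)
  fZ := inferInstance
  nZ := by
    have := Fin.pos_iff_nonempty.1 h1
    infer_instance
  z ζ j := fun e => if e.1 = ζ.1 then L.z (ζ.2 e.2.1) j e.2.2 else true
  Ty K κ := ∀ i s, (∀ j ∈ K, ∀ e, κ j (i, s, e) = false) ∨ L.Ty K fun j e => κ j (i, s, e)

end Lev

end Pool.Agent.W_MP_5f6b2a_mon
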