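import Pool.Agent.W_MP_5f6b2a_mon.Approx
import Pool.Agent.W_MP_5f6b2a_mon.LvLemmas

/-!
The lower bound for one level, all parameters explicit.
-/

namespace Pool.Agent.W_MP_5f6b2a_mon

open Finset

/-- The conversion of the bottom quantifier over the selected rows. -/
theorem CoreThm_bott_sel {k n : ℕ} (bt : Bool) (S : Fin k → Fin n) (φ : Fin k → Prop)
    (ψ : Fin k × Fin n → Prop) (h : ∀ j, ψ (j, S j) ↔ φ j) :
    bott bt (sel S univ) ψ ↔ bott bt (univ : Finset (Fin k)) φ := by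
  cases bt
  · simp only [bott, Bool.false_eq_true, if_false, sel, mem_image, mem_univ, true_and]
    constructor
    · rintro ⟨l, ⟨j, rfl⟩, hl⟩
      exact ⟨j, (h j).1 hl⟩
    · rintro ⟨j, hj⟩
      exact ⟨(j, S j), ⟨j, rfl⟩, (h j).2 hj⟩
  · simp only [bott, if_true, sel, mem_image, mem_univ, true_and]
    constructor
    · intro hl j _
      exact (h j).1 (hl (j, S j) ⟨j, rfl⟩)
    · rintro hl l ⟨j, rfl⟩
      exact (h j).2 (hl j trivial)

theorem CoreThm_posIn_self {k n : ℕ} {E : Type} (S : Fin k → Fin n) (z : Fin k → E → Bool)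
    (j : Fin k) : posIn S z (j, S j) = z j := by
  simp [posIn]

theorem CoreThm_negIn_self {k n B : ℕ} {E : Type} (S : Fin k → Fin n) (z : Fin k → E → Bool)
    (b : Fin k × Fin n → E → Fin B) (j : Fin k) : negIn S z b (j, S j) = z j := by
  simp [negIn]

theorem CoreThm_posIn_le_negIn {k n B : ℕ} {E : Type} (S : Fin k → Fin n)
    (z : Fin k → E → Bool) (b : Fin k × Fin n → E → Fin B) (l : Fin k × Fin n) :
    posIn S z l ≤ negIn S z b l := by
  unfold posIn negIn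
  split_ifs
  · exact le_rfl
  · exact bot_le

/-- A local family, restricted to the inputs `posIn S z`, is a row function of `z`. -/
theorem CoreThm_rowFn {k n r : ℕ} {E : Type} (G : Fam (Fin k × Fin n) E r) (S : Fin k → Fin n) :
    RowFn r fun z : Fin k → E → Bool => G.val (posIn S z) := by
  refine ⟨fun J z => J.card ≤ r ∧ G.acc (sel S J) (posIn S z), fun J z h => h.1, ?_, ?_⟩
  · intro J z z' hz h
    refine ⟨h.1, G.mono _ _ _ ?_ h.2⟩
    intro l hl
    obtain ⟨j, hj, rfl⟩ := mem_image.1 hl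
    rw [CoreThm_posIn_self, CoreThm_posIn_self]
    exact hz j hj
  · intro z
    constructor
    · rintro ⟨R, hR⟩
      have hl : ∀ l ∈ R, l.2 = S l.1 := by
        intro l hl
        by_contra hc
        refine G.ne_bot R _ hR l hl ?_
        unfold posIn
        rw [if_neg hc]
      have hsel : sel S (R.image Prod.fst) = R := by
        ext l
        simp only [sel, mem_image]
        constructor
        · rintro ⟨j, ⟨l', hl', rfl⟩, rfl⟩
          rw [← hl l' hl']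
          exact hl'
        · intro h
          exact ⟨l.1, ⟨l, h, rfl⟩, by rw [← hl l h]⟩
      refine ⟨R.image Prod.fst, (card_image_le).trans (G.card_le R _ hR), ?_⟩
      rw [hsel]; exact hR
    · rintro ⟨J, _, hJ⟩
      exact ⟨_, hJ⟩

theorem CoreThm_val_neg {k n r B : ℕ} {E : Type} (G : Fam (Fin k × Fin n) E r)
    (S : Fin k → Fin n) (z : Fin k → E → Bool) (b : Fin k × Fin n → E → Fin B)
    (h : G.val (posIn S z)) : G.val (negIn S z b) := by
  obtain ⟨R, hR⟩ := h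
  exact ⟨R, G.mono R _ _ (fun l _ => CoreThm_posIn_le_negIn S z b l) hR⟩

theorem CoreThm_coord_monotone {Y : ℕ} (f : (Fin Y → Prop) → Prop) (h : Coord f) :
    Monotone f := by
  obtain ⟨i, hi⟩ := h
  intro v v' hv h1
  exact (hi v').2 (hv i ((hi v).1 h1))

/-- Sum bound. -/
theorem CoreThm_sum_le {Y s : ℕ} {c : ℝ} (hc : 0 ≤ c) (s' : Fin Y → ℕ) (hs : ∀ i, s' i ≤ s)
    (q : Fin Y → ℝ) (hq : ∀ i, q i ≤ s' i * c) : ∑ i, q i ≤ (Y : ℝ) * (s * c) := by
  calc ∑ i, q i ≤ ∑ _i : Fin Y, ((s : ℝ) * c) := by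
        refine sum_le_sum fun i _ => (hq i).trans ?_
        exact mul_le_mul_of_nonneg_right (by exact_mod_cast hs i) hc
    _ = (Y : ℝ) * (s * c) := by rw [sum_const, card_univ, Fintype.card_fin, nsmul_eq_mul]

theorem core {k n r B mt p Y M e s w₀ : ℕ} (L : Lev k) (bt : Bool) {θ err δ η : ℝ}
    (hr : 1 ≤ r) (hn : p * r + 1 ≤ n) (hp : 1 ≤ p) (hB : 0 < B) (hθ : 0 < θ) (hθ1 : θ ≤ 1)
    (hle : θ ^ mt + err ≤ (1 / (n : ℝ)) ^ r)
    (hTy : L.TyLoc) (hTyP : L.TyProb r δ) (hDom : L.DomOK B mt r err) (hPos : L.PosOK bt)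
    (hNull : L.NullOK bt B η) (hQ : L.QOK w₀ r M e)
    (h1 : δ ≤ 1 / 8)
    (h2 : (Y : ℝ) * (s * (4 ^ k * (((p * r + 1 : ℕ) : ℝ) / n) ^ (r + 1))) ≤ 1 / 8)
    (h3 : (Y : ℝ) * (s * ((((k * n : ℕ) : ℝ) + 1) ^ r * (1 - θ) ^ (p - k))) ≤ 1 / 4)
    (h4 : (((k * n : ℕ) : ℝ) + 1) ^ k * η ≤ 1 / 4)
    (y : Fin Y → (Fin k × Fin n → L.E → Bool) → Prop)
    (hy : ∀ i, ∃ (s' : ℕ) (f : Fin s' → (Fin k × Fin n → L.E → Bool) → Prop), s' ≤ s ∧
      SProg f ∧ ∃ j, ∀ x, y i x ↔ f j x)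
    (Φ : Fin M → (Fin Y → Prop) → Prop) (hΦ : ∀ φ, Lv (JnOf Coord e) M w₀ true (Φ φ))
    (hF : ∀ x, (∃ φ, Φ φ fun i => y i x) ↔
      ∃ S₂ : Finset (Fin k × Fin n), S₂.card ≤ k ∧ (bt = true → S₂.card = k) ∧
        L.Fq fun e => bott bt S₂ fun l => x l e = true) : False := by
  classical
  have hn0 : 0 < n := by omega
  haveI : Nonempty (Fin n) := Fin.pos_iff_nonempty.1 hn0
  haveI : Nonempty (Fin B) := Fin.pos_iff_nonempty.1 hB
  choose s' f hs' hf j hj using hy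
  have hA := fun i => approx L.w L.Ty hr hn hp hB hθ hθ1 hTy.1 hTy.2.1 hDom hle (f i) (hf i)
  choose G hG1 hG2 using hA
  -- the gates
  let g : Fin Y → Fam (Fin k × Fin n) L.E r := fun i => G i (j i)
  have hc1 : (0 : ℝ) ≤ 4 ^ k * (((p * r + 1 : ℕ) : ℝ) / n) ^ (r + 1) := by positivity
  have hc2 : (0 : ℝ) ≤ (((k * n : ℕ) : ℝ) + 1) ^ r * (1 - θ) ^ (p - k) := by
    have : 0 ≤ 1 - θ := by linarith
    positivity
  -- positive errors
  have hpos1 : pr (fun q : (Fin k → Fin n) × L.P =>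
      ∃ i, (∀ K : Finset (Fin k), K.card ≤ 2 * r → L.Ty K (L.w q.2)) ∧
        y i (posIn q.1 (L.w q.2)) ∧ ¬ (g i).val (posIn q.1 (L.w q.2))) ≤ 1 / 8 := by
    refine (pr_exists_le _).trans ((CoreThm_sum_le hc1 s' hs' _ fun i => ?_).trans h2)
    refine le_trans (pr_mono fun q hq => ?_) (hG1 i)
    exact ⟨hq.1, j i, (hj i _).1 hq.2.1, hq.2.2⟩
  have hpos2 : pr (fun q : (Fin k → Fin n) × L.P =>
      ¬ ∀ K : Finset (Fin k), K.card ≤ 2 * r → L.Ty K (L.w q.2)) ≤ 1 / 8 := by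
    rw [pr_snd (Ω := Fin k → Fin n)
      (fun ω : L.P => ¬ ∀ K : Finset (Fin k), K.card ≤ 2 * r → L.Ty K (L.w ω))]
    exact le_trans hTyP h1
  have hpos3 : pr (fun q : (Fin k → Fin n) × L.P =>
      ∃ i, y i (posIn q.1 (L.w q.2)) ∧ ¬ (g i).val (posIn q.1 (L.w q.2))) ≤ 1 / 4 := by
    have h5 := (pr_mono (F := fun q : (Fin k → Fin n) × L.P =>
      (∃ i, (∀ K : Finset (Fin k), K.card ≤ 2 * r → L.Ty K (L.w q.2)) ∧
        y i (posIn q.1 (L.w q.2)) ∧ ¬ (g i).val (posIn q.1 (L.w q.2))) ∨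
      ¬ ∀ K : Finset (Fin k), K.card ≤ 2 * r → L.Ty K (L.w q.2))
      (E := fun q : (Fin k → Fin n) × L.P =>
      ∃ i, y i (posIn q.1 (L.w q.2)) ∧ ¬ (g i).val (posIn q.1 (L.w q.2)))
      (fun q ⟨i, hi⟩ => by
        by_cases hT : ∀ K : Finset (Fin k), K.card ≤ 2 * r → L.Ty K (L.w q.2)
        · exact Or.inl ⟨i, hT, hi⟩
        · exact Or.inr hT)).trans (pr_or_le _ _)
    linarith
  rw [pr_prod fun (S : Fin k → Fin n) (ω : L.P) =>
    ∃ i, y i (posIn S (L.w ω)) ∧ ¬ (g i).val (posIn S (L.w ω))] at hpos3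
  obtain ⟨S, hS⟩ := exists_le_av fun S : Fin k → Fin n => pr fun ω : L.P =>
    ∃ i, y i (posIn S (L.w ω)) ∧ ¬ (g i).val (posIn S (L.w ω))
  have hS' := hS.trans hpos3
  -- monotonicity
  have hmonoΦ : ∀ φ, Monotone (Φ φ) := fun φ =>
    Lv.monotone (fun f hf => JnOf.monotone CoreThm_coord_monotone hf) (hΦ φ)
  let A : Fin M → (Fin k → L.E → Bool) → Prop := fun φ z => Φ φ fun i => (g i).val (posIn S z)
  have hALv : ∀ φ, Lv (JnOf (RowFn r) e) M w₀ true (A φ) := by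
    intro φ
    refine Lv.pull (fun z : Fin k → L.E → Bool => fun i => (g i).val (posIn S z)) ?_ (hΦ φ)
    intro f hf
    refine JnOf.pull (fun z : Fin k → L.E → Bool => fun i => (g i).val (posIn S z)) ?_ hf
    rintro f ⟨i, hi⟩
    have h6 : (fun z : Fin k → L.E → Bool => f fun i => (g i).val (posIn S z)) =
        fun z => (g i).val (posIn S z) := funext fun z => propext (hi _)
    rw [h6]
    exact CoreThm_rowFn (g i) S
  have hcardS : (sel S univ).card = k := by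
    unfold sel
    rw [card_image_of_injective _ fun a b h => (Prod.mk.inj h).1, card_univ, Fintype.card_fin]
  have hposA : 1 / 2 ≤ pr (fun ω : L.P => ∃ φ, A φ (L.w ω)) := by
    have h7 : pr (fun ω : L.P => ¬ ∃ i, y i (posIn S (L.w ω)) ∧ ¬ (g i).val (posIn S (L.w ω))) ≤
        pr (fun ω : L.P => ∃ φ, A φ (L.w ω)) := by
      refine pr_mono fun ω hω => ?_
      have h8 : ∃ S₂ : Finset (Fin k × Fin n), S₂.card ≤ k ∧ (bt = true → S₂.card = k) ∧
          L.Fq fun e => bott bt S₂ fun l => posIn S (L.w ω) l e = true := by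
        refine ⟨sel S univ, hcardS.le, fun _ => hcardS, ?_⟩
        have h9 : (fun e => bott bt (sel S univ) fun l => posIn S (L.w ω) l e = true) =
            fun e => bott bt (univ : Finset (Fin k)) fun j => L.w ω j e = true := by
          funext e
          exact propext (CoreThm_bott_sel bt S _ _ fun j => by rw [CoreThm_posIn_self])
        rw [h9]
        exact hPos ω
      obtain ⟨φ, hφ⟩ := (hF _).2 h8
      refine ⟨φ, hmonoΦ φ ?_ hφ⟩
      intro i hi
      by_contra hc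
      exact hω ⟨i, hi, hc⟩
    rw [pr_not] at h7
    linarith
  have hneg := hQ A hALv hposA
  obtain ⟨ζ, φ, hφ⟩ := exists_of_pr_pos (lt_of_lt_of_le (by norm_num) hneg)
  -- negative errors
  have hneg1 : pr (fun b : Fin k × Fin n → L.E → Fin B =>
      ∃ i, (g i).val (negIn S (L.z ζ) b) ∧ ¬ y i (negIn S (L.z ζ) b)) ≤ 1 / 4 := by
    refine (pr_exists_le _).trans ((CoreThm_sum_le hc2 s' hs' _ fun i => ?_).trans h3)
    refine le_trans (pr_mono fun b hb => ?_) (hG2 i S (L.z ζ))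
    exact ⟨j i, hb.1, fun h => hb.2 ((hj i _).2 h)⟩
  let T : Finset (Finset (Fin k × Fin n)) := univ.filter fun S₂ => S₂.card ≤ k ∧
    (bt = true → S₂.card = k ∧ S₂ ≠ sel S univ)
  have hneg2 : pr (fun b : Fin k × Fin n → L.E → Fin B =>
      ∃ S₂ : Finset (Fin k × Fin n), S₂.card ≤ k ∧ (bt = true → S₂.card = k) ∧
        L.Fq fun e => bott bt S₂ fun l => negIn S (L.z ζ) b l e = true) ≤ 1 / 4 := by
    have h10 : pr (fun b : Fin k × Fin n → L.E → Fin B =>
        ∃ S₂ : Finset (Fin k × Fin n), S₂.card ≤ k ∧ (bt = true → S₂.card = k) ∧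
          L.Fq fun e => bott bt S₂ fun l => negIn S (L.z ζ) b l e = true) ≤
        pr (fun b : Fin k × Fin n → L.E → Fin B => ∃ S₂ ∈ T,
          L.Fq fun e => bott bt S₂ fun l => negIn S (L.z ζ) b l e = true) := by
      refine pr_mono fun b => ?_
      rintro ⟨S₂, hc, hbt, hFq⟩
      refine ⟨S₂, ?_, hFq⟩
      refine mem_filter.2 ⟨mem_univ _, hc, fun hb => ⟨hbt hb, ?_⟩⟩
      rintro rfl
      refine (hNull ζ).1 ?_
      have h9 : (fun e => bott bt (sel S univ) fun l => negIn S (L.z ζ) b l e = true) =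
          fun e => bott bt (univ : Finset (Fin k)) fun j => L.z ζ j e = true := by
        funext e
        exact propext (CoreThm_bott_sel bt S _ _ fun j => by rw [CoreThm_negIn_self])
      rw [← h9]
      exact hFq
    refine h10.trans ((pr_exists_mem_le T _).trans ?_)
    have h11 : ∀ S₂ ∈ T, pr (fun b : Fin k × Fin n → L.E → Fin B =>
        L.Fq fun e => bott bt S₂ fun l => negIn S (L.z ζ) b l e = true) ≤ η := by
      intro S₂ hS₂
      obtain ⟨_, hc, hbt⟩ := mem_filter.1 hS₂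
      exact (hNull ζ).2 n S S₂ hc hbt
    rcases T.eq_empty_or_nonempty with hT | ⟨S₀, hS₀⟩
    · rw [hT]; simp
    · have hη : 0 ≤ η := (pr_nonneg _).trans (h11 S₀ hS₀)
      refine (sum_le_card_nsmul T _ η h11).trans ?_
      rw [nsmul_eq_mul]
      refine le_trans (mul_le_mul_of_nonneg_right ?_ hη) h4
      have h12 := card_small_le (ι := Fin k × Fin n) k
      rw [Fintype.card_prod, Fintype.card_fin, Fintype.card_fin] at h12
      refine le_trans ?_ h12
      have h13 : T ⊆ univ.filter fun R : Finset (Fin k × Fin n) => R.card ≤ k := by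
        intro S₂ hS₂
        exact mem_filter.2 ⟨mem_univ _, (mem_filter.1 hS₂).2.1⟩
      exact_mod_cast card_le_card h13
  have hneg3 : pr (fun b : Fin k × Fin n → L.E → Fin B =>
      (∃ i, (g i).val (negIn S (L.z ζ) b) ∧ ¬ y i (negIn S (L.z ζ) b)) ∨
      ∃ S₂ : Finset (Fin k × Fin n), S₂.card ≤ k ∧ (bt = true → S₂.card = k) ∧
        L.Fq fun e => bott bt S₂ fun l => negIn S (L.z ζ) b l e = true) < 1 := by
    have := pr_or_le (fun b : Fin k × Fin n → L.E → Fin B =>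
      ∃ i, (g i).val (negIn S (L.z ζ) b) ∧ ¬ y i (negIn S (L.z ζ) b))
      (fun b : Fin k × Fin n → L.E → Fin B =>
      ∃ S₂ : Finset (Fin k × Fin n), S₂.card ≤ k ∧ (bt = true → S₂.card = k) ∧
        L.Fq fun e => bott bt S₂ fun l => negIn S (L.z ζ) b l e = true)
    linarith
  obtain ⟨b, hb⟩ := exists_of_pr_lt_one hneg3
  push Not at hb
  refine absurd ((hF (negIn S (L.z ζ) b)).1 ⟨φ, hmonoΦ φ ?_ hφ⟩) ?_
  · intro i hi
    exact hb.1 i (CoreThm_val_neg (g i) S (L.z ζ) b hi)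
  · rintro ⟨S₂, h14, h15, h16⟩
    exact hb.2 S₂ h14 h15 h16

end Pool.Agent.W_MP_5f6b2a_mon
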