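import Mathlib

/-!
The monotone W-hierarchy: definitions.

* `MonProg p`: a monotone straight-line program (monotone Boolean circuit).
* `Weft s t d F`: formulas of weft at most `t` and depth at most `d` in the literals `l ∈ S`,
  `l ∉ S` of an unknown set `S` and positive data bits.
* `MonW t`: the monotone analogue of `W[t]`.
* `NSat t`: weighted satisfiability of `t`-normalized formulas.
-/

namespace Pool.Agent.W_MP_5f6b2a_mon

/-- The sequence `p 0, …, p (s - 1)` of Boolean functions of the variables in `V` is a monotone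
straight-line program (a monotone Boolean circuit with `s` gates): every `p i` is a variable, a
constant, or the AND or the OR of two earlier members. -/
def MonProg {V : Type} {s : ℕ} (p : Fin s → (V → Bool) → Prop) : Prop :=
  ∀ i, (∃ v, ∀ x, p i x ↔ x v = true) ∨ (∀ x, p i x) ∨ (∀ x, ¬ p i x) ∨
    (∃ j k, j < i ∧ k < i ∧ ∀ x, p i x ↔ p j x ∧ p k x) ∨
    (∃ j k, j < i ∧ k < i ∧ ∀ x, p i x ↔ p j x ∨ p k x)

/-- `Weft s t d F`: the property `F S y` of a subset `S` of `{0, …, N - 1}` and of data bits
`y 0, …, y (M - 1)` is expressed by a formula whose leaves are literals `l ∈ S`, `l ∉ S` and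
(unnegated) data bits, of depth at most `d` and with at most `t` large AND/OR gates on every path;
the fan-in of the large gates is at most `s`, small gates have fan-in 2. -/
inductive Weft {N M : ℕ} (s : ℕ) : ℕ → ℕ → (Finset (Fin N) → (Fin M → Prop) → Prop) → Prop
  | sel (t d : ℕ) (l : Fin N) : Weft s t d fun S _ => l ∈ S
  | nsel (t d : ℕ) (l : Fin N) : Weft s t d fun S _ => l ∉ S
  | data (t d : ℕ) (j : Fin M) : Weft s t d fun _ y => y j
  | and {t d : ℕ} {F G : Finset (Fin N) → (Fin M → Prop) → Prop} (hF : Weft s t d F)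
      (hG : Weft s t d G) : Weft s t (d + 1) fun S y => F S y ∧ G S y
  | or {t d : ℕ} {F G : Finset (Fin N) → (Fin M → Prop) → Prop} (hF : Weft s t d F)
      (hG : Weft s t d G) : Weft s t (d + 1) fun S y => F S y ∨ G S y
  | all {t d : ℕ} (m : ℕ) (hm : m ≤ s) (F : Fin m → Finset (Fin N) → (Fin M → Prop) → Prop)
      (hF : ∀ i, Weft s t d (F i)) : Weft s (t + 1) (d + 1) fun S y => ∀ i, F i S y
  | ex {t d : ℕ} (m : ℕ) (hm : m ≤ s) (F : Fin m → Finset (Fin N) → (Fin M → Prop) → Prop)
      (hF : ∀ i, Weft s t d (F i)) : Weft s (t + 1) (d + 1) fun S y => ∃ i, F i S y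

/-- A parameterized problem: `Q n x k` says that the bit string `x` of length `n` with parameter
`k` is a yes-instance. -/
abbrev ParamProblem := (n : ℕ) → (Fin n → Bool) → ℕ → Prop

/-- The monotone analogue of `W[t]`: the problems `Q` such that for some `c`, `d`, `f`, `g` and all
`k`, `n` there are a monotone circuit `p` with `s ≤ f k * (n + 1) ^ c` gates and a formula `F` of
weft at most `t`, depth at most `d` and fan-in at most `f k * (n + 1) ^ c` over a set of
`N ≤ f k * (n + 1) ^ c` elements, such that `(x, k)` is a yes-instance if and only if some set `S`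
with exactly `k' ≤ g k` elements satisfies `F S y`, the data bits `y` being the values of the gates
of `p` on `x`. -/
def MonW (t : ℕ) : Set ParamProblem :=
  {Q | ∃ (c d : ℕ) (f g : ℕ → ℕ), ∀ k n : ℕ,
    ∃ (s N k' : ℕ) (p : Fin s → (Fin n → Bool) → Prop)
      (F : Finset (Fin N) → (Fin s → Prop) → Prop),
      s ≤ f k * (n + 1) ^ c ∧ N ≤ f k * (n + 1) ^ c ∧ k' ≤ g k ∧ MonProg p ∧
      Weft (f k * (n + 1) ^ c) t d F ∧
      ∀ x, Q n x k ↔ ∃ S : Finset (Fin N), S.card = k' ∧ F S fun i => p i x}

/-- `j` alternating quantifiers over `{0, …, m - 1}`, the first one being `∀` if `b = true` and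
`∃` if `b = false`. -/
def alt {m : ℕ} : (j : ℕ) → Bool → ((Fin j → Fin m) → Prop) → Prop
  | 0, _, φ => φ Fin.elim0
  | j + 1, true, φ => ∀ i, alt j false fun q => φ (Fin.cons i q)
  | j + 1, false, φ => ∃ i, alt j true fun q => φ (Fin.cons i q)

/-- Weighted satisfiability of `(t + 1)`-normalized formulas: the bit string `x` of length
`m ^ (t + 1)` is an array `x (i_1, …, i_t, l)`, and the question is whether there is a
`k`-element set `S` of rows `l` with `∀ i_1 ∃ i_2 ∀ i_3 …` (`t` quantifiers), and then `∃ l ∈ S` if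
`t` is odd, `∀ l ∈ S` if `t` is even, such that `x (i_1, …, i_t, l) = 1`. -/
def NSat (t : ℕ) : ParamProblem := fun n x k =>
  ∃ (m : ℕ) (h : m ^ (t + 1) = n) (S : Finset (Fin m)), S.card = k ∧
    alt t true fun q =>
      if Even t then ∀ l ∈ S, x (Fin.cast h (finFunctionFinEquiv (Fin.snoc q l))) = true
      else ∃ l ∈ S, x (Fin.cast h (finFunctionFinEquiv (Fin.snoc q l))) = true

end Pool.Agent.W_MP_5f6b2a_mon
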