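import Pool.Agent.W_MP_5f6b2a_mon.Core

/-!
The base level for formulas ending in `∀ v ∃ l ∈ S`.
-/

namespace Pool.Agent.W_MP_5f6b2a_mon

open Finset

/-- Base level: columns `v : Fin d0 × Fin m2`, positive contents are partitions of the columns into
`k` classes, negative contents are full outside a random set of columns. -/
def evenLev (k d0 m2 q : ℕ) (hk : 0 < k) (hq : 0 < q) : Lev k where
  E := Fin d0 × Fin m2
  fE := inferInstance
  dE := inferInstance
  Fq φ := ∀ v, φ v
  P := Fin d0 × Fin m2 → Fin k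
  fP := inferInstance
  nP := by have := Fin.pos_iff_nonempty.1 hk; infer_instance
  w ω j v := decide (ω v = j)
  Z := Fin d0 × Fin m2 → Fin q
  fZ := inferInstance
  nZ := by have := Fin.pos_iff_nonempty.1 hq; infer_instance
  z h _ v := if ∀ g, ∃ c, (h (g, c) : ℕ) = 0 then decide ((h v : ℕ) ≠ 0) else false
  Ty _ _ := True

theorem even_fqMono (k d0 m2 q : ℕ) (hk : 0 < k) (hq : 0 < q) :
    (evenLev k d0 m2 q hk hq).FqMono := fun _ _ h hφ v => h v (hφ v)

theorem even_posOK (k d0 m2 q : ℕ) (hk : 0 < k) (hq : 0 < q) :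
    (evenLev k d0 m2 q hk hq).PosOK false := by
  intro ω v
  simp [bott, evenLev]

theorem even_tyLoc (k d0 m2 q : ℕ) (hk : 0 < k) (hq : 0 < q) :
    (evenLev k d0 m2 q hk hq).TyLoc :=
  ⟨fun _ _ _ _ _ => trivial, fun _ _ _ _ _ => trivial, fun _ _ _ => trivial⟩

theorem even_tyProb (k d0 m2 q r : ℕ) (hk : 0 < k) (hq : 0 < q) :
    (evenLev k d0 m2 q hk hq).TyProb r 0 := by
  unfold Lev.TyProb
  rw [pr_false]
  intro ω h
  exact h fun _ _ => trivial

end Pool.Agent.W_MP_5f6b2a_mon
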