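import Pool.Agent.W_MP_5f6b2a_mon.Core

/-!
Stochastic domination is preserved by products.
-/

namespace Pool.Agent.W_MP_5f6b2a_mon

open Finset

/-- Resampling one coordinate of a dependent product. -/
theorem av_update {I : Type} [Fintype I] [DecidableEq I] {Ω : I → Type} [∀ i, Fintype (Ω i)]
    (i : I) (f : (∀ j, Ω j) → ℝ) :
    av f = av fun ω => av fun a : Ω i => f (Function.update ω i a) := by
  classical
  rcases isEmpty_or_nonempty (∀ j, Ω j) with hΩ | hΩ
  · rw [av_of_isEmpty, av_of_isEmpty]
  have hne : Nonempty (Ω i) := ⟨(Classical.arbitrary (∀ j, Ω j)) i⟩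
  let e : (∀ j, Ω j) × Ω i ≃ (∀ j, Ω j) × Ω i :=
    { toFun := fun p => (Function.update p.1 i p.2, p.1 i)
      invFun := fun p => (Function.update p.1 i p.2, p.1 i)
      left_inv := fun p => by simp
      right_inv := fun p => by simp }
  rw [← av_prod fun (ω : ∀ j, Ω j) (a : Ω i) => f (Function.update ω i a)]
  have h1 : av (fun p : (∀ j, Ω j) × Ω i => f p.1) = av f := by
    rw [av_prod fun (ω : ∀ j, Ω j) (_ : Ω i) => f ω]
    exact av_congr fun a => av_const _
  rw [← h1, ← av_equiv e fun p => f p.1]
  rfl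

/-- The hybrid point: coordinates in `A` come from `v`, the others from `u`. -/
def tensorHyb {I : Type} [DecidableEq I] {Ω Ω' X : I → Type} (u : ∀ i, Ω i → X i)
    (v : ∀ i, Ω' i → X i) (A : Finset I) (ω : ∀ i, Ω i) (ω' : ∀ i, Ω' i) : ∀ i, X i :=
  fun i => if i ∈ A then v i (ω' i) else u i (ω i)

theorem tensorHyb_update_left {I : Type} [DecidableEq I] {Ω Ω' X : I → Type}
    (u : ∀ i, Ω i → X i) (v : ∀ i, Ω' i → X i) {A : Finset I} {i : I} (hi : i ∉ A)
    (ω : ∀ i, Ω i) (ω' : ∀ i, Ω' i) (a : Ω i) :
    tensorHyb u v A (Function.update ω i a) ω' =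
      Function.update (tensorHyb u v A ω ω') i (u i a) := by
  funext j
  by_cases hj : j = i
  · subst hj
    simp [tensorHyb, hi]
  · simp [tensorHyb, Function.update_of_ne hj]

theorem tensorHyb_update_right {I : Type} [DecidableEq I] {Ω Ω' X : I → Type}
    (u : ∀ i, Ω i → X i) (v : ∀ i, Ω' i → X i) {A : Finset I} {i : I}
    (ω : ∀ i, Ω i) (ω' : ∀ i, Ω' i) (b : Ω' i) :
    tensorHyb u v (insert i A) ω (Function.update ω' i b) =
      Function.update (tensorHyb u v A ω ω') i (v i b) := by
  funext j
  by_cases hj : j = i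
  · subst hj
    simp [tensorHyb]
  · simp [tensorHyb, Function.update_of_ne hj, hj]

theorem tensor {I : Type} [Fintype I] [DecidableEq I] {Ω Ω' X : I → Type} [∀ i, Fintype (Ω i)]
    [∀ i, Fintype (Ω' i)] [∀ i, Nonempty (Ω' i)] [∀ i, Preorder (X i)] (u : ∀ i, Ω i → X i)
    (v : ∀ i, Ω' i → X i) {δ : ℝ} (hδ : 0 ≤ δ)
    (h : ∀ i, ∀ g : X i → ℝ, Monotone g → (∀ y, 0 ≤ g y) → (∀ y, g y ≤ 1) →
      av (fun ω => g (u i ω)) ≤ av (fun ω => g (v i ω)) + δ)
    (g : (∀ i, X i) → ℝ) (hg : Monotone g) (hg0 : ∀ y, 0 ≤ g y) (hg1 : ∀ y, g y ≤ 1) :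
    av (fun ω : ∀ i, Ω i => g fun i => u i (ω i)) ≤
      av (fun ω : ∀ i, Ω' i => g fun i => v i (ω i)) + Fintype.card I * δ := by
  classical
  rcases isEmpty_or_nonempty (∀ i, Ω i) with hΩ | hΩ
  · rw [av_of_isEmpty]
    exact add_nonneg (av_nonneg fun ω => hg0 _) (mul_nonneg (Nat.cast_nonneg _) hδ)
  have key : ∀ A : Finset I, av (fun ω : ∀ i, Ω i => g fun i => u i (ω i)) ≤
      av (fun ω' : ∀ i, Ω' i => av fun ω : ∀ i, Ω i => g (tensorHyb u v A ω ω')) +
        A.card * δ := by
    intro A
    induction A using Finset.induction_on with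
    | empty =>
      have e : ∀ ω' : ∀ i, Ω' i, (av fun ω : ∀ i, Ω i => g (tensorHyb u v ∅ ω ω')) =
          av (fun ω : ∀ i, Ω i => g fun i => u i (ω i)) := by
        intro ω'
        refine av_congr fun ω => ?_
        congr 1
      rw [av_congr e, av_const]
      simp
    | insert i A hi ih =>
      have step : av (fun ω' : ∀ i, Ω' i => av fun ω : ∀ i, Ω i => g (tensorHyb u v A ω ω')) ≤
          av (fun ω' : ∀ i, Ω' i => av fun ω : ∀ i, Ω i => g (tensorHyb u v (insert i A) ω ω'))
            + δ := by
        have e1 : ∀ ω' : ∀ i, Ω' i, (av fun ω : ∀ i, Ω i => g (tensorHyb u v A ω ω')) =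
            av fun ω : ∀ i, Ω i => av fun a : Ω i =>
              g (Function.update (tensorHyb u v A ω ω') i (u i a)) := by
          intro ω'
          rw [av_update i]
          refine av_congr fun ω => av_congr fun a => ?_
          rw [tensorHyb_update_left u v hi]
        have e2 : av (fun ω' : ∀ i, Ω' i => av fun ω : ∀ i, Ω i =>
              g (tensorHyb u v (insert i A) ω ω')) =
            av fun ω' : ∀ i, Ω' i => av fun ω : ∀ i, Ω i => av fun b : Ω' i =>
              g (Function.update (tensorHyb u v A ω ω') i (v i b)) := by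
          rw [av_update i]
          refine av_congr fun ω' => ?_
          rw [av_comm]
          refine av_congr fun ω => av_congr fun b => ?_
          rw [tensorHyb_update_right u v]
        rw [av_congr e1, e2]
        have hle : ∀ (ω' : ∀ i, Ω' i), (av fun ω : ∀ i, Ω i => av fun a : Ω i =>
              g (Function.update (tensorHyb u v A ω ω') i (u i a))) ≤
            (av fun ω : ∀ i, Ω i => av fun b : Ω' i =>
              g (Function.update (tensorHyb u v A ω ω') i (v i b))) + δ := by
          intro ω'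
          have h1 : ∀ ω : ∀ i, Ω i, (av fun a : Ω i =>
              g (Function.update (tensorHyb u v A ω ω') i (u i a))) ≤
              (av fun b : Ω' i => g (Function.update (tensorHyb u v A ω ω') i (v i b))) + δ := by
            intro ω
            refine h i (fun x => g (Function.update (tensorHyb u v A ω ω') i x)) ?_
              (fun y => hg0 _) (fun y => hg1 _)
            intro x y hxy
            exact hg (Function.update_mono hxy)
          refine (av_mono h1).trans ?_
          rw [av_add, av_const]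
        refine (av_mono hle).trans ?_
        rw [av_add, av_const]
      rw [Finset.card_insert_of_notMem hi]
      push_cast
      linarith
  have hfin := key Finset.univ
  have e : ∀ ω' : ∀ i, Ω' i, (av fun ω : ∀ i, Ω i => g (tensorHyb u v Finset.univ ω ω')) =
      g fun i => v i (ω' i) := by
    intro ω'
    rw [← av_const (Ω := ∀ i, Ω i) (g fun i => v i (ω' i))]
    refine av_congr fun ω => ?_
    congr 1
    funext j
    simp [tensorHyb]
  rw [av_congr e] at hfin
  simpa using hfin

end Pool.Agent.W_MP_5f6b2a_mon
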