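import Pool.Agent.W_MP_5f6b2a_mon.EvenDefs
import Pool.Agent.W_MP_5f6b2a_mon.Tensor

/-!
Domination for the base level with bottom quantifier `∃ l ∈ S`.
-/

namespace Pool.Agent.W_MP_5f6b2a_mon

open Finset

theorem ed_pr_one {k mt : ℕ} (j : Fin k) :
    pr (fun b : Fin mt → Fin k → Fin 2 => ∀ u, (b u j : ℕ) = 0) = (1 / 2 : ℝ) ^ mt := by
  rw [pr_pi_const (I := Fin mt) (Ω := Fin k → Fin 2) (fun c => (c j : ℕ) = 0)]
  rw [pr_comp_injective (I := Fin k) (Ω := Fin 2) (fun _ : Fin 1 => j)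
    (fun a b _ => Subsingleton.elim _ _) (fun a => (a 0 : ℕ) = 0)]
  rw [pr_eq_card]
  have : (Finset.univ.filter fun a : Fin 1 → Fin 2 => (a 0 : ℕ) = 0).card = 1 := by decide
  rw [this]
  simp

theorem ed_pr_two {k mt : ℕ} {i j : Fin k} (hij : i ≠ j) :
    pr (fun b : Fin mt → Fin k → Fin 2 => (∀ u, (b u i : ℕ) = 0) ∧ ∀ u, (b u j : ℕ) = 0) =
      (1 / 2 : ℝ) ^ mt * (1 / 2 : ℝ) ^ mt := by
  rw [pr_congr (F := fun b : Fin mt → Fin k → Fin 2 => ∀ u, (b u i : ℕ) = 0 ∧ (b u j : ℕ) = 0)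
    (fun b => forall_and.symm)]
  rw [pr_pi_const (I := Fin mt) (Ω := Fin k → Fin 2) (fun c => (c i : ℕ) = 0 ∧ (c j : ℕ) = 0)]
  have hinj : Function.Injective (fun t : Fin 2 => if t = 0 then i else j) := by
    intro a b h
    fin_cases a <;> fin_cases b <;> simp_all
  have h := pr_comp_injective (I := Fin k) (Ω := Fin 2) (fun t : Fin 2 => if t = 0 then i else j)
    hinj (fun a => (a 0 : ℕ) = 0 ∧ (a 1 : ℕ) = 0)
  simp only [if_true, one_ne_zero, if_false] at h
  rw [h, pr_eq_card]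
  have : (Finset.univ.filter fun a : Fin 2 → Fin 2 => (a 0 : ℕ) = 0 ∧ (a 1 : ℕ) = 0).card = 1 := by
    decide
  rw [this, ← mul_pow, Fintype.card_fin]
  congr 1
  simp
  norm_num

/-- One column: a random colour among the colours allowed by `κ` on `K` is dominated on `J` by the
AND of `mt` uniformly random bit vectors. -/
theorem even_dom_column {k mt r : ℕ} (h1 : 2 * r + 2 ^ (mt + 1) ≤ k) (h2 : 2 * r ≤ 2 ^ mt)
    (K J : Finset (Fin k)) (hKJ : Disjoint K J) (hK : K.card ≤ 2 * r) (hJ : J.card ≤ r)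
    (κ : Fin k → Bool) (g : (Fin k → Bool) → ℝ) (hg : Monotone g) (hg0 : ∀ y, 0 ≤ g y)
    (hg1 : ∀ y, g y ≤ 1) :
    av (fun i : {i : Fin k // ∀ j ∈ K, decide (i = j) = κ j} =>
      g fun j => if j ∈ K then κ j else if j ∈ J then decide (i.1 = j) else false) ≤
    av (fun b : Fin mt → Fin k → Fin 2 =>
      g fun j => if j ∈ K then κ j else if j ∈ J then decide (∀ u, (b u j : ℕ) = 0) else false) := by
  classical
  set F : (Fin k → Bool) → ℝ := fun y => g fun j => if j ∈ K then κ j else if j ∈ J then y j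
    else false with hF
  have hFmono : Monotone F := by
    intro y y' hy
    refine hg fun j => ?_
    by_cases hjK : j ∈ K
    · simp [hjK]
    · by_cases hjJ : j ∈ J
      · simpa [hjK, hjJ] using hy j
      · simp [hjK, hjJ]
  have hF0 : ∀ y, 0 ≤ F y := fun y => hg0 _
  set g0 : ℝ := F fun _ => false with hg0def
  have hg0F : ∀ y, g0 ≤ F y := fun y => hFmono fun j => Bool.false_le _
  have hright0 : g0 ≤ av (fun b : Fin mt → Fin k → Fin 2 =>
      F fun j => decide (∀ u, (b u j : ℕ) = 0)) := le_av fun b => hg0F _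
  change av (fun i : {i : Fin k // ∀ j ∈ K, decide (i = j) = κ j} => F fun j => decide (i.1 = j)) ≤
    av (fun b : Fin mt → Fin k → Fin 2 => F fun j => decide (∀ u, (b u j : ℕ) = 0))
  by_cases hκ : ∃ j0 ∈ K, κ j0 = true
  · obtain ⟨j0, hj0, hκ0⟩ := hκ
    refine le_trans (av_le' (hF0 _) fun i => ?_) hright0
    have hi : i.1 = j0 := by
      have := i.2 j0 hj0
      rw [hκ0] at this
      simpa using this
    refine le_of_eq ?_
    change g _ = g _
    congr 1
    funext j
    by_cases hjK : j ∈ K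
    · simp [hjK]
    · by_cases hjJ : j ∈ J
      · have : i.1 ≠ j := fun h => hjK (by rw [← h, hi]; exact hj0)
        simp [hjK, hjJ, this]
      · simp [hjK, hjJ]
  have hκ' : ∀ j ∈ K, κ j = false := by
    intro j hj
    by_contra h
    exact hκ ⟨j, hj, by simpa using h⟩
  -- size of the sample space
  have hcard : Fintype.card {i : Fin k // ∀ j ∈ K, decide (i = j) = κ j} = k - K.card := by
    have e : Fintype.card {i : Fin k // ∀ j ∈ K, decide (i = j) = κ j} =
        Fintype.card {i : Fin k // i ∉ K} := by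
      refine Fintype.card_congr (Equiv.subtypeEquivRight fun i => ?_)
      constructor
      · intro h hi
        have := h i hi
        rw [hκ' i hi] at this
        simp at this
      · intro h j hj
        rw [hκ' j hj]
        simp only [decide_eq_false_iff_not]
        rintro rfl
        exact h hj
    rw [e, Fintype.card_subtype_compl]
    simp
  have h2pos : 0 < 2 ^ (mt + 1) := by positivity
  have hcard' : 2 ^ (mt + 1) ≤ k - K.card := by omega
  set N : ℝ := ((k - K.card : ℕ) : ℝ) with hN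
  have hNpos : 0 < N := by
    rw [hN]; exact_mod_cast lt_of_lt_of_le h2pos hcard'
  have hNge : (2 : ℝ) ^ (mt + 1) ≤ N := by
    rw [hN]; exact_mod_cast hcard'
  -- the increments
  set D : Fin k → ℝ := fun j => F (fun j' => decide (j = j')) - g0 with hD
  have hD0 : ∀ j, 0 ≤ D j := fun j => sub_nonneg.2 (hg0F _)
  -- left
  have hne : Nonempty {i : Fin k // ∀ j ∈ K, decide (i = j) = κ j} := by
    rw [← Fintype.card_pos_iff, hcard]
    exact lt_of_lt_of_le h2pos hcard'
  have hleft : av (fun i : {i : Fin k // ∀ j ∈ K, decide (i = j) = κ j} =>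
      F fun j => decide (i.1 = j)) ≤ g0 + ∑ j ∈ J, D j / N := by
    have e1 : ∀ i : {i : Fin k // ∀ j ∈ K, decide (i = j) = κ j},
        (F fun j => decide (i.1 = j)) ≤ g0 + ∑ j ∈ J, if i.1 = j then D j else 0 := by
      intro i
      by_cases hiJ : i.1 ∈ J
      · rw [Finset.sum_ite_eq J i.1 D, if_pos hiJ]
        simp [hD]
      · rw [Finset.sum_ite_eq J i.1 D, if_neg hiJ, add_zero]
        refine le_of_eq ?_
        change g _ = g _
        congr 1
        funext j
        by_cases hjK : j ∈ K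
        · simp [hjK]
        · by_cases hjJ : j ∈ J
          · have : i.1 ≠ j := fun h => hiJ (by rw [h]; exact hjJ)
            simp [hjK, hjJ, this]
          · simp [hjK, hjJ]
    refine (av_mono e1).trans ?_
    rw [av_add, av_const, av_sum]
    refine add_le_add le_rfl (Finset.sum_le_sum fun j _ => ?_)
    unfold av
    rw [hcard]
    refine div_le_div_of_nonneg_right ?_ hNpos.le
    rw [← Finset.sum_filter]
    rw [Finset.sum_const, nsmul_eq_mul]
    have hc1 : ((Finset.univ.filter fun i : {i : Fin k // ∀ j ∈ K, decide (i = j) = κ j} =>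
        i.1 = j).card : ℝ) ≤ 1 := by
      have : (Finset.univ.filter fun i : {i : Fin k // ∀ j ∈ K, decide (i = j) = κ j} =>
        i.1 = j).card ≤ 1 := by
        rw [Finset.card_le_one]
        intro a ha b hb
        simp only [Finset.mem_filter, Finset.mem_univ, true_and] at ha hb
        exact Subtype.ext (ha.trans hb.symm)
      exact_mod_cast this
    nlinarith [hD0 j]
  -- right
  set B : Fin k → (Fin mt → Fin k → Fin 2) → Prop := fun j b =>
    (∀ u, (b u j : ℕ) = 0) ∧ ¬ ∃ j' ∈ J.erase j, (∀ u, (b u j : ℕ) = 0) ∧ ∀ u, (b u j' : ℕ) = 0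
    with hB
  have hright : g0 + ∑ j ∈ J, D j * pr (B j) ≤ av (fun b : Fin mt → Fin k → Fin 2 =>
      F fun j => decide (∀ u, (b u j : ℕ) = 0)) := by
    have e1 : ∀ b : Fin mt → Fin k → Fin 2, g0 + ∑ j ∈ J, D j * (if B j b then 1 else 0) ≤
        F fun j => decide (∀ u, (b u j : ℕ) = 0) := by
      intro b
      by_cases hex : ∃ j ∈ J, B j b
      · obtain ⟨j, hjJ, hjB⟩ := hex
        have huniq : ∀ j' ∈ J, j' ≠ j → ¬ B j' b := by
          intro j' hj' hne' hB'
          exact hjB.2 ⟨j', Finset.mem_erase.2 ⟨hne', hj'⟩, hjB.1, hB'.1⟩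
        rw [Finset.sum_eq_single_of_mem j hjJ
          (fun j' hj' hne' => by rw [if_neg (huniq j' hj' hne'), mul_zero]), if_pos hjB, mul_one]
        have : F (fun j' => decide (j = j')) ≤ F fun j => decide (∀ u, (b u j : ℕ) = 0) := by
          refine hFmono fun j' => ?_
          by_cases hjj : j = j'
          · subst hjj
            have h3 := hjB.1
            simp [h3]
          · simp [hjj]
        simp only [hD]
        linarith
      · rw [Finset.sum_eq_zero (fun j hj => by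
          rw [if_neg (fun h => hex ⟨j, hj, h⟩), mul_zero]), add_zero]
        exact hg0F _
    have e2 : g0 + ∑ j ∈ J, D j * pr (B j) = av (fun b : Fin mt → Fin k → Fin 2 =>
        g0 + ∑ j ∈ J, D j * (if B j b then (1 : ℝ) else 0)) := by
      rw [av_add, av_const, av_sum]
      congr 1
      refine Finset.sum_congr rfl fun j _ => ?_
      rw [av_mul_left]
      congr 1
      unfold pr
      refine av_congr fun b => ?_
      congr
    rw [e2]
    exact av_mono e1
  refine hleft.trans (le_trans ?_ hright)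
  refine add_le_add le_rfl (Finset.sum_le_sum fun j hj => ?_)
  rw [div_eq_mul_inv]
  refine mul_le_mul_of_nonneg_left ?_ (hD0 j)
  -- `1 / N ≤ P(B j)`
  have hρ : (0 : ℝ) < (1 / 2) ^ mt := by positivity
  have hA : pr (fun b : Fin mt → Fin k → Fin 2 => ∀ u, (b u j : ℕ) = 0) = (1 / 2 : ℝ) ^ mt :=
    ed_pr_one j
  have hU : pr (fun b : Fin mt → Fin k → Fin 2 =>
      ∃ j' ∈ J.erase j, (∀ u, (b u j : ℕ) = 0) ∧ ∀ u, (b u j' : ℕ) = 0) ≤
      r * ((1 / 2 : ℝ) ^ mt * (1 / 2 : ℝ) ^ mt) := by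
    refine (pr_exists_mem_le (J.erase j) _).trans ?_
    have e3 : ∀ j' ∈ J.erase j, pr (fun b : Fin mt → Fin k → Fin 2 =>
        (∀ u, (b u j : ℕ) = 0) ∧ ∀ u, (b u j' : ℕ) = 0) = (1 / 2 : ℝ) ^ mt * (1 / 2 : ℝ) ^ mt :=
      fun j' hj' => ed_pr_two (Finset.ne_of_mem_erase hj').symm
    rw [Finset.sum_congr rfl e3, Finset.sum_const, nsmul_eq_mul]
    refine mul_le_mul_of_nonneg_right ?_ (by positivity)
    have : (J.erase j).card ≤ r := (Finset.card_le_card (Finset.erase_subset _ _)).trans hJ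
    exact_mod_cast this
  have hBj := pr_and_ge (fun b : Fin mt → Fin k → Fin 2 => ∀ u, (b u j : ℕ) = 0)
    (fun b : Fin mt → Fin k → Fin 2 =>
      ¬ ∃ j' ∈ J.erase j, (∀ u, (b u j : ℕ) = 0) ∧ ∀ u, (b u j' : ℕ) = 0)
  simp only [not_not] at hBj
  have hBj' : pr (fun b : Fin mt → Fin k → Fin 2 => ∀ u, (b u j : ℕ) = 0) -
      pr (fun b : Fin mt → Fin k → Fin 2 =>
        ∃ j' ∈ J.erase j, (∀ u, (b u j : ℕ) = 0) ∧ ∀ u, (b u j' : ℕ) = 0) ≤ pr (B j) := hBj
  have h3 : N⁻¹ ≤ ((2 : ℝ) ^ (mt + 1))⁻¹ := inv_anti₀ (by positivity) hNge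
  have h4 : ((2 : ℝ) ^ (mt + 1))⁻¹ = (1 / 2 : ℝ) ^ mt / 2 := by
    rw [pow_succ, mul_inv, one_div, inv_pow]
    ring
  have h5 : (r : ℝ) * (1 / 2 : ℝ) ^ mt ≤ 1 / 2 := by
    have : (2 : ℝ) * r ≤ 2 ^ mt := by exact_mod_cast h2
    have h6 : (2 : ℝ) ^ mt * (1 / 2) ^ mt = 1 := by
      rw [← mul_pow]; norm_num
    nlinarith
  nlinarith

/-- `av` does not depend on the `Fintype` instance. -/
theorem ed_av_inst {Ω : Type*} (i1 i2 : Fintype Ω) (f : Ω → ℝ) :
    @av Ω i1 f = @av Ω i2 f := by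
  congr
  exact Subsingleton.elim _ _

theorem even_domOK (k d0 m2 q mt r : ℕ) (hk : 0 < k) (hq : 0 < q)
    (h1 : 2 * r + 2 ^ (mt + 1) ≤ k) (h2 : 2 * r ≤ 2 ^ mt) :
    (evenLev k d0 m2 q hk hq).DomOK 2 mt r 0 := by
  classical
  intro K J hKJ hK hJ κ _ g hg hg0 hg1
  -- the equivalences of sample spaces
  let e1 : {ω : Fin d0 × Fin m2 → Fin k // ∀ j ∈ K, (fun v => decide (ω v = j)) = κ j} ≃
      ∀ v : Fin d0 × Fin m2, {i : Fin k // ∀ j ∈ K, decide (i = j) = κ j v} :=
    { toFun := fun ω v => ⟨ω.1 v, fun j hj => congrFun (ω.2 j hj) v⟩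
      invFun := fun a => ⟨fun v => (a v).1, fun j hj => funext fun v => (a v).2 j hj⟩
      left_inv := fun ω => rfl
      right_inv := fun a => rfl }
  let e2 : (Fin mt → Fin k → Fin d0 × Fin m2 → Fin 2) ≃
      (Fin d0 × Fin m2 → Fin mt → Fin k → Fin 2) :=
    { toFun := fun b v u j => b u j v
      invFun := fun b u j v => b v u j
      left_inv := fun b => rfl
      right_inv := fun b => rfl }
  have ht := tensor (I := Fin d0 × Fin m2)
    (Ω := fun v => {i : Fin k // ∀ j ∈ K, decide (i = j) = κ j v})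
    (Ω' := fun _ => Fin mt → Fin k → Fin 2) (X := fun _ => Fin k → Bool)
    (fun v i j => if j ∈ K then κ j v else if j ∈ J then decide (i.1 = j) else false)
    (fun v b j => if j ∈ K then κ j v else if j ∈ J then decide (∀ u, (b u j : ℕ) = 0) else false)
    (δ := 0) le_rfl
    (fun v g' hg' hg0' hg1' => by
      rw [add_zero]
      exact even_dom_column h1 h2 K J hKJ hK hJ (fun j => κ j v) g' hg' hg0' hg1')
    (fun y => g fun j v => y v j)
    (fun y y' h => hg fun j v => h v j) (fun y => hg0 _) (fun y => hg1 _)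
  rw [mul_zero, ← av_equiv e1, ← av_equiv e2] at ht
  have hl : (av fun ω : {ω : (evenLev k d0 m2 q hk hq).P //
      ∀ j ∈ K, (evenLev k d0 m2 q hk hq).w ω j = κ j} =>
      g (mix K J κ ((evenLev k d0 m2 q hk hq).w ω.1))) =
      av (fun ω : {ω : Fin d0 × Fin m2 → Fin k // ∀ j ∈ K, (fun v => decide (ω v = j)) = κ j} =>
        g fun j v => if j ∈ K then κ j v else if j ∈ J then decide ((e1 ω v).1 = j) else false) := by
    refine (ed_av_inst _ _ _).trans (av_congr fun ω => ?_)
    congr 1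
    funext j v
    unfold mix
    by_cases hjK : j ∈ K
    · simp [hjK]
    · by_cases hjJ : j ∈ J
      · simp [hjK, hjJ, evenLev, e1]
      · simp [hjK, hjJ]
  have hr : (av fun b : Fin mt → Fin k → (evenLev k d0 m2 q hk hq).E → Fin 2 =>
      g (mix K J κ (meet b))) =
      av (fun b : Fin mt → Fin k → Fin d0 × Fin m2 → Fin 2 =>
        g fun j v => if j ∈ K then κ j v else if j ∈ J then
          decide (∀ u, (e2 b v u j : ℕ) = 0) else false) := by
    refine (ed_av_inst _ _ _).trans (av_congr fun b => ?_)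
    congr 1
    funext j v
    unfold mix
    by_cases hjK : j ∈ K
    · simp [hjK]
    · by_cases hjJ : j ∈ J
      · simp [hjK, hjJ, e2, meet]
      · simp [hjK, hjJ]
  refine le_trans (le_of_eq hl) (le_trans ht ?_)
  exact add_le_add (le_of_eq hr.symm) le_rfl

end Pool.Agent.W_MP_5f6b2a_mon
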