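import Pool.Agent.W_MP_5f6b2a_mon.EvenDefs

/-!
Negative contents of the base level with bottom quantifier `∃ l ∈ S` are negative.
-/

namespace Pool.Agent.W_MP_5f6b2a_mon

open Finset

/-- In every group there is a column on which the negative contents vanish. -/
private theorem even_exists_col (k d0 m2 q : ℕ) (hk : 0 < k) (hq : 0 < q) (hm : 0 < m2)
    (ζ : (evenLev k d0 m2 q hk hq).Z) :
    ∃ c : Fin d0 → Fin m2, ∀ (g : Fin d0) (j : Fin k),
      (evenLev k d0 m2 q hk hq).z ζ j (g, c g) = false := by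
  classical
  by_cases h : ∀ g, ∃ c, ((show Fin d0 × Fin m2 → Fin q from ζ) (g, c) : ℕ) = 0
  · choose c hc using h
    refine ⟨c, fun g j => ?_⟩
    show (if ∀ g, ∃ c, ((show Fin d0 × Fin m2 → Fin q from ζ) (g, c) : ℕ) = 0 then
      decide (((show Fin d0 × Fin m2 → Fin q from ζ) (g, c g) : ℕ) ≠ 0) else false) = false
    split_ifs
    · simp [hc g]
    · rfl
  · refine ⟨fun _ => ⟨0, hm⟩, fun g j => ?_⟩
    show (if ∀ g, ∃ c, ((show Fin d0 × Fin m2 → Fin q from ζ) (g, c) : ℕ) = 0 then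
      decide (((show Fin d0 × Fin m2 → Fin q from ζ) (g, ⟨0, hm⟩) : ℕ) ≠ 0) else false) = false
    rw [if_neg h]

/-- The probability that one of at most `k` fair bits is `0`. -/
private theorem even_pr_exists {ι : Type} [Fintype ι] [DecidableEq ι] (k : ℕ) (S2 : Finset ι)
    (hS : S2.card ≤ k) :
    pr (fun a : ι → Fin 2 => ∃ l ∈ S2, ((a l : Fin 2) : ℕ) = 0) ≤ 1 - (1 / 2 : ℝ) ^ k := by
  classical
  have h1 : pr (fun a : ι → Fin 2 => ∀ l, (l ∈ S2 → ¬ ((a l : Fin 2) : ℕ) = 0)) =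
      (1 / 2 : ℝ) ^ S2.card := by
    rw [pr_pi (Ω := fun _ : ι => Fin 2) fun l x => (l ∈ S2 → ¬ ((x : Fin 2) : ℕ) = 0)]
    have h2 : ∀ l : ι, pr (fun x : Fin 2 => (l ∈ S2 → ¬ ((x : Fin 2) : ℕ) = 0)) =
        if l ∈ S2 then (1 / 2 : ℝ) else 1 := by
      intro l
      by_cases hl : l ∈ S2
      · rw [if_pos hl, pr_eq_card]
        have : (Finset.univ.filter fun x : Fin 2 => (l ∈ S2 → ¬ ((x : Fin 2) : ℕ) = 0)) =
            {1} := by
          ext x
          fin_cases x <;> simp [hl]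
        rw [this]
        simp
      · rw [if_neg hl]
        exact pr_true _ fun x h => absurd h hl
    rw [Finset.prod_congr rfl fun l _ => h2 l, Finset.prod_ite_mem, Finset.univ_inter,
      Finset.prod_const]
  have h3 : pr (fun a : ι → Fin 2 => ∃ l ∈ S2, ((a l : Fin 2) : ℕ) = 0) =
      1 - (1 / 2 : ℝ) ^ S2.card := by
    rw [← h1, ← pr_not]
    refine pr_congr fun a => ?_
    push Not
    rfl
  rw [h3]
  have : (1 / 2 : ℝ) ^ k ≤ (1 / 2 : ℝ) ^ S2.card :=
    pow_le_pow_of_le_one (by norm_num) (by norm_num) hS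
  linarith

theorem even_nullOK (k d0 m2 q : ℕ) (hk : 0 < k) (hq : 0 < q) (hd : 0 < d0) (hm : 0 < m2) :
    (evenLev k d0 m2 q hk hq).NullOK false 2 ((1 - (1 / 2 : ℝ) ^ k) ^ d0) := by
  classical
  intro ζ
  obtain ⟨c, hc⟩ := even_exists_col k d0 m2 q hk hq hm ζ
  constructor
  · intro h
    have h1 := h (⟨0, hd⟩, c ⟨0, hd⟩)
    simp only [bott, Bool.false_eq_true, if_false] at h1
    obtain ⟨j, -, hj⟩ := h1
    rw [hc] at hj
    exact Bool.false_ne_true hj
  · intro n S S2 hS2 _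
    let E := Fin d0 × Fin m2
    let ι := Fin k × Fin n
    have h1 : pr (fun b : ι → E → Fin 2 => ∀ g : Fin d0, ∃ l ∈ S2,
        ((b l (g, c g) : Fin 2) : ℕ) = 0) =
        pr (fun a : ι → Fin 2 => ∃ l ∈ S2, ((a l : Fin 2) : ℕ) = 0) ^ d0 := by
      rw [← pr_equiv (Equiv.piComm fun (_ : E) (_ : ι) => Fin 2)
        (fun b : ι → E → Fin 2 => ∀ g : Fin d0, ∃ l ∈ S2, ((b l (g, c g) : Fin 2) : ℕ) = 0)]
      have h2 := pr_comp_injective (I := E) (Ω := ι → Fin 2) (J := Fin d0) (fun g => (g, c g))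
        (fun g g' h => (Prod.ext_iff.1 h).1)
        (fun a => ∀ g : Fin d0, ∃ l ∈ S2, ((a g l : Fin 2) : ℕ) = 0)
      have h3 := pr_pi_const (I := Fin d0) (Ω := ι → Fin 2)
        (fun a => ∃ l ∈ S2, ((a l : Fin 2) : ℕ) = 0)
      rw [Fintype.card_fin] at h3
      rw [← h3, ← h2]
      rfl
    have h4 : pr (fun b : ι → E → Fin 2 => ∀ g : Fin d0, ∃ l ∈ S2,
        ((b l (g, c g) : Fin 2) : ℕ) = 0) ≤ (1 - (1 / 2 : ℝ) ^ k) ^ d0 := by
      rw [h1]
      exact pow_le_pow_left₀ (pr_nonneg _) (even_pr_exists k S2 hS2) d0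
    refine le_trans ?_ h4
    refine le_trans (le_of_eq ?_) (pr_mono (Ω := ι → E → Fin 2) (E := fun b =>
      (evenLev k d0 m2 q hk hq).Fq fun e => bott false S2 fun l =>
        negIn S ((evenLev k d0 m2 q hk hq).z ζ) b l e = true) ?_)
    · rfl
    · intro b hb g
      have h5 := hb (g, c g)
      simp only [bott, Bool.false_eq_true, if_false] at h5
      obtain ⟨l, hl, hl2⟩ := h5
      refine ⟨l, hl, ?_⟩
      unfold negIn at hl2
      by_cases h6 : l.2 = S l.1
      · rw [if_pos h6, hc] at hl2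
        exact absurd hl2 Bool.false_ne_true
      · rw [if_neg h6] at hl2
        unfold nul at hl2
        exact of_decide_eq_true hl2

end Pool.Agent.W_MP_5f6b2a_mon
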