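import Pool.Agent.W_MP_5f6b2a_mon.EvenDefs
import Pool.Agent.W_MP_5f6b2a_mon.Tensor

/-!
The transfer property of the base level with bottom quantifier `∃ l ∈ S`.
-/

namespace Pool.Agent.W_MP_5f6b2a_mon

open Finset

/-- average of a function of a Boolean-valued function -/
theorem evenQ_av_bool {Ω : Type} [Fintype Ω] [Nonempty Ω] (u : Ω → Bool) (g : Bool → ℝ) :
    av (fun ω => g (u ω)) = g false + (g true - g false) * pr (fun ω => u ω = true) := by
  classical
  unfold pr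
  rw [← av_mul_left, ← av_const (Ω := Ω) (g false), ← av_add, av_const]
  refine av_congr fun ω => ?_
  cases h : u ω <;> simp [h]

theorem evenQ_bool_dom {Ω Ω' : Type} [Fintype Ω] [Fintype Ω'] [Nonempty Ω] [Nonempty Ω']
    (u : Ω → Bool) (v : Ω' → Bool) (h : pr (fun ω => u ω = true) ≤ pr (fun ω => v ω = true))
    (g : Bool → ℝ) (hg : Monotone g) : av (fun ω => g (u ω)) ≤ av (fun ω => g (v ω)) + 0 := by
  rw [evenQ_av_bool, evenQ_av_bool, add_zero]
  have h1 : 0 ≤ g true - g false := sub_nonneg.2 (hg (Bool.false_le _))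
  have := mul_le_mul_of_nonneg_left h h1
  linarith

theorem evenQ_zero {q : ℕ} (hq : 0 < q) : pr (fun x : Fin q => (x : ℕ) = 0) = 1 / (q : ℝ) := by
  rw [pr_eq_card, Fintype.card_fin]
  congr 1
  have : (Finset.univ.filter fun x : Fin q => (x : ℕ) = 0) = {⟨0, hq⟩} := by
    ext x
    simp [Fin.ext_iff]
  rw [this]
  simp

theorem evenQ_coord {I Ω : Type} [Fintype I] [DecidableEq I] [Fintype Ω] [Nonempty Ω] (i : I)
    (E : Ω → Prop) : pr (fun ω : I → Ω => E (ω i)) = pr E := by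
  have h := pr_comp_injective (Ω := Ω) (J := Unit) (fun _ => i)
    (fun a b _ => Subsingleton.elim a b) fun w : Unit → Ω => E (w ())
  rw [h]
  exact pr_equiv (Equiv.funUnique Unit Ω) E

theorem evenQ_half {k q r : ℕ} (hk : 0 < k) (hq : 0 < q) (hr : 2 * r ≤ k) (J : Finset (Fin k))
    (hJ : J.card ≤ r) :
    pr (fun h : Fin (q / 2) → Fin q => decide (∃ a, (h a : ℕ) = 0) = true) ≤
      pr (fun i : Fin k => decide (i ∉ J) = true) := by
  have n1 : Nonempty (Fin q) := Fin.pos_iff_nonempty.1 hq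
  have n2 : Nonempty (Fin k) := Fin.pos_iff_nonempty.1 hk
  have hq' : (0 : ℝ) < q := by exact_mod_cast hq
  have hk' : (0 : ℝ) < k := by exact_mod_cast hk
  have h1 : pr (fun h : Fin (q / 2) → Fin q => decide (∃ a, (h a : ℕ) = 0) = true) ≤ 1 / 2 := by
    have e : pr (fun h : Fin (q / 2) → Fin q => decide (∃ a, (h a : ℕ) = 0) = true) =
        pr (fun h : Fin (q / 2) → Fin q => ∃ a, (h a : ℕ) = 0) := pr_congr fun h => by simp
    rw [e]
    calc pr (fun h : Fin (q / 2) → Fin q => ∃ a, (h a : ℕ) = 0)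
        ≤ ∑ a : Fin (q / 2), pr (fun h : Fin (q / 2) → Fin q => (h a : ℕ) = 0) := pr_exists_le _
      _ = ∑ _a : Fin (q / 2), 1 / (q : ℝ) := by
          refine Finset.sum_congr rfl fun a _ => ?_
          rw [evenQ_coord a (fun x : Fin q => (x : ℕ) = 0), evenQ_zero hq]
      _ = ((q / 2 : ℕ) : ℝ) * (1 / q) := by simp
      _ ≤ ((q : ℝ) / 2) * (1 / q) := by
          gcongr
          exact Nat.cast_div_le
      _ = 1 / 2 := by field_simp
  have h2 : 1 / 2 ≤ pr (fun i : Fin k => decide (i ∉ J) = true) := by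
    have e : pr (fun i : Fin k => decide (i ∉ J) = true) = pr (fun i : Fin k => ¬ i ∈ J) :=
      pr_congr fun i => by simp
    rw [e, pr_not, pr_eq_card, Fintype.card_fin]
    have e2 : (Finset.univ.filter fun i : Fin k => i ∈ J) = J := by ext; simp
    rw [e2]
    have h3 : (2 : ℝ) * J.card ≤ k := by
      have : 2 * J.card ≤ k := by omega
      exact_mod_cast this
    have h4 : (J.card : ℝ) / k ≤ 1 / 2 := by
      rw [div_le_div_iff₀ hk' (by norm_num)]
      linarith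
    linarith
  exact h1.trans h2

/-- If a set `C` of colourings is not too small, then for most random sets `V = {v | h v = 0}` of
columns there is a member of `C` which does not use the colours of `J` on `V`. -/
theorem avoid_bound {k q r : ℕ} {V : Type} [Fintype V] [DecidableEq V] (hk : 0 < k) (hq : 0 < q)
    (hr : 2 * r ≤ k) (J : Finset (Fin k)) (hJ : J.card ≤ r) (C : (V → Fin k) → Prop) :
    pr C ≤ (1 - pr fun h : V → Fin q => ∀ i, C i → ∃ v, (h v : ℕ) = 0 ∧ i v ∈ J) ^ (q / 2) := by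
  classical
  have n1 : Nonempty (Fin q) := Fin.pos_iff_nonempty.1 hq
  have n2 : Nonempty (Fin k) := Fin.pos_iff_nonempty.1 hk
  let bad : (V → Bool) → Prop := fun N => ∀ i, C i → ∃ v, N v = true ∧ i v ∈ J
  have hbad : ∀ N N' : V → Bool, N ≤ N' → bad N → bad N' := by
    intro N N' h hb i hi
    obtain ⟨v, hv, hv'⟩ := hb i hi
    refine ⟨v, ?_, hv'⟩
    have := h v
    rw [hv] at this
    exact Bool.eq_true_of_true_le this
  let g : (V → Bool) → ℝ := fun N => if bad N then 1 else 0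
  have hg : Monotone g := by
    intro N N' h
    show (if bad N then (1 : ℝ) else 0) ≤ if bad N' then 1 else 0
    by_cases hb : bad N
    · rw [if_pos hb, if_pos (hbad N N' h hb)]
    · rw [if_neg hb]
      split_ifs <;> norm_num
  have ht := tensor (I := V) (Ω := fun _ => Fin (q / 2) → Fin q) (Ω' := fun _ => Fin k)
    (X := fun _ => Bool) (fun _ h => decide (∃ a, (h a : ℕ) = 0)) (fun _ i => decide (i ∉ J))
    (δ := 0) le_rfl (fun _ g hg _ _ => evenQ_bool_dom _ _ (evenQ_half hk hq hr J hJ) g hg)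
    g hg (fun N => by show (0 : ℝ) ≤ if bad N then 1 else 0; split_ifs <;> norm_num)
    (fun N => by show (if bad N then (1 : ℝ) else 0) ≤ 1; split_ifs <;> norm_num)
  rw [mul_zero, add_zero] at ht
  have e1 : av (fun ω : V → Fin (q / 2) → Fin q =>
      g fun v => decide (∃ a, (ω v a : ℕ) = 0)) =
      pr (fun ω : V → Fin (q / 2) → Fin q => bad fun v => decide (∃ a, (ω v a : ℕ) = 0)) := by
    unfold pr
    refine av_congr fun ω => ?_
    by_cases hb : bad fun v => decide (∃ a, (ω v a : ℕ) = 0)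
    · rw [if_pos hb]; exact if_pos hb
    · rw [if_neg hb]; exact if_neg hb
  have e2 : av (fun i : V → Fin k => g fun v => decide (i v ∉ J)) =
      pr (fun i : V → Fin k => bad fun v => decide (i v ∉ J)) := by
    unfold pr
    refine av_congr fun ω => ?_
    by_cases hb : bad fun v => decide (ω v ∉ J)
    · rw [if_pos hb]; exact if_pos hb
    · rw [if_neg hb]; exact if_neg hb
  rw [e1, e2] at ht
  have h1 : pr C ≤ pr (fun i : V → Fin k => ¬ bad fun v => decide (i v ∉ J)) := by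
    refine pr_mono fun i hi hb => ?_
    obtain ⟨v, hv, hv'⟩ := hb i hi
    simp only [decide_eq_true_eq] at hv
    exact hv hv'
  have h2 : pr (fun i : V → Fin k => ¬ bad fun v => decide (i v ∉ J)) ≤
      pr (fun ω : V → Fin (q / 2) → Fin q =>
        ¬ bad fun v => decide (∃ a, (ω v a : ℕ) = 0)) := by
    rw [pr_not, pr_not]
    linarith
  have h3 : pr (fun ω : V → Fin (q / 2) → Fin q =>
        ¬ bad fun v => decide (∃ a, (ω v a : ℕ) = 0)) ≤
      pr (fun ω : V → Fin (q / 2) → Fin q => ∀ a : Fin (q / 2),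
        ¬ ∀ i, C i → ∃ v, (ω v a : ℕ) = 0 ∧ i v ∈ J) := by
    refine pr_mono fun ω hω a ha => hω fun i hi => ?_
    obtain ⟨v, hv, hv'⟩ := ha i hi
    exact ⟨v, by simp only [decide_eq_true_eq]; exact ⟨a, hv⟩, hv'⟩
  have h4 : pr (fun ω : V → Fin (q / 2) → Fin q => ∀ a : Fin (q / 2),
        ¬ ∀ i, C i → ∃ v, (ω v a : ℕ) = 0 ∧ i v ∈ J) =
      (1 - pr fun h : V → Fin q => ∀ i, C i → ∃ v, (h v : ℕ) = 0 ∧ i v ∈ J) ^ (q / 2) := by
    have := pr_equiv (Equiv.piComm fun (_ : V) (_ : Fin (q / 2)) => Fin q)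
      (fun h : Fin (q / 2) → V → Fin q => ∀ a : Fin (q / 2),
        ¬ ∀ i, C i → ∃ v, (h a v : ℕ) = 0 ∧ i v ∈ J)
    refine this.trans ?_
    rw [pr_pi_const (I := Fin (q / 2)) (fun h : V → Fin q =>
      ¬ ∀ i, C i → ∃ v, (h v : ℕ) = 0 ∧ i v ∈ J), pr_not, Fintype.card_fin]
  exact h1.trans (h2.trans (h3.trans_eq h4))

/-- probability that a block of columns is not hit -/
theorem evenQ_notGood {d0 m2 q : ℕ} (hq : 0 < q) :
    pr (fun h : Fin d0 × Fin m2 → Fin q => ¬ ∀ g, ∃ c, (h (g, c) : ℕ) = 0) ≤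
      d0 * (1 - 1 / (q : ℝ)) ^ m2 := by
  have n1 : Nonempty (Fin q) := Fin.pos_iff_nonempty.1 hq
  calc pr (fun h : Fin d0 × Fin m2 → Fin q => ¬ ∀ g, ∃ c, (h (g, c) : ℕ) = 0)
      ≤ pr (fun h : Fin d0 × Fin m2 → Fin q => ∃ g, ∀ c, ¬ (h (g, c) : ℕ) = 0) := by
        refine pr_mono fun h hh => ?_
        push Not at hh
        exact hh
    _ ≤ ∑ g : Fin d0, pr (fun h : Fin d0 × Fin m2 → Fin q => ∀ c, ¬ (h (g, c) : ℕ) = 0) :=
        pr_exists_le _
    _ = ∑ _g : Fin d0, (1 - 1 / (q : ℝ)) ^ m2 := by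
        refine Finset.sum_congr rfl fun g _ => ?_
        rw [pr_comp_injective (Ω := Fin q) (fun c : Fin m2 => ((g, c) : Fin d0 × Fin m2))
          (fun a b h => by simpa using h) (fun w : Fin m2 → Fin q => ∀ c, ¬ (w c : ℕ) = 0),
          pr_pi_const (I := Fin m2) (fun x : Fin q => ¬ (x : ℕ) = 0), pr_not, evenQ_zero hq,
          Fintype.card_fin]
    _ = _ := by simp

theorem even_qOK (k d0 m2 q r M e : ℕ) (hk : 0 < k) (hq : 0 < q) (hr : 2 * r ≤ k)
    (h1 : (1 - (1 / 2 : ℝ) ^ (k + 3)) ^ (q / 2) < 1 / (2 * M * 2 ^ e * 2 ^ (k * e)))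
    (h2 : d0 * (1 - 1 / (q : ℝ)) ^ m2 ≤ 1 / 8) :
    (evenLev k d0 m2 q hk hq).QOK 0 r M e := by
  classical
  have n1 : Nonempty (Fin q) := Fin.pos_iff_nonempty.1 hq
  intro A hA hhalf
  obtain ⟨φ, hφ⟩ := exists_pr_ge (by norm_num : (0 : ℝ) < 1 / 2) hhalf
  obtain ⟨F, β, hF, hβ, hAφ⟩ := hA φ
  choose G hG1 hG2 hG3 using hF
  -- pigeonhole
  have hstep : (1 / 2 : ℝ) / M ≤ pr (fun ω : Fin d0 × Fin m2 → Fin k =>
      ∃ aJ : (Fin e → Bool) × (Fin e → Finset (Fin k)), β (fun c => aJ.1 c = true) ∧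
        ∀ c, aJ.1 c = true → G c (aJ.2 c) ((evenLev k d0 m2 q hk hq).w ω)) := by
    refine hφ.trans (pr_mono fun ω hω => ?_)
    rw [hAφ] at hω
    refine ⟨(fun c => decide (F c ((evenLev k d0 m2 q hk hq).w ω)),
      fun c => if h : ∃ J, G c J ((evenLev k d0 m2 q hk hq).w ω) then h.choose else ∅), ?_, ?_⟩
    · simpa using hω
    · intro c hc
      simp only [decide_eq_true_eq] at hc
      have hex := (hG3 c _).1 hc
      simp only [dif_pos hex]
      exact hex.choose_spec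
  by_cases hM0 : M = 0
  · subst hM0
    exact φ.elim0
  have hM : (0 : ℝ) < M := by exact_mod_cast Nat.pos_of_ne_zero hM0
  obtain ⟨⟨a, Jc⟩, haJ⟩ := exists_pr_ge' (by positivity) hstep
  simp only at haJ
  have hcard : (Fintype.card ((Fin e → Bool) × (Fin e → Finset (Fin k))) : ℝ) =
      2 ^ e * 2 ^ (k * e) := by
    rw [Fintype.card_prod, Fintype.card_fun, Fintype.card_fun, Fintype.card_bool,
      Fintype.card_finset, Fintype.card_fin, Fintype.card_fin, ← pow_mul]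
    push_cast
    rfl
  rw [hcard] at haJ
  set C : (Fin d0 × Fin m2 → Fin k) → Prop := fun ω => β (fun c => a c = true) ∧
    ∀ c, a c = true → G c (Jc c) ((evenLev k d0 m2 q hk hq).w ω) with hC
  have hCpr : 1 / (2 * M * 2 ^ e * 2 ^ (k * e)) ≤ pr C := by
    refine le_trans (le_of_eq ?_) haJ
    field_simp
  have hCpos : 0 < pr C := lt_of_lt_of_le (by positivity) hCpr
  have hβa : β (fun c => a c = true) := by
    obtain ⟨ω, hω⟩ := exists_of_pr_pos hCpos
    exact hω.1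
  -- bad sets are rare
  have hbad : ∀ J : Finset (Fin k), J.card ≤ r →
      pr (fun h : Fin d0 × Fin m2 → Fin q => ∀ i, C i → ∃ v, (h v : ℕ) = 0 ∧ i v ∈ J) ≤
        (1 / 2 : ℝ) ^ (k + 3) := by
    intro J hJ
    by_contra hcon
    push Not at hcon
    have hb := avoid_bound hk hq hr J hJ C
    have hle : (1 - pr fun h : Fin d0 × Fin m2 → Fin q =>
        ∀ i, C i → ∃ v, (h v : ℕ) = 0 ∧ i v ∈ J) ^ (q / 2) ≤
        (1 - (1 / 2 : ℝ) ^ (k + 3)) ^ (q / 2) :=
      pow_le_pow_left₀ (by linarith [pr_le_one (fun h : Fin d0 × Fin m2 → Fin q =>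
        ∀ i, C i → ∃ v, (h v : ℕ) = 0 ∧ i v ∈ J)]) (by linarith) _
    linarith
  have hunion : pr (fun h : Fin d0 × Fin m2 → Fin q => ∃ J : Finset (Fin k), J.card ≤ r ∧
      ∀ i, C i → ∃ v, (h v : ℕ) = 0 ∧ i v ∈ J) ≤ 1 / 8 := by
    calc pr (fun h : Fin d0 × Fin m2 → Fin q => ∃ J : Finset (Fin k), J.card ≤ r ∧
          ∀ i, C i → ∃ v, (h v : ℕ) = 0 ∧ i v ∈ J)
        ≤ ∑ J : Finset (Fin k), pr (fun h : Fin d0 × Fin m2 → Fin q => J.card ≤ r ∧
          ∀ i, C i → ∃ v, (h v : ℕ) = 0 ∧ i v ∈ J) := pr_exists_le _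
      _ ≤ ∑ _J : Finset (Fin k), (1 / 2 : ℝ) ^ (k + 3) := by
          refine Finset.sum_le_sum fun J _ => ?_
          by_cases hJ : J.card ≤ r
          · exact (pr_mono fun h hh => hh.2).trans (hbad J hJ)
          · rw [pr_false _ fun h hh => hJ hh.1]
            positivity
      _ = 1 / 8 := by
          rw [Finset.sum_const, Finset.card_univ, Fintype.card_finset, Fintype.card_fin,
            nsmul_eq_mul, pow_add]
          push_cast
          rw [← mul_assoc, ← mul_pow]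
          norm_num
  have hgood := evenQ_notGood (d0 := d0) (m2 := m2) hq
  -- conclusion
  have hincl : ∀ h : Fin d0 × Fin m2 → Fin q,
      ¬ ((¬ ∀ g, ∃ c, (h (g, c) : ℕ) = 0) ∨ ∃ J : Finset (Fin k), J.card ≤ r ∧
        ∀ i, C i → ∃ v, (h v : ℕ) = 0 ∧ i v ∈ J) →
      ∃ φ, A φ ((evenLev k d0 m2 q hk hq).z h) := by
    intro h hh
    push Not at hh
    obtain ⟨hg, hnb⟩ := hh
    refine ⟨φ, (hAφ _).2 (hβ (fun c (hc : a c = true) => ?_) hβa)⟩
    -- test `c`
    obtain ⟨ω0, hω0⟩ := exists_of_pr_pos hCpos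
    have hcard : (Jc c).card ≤ r := hG1 c _ _ (hω0.2 c hc)
    obtain ⟨ω, hω, hav⟩ := hnb (Jc c) hcard
    refine (hG3 c _).2 ⟨Jc c, hG2 c (Jc c) ((evenLev k d0 m2 q hk hq).w ω) _ ?_ (hω.2 c hc)⟩
    intro j hj v
    show decide (ω v = j) ≤ if ∀ g, ∃ c, (h (g, c) : ℕ) = 0 then decide ((h v : ℕ) ≠ 0) else false
    rw [if_pos hg]
    by_cases hωv : ω v = j
    · have : (h v : ℕ) ≠ 0 := by
        intro h0
        exact hav v h0 (by rw [hωv]; exact hj)
      simp [this]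
    · simp [hωv]
  show 1 / 8 ≤ pr (fun h : Fin d0 × Fin m2 → Fin q => ∃ φ, A φ ((evenLev k d0 m2 q hk hq).z h))
  have hfin : 1 - (1 / 8 + 1 / 8) ≤ pr (fun h : Fin d0 × Fin m2 → Fin q =>
      ∃ φ, A φ ((evenLev k d0 m2 q hk hq).z h)) := by
    refine le_trans ?_ (pr_mono hincl)
    rw [pr_not]
    have := pr_or_le (fun h : Fin d0 × Fin m2 → Fin q => ¬ ∀ g, ∃ c, (h (g, c) : ℕ) = 0)
      (fun h => ∃ J : Finset (Fin k), J.card ≤ r ∧
        ∀ i, C i → ∃ v, (h v : ℕ) = 0 ∧ i v ∈ J)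
    linarith
  linarith

end Pool.Agent.W_MP_5f6b2a_mon
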