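import Pool.Agent.W_MP_5f6b2a_mon.NFCore

/-!
The normal form of the problems in `MonW t`.
-/

namespace Pool.Agent.W_MP_5f6b2a_mon

open Finset

/-- number of `k'`-element subsets -/
theorem NF_card_le (k' N : ℕ) : (powersetCard k' (univ : Finset (Fin N))).card ≤ N ^ k' := by
  rw [card_powersetCard, card_univ, Fintype.card_fin]
  exact Nat.choose_le_pow N k'

theorem normal_form {Q : ParamProblem} {t : ℕ} (hQ : Q ∈ MonW (t + 1)) :
    ∃ c' : ℕ, ∀ k : ℕ, ∃ C : ℕ, ∀ n : ℕ,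
      ∃ (Y M : ℕ) (y : Fin Y → (Fin n → Bool) → Prop) (Φ : Fin M → (Fin Y → Prop) → Prop),
        Y ≤ C * (n + 1) ^ c' ∧ M ≤ (n + 2) ^ C ∧
        (∀ i, ∃ (s' : ℕ) (p : Fin s' → (Fin n → Bool) → Prop), s' ≤ C * (n + 1) ^ c' ∧
          MonProg p ∧ ∃ j, ∀ x, y i x ↔ p j x) ∧
        (∀ φ, Lv (JnOf Coord C) M t true (Φ φ)) ∧
        ∀ x, Q n x k ↔ ∃ φ, Φ φ fun i => y i x := by
  obtain ⟨c, d, f, g, hQ⟩ := hQ
  obtain ⟨e', he'⟩ := nf_core t d
  choose Cf hCf using he'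
  refine ⟨c * e' + c, fun k => ?_⟩
  obtain ⟨C0, hC0⟩ : ∃ C0, ∀ k' ≤ g k, Cf k' ≤ C0 :=
    ⟨(Finset.range (g k + 1)).sup Cf, fun k' hk' => Finset.le_sup (f := Cf) (Finset.mem_range.2 (by omega))⟩
  obtain ⟨A, hA⟩ : ∃ A, A = 3 * f k + 2 := ⟨_, rfl⟩
  obtain ⟨C, hC⟩ : ∃ C, C = C0 + (f k + C0 * A ^ e') + (A + c) * (g k + C0) := ⟨_, rfl⟩
  refine ⟨C, fun n => ?_⟩
  obtain ⟨s, N, k', p, F, hs, hN, hk', hp, hF, hx⟩ := hQ k n
  obtain ⟨Y, y0, hY1, hY, hMF, hS⟩ := hCf k' N s (f k * (n + 1) ^ c) F hF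
  have hCk := hC0 k' hk'
  obtain ⟨B, hB⟩ : ∃ B, B = N + s + f k * (n + 1) ^ c + 2 := ⟨_, rfl⟩
  rw [← hB] at hY hMF hS
  have hn1 : 1 ≤ (n + 1) ^ c := Nat.one_le_pow _ _ (by omega)
  have hBle : B ≤ A * (n + 1) ^ c := by
    rw [hB, hA]
    nlinarith
  have hB' : B ≤ (n + 2) ^ (A + c) := by
    calc B ≤ A * (n + 1) ^ c := hBle
      _ ≤ (n + 2) ^ A * (n + 2) ^ c := by
        apply Nat.mul_le_mul
        · exact (Nat.lt_pow_self (by omega)).le
        · exact Nat.pow_le_pow_left (by omega) c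
      _ = _ := by rw [pow_add]
  have hBe : C0 * B ^ e' ≤ C0 * A ^ e' * (n + 1) ^ (c * e') := by
    calc C0 * B ^ e' ≤ C0 * (A * (n + 1) ^ c) ^ e' := by gcongr
      _ = _ := by rw [mul_pow, ← pow_mul]; ring
  have hn2 : (n + 1) ^ (c * e') ≤ (n + 1) ^ (c * e' + c) := Nat.pow_le_pow_right (by omega) (by omega)
  have hn3 : (n + 1) ^ c ≤ (n + 1) ^ (c * e' + c) := Nat.pow_le_pow_right (by omega) (by omega)
  have hYle : Cf k' * B ^ e' ≤ C0 * A ^ e' * (n + 1) ^ (c * e' + c) := by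
    calc Cf k' * B ^ e' ≤ C0 * B ^ e' := Nat.mul_le_mul_right _ hCk
      _ ≤ C0 * A ^ e' * (n + 1) ^ (c * e') := hBe
      _ ≤ _ := Nat.mul_le_mul_left _ hn2
  obtain ⟨M', hM'⟩ : ∃ M', M' = B ^ Cf k' := ⟨_, rfl⟩
  rw [← hM'] at hS
  have hM'1 : 1 ≤ M' := by
    rw [hM']
    exact Nat.one_le_pow _ _ (by omega)
  have hS' : ∀ S : {S : Finset (Fin N) // S ∈ powersetCard k' (univ : Finset (Fin N))},
      ∃ G : Fin M' → (Fin Y → Prop) → Prop, (∀ i, Lv (JnOf Coord (Cf k')) M' t true (G i)) ∧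
        ∀ v, F S v ↔ ∃ i, G i (fun j => y0 j v) := by
    rintro ⟨S, hSm⟩
    obtain ⟨Φ, ⟨G, hG, hΦ⟩, hF⟩ := hS S (mem_powersetCard.1 hSm).2 false
    exact ⟨G, hG, fun v => (hF v).trans (hΦ _)⟩
  choose G hG hGF using hS'
  let κ := {S : Finset (Fin N) // S ∈ powersetCard k' (univ : Finset (Fin N))} × Fin M'
  let e := Fintype.equivFin κ
  have hcard : Fintype.card κ = (powersetCard k' (univ : Finset (Fin N))).card * M' := by
    rw [Fintype.card_prod, Fintype.card_coe, Fintype.card_fin]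
  refine ⟨Y, Fintype.card κ, fun i x => y0 i (fun j => p j x), fun φ => G (e.symm φ).1 (e.symm φ).2,
    ?_, ?_, ?_, ?_, ?_⟩
  · refine hY.trans (hYle.trans ?_)
    apply Nat.mul_le_mul_right
    rw [hC]
    omega
  · rw [hcard]
    calc (powersetCard k' (univ : Finset (Fin N))).card * M' ≤ N ^ k' * B ^ Cf k' := by
          rw [hM']
          exact Nat.mul_le_mul_right _ (NF_card_le k' N)
      _ ≤ B ^ k' * B ^ Cf k' := by
          apply Nat.mul_le_mul_right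
          apply Nat.pow_le_pow_left
          omega
      _ = B ^ (k' + Cf k') := by rw [pow_add]
      _ ≤ B ^ (g k + C0) := Nat.pow_le_pow_right (by omega) (by omega)
      _ ≤ ((n + 2) ^ (A + c)) ^ (g k + C0) := Nat.pow_le_pow_left hB' _
      _ = (n + 2) ^ ((A + c) * (g k + C0)) := by rw [← pow_mul]
      _ ≤ (n + 2) ^ C := by
          apply Nat.pow_le_pow_right (by omega)
          rw [hC]
          omega
  · intro i
    obtain ⟨s', p', hs', hp', j, hj⟩ := (hMF i).comp hp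
    refine ⟨s', p', ?_, hp', j, fun x => (hj x).symm⟩
    calc s' ≤ s + Cf k' * B ^ e' := hs'
      _ ≤ f k * (n + 1) ^ (c * e' + c) + C0 * A ^ e' * (n + 1) ^ (c * e' + c) := by
          apply Nat.add_le_add _ hYle
          exact hs.trans (Nat.mul_le_mul_left _ hn3)
      _ = (f k + C0 * A ^ e') * (n + 1) ^ (c * e' + c) := by ring
      _ ≤ C * (n + 1) ^ (c * e' + c) := by
          apply Nat.mul_le_mul_right
          rw [hC]
          omega
  · intro φ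
    have h1 := hG (e.symm φ).1 (e.symm φ).2
    have hM : M' ≤ Fintype.card κ := by
      rw [hcard]
      have : 0 < (powersetCard k' (univ : Finset (Fin N))).card := card_pos.2 ⟨_, (e.symm φ).1.2⟩
      exact Nat.le_mul_of_pos_left _ this
    have h2 := h1.mono hM'1 hM
    refine h2.pull (𝓑' := JnOf Coord C) (fun z => z) ?_
    intro F' hF'
    refine JnOf.mono ⟨fun v => v ⟨0, hY1⟩, ⟨0, hY1⟩, fun _ => Iff.rfl⟩ ?_ hF'
    rw [hC]
    omega
  · intro x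
    rw [hx x]
    constructor
    · rintro ⟨S, hSc, hFS⟩
      have hSm : S ∈ powersetCard k' (univ : Finset (Fin N)) := mem_powersetCard.2 ⟨subset_univ _, hSc⟩
      obtain ⟨i, hi⟩ := (hGF ⟨S, hSm⟩ _).1 hFS
      refine ⟨e (⟨S, hSm⟩, i), ?_⟩
      simp only [Equiv.symm_apply_apply]
      exact hi
    · rintro ⟨φ, hφ⟩
      exact ⟨(e.symm φ).1, (mem_powersetCard.1 (e.symm φ).1.2).2, (hGF _ _).2 ⟨_, hφ⟩⟩

end Pool.Agent.W_MP_5f6b2a_mon
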