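import Mathlib

/-!
Elementary asymptotics: polynomials against exponentials.
-/

namespace Pool.Agent.W_MP_5f6b2a_mon

open Filter

/-- Polynomially bounded non-negative functions. -/
def PolyB (f : ℕ → ℝ) : Prop := ∃ (K : ℕ) (A : ℝ), 0 ≤ A ∧ ∀ z : ℕ, 1 ≤ z → 0 ≤ f z ∧
  f z ≤ A * (z : ℝ) ^ K

theorem PolyB.const {c : ℝ} (hc : 0 ≤ c) : PolyB fun _ => c :=
  ⟨0, c, hc, fun z _ => by simp [hc]⟩

theorem PolyB.id : PolyB fun z => (z : ℝ) :=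
  ⟨1, 1, zero_le_one, fun z _ => by simp⟩

theorem PolyB.mul {f g : ℕ → ℝ} (hf : PolyB f) (hg : PolyB g) : PolyB fun z => f z * g z := by
  obtain ⟨K, A, hA, hf⟩ := hf
  obtain ⟨K', A', hA', hg⟩ := hg
  refine ⟨K + K', A * A', mul_nonneg hA hA', fun z hz => ?_⟩
  obtain ⟨h1, h2⟩ := hf z hz
  obtain ⟨h3, h4⟩ := hg z hz
  refine ⟨mul_nonneg h1 h3, (mul_le_mul h2 h4 h3 (h1.trans h2)).trans_eq ?_⟩
  ring

theorem PolyB.add {f g : ℕ → ℝ} (hf : PolyB f) (hg : PolyB g) : PolyB fun z => f z + g z := by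
  obtain ⟨K, A, hA, hf⟩ := hf
  obtain ⟨K', A', hA', hg⟩ := hg
  refine ⟨K + K', A + A', add_nonneg hA hA', fun z hz => ?_⟩
  obtain ⟨h1, h2⟩ := hf z hz
  obtain ⟨h3, h4⟩ := hg z hz
  have hz1 : (1 : ℝ) ≤ z := by exact_mod_cast hz
  refine ⟨add_nonneg h1 h3, (add_le_add h2 h4).trans ?_⟩
  rw [add_mul]
  refine add_le_add (mul_le_mul_of_nonneg_left (pow_le_pow_right₀ hz1 (Nat.le_add_right _ _)) hA)
    (mul_le_mul_of_nonneg_left (pow_le_pow_right₀ hz1 (Nat.le_add_left _ _)) hA')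

theorem PolyB.pow {f : ℕ → ℝ} (hf : PolyB f) (n : ℕ) : PolyB fun z => f z ^ n := by
  induction n with
  | zero => simpa using PolyB.const zero_le_one
  | succ n ih =>
    have := ih.mul hf
    simpa only [pow_succ] using this

theorem PolyB.of_le {f g : ℕ → ℝ} (hg : PolyB g) (h0 : ∀ z, 1 ≤ z → 0 ≤ f z)
    (h : ∀ z, 1 ≤ z → f z ≤ g z) : PolyB f := by
  obtain ⟨K, A, hA, hg⟩ := hg
  exact ⟨K, A, hA, fun z hz => ⟨h0 z hz, (h z hz).trans (hg z hz).2⟩⟩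

/-- A polynomially bounded function times an exponentially small one tends to `0`. -/
theorem PolyB.exp_small {f : ℕ → ℝ} (hf : PolyB f) {a : ℝ} (ha0 : 0 ≤ a) (ha1 : a < 1) {ε : ℝ}
    (hε : 0 < ε) : ∀ᶠ z : ℕ in atTop, f z * a ^ z ≤ ε := by
  obtain ⟨K, A, hA, hf⟩ := hf
  have h1 : Tendsto (fun z : ℕ => A * ((z : ℝ) ^ K * a ^ z)) atTop (nhds (A * 0)) :=
    (tendsto_pow_const_mul_const_pow_of_abs_lt_one K (by rwa [abs_of_nonneg ha0])).const_mul A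
  rw [mul_zero] at h1
  filter_upwards [h1.eventually_le_const hε, eventually_ge_atTop 1] with z hz h1z
  refine (mul_le_mul_of_nonneg_right (hf z h1z).2 (pow_nonneg ha0 z)).trans ?_
  rwa [mul_assoc]

/-- Strict version. -/
theorem PolyB.exp_small_lt {f : ℕ → ℝ} (hf : PolyB f) {a : ℝ} (ha0 : 0 ≤ a) (ha1 : a < 1) {ε : ℝ}
    (hε : 0 < ε) : ∀ᶠ z : ℕ in atTop, f z * a ^ z < ε := by
  filter_upwards [hf.exp_small ha0 ha1 (half_pos hε)] with z hz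
  linarith

theorem one_sub_pow_le {y : ℝ} (hy1 : y ≤ 1) (n : ℕ) : (1 - y) ^ n ≤ Real.exp (-(y * n)) := by
  have h1 : 1 - y ≤ Real.exp (-y) := by linarith [Real.add_one_le_exp (-y)]
  calc (1 - y) ^ n ≤ Real.exp (-y) ^ n := pow_le_pow_left₀ (by linarith) h1 n
    _ = Real.exp (-(y * n)) := by rw [← Real.exp_nat_mul]; ring_nf

end Pool.Agent.W_MP_5f6b2a_mon
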