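import Pool.Agent.W_MP_5f6b2a_mon.Core

/-!
The base level for formulas ending in `∀ i ∃ v ∀ l ∈ S`.
-/

namespace Pool.Agent.W_MP_5f6b2a_mon

open Finset

/-- Columns. -/
abbrev Col (d0 m2 : ℕ) : Type := Fin d0 × Fin m2

/-- Positive samples: in every clause a planted column and noise for every row. -/
abbrev OddP (k m d0 m2 Bp : ℕ) : Type :=
  Fin m → Col d0 m2 × (Fin k → Col d0 m2 → Fin Bp)

/-- Positive contents: the bit `(i, v)` of row `j` is set if `v` is the planted column of clause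
`i` or if the noise says so. -/
def oddW {k m d0 m2 Bp : ℕ} (ω : OddP k m d0 m2 Bp) (j : Fin k) (e : Fin m × Col d0 m2) : Bool :=
  decide (e.2 = (ω e.1).1 ∨ ((ω e.1).2 j e.2 : ℕ) = 0)

/-- Negative samples: `Λ` positive samples, the damaged clause, the damaged rows. -/
abbrev OddZ (k m d0 m2 Bp Λ : ℕ) : Type :=
  (Fin Λ → OddP k m d0 m2 Bp) × Fin m × (Fin Λ → Fin k)

/-- The union of the `Λ` positive contents, except that in the damaged clause the planted column
of the `u`-th content is removed from the row `λ u`. -/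
def oddRaw {k m d0 m2 Bp Λ : ℕ} (ζ : OddZ k m d0 m2 Bp Λ) (j : Fin k) (e : Fin m × Col d0 m2) :
    Bool :=
  decide (∃ u, (e.2 = (ζ.1 u e.1).1 ∧ (e.1 = ζ.2.1 → j ≠ ζ.2.2 u)) ∨
    ((ζ.1 u e.1).2 j e.2 : ℕ) = 0)

/-- The clause `i` is sparse: the rows in `U` have few common columns, for every proper set `U` of
rows. -/
def Sparse {k m d0 m2 Bp Λ : ℕ} (Bm : ℕ) (ζ : OddZ k m d0 m2 Bp Λ) (i : Fin m) : Prop :=
  ∀ U : Finset (Fin k), U ≠ univ →
    ((univ.filter fun v : Col d0 m2 => ∀ j ∈ U, oddRaw ζ j (i, v) = true).card : ℝ) *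
      (1 / (Bm : ℝ)) ^ (k - U.card) ≤ 1 / 4

open Classical in
/-- Good negative samples: the damaged clause has no common column and at least half of the
clauses are sparse. -/
def Good {k m d0 m2 Bp Λ : ℕ} (Bm : ℕ) (ζ : OddZ k m d0 m2 Bp Λ) : Prop :=
  (¬ ∃ v, ∀ j, oddRaw ζ j (ζ.2.1, v) = true) ∧
    m ≤ 2 * (univ.filter fun i => Sparse Bm ζ i).card

open Classical in
/-- Negative contents. -/
noncomputable def oddNeg {k m d0 m2 Bp Λ : ℕ} (Bm : ℕ) (ζ : OddZ k m d0 m2 Bp Λ) (j : Fin k)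
    (e : Fin m × Col d0 m2) : Bool := if Good Bm ζ then oddRaw ζ j e else false

/-- Base level with `m` clauses and columns `Fin d0 × Fin m2`. -/
noncomputable def oddLev (k m d0 m2 Bp Bm Λ : ℕ) (hk : 0 < k) (hm : 0 < m) (hd : 0 < d0)
    (hm2 : 0 < m2) (hB : 0 < Bp) : Lev k where
  E := Fin m × Col d0 m2
  fE := inferInstance
  dE := inferInstance
  Fq φ := ∀ i, ∃ v, φ (i, v)
  P := OddP k m d0 m2 Bp
  fP := inferInstance
  nP := by
    have := Fin.pos_iff_nonempty.1 hd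
    have := Fin.pos_iff_nonempty.1 hm2
    have := Fin.pos_iff_nonempty.1 hB
    infer_instance
  w := oddW
  Z := OddZ k m d0 m2 Bp Λ
  fZ := inferInstance
  nZ := by
    have := Fin.pos_iff_nonempty.1 hd
    have := Fin.pos_iff_nonempty.1 hm2
    have := Fin.pos_iff_nonempty.1 hB
    have := Fin.pos_iff_nonempty.1 hk
    have := Fin.pos_iff_nonempty.1 hm
    infer_instance
  z := oddNeg Bm
  Ty K κ := ∀ i, d0 ≤ (univ.filter fun v : Col d0 m2 => ∀ j ∈ K, κ j (i, v) = true).card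

section

variable (k m d0 m2 Bp Bm Λ : ℕ) (hk : 0 < k) (hm : 0 < m) (hd : 0 < d0) (hm2 : 0 < m2)
  (hB : 0 < Bp)

theorem odd_fqMono : (oddLev k m d0 m2 Bp Bm Λ hk hm hd hm2 hB).FqMono :=
  fun _ _ h hφ i => (hφ i).imp fun _ hv => h _ hv

theorem odd_posOK : (oddLev k m d0 m2 Bp Bm Λ hk hm hd hm2 hB).PosOK true := by
  intro ω i
  refine ⟨(ω i).1, ?_⟩
  simp [bott, oddLev, oddW]

end

end Pool.Agent.W_MP_5f6b2a_mon
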