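import Pool.Agent.W_MP_5f6b2a_mon.EvenDefs
import Pool.Agent.W_MP_5f6b2a_mon.OddDefs

/-!
`NSat` on structured inputs.
-/

namespace Pool.Agent.W_MP_5f6b2a_mon

open Finset

/-- The quantifier of `L` is a reindexing of `t` alternating quantifiers over `Fin m`. -/
def Real {k : ℕ} (L : Lev k) (m t : ℕ) : Prop :=
  ∃ π : (Fin t → Fin m) → L.E, ∀ φ : L.E → Prop, alt t true (fun q => φ (π q)) ↔ L.Fq φ

/-- The quantifier of `L` is not vacuous. -/
def Lev.FqFalse {k : ℕ} (L : Lev k) : Prop := ¬ L.Fq fun _ => False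

theorem Struct_surj {α : Type} [Fintype α] [Nonempty α] {m : ℕ} (h : Fintype.card α ≤ m) :
    ∃ s : Fin m → α, Function.Surjective s := by
  have h1 : Fintype.card α ≤ Fintype.card (Fin m) := by simpa using h
  obtain ⟨f⟩ := Function.Embedding.nonempty_of_card_le h1
  exact ⟨Function.invFun f, Function.invFun_surjective f.injective⟩

theorem even_real (k d0 m2 q : ℕ) (hk : 0 < k) (hq : 0 < q) (hd : 0 < d0) (hm2 : 0 < m2) (m : ℕ)
    (hm : d0 * m2 ≤ m) : Real (evenLev k d0 m2 q hk hq) m 1 := by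
  have := Fin.pos_iff_nonempty.1 hd
  have := Fin.pos_iff_nonempty.1 hm2
  obtain ⟨s, hs⟩ := Struct_surj (α := Fin d0 × Fin m2) (m := m) (by simpa using hm)
  refine ⟨fun q => s (q 0), fun φ => ?_⟩
  show (∀ i : Fin m, φ (s _)) ↔ ∀ v, φ v
  constructor
  · intro h v
    obtain ⟨i, rfl⟩ := hs v
    exact h i
  · intro h i
    exact h _

theorem even_fqFalse (k d0 m2 q : ℕ) (hk : 0 < k) (hq : 0 < q) (hd : 0 < d0) (hm2 : 0 < m2) :
    (evenLev k d0 m2 q hk hq).FqFalse := by
  intro h
  exact h (⟨0, hd⟩, ⟨0, hm2⟩)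

theorem odd_real (k m d0 m2 Bp Bm Λ : ℕ) (hk : 0 < k) (hm : 0 < m) (hd : 0 < d0) (hm2 : 0 < m2)
    (hB : 0 < Bp) (m' : ℕ) (h1 : m ≤ m') (h2 : d0 * m2 ≤ m') :
    Real (oddLev k m d0 m2 Bp Bm Λ hk hm hd hm2 hB) m' 2 := by
  have := Fin.pos_iff_nonempty.1 hd
  have := Fin.pos_iff_nonempty.1 hm2
  have := Fin.pos_iff_nonempty.1 hm
  obtain ⟨s, hs⟩ := Struct_surj (α := Fin d0 × Fin m2) (m := m') (by simpa using h2)
  obtain ⟨r, hr⟩ := Struct_surj (α := Fin m) (m := m') (by simpa using h1)
  refine ⟨fun q => (r (q 0), s (q 1)), fun φ => ?_⟩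
  show (∀ i : Fin m', ∃ j : Fin m', φ (r i, s j)) ↔ ∀ i, ∃ v, φ (i, v)
  constructor
  · intro h i
    obtain ⟨i', rfl⟩ := hr i
    obtain ⟨j, hj⟩ := h i'
    exact ⟨_, hj⟩
  · intro h i
    obtain ⟨v, hv⟩ := h (r i)
    obtain ⟨j, rfl⟩ := hs v
    exact ⟨j, hv⟩

theorem odd_fqFalse (k m d0 m2 Bp Bm Λ : ℕ) (hk : 0 < k) (hm : 0 < m) (hd : 0 < d0)
    (hm2 : 0 < m2) (hB : 0 < Bp) : (oddLev k m d0 m2 Bp Bm Λ hk hm hd hm2 hB).FqFalse := by
  intro h
  obtain ⟨_, hv⟩ := h ⟨0, hm⟩
  exact hv

theorem step_real {k : ℕ} (L : Lev k) (M1 M2 : ℕ) (h1 : 0 < M1) (h2 : 0 < M2) (m t : ℕ)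
    (hM1 : M1 ≤ m) (hM2 : M2 ≤ m) (hL : Real L m t) : Real (L.step M1 M2 h1 h2) m (t + 2) := by
  have := Fin.pos_iff_nonempty.1 h1
  have := Fin.pos_iff_nonempty.1 h2
  obtain ⟨s, hs⟩ := Struct_surj (α := Fin M1) (m := m) (by simpa using hM1)
  obtain ⟨r, hr⟩ := Struct_surj (α := Fin M2) (m := m) (by simpa using hM2)
  obtain ⟨π, hπ⟩ := hL
  refine ⟨fun q => (s (q 0), r (q 1), π (Fin.tail (Fin.tail q))), fun φ => ?_⟩
  show (∀ i : Fin m, ∃ j : Fin m, alt t true fun q => φ (s i, r j, π q)) ↔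
    ∀ i, ∃ j, L.Fq fun e => φ (i, j, e)
  constructor
  · intro h i
    obtain ⟨i', rfl⟩ := hs i
    obtain ⟨j, hj⟩ := h i'
    exact ⟨_, (hπ fun e => φ (s i', r j, e)).1 hj⟩
  · intro h i
    obtain ⟨v, hv⟩ := h (s i)
    obtain ⟨j, rfl⟩ := hr v
    exact ⟨j, (hπ fun e => φ (s i, r j, e)).2 hv⟩

theorem step_fqFalse {k : ℕ} (L : Lev k) (M1 M2 : ℕ) (h1 : 0 < M1) (h2 : 0 < M2)
    (hL : L.FqFalse) : (L.step M1 M2 h1 h2).FqFalse := by
  intro h
  obtain ⟨_, hj⟩ := h ⟨0, h1⟩
  exact hL hj

theorem Struct_nsat_iff {t m k : ℕ} (bt : Bool) (hbt : bt = true ↔ Even t)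
    (y : Fin (m ^ (t + 1)) → Bool) : NSat t (m ^ (t + 1)) y k ↔
      ∃ S : Finset (Fin m), S.card = k ∧ alt t true fun q =>
        bott bt S fun l => y (finFunctionFinEquiv (Fin.snoc q l)) = true := by
  have key : ∀ S : Finset (Fin m), (fun q : Fin t → Fin m =>
      bott bt S fun l => y (finFunctionFinEquiv (Fin.snoc q l)) = true) =
      fun q => if Even t then ∀ l ∈ S, y (finFunctionFinEquiv (Fin.snoc q l)) = true
        else ∃ l ∈ S, y (finFunctionFinEquiv (Fin.snoc q l)) = true := by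
    intro S
    funext q
    by_cases ht : Even t
    · have : bt = true := hbt.2 ht
      subst this
      simp only [bott, if_pos ht, if_true]
    · have : bt = false := by
        cases bt
        · rfl
        · exact absurd (hbt.1 rfl) ht
      subst this
      simp only [bott, if_neg ht]
      simp
  constructor
  · rintro ⟨m', h, S, hS, ha⟩
    have hm : m' = m := Nat.pow_left_injective (Nat.succ_ne_zero t) h
    subst hm
    refine ⟨S, hS, ?_⟩
    rw [key]
    exact ha
  · rintro ⟨S, hS, ha⟩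
    refine ⟨m, rfl, S, hS, ?_⟩
    rw [key] at ha
    exact ha

open Classical in
/-- The value of the row `l` of `Fin m` at `e`. -/
noncomputable def Struct_nu {ι E : Type} {m : ℕ} (ρ : ι ↪ Fin m) (x : ι → E → Bool) (l : Fin m)
    (e : E) : Bool := if h : ∃ l', ρ l' = l then x (Classical.choose h) e else false

theorem Struct_nu_eq {ι E : Type} {m : ℕ} (ρ : ι ↪ Fin m) (x : ι → E → Bool) (l : ι) (e : E) :
    Struct_nu ρ x (ρ l) e = x l e := by
  have h : ∃ l', ρ l' = ρ l := ⟨l, rfl⟩
  unfold Struct_nu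
  rw [dif_pos h]
  have := ρ.injective (Classical.choose_spec h)
  rw [this]

theorem Struct_nu_false {ι E : Type} {m : ℕ} (ρ : ι ↪ Fin m) (x : ι → E → Bool) (l : Fin m)
    (hl : ¬ ∃ l', ρ l' = l) (e : E) : Struct_nu ρ x l e = false := by
  unfold Struct_nu
  rw [dif_neg hl]

/-- `NSat` restricted to structured inputs. -/
theorem nsat_struct {k : ℕ} (L : Lev k) (m t n : ℕ) (hL : Real L m t) (hmono : L.FqMono)
    (hfalse : L.FqFalse) (hkn : k * n ≤ m) (hn : 0 < n) (bt : Bool) (hbt : bt = true ↔ Even t) :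
    ∃ μ : (Fin k × Fin n → L.E → Bool) → Fin (m ^ (t + 1)) → Bool,
      (∀ v, (∃ l e, ∀ x, μ x v = x l e) ∨ ∀ x, μ x v = false) ∧
      ∀ x, NSat t (m ^ (t + 1)) (μ x) k ↔
        ∃ S₂ : Finset (Fin k × Fin n), S₂.card ≤ k ∧ (bt = true → S₂.card = k) ∧
          L.Fq fun e => bott bt S₂ fun l => x l e = true := by
  classical
  obtain ⟨π, hπ⟩ := hL
  have hcard : Fintype.card (Fin k × Fin n) ≤ Fintype.card (Fin m) := by simpa using hkn
  obtain ⟨ρ⟩ := Function.Embedding.nonempty_of_card_le hcard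
  refine ⟨fun x v => Struct_nu ρ x (finFunctionFinEquiv.symm v (Fin.last t))
    (π (Fin.init (finFunctionFinEquiv.symm v))), ?_, ?_⟩
  · intro v
    by_cases h : ∃ l', ρ l' = finFunctionFinEquiv.symm v (Fin.last t)
    · left
      refine ⟨Classical.choose h, π (Fin.init (finFunctionFinEquiv.symm v)), fun x => ?_⟩
      simp only [Struct_nu]
      rw [dif_pos h]
    · right
      intro x
      exact Struct_nu_false ρ x _ h _
  · intro x
    rw [Struct_nsat_iff bt hbt]
    have h1 : ∀ S : Finset (Fin m), (alt t true fun q => bott bt S fun l =>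
        Struct_nu ρ x (finFunctionFinEquiv.symm (finFunctionFinEquiv
          (Fin.snoc q l : Fin (t + 1) → Fin m)) (Fin.last t))
        (π (Fin.init (finFunctionFinEquiv.symm (finFunctionFinEquiv
          (Fin.snoc q l : Fin (t + 1) → Fin m))))) = true) ↔
        L.Fq fun e => bott bt S fun l => Struct_nu ρ x l e = true := by
      intro S
      rw [← hπ]
      have : (fun q : Fin t → Fin m => bott bt S fun l =>
        Struct_nu ρ x (finFunctionFinEquiv.symm (finFunctionFinEquiv
          (Fin.snoc q l : Fin (t + 1) → Fin m)) (Fin.last t))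
        (π (Fin.init (finFunctionFinEquiv.symm (finFunctionFinEquiv
          (Fin.snoc q l : Fin (t + 1) → Fin m))))) = true) =
        fun q => bott bt S fun l => Struct_nu ρ x l (π q) = true := by
        funext q
        simp only [Equiv.symm_apply_apply, Fin.snoc_last, Fin.init_snoc]
      rw [this]
    simp only [h1]
    cases bt with
    | true =>
      simp only [bott, if_true]
      constructor
      · rintro ⟨S, hS, hF⟩
        have hr : ∀ l ∈ S, ∃ l', ρ l' = l := by
          by_contra hcon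
          push Not at hcon
          obtain ⟨l, hl, hl'⟩ := hcon
          refine hfalse (hmono _ _ (fun e he => ?_) hF)
          have := he l hl
          rw [Struct_nu_false ρ x l (by push Not; exact hl') e] at this
          exact Bool.noConfusion this
        have hmem : ∀ l, l ∈ S.preimage ρ ρ.injective.injOn ↔ ρ l ∈ S := fun l => by
          rw [Finset.mem_preimage]
        have hmap : (S.preimage ρ ρ.injective.injOn).map ρ = S := by
          ext l
          rw [Finset.mem_map]
          constructor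
          · rintro ⟨l', h, rfl⟩
            exact (hmem l').1 h
          · intro h
            obtain ⟨l', rfl⟩ := hr l h
            exact ⟨l', (hmem l').2 h, rfl⟩
        have hc : (S.preimage ρ ρ.injective.injOn).card = k := by
          refine Eq.trans ?_ hS
          rw [← Finset.card_map ρ, hmap]
        refine ⟨S.preimage ρ ρ.injective.injOn, hc.le, fun _ => hc, ?_⟩
        refine hmono _ _ (fun e he l hl => ?_) hF
        rw [← Struct_nu_eq ρ x l e]
        exact he _ ((hmem l).1 hl)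
      · rintro ⟨S₂, -, hS, hF⟩
        refine ⟨S₂.map ρ, by rw [Finset.card_map]; exact hS trivial, ?_⟩
        refine hmono _ _ (fun e he l hl => ?_) hF
        rw [Finset.mem_map] at hl
        obtain ⟨l', h, rfl⟩ := hl
        rw [Struct_nu_eq]
        exact he l' h
    | false =>
      simp only [bott, Bool.false_eq_true, if_false, false_implies, true_and]
      constructor
      · rintro ⟨S, hS, hF⟩
        refine ⟨S.preimage ρ ρ.injective.injOn, ?_, ?_⟩
        · refine le_trans ?_ hS.le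
          rw [← Finset.card_map ρ]
          refine Finset.card_le_card fun l hl => ?_
          rw [Finset.mem_map] at hl
          obtain ⟨l', h, rfl⟩ := hl
          exact Finset.mem_preimage.1 h
        · refine hmono _ _ (fun e he => ?_) hF
          obtain ⟨l, hl, hle⟩ := he
          have hr : ∃ l', ρ l' = l := by
            by_contra hcon
            rw [Struct_nu_false ρ x l hcon e] at hle
            exact Bool.noConfusion hle
          obtain ⟨l', rfl⟩ := hr
          rw [Struct_nu_eq] at hle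
          exact ⟨l', Finset.mem_preimage.2 hl, hle⟩
      · rintro ⟨S₂, hS, hF⟩
        have hkm : k ≤ m := le_trans (Nat.le_mul_of_pos_right k hn) hkn
        obtain ⟨S, hS1, hS2⟩ := Finset.exists_superset_card_eq (s := S₂.map ρ) (n := k)
          (by rw [Finset.card_map]; exact hS) (by simpa using hkm)
        refine ⟨S, hS2, hmono _ _ (fun e he => ?_) hF⟩
        obtain ⟨l, hl, hle⟩ := he
        refine ⟨ρ l, hS1 (Finset.mem_map.2 ⟨l, hl, rfl⟩), ?_⟩
        rw [Struct_nu_eq]
        exact hle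

end Pool.Agent.W_MP_5f6b2a_mon
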