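import Pool.Agent.W_MP_5f6b2a_mon.CoreThm
import Pool.Agent.W_MP_5f6b2a_mon.Struct
import Pool.Agent.W_MP_5f6b2a_mon.NF
import Pool.Agent.W_MP_5f6b2a_mon.Num

/-!
From levels for all large parameters to the lower bound.
-/

namespace Pool.Agent.W_MP_5f6b2a_mon

open Finset Filter

/-- Levels with all the required properties, for all large parameters `z`. -/
def Supply (t : ℕ) (bt : Bool) (w₀ : ℕ) : Prop :=
  ∀ r : ℕ, 1 ≤ r → ∃ k B1 : ℕ, 1 ≤ B1 ∧ 1 ≤ k ∧ ∀ (e : ℕ) (Mf : ℕ → ℕ),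
    PolyB (fun z => (Mf z : ℝ)) → ∀ᶠ z : ℕ in atTop, ∃ (L : Lev k) (B : ℕ) (err δ η : ℝ),
      0 < B ∧ L.TyLoc ∧ L.TyProb r δ ∧ L.DomOK B (8 * r + 1) r err ∧ L.PosOK bt ∧
      L.NullOK bt B η ∧ (∀ M, M ≤ Mf z → L.QOK w₀ r M e) ∧ L.FqMono ∧ L.FqFalse ∧
      Real L ((8 * z) ^ (9 * B1)) t ∧ δ ≤ 1 / 8 ∧
      (1 / (((8 * z) ^ B1 : ℕ) : ℝ)) ^ (8 * r + 1) + err ≤
        (1 / ((((8 * z) ^ B1) ^ 8 : ℕ) : ℝ)) ^ r ∧
      (((k * ((8 * z) ^ B1) ^ 8 : ℕ) : ℝ) + 1) ^ k * η ≤ 1 / 4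

theorem polyB_pow_cast (a : ℕ) : PolyB fun z => (((8 * z) ^ a : ℕ) : ℝ) := by
  have h : PolyB fun z => ((8 : ℝ) * (z : ℝ)) ^ a :=
    ((PolyB.const (by norm_num : (0 : ℝ) ≤ 8)).mul PolyB.id).pow a
  simpa using h

/-- The positive error. -/
theorem ev_pos (T c' B1 C k : ℕ) (hB1 : 1 ≤ B1) :
    ∀ᶠ z : ℕ in atTop, ((C * (((8 * z) ^ (9 * B1)) ^ T + 1) ^ c' : ℕ) : ℝ) *
      (((C * (((8 * z) ^ (9 * B1)) ^ T + 1) ^ c' : ℕ) : ℝ) *
        (4 ^ k * ((((((8 * z) ^ B1) ^ 2) * (3 * T * c' + 1) + 1 : ℕ) : ℝ) /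
          (((8 * z) ^ B1) ^ 8 : ℕ)) ^ (3 * T * c' + 1 + 1))) ≤ 1 / 8 := by
  set r := 3 * T * c' + 1 with hr
  -- the constant
  set D : ℝ := ((C : ℝ) * 2 ^ c') ^ 2 * 4 ^ k * ((r : ℝ) + 1) ^ (r + 1) with hD
  have hD0 : 0 ≤ D := by positivity
  filter_upwards [eventually_ge_atTop 1, eventually_ge_atTop (Nat.ceil (8 * D))] with z hz hzD
  have hx1 : 1 ≤ 8 * z := by omega
  set x : ℝ := ((8 * z : ℕ) : ℝ) with hx
  have hx1' : (1 : ℝ) ≤ x := by rw [hx]; exact_mod_cast hx1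
  have hx0 : (0 : ℝ) < x := by linarith
  have h1 : ((C * (((8 * z) ^ (9 * B1)) ^ T + 1) ^ c' : ℕ) : ℝ) ≤
      (C : ℝ) * 2 ^ c' * x ^ (9 * B1 * T * c') := by
    push_cast
    have h2 : ((8 * (z : ℝ)) ^ (9 * B1)) ^ T + 1 ≤ 2 * x ^ (9 * B1 * T) := by
      have e1 : ((8 * (z : ℝ)) ^ (9 * B1)) ^ T = x ^ (9 * B1 * T) := by
        rw [hx]; push_cast; rw [← pow_mul]
      rw [e1]
      have := one_le_pow₀ hx1' (n := 9 * B1 * T)
      linarith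
    calc (C : ℝ) * (((8 * (z : ℝ)) ^ (9 * B1)) ^ T + 1) ^ c' ≤
        C * (2 * x ^ (9 * B1 * T)) ^ c' := by gcongr
      _ = _ := by rw [mul_pow, ← pow_mul]; ring
  have h3 : ((((((8 * z) ^ B1) ^ 2) * r + 1 : ℕ) : ℝ) / (((8 * z) ^ B1) ^ 8 : ℕ)) ≤
      ((r : ℝ) + 1) / x ^ (6 * B1) := by
    have e1 : (((((8 * z) ^ B1) ^ 2) * r + 1 : ℕ) : ℝ) ≤ ((r : ℝ) + 1) * x ^ (2 * B1) := by
      push_cast
      have e2 : ((8 * (z : ℝ)) ^ B1) ^ 2 = x ^ (2 * B1) := by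
        rw [hx]; push_cast; rw [← pow_mul, mul_comm B1 2]
      rw [e2]
      have := one_le_pow₀ hx1' (n := 2 * B1)
      nlinarith
    have e3 : ((((8 * z) ^ B1) ^ 8 : ℕ) : ℝ) = x ^ (8 * B1) := by
      rw [hx]; push_cast; rw [← pow_mul, mul_comm B1 8]
    rw [e3]
    have e4 : x ^ (8 * B1) = x ^ (2 * B1) * x ^ (6 * B1) := by rw [← pow_add]; congr 1; ring
    rw [e4]
    have hp : 0 < x ^ (2 * B1) := by positivity
    have hq : 0 < x ^ (6 * B1) := by positivity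
    rw [div_le_div_iff₀ (by positivity) hq]
    nlinarith
  have h0 : (0 : ℝ) ≤ ((((((8 * z) ^ B1) ^ 2) * r + 1 : ℕ) : ℝ) / (((8 * z) ^ B1) ^ 8 : ℕ)) := by
    positivity
  have h4 : x ^ (9 * B1 * T * c') * x ^ (9 * B1 * T * c') * x ≤ (x ^ (6 * B1)) ^ (r + 1) := by
    rw [← pow_add, ← pow_succ, ← pow_mul]
    refine pow_le_pow_right₀ hx1' ?_
    rw [hr]
    have : 1 ≤ B1 := hB1
    nlinarith [Nat.zero_le (B1 * T * c')]
  have h5 : (8 : ℝ) * D ≤ x := by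
    have : (8 * D : ℝ) ≤ (z : ℝ) := (Nat.le_ceil _).trans (by exact_mod_cast hzD)
    have : (z : ℝ) ≤ x := by rw [hx]; push_cast; linarith [show (0:ℝ) ≤ z from Nat.cast_nonneg z]
    linarith
  calc _ ≤ ((C : ℝ) * 2 ^ c' * x ^ (9 * B1 * T * c')) * (((C : ℝ) * 2 ^ c' *
        x ^ (9 * B1 * T * c')) * (4 ^ k * (((r : ℝ) + 1) / x ^ (6 * B1)) ^ (r + 1))) := by
        gcongr
    _ = D * (x ^ (9 * B1 * T * c') * x ^ (9 * B1 * T * c')) / (x ^ (6 * B1)) ^ (r + 1) := by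
        rw [hD, div_pow]; ring
    _ ≤ 1 / 8 := by
        rw [div_le_iff₀ (by positivity)]
        have hA : 0 < x ^ (9 * B1 * T * c') * x ^ (9 * B1 * T * c') := by positivity
        nlinarith

/-- The negative error. -/
theorem ev_neg (T c' B1 C k r : ℕ) (hB1 : 1 ≤ B1) :
    ∀ᶠ z : ℕ in atTop, ((C * (((8 * z) ^ (9 * B1)) ^ T + 1) ^ c' : ℕ) : ℝ) *
      (((C * (((8 * z) ^ (9 * B1)) ^ T + 1) ^ c' : ℕ) : ℝ) *
        ((((k * ((8 * z) ^ B1) ^ 8 : ℕ) : ℝ) + 1) ^ r *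
          (1 - 1 / (((8 * z) ^ B1 : ℕ) : ℝ)) ^ (((8 * z) ^ B1) ^ 2 - k))) ≤ 1 / 4 := by
  have hY : PolyB fun z => ((C * (((8 * z) ^ (9 * B1)) ^ T + 1) ^ c' : ℕ) : ℝ) := by
    have h : PolyB fun z => (C : ℝ) * ((((8 * z) ^ (9 * B1) : ℕ) : ℝ) ^ T + 1) ^ c' :=
      (PolyB.const (Nat.cast_nonneg C)).mul
        ((((polyB_pow_cast (9 * B1)).pow T).add (PolyB.const zero_le_one)).pow c')
    simpa using h
  have hR : PolyB fun z => (((k * ((8 * z) ^ B1) ^ 8 : ℕ) : ℝ) + 1) ^ r := by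
    have h : PolyB fun z => ((k : ℝ) * (((8 * z) ^ B1 : ℕ) : ℝ) ^ 8 + 1) ^ r :=
      (((PolyB.const (Nat.cast_nonneg k)).mul ((polyB_pow_cast B1).pow 8)).add
        (PolyB.const zero_le_one)).pow r
    simpa using h
  have hF := ((hY.mul (hY.mul hR)).mul (PolyB.const (Real.exp_pos 1).le)).exp_small
    (Real.exp_pos (-1)).le (by rw [Real.exp_lt_one_iff]; norm_num) (ε := 1 / 4) (by norm_num)
  filter_upwards [hF, eventually_ge_atTop 1, eventually_ge_atTop k] with z hz h1z hkz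
  refine le_trans ?_ hz
  rw [mul_assoc, mul_assoc, mul_assoc]
  refine mul_le_mul_of_nonneg_left (mul_le_mul_of_nonneg_left (mul_le_mul_of_nonneg_left ?_
    (by positivity)) (Nat.cast_nonneg _)) (Nat.cast_nonneg _)
  -- `(1 - 1/X)^(X^2 - k) ≤ e * exp(-1)^z`
  set X : ℕ := (8 * z) ^ B1 with hX
  have hzX : z ≤ X := by
    calc z ≤ 8 * z := by omega
      _ = (8 * z) ^ 1 := (pow_one _).symm
      _ ≤ (8 * z) ^ B1 := Nat.pow_le_pow_right (by omega) hB1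
  have hX1 : 1 ≤ X := h1z.trans hzX
  have hX0 : (0 : ℝ) < X := by exact_mod_cast hX1
  refine (one_sub_pow_le ?_ _).trans ?_
  · rw [div_le_one hX0]; exact_mod_cast hX1
  · rw [← Real.exp_nat_mul, ← Real.exp_add]
    refine Real.exp_le_exp.2 ?_
    have hkX : k ≤ X ^ 2 := by nlinarith
    rw [Nat.cast_sub hkX]
    push_cast
    have h2 : 1 / (X : ℝ) * ((X : ℝ) ^ 2 - k) = X - k / X := by field_simp
    rw [h2]
    have h3 : (k : ℝ) / X ≤ 1 := by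
      rw [div_le_one hX0]; exact_mod_cast hkz.trans hzX
    have h4 : (z : ℝ) ≤ X := by exact_mod_cast hzX
    linarith

/-- The lower bound. -/
theorem finish {t : ℕ} {bt : Bool} {w₀ : ℕ} (ht : t = w₀ + 1) (hbt : bt = true ↔ Even t)
    (hS : Supply t bt w₀) : NSat t ∉ MonW t := by
  subst ht
  intro hQ
  obtain ⟨c', hc'⟩ := normal_form hQ
  set T := w₀ + 1 + 1 with hT
  set r := 3 * T * c' + 1 with hr
  obtain ⟨k, B1, hB1, hk, hS⟩ := hS r (by omega)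
  obtain ⟨C, hC⟩ := hc' k
  have hMf : PolyB fun z => (((((8 * z) ^ (9 * B1)) ^ T + 2) ^ C : ℕ) : ℝ) := by
    have h : PolyB fun z => ((((8 * z) ^ (9 * B1) : ℕ) : ℝ) ^ T + 2) ^ C :=
      ((((polyB_pow_cast (9 * B1)).pow T).add (PolyB.const zero_le_two)).pow C)
    simpa using h
  have hev := (hS C (fun z => (((8 * z) ^ (9 * B1)) ^ T + 2) ^ C) hMf).and
    ((ev_pos T c' B1 C k hB1).and ((ev_neg T c' B1 C k r hB1).and
      ((eventually_ge_atTop (k + r + 1)).and (eventually_ge_atTop 1))))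
  obtain ⟨z, ⟨L, B, err, δ, η, hB, hTy, hTyP, hDom, hPos, hNull, hQOK, hmono, hfalse, hreal, hδ,
    hle, hη⟩, hpos, hneg, hzk, hz1⟩ := hev.exists
  set X : ℕ := (8 * z) ^ B1 with hX
  have hzX : 8 * z ≤ X := by
    calc 8 * z = (8 * z) ^ 1 := (pow_one _).symm
      _ ≤ (8 * z) ^ B1 := Nat.pow_le_pow_right (by omega) hB1
  set m : ℕ := (8 * z) ^ (9 * B1) with hm
  have hm9 : m = X ^ 9 := by rw [hm, hX, ← pow_mul, mul_comm B1 9]
  have hX1 : 1 ≤ X := by omega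
  have hX0 : (0 : ℝ) < X := by exact_mod_cast hX1
  -- the structured inputs
  have hkn : k * X ^ 8 ≤ m := by
    rw [hm9, pow_succ, mul_comm]
    exact Nat.mul_le_mul_left _ (by omega)
  obtain ⟨μ, hμ, hμN⟩ := nsat_struct L m (w₀ + 1) (X ^ 8) hreal hmono hfalse hkn
    (by positivity) bt hbt
  obtain ⟨Y, M, y, Φ, hY, hM, hy, hΦ, hQx⟩ := hC (m ^ (w₀ + 1 + 1))
  have hn : X ^ 2 * r + 1 ≤ X ^ 8 := by
    have h1 : r + 1 ≤ X := by omega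
    have h2 : X ^ 2 * r + 1 ≤ X ^ 2 * (r + 1) := by
      have : 1 ≤ X ^ 2 := Nat.one_le_pow _ _ hX1
      nlinarith
    calc X ^ 2 * r + 1 ≤ X ^ 2 * (r + 1) := h2
      _ ≤ X ^ 2 * X := Nat.mul_le_mul_left _ h1
      _ = X ^ 3 := by ring
      _ ≤ X ^ 8 := Nat.pow_le_pow_right hX1 (by norm_num)
  refine core (n := X ^ 8) (r := r) (B := B) (mt := 8 * r + 1) (p := X ^ 2) (Y := Y) (M := M)
    (e := C) (s := C * (m ^ T + 1) ^ c') (w₀ := w₀) L bt (θ := 1 / (X : ℝ)) (err := err) (δ := δ)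
    (η := η) (by omega) hn (Nat.one_le_pow _ _ hX1) hB (by positivity)
    (by rw [div_le_one hX0]; exact_mod_cast hX1) hle hTy hTyP hDom hPos hNull (hQOK M hM) hδ ?_ ?_
    hη (fun i x => y i (μ x)) ?_ Φ hΦ ?_
  · refine le_trans ?_ hpos
    have hYR : (Y : ℝ) ≤ ((C * (m ^ T + 1) ^ c' : ℕ) : ℝ) := by exact_mod_cast hY
    refine mul_le_mul_of_nonneg_right hYR ?_
    positivity
  · refine le_trans ?_ hneg
    have hYR : (Y : ℝ) ≤ ((C * (m ^ T + 1) ^ c' : ℕ) : ℝ) := by exact_mod_cast hY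
    refine mul_le_mul_of_nonneg_right hYR ?_
    have : (0 : ℝ) ≤ 1 - 1 / (X : ℝ) := by
      rw [sub_nonneg, div_le_one hX0]; exact_mod_cast hX1
    positivity
  · intro i
    obtain ⟨s', p, hs', hp, j, hj⟩ := hy i
    exact ⟨s', fun i x => p i (μ x), hs', hp.toSProg μ hμ, j, fun x => hj _⟩
  · intro x
    rw [← hμN x]
    exact (hQx (μ x)).symm

end Pool.Agent.W_MP_5f6b2a_mon
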