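import Pool.Agent.W_MP_5f6b2a_mon.Core

/-!
The other properties except the transfer property pass to the next level.
-/

namespace Pool.Agent.W_MP_5f6b2a_mon

open Finset

variable {k : ℕ} (L : Lev k) (M1 M2 : ℕ) (h1 : 0 < M1) (h2 : 0 < M2)

theorem step_fqMono (hL : L.FqMono) : (L.step M1 M2 h1 h2).FqMono := by
  intro φ ψ h hφ i
  obtain ⟨j, hj⟩ := hφ i
  exact ⟨j, hL _ _ (fun e he => h (i, j, e) he) hj⟩

theorem step_posOK {bt : Bool} (hL : L.PosOK bt) : (L.step M1 M2 h1 h2).PosOK bt := by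
  intro ω i
  refine ⟨(ω i).1, ?_⟩
  have h := hL (ω i).2
  have h3 : ∀ (j : Fin k) (e : L.E), (L.step M1 M2 h1 h2).w ω j (i, (ω i).1, e) =
      L.w (ω i).2 j e := fun j e => if_pos rfl
  simp only [h3]
  exact h

theorem step_tyLoc (hL : L.TyLoc) : (L.step M1 M2 h1 h2).TyLoc := by
  refine ⟨?_, ?_, ?_⟩
  · intro K κ κ' h hT i s
    rcases hT i s with h3 | h3
    · left
      intro j hj e
      rw [← h j hj]
      exact h3 j hj e
    · right
      exact hL.1 K _ _ (fun j hj => by rw [h j hj]) h3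
  · intro K K' κ hKK hT i s
    rcases hT i s with h3 | h3
    · left
      exact fun j hj e => h3 j (hKK hj) e
    · right
      exact hL.2.1 K K' _ hKK h3
  · intro K ω h i s
    left
    intro j hj e
    rw [h j hj]
    rfl

theorem StepNull_coord {Ω : Type} [Fintype Ω] [Nonempty Ω] {M : ℕ} (i : Fin M) (E : Ω → Prop) :
    pr (fun ω : Fin M → Ω => E (ω i)) = pr E := by
  have h3 := pr_comp_injective (I := Fin M) (Ω := Ω) (J := Unit) (fun _ => i)
    (fun _ _ _ => rfl) (fun a : Unit → Ω => E (a ()))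
  have h4 := pr_equiv (Equiv.funUnique Unit Ω) E
  exact h3.trans h4

theorem step_tyProb {r : ℕ} {δ : ℝ} (hL : L.TyProb r δ) :
    (L.step M1 M2 h1 h2).TyProb r (M1 * δ) := by
  have hne : Nonempty (Fin M2) := Fin.pos_iff_nonempty.1 h2
  have hkey : ∀ ω : Fin M1 → Fin M2 × L.P,
      (¬ ∀ K : Finset (Fin k), K.card ≤ 2 * r →
        (L.step M1 M2 h1 h2).Ty K ((L.step M1 M2 h1 h2).w ω)) →
      ∃ i, ¬ ∀ K : Finset (Fin k), K.card ≤ 2 * r → L.Ty K (L.w (ω i).2) := by
    intro ω hω
    by_contra hcon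
    push Not at hcon
    apply hω
    intro K hK i s
    by_cases hs : s = (ω i).1
    · right
      subst hs
      have h3 : (fun (j : Fin k) (e : L.E) => (L.step M1 M2 h1 h2).w ω j (i, (ω i).1, e)) =
          L.w (ω i).2 := funext fun j => funext fun e => if_pos rfl
      rw [h3]
      exact hcon i K hK
    · left
      intro j _ e
      exact if_neg hs
  have h3 : pr (fun ω : Fin M1 → Fin M2 × L.P => ¬ ∀ K : Finset (Fin k), K.card ≤ 2 * r →
        (L.step M1 M2 h1 h2).Ty K ((L.step M1 M2 h1 h2).w ω)) ≤ M1 * δ := by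
    refine (pr_mono hkey).trans ((pr_exists_le _).trans ?_)
    have h4 : ∀ i : Fin M1, pr (fun ω : Fin M1 → Fin M2 × L.P =>
        ¬ ∀ K : Finset (Fin k), K.card ≤ 2 * r → L.Ty K (L.w (ω i).2)) ≤ δ := by
      intro i
      rw [StepNull_coord i (fun p : Fin M2 × L.P =>
        ¬ ∀ K : Finset (Fin k), K.card ≤ 2 * r → L.Ty K (L.w p.2)),
        pr_snd (fun ω : L.P => ¬ ∀ K : Finset (Fin k), K.card ≤ 2 * r → L.Ty K (L.w ω))]
      exact hL
    refine (Finset.sum_le_sum fun i _ => h4 i).trans ?_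
    rw [Finset.sum_const, Finset.card_univ, Fintype.card_fin, nsmul_eq_mul]
  exact h3

theorem StepNull_restrict {ι E : Type} [Fintype ι] [DecidableEq ι] [Fintype E] [DecidableEq E]
    {M1 M2 B : ℕ} (hB : 0 < B) (a : Fin M1) (s : Fin M2) (G : (ι → E → Fin B) → Prop) :
    pr (fun b : ι → Fin M1 × Fin M2 × E → Fin B => G fun l e => b l (a, s, e)) = pr G := by
  have hne : Nonempty (Fin B) := Fin.pos_iff_nonempty.1 hB
  have h3 := pr_equiv (Equiv.curry ι (Fin M1 × Fin M2 × E) (Fin B))
    (fun b : ι → Fin M1 × Fin M2 × E → Fin B => G fun l e => b l (a, s, e))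
  have h4 := pr_comp_injective (I := ι × (Fin M1 × Fin M2 × E)) (Ω := Fin B) (J := ι × E)
    (fun p => (p.1, (a, s, p.2))) (by
      rintro ⟨l, e⟩ ⟨l', e'⟩ h
      simp only [Prod.mk.injEq, true_and] at h
      rw [h.1, h.2]) (fun c : ι × E → Fin B => G fun l e => c (l, e))
  have h5 := pr_equiv (Equiv.curry ι E (Fin B)) G
  rw [← h3, ← h5]
  exact h4

theorem step_nullOK {bt : Bool} {B : ℕ} {η : ℝ} (hB : 0 < B) (hL : L.NullOK bt B η) :
    (L.step M1 M2 h1 h2).NullOK bt B (M2 * η) := by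
  rintro ⟨a, ζ⟩
  have hz : ∀ (s : Fin M2) (j : Fin k) (e : L.E),
      (L.step M1 M2 h1 h2).z (a, ζ) j (a, s, e) = L.z (ζ s) j e := fun s j e => if_pos rfl
  constructor
  · intro hcon
    obtain ⟨s, hs⟩ := hcon a
    simp only [hz] at hs
    exact (hL (ζ s)).1 hs
  · intro n S S2 hS2 hbt
    have h3 : pr (fun b : Fin k × Fin n → Fin M1 × Fin M2 × L.E → Fin B =>
        (L.step M1 M2 h1 h2).Fq fun e => bott bt S2 fun l =>
          negIn S ((L.step M1 M2 h1 h2).z (a, ζ)) b l e = true) ≤ M2 * η := by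
      have h4 : ∀ b : Fin k × Fin n → Fin M1 × Fin M2 × L.E → Fin B,
          ((L.step M1 M2 h1 h2).Fq fun e => bott bt S2 fun l =>
            negIn S ((L.step M1 M2 h1 h2).z (a, ζ)) b l e = true) →
          ∃ s : Fin M2, L.Fq fun e => bott bt S2 fun l =>
            negIn S (L.z (ζ s)) (fun l e => b l (a, s, e)) l e = true := by
        intro b hb
        obtain ⟨s, hs⟩ := hb a
        refine ⟨s, ?_⟩
        have h5 : ∀ (l : Fin k × Fin n) (e : L.E),
            negIn S ((L.step M1 M2 h1 h2).z (a, ζ)) b l (a, s, e) =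
              negIn S (L.z (ζ s)) (fun l e => b l (a, s, e)) l e := by
          intro l e
          unfold negIn
          by_cases hl : l.2 = S l.1
          · rw [if_pos hl, if_pos hl]
            exact hz s l.1 e
          · rw [if_neg hl, if_neg hl]
            rfl
        simp only [h5] at hs
        exact hs
      refine (pr_mono h4).trans ((pr_exists_le _).trans ?_)
      have h6 : ∀ s : Fin M2, pr (fun b : Fin k × Fin n → Fin M1 × Fin M2 × L.E → Fin B =>
          L.Fq fun e => bott bt S2 fun l =>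
            negIn S (L.z (ζ s)) (fun l e => b l (a, s, e)) l e = true) ≤ η := by
        intro s
        rw [StepNull_restrict hB a s (fun c : Fin k × Fin n → L.E → Fin B =>
          L.Fq fun e => bott bt S2 fun l => negIn S (L.z (ζ s)) c l e = true)]
        exact (hL (ζ s)).2 n S S2 hS2 hbt
      refine (Finset.sum_le_sum fun i _ => h6 i).trans ?_
      rw [Finset.sum_const, Finset.card_univ, Fintype.card_fin, nsmul_eq_mul]
    exact h3

end Pool.Agent.W_MP_5f6b2a_mon
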