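import Pool.Agent.W_MP_5f6b2a_mon.Core
import Pool.Agent.W_MP_5f6b2a_mon.LvLemmas

/-!
The transfer property passes to the next level.
-/

namespace Pool.Agent.W_MP_5f6b2a_mon

open Finset

variable {k : ℕ} (L : Lev k) (M1 M2 : ℕ) (h1 : 0 < M1) (h2 : 0 < M2)

/-- embedding of the contents of the block `(a, s)` -/
def StepQ_tau {E : Type} {M1 M2 : ℕ} (a : Fin M1) (s : Fin M2) (v : E → Bool) :
    Fin M1 × Fin M2 × E → Bool :=
  fun e => if e.1 = a then (if e.2.1 = s then v e.2.2 else false) else true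

theorem StepQ_tau_mono {E : Type} {M1 M2 : ℕ} (a : Fin M1) (s : Fin M2) :
    Monotone (StepQ_tau (E := E) a s) := by
  intro v v' hv e
  unfold StepQ_tau
  split_ifs
  · exact hv _
  · exact le_refl _
  · exact le_refl _

/-- Few indices have small projections. -/
theorem StepQ_bad {Ω : Type} [Fintype Ω] {M M1 : ℕ} (hM : 0 < M)
    (hM1 : (2 * M : ℝ) * (3 / 4) ^ (M1 / 4) < 1) (F : Fin M1 → Ω → Prop)
    (h : 1 / 2 / M ≤ pr (fun ω : Fin M1 → Ω => ∀ a, F a (ω a))) :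
    ((univ.filter fun a : Fin M1 => ¬ 3 / 4 ≤ pr (F a)).card : ℝ) ≤ M1 / 4 := by
  classical
  rw [pr_pi (Ω := fun _ => Ω) F] at h
  set Bd := univ.filter fun a : Fin M1 => ¬ 3 / 4 ≤ pr (F a) with hBd
  have h3 : ∏ a, pr (F a) ≤ (3 / 4 : ℝ) ^ Bd.card := by
    calc ∏ a, pr (F a) ≤ ∏ a : Fin M1, (if a ∈ Bd then (3 / 4 : ℝ) else 1) := by
          apply Finset.prod_le_prod
          · intro a _
            exact pr_nonneg _
          · intro a _
            split_ifs with ha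
            · rw [hBd, Finset.mem_filter] at ha
              exact (not_le.1 ha.2).le
            · exact pr_le_one _
      _ = (3 / 4 : ℝ) ^ Bd.card := by
          rw [Finset.prod_ite_mem, Finset.univ_inter, Finset.prod_const]
  have h4 : Bd.card < M1 / 4 := by
    by_contra hcon
    push Not at hcon
    have h5 : (3 / 4 : ℝ) ^ Bd.card ≤ (3 / 4 : ℝ) ^ (M1 / 4) :=
      pow_le_pow_of_le_one (by norm_num) (by norm_num) hcon
    have hMr : (0 : ℝ) < M := by exact_mod_cast hM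
    have h6 : 1 / 2 / (M : ℝ) ≤ (3 / 4 : ℝ) ^ (M1 / 4) := h.trans (h3.trans h5)
    rw [div_le_iff₀ hMr] at h6
    linarith
  have h5 : (Bd.card : ℝ) ≤ ((M1 / 4 : ℕ) : ℝ) := by exact_mod_cast h4.le
  exact h5.trans Nat.cast_div_le

/-- Half of the values are at least one half. -/
theorem StepQ_half {M2 : ℕ} (h2 : 0 < M2) (f : Fin M2 → ℝ) (h1 : ∀ s, f s ≤ 1)
    (h : 3 / 4 ≤ av f) : M2 / 2 ≤ (univ.filter fun s : Fin M2 => 1 / 2 ≤ f s).card := by
  classical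
  set G := univ.filter fun s : Fin M2 => 1 / 2 ≤ f s with hG
  have hM2 : (0 : ℝ) < M2 := by exact_mod_cast h2
  unfold av at h
  rw [Fintype.card_fin, le_div_iff₀ hM2] at h
  have h3 : ∑ s, f s ≤ ∑ s : Fin M2, ((1 / 2 : ℝ) + if s ∈ G then 1 / 2 else 0) := by
    refine Finset.sum_le_sum fun s _ => ?_
    split_ifs with hs
    · have := h1 s
      linarith
    · rw [hG, Finset.mem_filter] at hs
      have : f s < 1 / 2 := by
        by_contra hcon
        exact hs ⟨Finset.mem_univ _, not_lt.1 hcon⟩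
      linarith
  rw [Finset.sum_add_distrib, Finset.sum_const, Finset.card_univ, Fintype.card_fin, nsmul_eq_mul,
    Finset.sum_ite_mem, Finset.univ_inter, Finset.sum_const, nsmul_eq_mul] at h3
  have h4 : (M2 : ℝ) / 2 ≤ G.card := by linarith
  have h5 : ((M2 / 2 : ℕ) : ℝ) ≤ G.card := (Nat.cast_div_le).trans h4
  exact_mod_cast h5

/-- Independence over the blocks. -/
theorem StepQ_union {Z : Type} [Fintype Z] [Nonempty Z] {M M2 : ℕ} (G : Finset (Fin M2))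
    (C : Fin M → Fin M2 → Z → Prop) (hC : ∀ i, ∀ s ∈ G, 1 / 8 ≤ pr (C i s)) :
    pr (fun ζ : Fin M2 → Z => ¬ ∀ i, ∃ s ∈ G, C i s (ζ s)) ≤ M * (7 / 8 : ℝ) ^ G.card := by
  classical
  have h3 : pr (fun ζ : Fin M2 → Z => ¬ ∀ i, ∃ s ∈ G, C i s (ζ s)) ≤
      pr (fun ζ : Fin M2 → Z => ∃ i, ∀ s, s ∈ G → ¬ C i s (ζ s)) := by
    apply pr_mono
    intro ζ h
    push Not at h
    exact h
  refine h3.trans ((pr_exists_le _).trans ?_)
  have h4 : ∀ i : Fin M, pr (fun ζ : Fin M2 → Z => ∀ s, s ∈ G → ¬ C i s (ζ s)) ≤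
      (7 / 8 : ℝ) ^ G.card := by
    intro i
    rw [pr_pi (Ω := fun _ => Z) (fun s ζ => s ∈ G → ¬ C i s ζ)]
    calc ∏ s, pr (fun ζ : Z => s ∈ G → ¬ C i s ζ)
        ≤ ∏ s : Fin M2, (if s ∈ G then (7 / 8 : ℝ) else 1) := by
          apply Finset.prod_le_prod
          · intro s _
            exact pr_nonneg _
          · intro s _
            split_ifs with hs
            · have h5 : pr (fun ζ : Z => s ∈ G → ¬ C i s ζ) = pr (fun ζ : Z => ¬ C i s ζ) :=
                pr_congr fun ζ => ⟨fun h => h hs, fun h _ => h⟩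
              rw [h5, pr_not]
              have := hC i s hs
              linarith
            · exact pr_le_one _
      _ = (7 / 8 : ℝ) ^ G.card := by
          rw [Finset.prod_ite_mem, Finset.univ_inter, Finset.prod_const]
  refine (Finset.sum_le_sum fun i _ => h4 i).trans ?_
  rw [Finset.sum_const, Finset.card_univ, Fintype.card_fin, nsmul_eq_mul]

/-- The block statement. -/
theorem StepQ_block {w0 r M e : ℕ} (hM2 : (M : ℝ) * (7 / 8) ^ (M2 / 2) ≤ 1 / 8)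
    (hL : L.QOK w0 r M e)
    (A2 : Fin M → Fin M → (Fin k → Fin M1 × Fin M2 × L.E → Bool) → Prop)
    (hA2 : ∀ i1 i2, Lv (JnOf (RowFn r) e) M w0 true (A2 i1 i2)) (a : Fin M1)
    (ha : 3 / 4 ≤ pr (fun y : Fin M2 × L.P => ∃ ω : Fin M1 → Fin M2 × L.P, ω a = y ∧
      ∀ i1, ∃ i2, A2 i1 i2 ((L.step M1 M2 h1 h2).w ω))) :
    7 / 8 ≤ pr (fun ζ : Fin M2 → L.Z =>
      ∀ i1, ∃ i2, A2 i1 i2 ((L.step M1 M2 h1 h2).z (a, ζ))) := by
  classical
  have hmono : ∀ i1 i2, Monotone (A2 i1 i2) := fun i1 i2 =>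
    Lv.monotone (fun f hf => JnOf.monotone (fun g hg => RowFn.monotone hg) hf) (hA2 i1 i2)
  let At : Fin M2 → L.P → Prop := fun s ω' => ∃ ω : Fin M1 → Fin M2 × L.P, ω a = (s, ω') ∧
      ∀ i1, ∃ i2, A2 i1 i2 ((L.step M1 M2 h1 h2).w ω)
  have hav : 3 / 4 ≤ av (fun s : Fin M2 => pr (At s)) := by
    rw [← pr_prod At]
    exact ha
  set G := univ.filter fun s : Fin M2 => 1 / 2 ≤ pr (At s) with hG
  have hGcard : M2 / 2 ≤ G.card := StepQ_half h2 _ (fun s => pr_le_one _) hav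
  let C : Fin M → Fin M2 → L.Z → Prop := fun i1 s ζ' =>
    ∃ i2, A2 i1 i2 (fun j => StepQ_tau a s (L.z ζ' j))
  have hC : ∀ i1, ∀ s ∈ G, 1 / 8 ≤ pr (C i1 s) := by
    intro i1 s hs
    rw [hG, Finset.mem_filter] at hs
    apply hL (fun i2 y => A2 i1 i2 (fun j => StepQ_tau a s (y j)))
    · intro i2
      exact Lv.pull (fun (y : Fin k → L.E → Bool) j => StepQ_tau a s (y j))
        (fun f hf => JnOf.pull _ (fun g hg => RowFn.pull hg (fun _ => StepQ_tau a s)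
          (fun _ => StepQ_tau_mono a s)) hf) (hA2 i1 i2)
    · refine hs.2.trans (pr_mono ?_)
      rintro ω' ⟨ω, hω, hacc⟩
      obtain ⟨i2, hi2⟩ := hacc i1
      refine ⟨i2, hmono i1 i2 ?_ hi2⟩
      intro j e
      change (if e.2.1 = (ω e.1).1 then L.w (ω e.1).2 j e.2.2 else false) ≤
        StepQ_tau a s (L.w ω' j) e
      unfold StepQ_tau
      by_cases hea : e.1 = a
      · rw [if_pos hea, hea, hω]
      · rw [if_neg hea]
        exact Bool.le_true _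
  have h3 := StepQ_union G C hC
  have h4 : pr (fun ζ : Fin M2 → L.Z => ¬ ∀ i1, ∃ s ∈ G, C i1 s (ζ s)) ≤ 1 / 8 := by
    refine h3.trans (le_trans ?_ hM2)
    apply mul_le_mul_of_nonneg_left _ (Nat.cast_nonneg _)
    exact pow_le_pow_of_le_one (by norm_num) (by norm_num) hGcard
  rw [pr_not] at h4
  have h5 : pr (fun ζ : Fin M2 → L.Z => ∀ i1, ∃ s ∈ G, C i1 s (ζ s)) ≤
      pr (fun ζ : Fin M2 → L.Z =>
        ∀ i1, ∃ i2, A2 i1 i2 ((L.step M1 M2 h1 h2).z (a, ζ))) := by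
    apply pr_mono
    intro ζ h i1
    obtain ⟨s, _, i2, hi2⟩ := h i1
    refine ⟨i2, hmono i1 i2 ?_ hi2⟩
    intro j e
    change StepQ_tau a s (L.z (ζ s) j) e ≤
      (if e.1 = a then L.z (ζ e.2.1) j e.2.2 else true)
    unfold StepQ_tau
    by_cases hea : e.1 = a
    · rw [if_pos hea, if_pos hea]
      by_cases hes : e.2.1 = s
      · rw [if_pos hes, hes]
      · rw [if_neg hes]
        exact Bool.false_le _
    · rw [if_neg hea, if_neg hea]
  linarith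

theorem step_qOK {w0 r M e : ℕ} (hM1 : (2 * M : ℝ) * (3 / 4) ^ (M1 / 4) < 1)
    (hM2 : (M : ℝ) * (7 / 8) ^ (M2 / 2) ≤ 1 / 8) (hL : L.QOK w0 r M e) :
    (L.step M1 M2 h1 h2).QOK (w0 + 2) r M e := by
  classical
  intro A hA hpos
  obtain ⟨φ, hφ⟩ := exists_pr_ge (by norm_num : (0 : ℝ) < 1 / 2) hpos
  have hM : 0 < M := lt_of_le_of_lt (Nat.zero_le _) φ.isLt
  obtain ⟨g, hg, hgA⟩ := hA φ
  choose A2 hA2 hA2g using hg
  have hAiff : ∀ x, A φ x ↔ ∀ i1, ∃ i2, A2 i1 i2 x := by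
    intro x
    rw [hgA x]
    exact forall_congr' fun i1 => hA2g i1 x
  let F : Fin M1 → Fin M2 × L.P → Prop := fun a y => ∃ ω : Fin M1 → Fin M2 × L.P, ω a = y ∧
      ∀ i1, ∃ i2, A2 i1 i2 ((L.step M1 M2 h1 h2).w ω)
  have h3 : 1 / 2 / (M : ℝ) ≤ pr (fun ω : Fin M1 → Fin M2 × L.P => ∀ a, F a (ω a)) := by
    have h4 : pr (fun ω : Fin M1 → Fin M2 × L.P => A φ ((L.step M1 M2 h1 h2).w ω)) ≤
        pr (fun ω : Fin M1 → Fin M2 × L.P => ∀ a, F a (ω a)) := by
      apply pr_mono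
      intro ω hω a
      exact ⟨ω, rfl, (hAiff _).1 hω⟩
    exact le_trans hφ h4
  have h5 := StepQ_bad hM hM1 F h3
  have h6 : pr (fun ζ : Fin M1 × (Fin M2 → L.Z) =>
      A φ ((L.step M1 M2 h1 h2).z ζ)) ≤
      pr (fun ζ : Fin M1 × (Fin M2 → L.Z) => ∃ φ, A φ ((L.step M1 M2 h1 h2).z ζ)) :=
    pr_mono fun ζ h => ⟨φ, h⟩
  have h7 : (1 / 8 : ℝ) ≤ pr (fun ζ : Fin M1 × (Fin M2 → L.Z) =>
      A φ ((L.step M1 M2 h1 h2).z ζ)) := by
    have h8 : pr (fun ζ : Fin M1 × (Fin M2 → L.Z) => A φ ((L.step M1 M2 h1 h2).z ζ)) =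
        av fun a : Fin M1 => pr fun ζ : Fin M2 → L.Z =>
          ∀ i1, ∃ i2, A2 i1 i2 ((L.step M1 M2 h1 h2).z (a, ζ)) := by
      rw [← pr_prod (fun (a : Fin M1) (ζ : Fin M2 → L.Z) =>
        ∀ i1, ∃ i2, A2 i1 i2 ((L.step M1 M2 h1 h2).z (a, ζ)))]
      exact pr_congr fun ζ => hAiff _
    rw [h8]
    have h9 : av (fun a : Fin M1 => if 3 / 4 ≤ pr (F a) then (7 / 8 : ℝ) else 0) ≤
        av fun a : Fin M1 => pr fun ζ : Fin M2 → L.Z =>
          ∀ i1, ∃ i2, A2 i1 i2 ((L.step M1 M2 h1 h2).z (a, ζ)) := by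
      apply av_mono
      intro a
      split_ifs with ha
      · exact StepQ_block L M1 M2 h1 h2 hM2 hL A2 hA2 a ha
      · exact pr_nonneg _
    refine le_trans ?_ h9
    unfold av
    have hM1r : (0 : ℝ) < M1 := by exact_mod_cast h1
    rw [Fintype.card_fin, le_div_iff₀ hM1r]
    have h10 : ∑ a : Fin M1, (if 3 / 4 ≤ pr (F a) then (7 / 8 : ℝ) else 0) =
        (7 / 8) * ((univ.filter fun a : Fin M1 => 3 / 4 ≤ pr (F a)).card : ℝ) := by
      rw [← Finset.sum_filter, Finset.sum_const, nsmul_eq_mul, mul_comm]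
    rw [h10]
    have h11 := Finset.card_filter_add_card_filter_not (s := (univ : Finset (Fin M1)))
      (fun a => 3 / 4 ≤ pr (F a))
    rw [Finset.card_univ, Fintype.card_fin] at h11
    have h12 : ((univ.filter fun a : Fin M1 => 3 / 4 ≤ pr (F a)).card : ℝ) +
        ((univ.filter fun a : Fin M1 => ¬ 3 / 4 ≤ pr (F a)).card : ℝ) = M1 := by
      exact_mod_cast h11
    linarith
  exact le_trans h7 h6

end Pool.Agent.W_MP_5f6b2a_mon
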