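import Pool.Agent.W_MP_5f6b2a_mon.StepDom
import Pool.Agent.W_MP_5f6b2a_mon.StepNull
import Pool.Agent.W_MP_5f6b2a_mon.StepQ
import Pool.Agent.W_MP_5f6b2a_mon.Struct

/-!
Iterating the step.
-/

namespace Pool.Agent.W_MP_5f6b2a_mon

open Finset

/-- `h` pairs of quantifiers over `Fin x` in front of `L`. -/
def Lev.iter {k : ℕ} (L : Lev k) (x : ℕ) (hx : 0 < x) : ℕ → Lev k
  | 0 => L
  | h + 1 => (L.iter x hx h).step x x hx hx

variable {k : ℕ} (L : Lev k) (x : ℕ) (hx : 0 < x)

theorem iter_fqMono (hL : L.FqMono) (h : ℕ) : (L.iter x hx h).FqMono := by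
  induction h with
  | zero => exact hL
  | succ h ih => exact step_fqMono _ _ _ _ _ ih

theorem iter_fqFalse (hL : L.FqFalse) (h : ℕ) : (L.iter x hx h).FqFalse := by
  induction h with
  | zero => exact hL
  | succ h ih => exact step_fqFalse _ _ _ _ _ ih

theorem iter_posOK {bt : Bool} (hL : L.PosOK bt) (h : ℕ) : (L.iter x hx h).PosOK bt := by
  induction h with
  | zero => exact hL
  | succ h ih => exact step_posOK _ _ _ _ _ ih

theorem iter_tyLoc (hL : L.TyLoc) (h : ℕ) : (L.iter x hx h).TyLoc := by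
  induction h with
  | zero => exact hL
  | succ h ih => exact step_tyLoc _ _ _ _ _ ih

theorem iter_tyProb {r : ℕ} {δ : ℝ} (hL : L.TyProb r δ) (h : ℕ) :
    (L.iter x hx h).TyProb r ((x : ℝ) ^ h * δ) := by
  induction h with
  | zero => simpa [Lev.iter] using hL
  | succ h ih =>
    have := step_tyProb _ x x hx hx ih
    rwa [← mul_assoc, ← pow_succ'] at this

theorem iter_domOK {B mt r : ℕ} {err : ℝ} (hB : 0 < B) (herr : 0 ≤ err) (hTy : L.TyLoc)
    (hL : L.DomOK B mt r err) (h : ℕ) : (L.iter x hx h).DomOK B mt r ((x : ℝ) ^ h * err) := by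
  induction h with
  | zero => simpa [Lev.iter] using hL
  | succ h ih =>
    have := step_domOK _ x x hx hx hB (by positivity) (iter_tyLoc L x hx hTy h) ih
    rwa [← mul_assoc, ← pow_succ'] at this

theorem iter_nullOK {bt : Bool} {B : ℕ} {η : ℝ} (hB : 0 < B) (hL : L.NullOK bt B η) (h : ℕ) :
    (L.iter x hx h).NullOK bt B ((x : ℝ) ^ h * η) := by
  induction h with
  | zero => simpa [Lev.iter] using hL
  | succ h ih =>
    have := step_nullOK _ x x hx hx hB ih
    rwa [← mul_assoc, ← pow_succ'] at this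

theorem iter_qOK {w0 r M e : ℕ} (h1 : (2 * M : ℝ) * (3 / 4) ^ (x / 4) < 1)
    (h2 : (M : ℝ) * (7 / 8) ^ (x / 2) ≤ 1 / 8) (hL : L.QOK w0 r M e) (h : ℕ) :
    (L.iter x hx h).QOK (w0 + 2 * h) r M e := by
  induction h with
  | zero => exact hL
  | succ h ih => exact step_qOK _ x x hx hx h1 h2 ih

theorem iter_real {m t : ℕ} (hm : x ≤ m) (hL : Real L m t) (h : ℕ) :
    Real (L.iter x hx h) m (t + 2 * h) := by
  induction h with
  | zero => exact hL
  | succ h ih => exact step_real _ x x hx hx m _ hm hm ih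

end Pool.Agent.W_MP_5f6b2a_mon
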