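import Pool.Agent.W_MP_5f6b2a_mon.Bottom

/-!
The normal form of formulas of weft `t + 1`.
-/

namespace Pool.Agent.W_MP_5f6b2a_mon

open Finset

namespace NFCore

/-- the property of the normal form, with explicit bounds -/
def OK (k' C E M t : ℕ) {N M₀ : ℕ} (F : Finset (Fin N) → (Fin M₀ → Prop) → Prop) : Prop :=
  ∃ (Y : ℕ) (y : Fin Y → (Fin M₀ → Prop) → Prop), 1 ≤ Y ∧ Y ≤ E ∧ (∀ i, MF E (y i)) ∧
    ∀ S : Finset (Fin N), S.card = k' → ∀ b, ∃ Φ : (Fin Y → Prop) → Prop,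
      Lv (JnOf Coord C) M (t + 1) b Φ ∧ ∀ v, F S v ↔ Φ fun i => y i v

theorem coord_reindex {Y Y' : ℕ} (r : Fin Y → Fin Y') {f : (Fin Y → Prop) → Prop} (hf : Coord f) :
    Coord fun z : Fin Y' → Prop => f fun i => z (r i) := by
  obtain ⟨i, hi⟩ := hf
  exact ⟨r i, fun v => hi _⟩

theorem lv_reindex {Y Y' C M w : ℕ} {b : Bool} (r : Fin Y → Fin Y') {f : (Fin Y → Prop) → Prop}
    (hf : Lv (JnOf Coord C) M w b f) :
    Lv (JnOf Coord C) M w b fun z : Fin Y' → Prop => f fun i => z (r i) :=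
  hf.pull (𝓑' := JnOf Coord C) (fun (z : Fin Y' → Prop) (i : Fin Y) => z (r i))
    fun _ hg => hg.pull (𝓡' := Coord) (fun (z : Fin Y' → Prop) (i : Fin Y) => z (r i))
      fun _ hh => coord_reindex r hh

theorem coord_exists {Y : ℕ} (hY : 1 ≤ Y) : ∃ f : (Fin Y → Prop) → Prop, Coord f :=
  ⟨fun v => v ⟨0, hY⟩, ⟨0, hY⟩, fun _ => Iff.rfl⟩

theorem lv_mono {Y C C' M M' w : ℕ} (hY : 1 ≤ Y) (hC : C ≤ C') (hM : 1 ≤ M) (hMM : M ≤ M') {b : Bool}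
    {f : (Fin Y → Prop) → Prop} (hf : Lv (JnOf Coord C) M w b f) : Lv (JnOf Coord C') M' w b f :=
  (hf.mono hM hMM).pull (𝓑' := JnOf Coord C') (fun z => z) fun _ hg => hg.mono (coord_exists hY) hC

theorem lv_base {Z : Type} {𝓑 : (Z → Prop) → Prop} {M : ℕ} (hM : 1 ≤ M) {f : Z → Prop} (hf : 𝓑 f)
    (w : ℕ) (b : Bool) : Lv 𝓑 M w b f := by
  induction w with
  | zero =>
    cases b <;> exact hf
  | succ w ih => exact ih.lift_bot hM

theorem OK.mono {k' C C' E E' M M' t N M₀ : ℕ} {F : Finset (Fin N) → (Fin M₀ → Prop) → Prop}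
    (h : OK k' C E M t F) (hC : C ≤ C') (hE : E ≤ E') (hM : 1 ≤ M) (hMM : M ≤ M') : OK k' C' E' M' t F := by
  obtain ⟨Y, y, hY1, hY, hMF, hS⟩ := h
  refine ⟨Y, y, hY1, hY.trans hE, fun i => (hMF i).mono hE, fun S hSc b => ?_⟩
  obtain ⟨Φ, hΦ, hF⟩ := hS S hSc b
  exact ⟨Φ, lv_mono hY1 hC hM hMM hΦ, hF⟩

/-- formulas which do not depend on the data bits -/
theorem OK.const {k' C E M t N M₀ : ℕ} (hE : 1 ≤ E) (hM : 1 ≤ M) (p : Finset (Fin N) → Prop) :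
    OK k' C E M t fun (S : Finset (Fin N)) (_ : Fin M₀ → Prop) => p S := by
  refine ⟨1, fun _ _ => True, le_rfl, hE, fun _ => MF.mono hE MF.tru, fun S _ b => ?_⟩
  exact ⟨fun _ => p S, lv_base hM ((JnOf.const (𝓡 := Coord) (p S)).mono (coord_exists le_rfl) (Nat.zero_le _)) _ _,
    fun _ => Iff.rfl⟩

theorem OK.data {k' C E M t N M₀ : ℕ} (hC : 1 ≤ C) (hE : 1 ≤ E) (hM : 1 ≤ M) (j : Fin M₀) :
    OK k' C E M t fun (_ : Finset (Fin N)) (y : Fin M₀ → Prop) => y j := by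
  refine ⟨1, fun _ v => v j, le_rfl, hE, fun _ => MF.mono hE (MF.var j), fun S _ b => ?_⟩
  refine ⟨fun v => v 0, lv_base hM ?_ _ _, fun _ => Iff.rfl⟩
  have h1 : JnOf (Coord (Y := 1)) (Fintype.card Unit) (fun z : Fin 1 → Prop => ∀ _ : Unit, z 0) :=
    JnOf.forall (κ := Unit) (f := fun (_ : Unit) (z : Fin 1 → Prop) => z 0) fun _ => ⟨0, fun _ => Iff.rfl⟩
  have h2 : JnOf (Coord (Y := 1)) 1 (fun z : Fin 1 → Prop => z 0) :=
    (h1.congr (g := fun z : Fin 1 → Prop => z 0) fun z => ⟨fun h => h (), fun h _ => h⟩)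
  exact h2.mono (coord_exists le_rfl) hC

/-- joint family for several formulas -/
theorem joint {k' C E M t N M₀ m : ℕ} (hm : 1 ≤ m) {F : Fin m → Finset (Fin N) → (Fin M₀ → Prop) → Prop}
    (h : ∀ i, OK k' C E M t (F i)) :
    ∃ (Y : ℕ) (y : Fin Y → (Fin M₀ → Prop) → Prop), 1 ≤ Y ∧ Y ≤ m * E ∧ (∀ i, MF E (y i)) ∧
      ∀ S : Finset (Fin N), S.card = k' → ∀ b, ∃ Φ : Fin m → (Fin Y → Prop) → Prop,
        (∀ i, Lv (JnOf Coord C) M (t + 1) b (Φ i)) ∧ ∀ i v, F i S v ↔ Φ i fun j => y j v := by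
  choose Y y hY1 hY hMF hS using h
  let κ := Σ i : Fin m, Fin (Y i)
  let e : κ ≃ Fin (Fintype.card κ) := Fintype.equivFin κ
  have hcard : Fintype.card κ = ∑ i, Y i := by
    rw [Fintype.card_sigma]
    simp
  refine ⟨Fintype.card κ, fun j => y (e.symm j).1 (e.symm j).2, ?_, ?_, fun j => hMF _ _, fun S hSc b => ?_⟩
  · rw [hcard]
    calc 1 ≤ Y ⟨0, hm⟩ := hY1 _
      _ ≤ ∑ i, Y i := Finset.single_le_sum (f := Y) (fun _ _ => Nat.zero_le _) (mem_univ _)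
  · rw [hcard]
    calc ∑ i, Y i ≤ ∑ _i : Fin m, E := Finset.sum_le_sum fun i _ => hY i
      _ = m * E := by simp
  · have hSb := fun i => hS i S hSc b
    choose Φ hΦ hF using hSb
    refine ⟨fun i z => Φ i fun j => z (e ⟨i, j⟩), fun i => lv_reindex (fun j => e ⟨i, j⟩) (hΦ i), fun i v => ?_⟩
    rw [hF i v]
    have : (fun j : Fin (Y i) => y (e.symm (e ⟨i, j⟩)).1 (e.symm (e ⟨i, j⟩)).2 v) = fun j => y i j v := by
      funext j
      rw [Equiv.symm_apply_apply]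
    show (Φ i fun j => y i j v) ↔ Φ i fun j : Fin (Y i) => y (e.symm (e ⟨i, j⟩)).1 (e.symm (e ⟨i, j⟩)).2 v
    rw [this]

theorem OK.and {k' C E M t N M₀ : ℕ} (hM : 1 ≤ M) {F G : Finset (Fin N) → (Fin M₀ → Prop) → Prop}
    (hF : OK k' C E M t F) (hG : OK k' C E M t G) :
    OK k' (C + C) (2 * E) (M * M) t fun S y => F S y ∧ G S y := by
  obtain ⟨Y, y, hY1, hY, hMF, hS⟩ := joint (m := 2) (by norm_num) (F := ![F, G]) (fun i => by
    fin_cases i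
    · exact hF
    · exact hG)
  refine ⟨Y, y, hY1, hY, fun i => (hMF i).mono (by omega), fun S hSc b => ?_⟩
  obtain ⟨Φ, hΦ, hFS⟩ := hS S hSc b
  refine ⟨fun z => Φ 0 z ∧ Φ 1 z, (hΦ 0).and hM (hΦ 1), fun v => ?_⟩
  exact and_congr (hFS 0 v) (hFS 1 v)

theorem OK.or {k' C E M t N M₀ : ℕ} (hM : 1 ≤ M) {F G : Finset (Fin N) → (Fin M₀ → Prop) → Prop}
    (hF : OK k' C E M t F) (hG : OK k' C E M t G) :
    OK k' (C + C) (2 * E) (M * M) t fun S y => F S y ∨ G S y := by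
  obtain ⟨Y, y, hY1, hY, hMF, hS⟩ := joint (m := 2) (by norm_num) (F := ![F, G]) (fun i => by
    fin_cases i
    · exact hF
    · exact hG)
  refine ⟨Y, y, hY1, hY, fun i => (hMF i).mono (by omega), fun S hSc b => ?_⟩
  obtain ⟨Φ, hΦ, hFS⟩ := hS S hSc b
  refine ⟨fun z => Φ 0 z ∨ Φ 1 z, (hΦ 0).or hM (hΦ 1), fun v => ?_⟩
  exact or_congr (hFS 0 v) (hFS 1 v)

theorem OK.all {k' C E M M' t N M₀ m : ℕ} (hM : 1 ≤ M) (hm : 1 ≤ m) (hmM : m ≤ M')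
    {F : Fin m → Finset (Fin N) → (Fin M₀ → Prop) → Prop} (h : ∀ i, OK k' C E M t (F i)) :
    OK k' C (m * E) (M' * M) (t + 1) fun S y => ∀ i, F i S y := by
  obtain ⟨Y, y, hY1, hY, hMF, hS⟩ := joint hm h
  have hMM : 1 ≤ M' * M := Nat.mul_pos (by omega) (by omega)
  refine ⟨Y, y, hY1, hY, fun i => (hMF i).mono (Nat.le_mul_of_pos_left _ hm), fun S hSc b => ?_⟩
  obtain ⟨Φ, hΦ, hFS⟩ := hS S hSc true
  have h1 : Lv (JnOf Coord C) (M' * M) (t + 1) true fun z => ∀ i, Φ i z := Lv.forall hmM hm hΦ hM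
  refine ⟨fun z => ∀ i, Φ i z, ?_, fun v => forall_congr' fun i => hFS i v⟩
  cases b
  · exact h1.lift_top hMM
  · exact h1.lift_bot hMM

theorem OK.ex {k' C E M M' t N M₀ m : ℕ} (hM : 1 ≤ M) (hm : 1 ≤ m) (hmM : m ≤ M')
    {F : Fin m → Finset (Fin N) → (Fin M₀ → Prop) → Prop} (h : ∀ i, OK k' C E M t (F i)) :
    OK k' C (m * E) (M' * M) (t + 1) fun S y => ∃ i, F i S y := by
  obtain ⟨Y, y, hY1, hY, hMF, hS⟩ := joint hm h
  have hMM : 1 ≤ M' * M := Nat.mul_pos (by omega) (by omega)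
  refine ⟨Y, y, hY1, hY, fun i => (hMF i).mono (Nat.le_mul_of_pos_left _ hm), fun S hSc b => ?_⟩
  obtain ⟨Φ, hΦ, hFS⟩ := hS S hSc false
  have h1 : Lv (JnOf Coord C) (M' * M) (t + 1) false fun z => ∃ i, Φ i z := Lv.exists hmM hm hΦ hM
  refine ⟨fun z => ∃ i, Φ i z, ?_, fun v => exists_congr fun i => hFS i v⟩
  cases b
  · exact h1.lift_bot hMM
  · exact h1.lift_top hMM

theorem botY_pos (k' d N : ℕ) : 1 ≤ botY k' d N := by
  unfold botY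
  have h1 : 0 < (N + 1) ^ (2 ^ d) := Nat.pow_pos (by omega)
  have h2 : 0 < 2 ^ (k' ^ 2 + 1) := Nat.pow_pos (by omega)
  exact Nat.mul_pos (by omega) (Nat.mul_pos h1 (Nat.mul_pos h2 h1))

theorem botY_le (k' d N X : ℕ) (h : N + 1 ≤ X) : botY k' d N ≤ 2 ^ (k' ^ 2 + 1) * X ^ (1 + 2 * 2 ^ d) := by
  unfold botY
  calc (N + 1) * ((N + 1) ^ (2 ^ d) * (2 ^ (k' ^ 2 + 1) * (N + 1) ^ (2 ^ d)))
      ≤ X * (X ^ (2 ^ d) * (2 ^ (k' ^ 2 + 1) * X ^ (2 ^ d))) := by gcongr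
    _ = 2 ^ (k' ^ 2 + 1) * X ^ (1 + 2 * 2 ^ d) := by
      rw [pow_add, pow_one, two_mul, pow_add]
      ring

theorem OK.bot_all {k' C E M N M₀ s d m : ℕ} (hm : m ≤ s) (hM : 1 ≤ M)
    (hC : 2 ^ k' * 2 ^ (k' ^ 2 + 1) ≤ C) (hE1 : botY k' d N ≤ E) (hE2 : s * (2 ^ (d + 1) + 1) + 1 ≤ E)
    {F : Fin m → Finset (Fin N) → (Fin M₀ → Prop) → Prop} (hF : ∀ i, Weft s 0 d (F i)) :
    OK k' C E M 0 fun S y => ∀ i, F i S y := by
  obtain ⟨y, hy, hS⟩ := bottom_all k' d N M₀ s m hm F hF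
  refine ⟨botY k' d N, y, botY_pos k' d N, hE1, fun i => (hy i).mono hE2, fun S hSc b => ?_⟩
  obtain ⟨Φ, hΦ, hFS⟩ := hS S hSc
  exact ⟨Φ, lv_base hM (hΦ.mono (coord_exists (botY_pos k' d N)) hC) _ _, hFS⟩

theorem OK.bot_ex {k' C E M N M₀ s d m : ℕ} (hm : m ≤ s) (hM : 1 ≤ M)
    (hC : 2 ^ k' * 2 ^ (k' ^ 2 + 1) ≤ C) (hE1 : botY k' d N ≤ E) (hE2 : s * (2 ^ (d + 1) + 1) + 1 ≤ E)
    {F : Fin m → Finset (Fin N) → (Fin M₀ → Prop) → Prop} (hF : ∀ i, Weft s 0 d (F i)) :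
    OK k' C E M 0 fun S y => ∃ i, F i S y := by
  obtain ⟨y, hy, hS⟩ := bottom_ex k' d N M₀ s m hm F hF
  refine ⟨botY k' d N, y, botY_pos k' d N, hE1, fun i => (hy i).mono hE2, fun S hSc b => ?_⟩
  obtain ⟨Φ, hΦ, hFS⟩ := hS S hSc
  exact ⟨Φ, lv_base hM (hΦ.mono (coord_exists (botY_pos k' d N)) hC) _ _, hFS⟩

/-- the induction, with constants independent of `t` -/
theorem main (d : ℕ) : ∃ e' : ℕ, ∀ k' : ℕ, ∃ C : ℕ, 1 ≤ C ∧ ∀ (t N M₀ s : ℕ)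
    (F : Finset (Fin N) → (Fin M₀ → Prop) → Prop), Weft s (t + 1) d F →
    OK k' C (C * (N + M₀ + s + 2) ^ e') ((N + M₀ + s + 2) ^ C) t F := by
  induction d with
  | zero =>
    refine ⟨0, fun k' => ⟨1, le_rfl, fun t N M₀ s F hF => ?_⟩⟩
    have hX : 1 ≤ (N + M₀ + s + 2) ^ 1 := Nat.one_le_pow _ _ (by omega)
    cases hF with
    | sel t d l => exact OK.const (by simp) hX fun S => l ∈ S
    | nsel t d l => exact OK.const (by simp) hX fun S => l ∉ S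
    | data t d j => exact OK.data le_rfl (by simp) hX j
  | succ d ih =>
    obtain ⟨e, he⟩ := ih
    refine ⟨e + 1 + (1 + 2 * 2 ^ d), fun k' => ?_⟩
    obtain ⟨C, hC1, hC⟩ := he k'
    obtain ⟨p1, hp1⟩ : ∃ p1, p1 = 2 ^ k' * 2 ^ (k' ^ 2 + 1) := ⟨_, rfl⟩
    obtain ⟨p2, hp2⟩ : ∃ p2, p2 = 2 ^ (k' ^ 2 + 1) := ⟨_, rfl⟩
    obtain ⟨p3, hp3⟩ : ∃ p3, p3 = 2 ^ (d + 1) := ⟨_, rfl⟩
    obtain ⟨C', c1, c2, c3, c4, c5, c6⟩ : ∃ C', 1 ≤ C' ∧ 2 * C ≤ C' ∧ C + 1 ≤ C' ∧ p1 ≤ C' ∧ p2 ≤ C' ∧ p3 + 2 ≤ C' :=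
      ⟨2 * C + p1 + p2 + (p3 + 2), by omega, by omega, by omega, by omega, by omega, by omega⟩
    rw [hp1] at c4
    rw [hp2] at c5
    rw [hp3] at c6
    clear hp1 hp2 hp3
    have c7 : C + C ≤ C' := by linarith
    have c8 : C ≤ C' := by linarith
    refine ⟨C', c1, fun t N M₀ s F hF => ?_⟩
    obtain ⟨X, hX⟩ : ∃ X, X = N + M₀ + s + 2 := ⟨_, rfl⟩
    rw [← hX]
    have hCX : ∀ (t : ℕ) (F : Finset (Fin N) → (Fin M₀ → Prop) → Prop), Weft s (t + 1) d F →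
        OK k' C (C * X ^ e) (X ^ C) t F := by
      intro t F hF
      rw [hX]
      exact hC t N M₀ s F hF
    have hX1 : 1 ≤ X := by omega
    have hXC' : 1 ≤ X ^ C' := Nat.one_le_pow _ _ hX1
    have hXC : 1 ≤ X ^ C := Nat.one_le_pow _ _ hX1
    have hE' : 1 ≤ C' * X ^ (e + 1 + (1 + 2 * 2 ^ d)) :=
      Nat.mul_pos c1 (Nat.pow_pos hX1)
    have hle : X ^ (e + 1) ≤ X ^ (e + 1 + (1 + 2 * 2 ^ d)) := Nat.pow_le_pow_right hX1 (by omega)
    have hle0 : X ^ e ≤ X ^ (e + 1 + (1 + 2 * 2 ^ d)) := Nat.pow_le_pow_right hX1 (by omega)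
    have hle1 : X ^ 1 ≤ X ^ (e + 1 + (1 + 2 * 2 ^ d)) := Nat.pow_le_pow_right hX1 (by omega)
    have hle2 : X ^ (1 + 2 * 2 ^ d) ≤ X ^ (e + 1 + (1 + 2 * 2 ^ d)) := Nat.pow_le_pow_right hX1 (by omega)
    have two : 2 * (C * X ^ e) ≤ C' * X ^ (e + 1 + (1 + 2 * 2 ^ d)) := by
      calc 2 * (C * X ^ e) = (2 * C) * X ^ e := by ring
        _ ≤ C' * X ^ (e + 1 + (1 + 2 * 2 ^ d)) := Nat.mul_le_mul c2 hle0
    have sq : X ^ C * X ^ C ≤ X ^ C' := by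
      rw [← pow_add]
      exact Nat.pow_le_pow_right hX1 c7
    have hsq1 : 1 ≤ X ^ C * X ^ C := Nat.mul_pos hXC hXC
    have hb1 : botY k' d N ≤ C' * X ^ (e + 1 + (1 + 2 * 2 ^ d)) :=
      (botY_le k' d N X (by omega)).trans (Nat.mul_le_mul c5 hle2)
    have hb2 : s * (2 ^ (d + 1) + 1) + 1 ≤ C' * X ^ (e + 1 + (1 + 2 * 2 ^ d)) := by
      calc s * (2 ^ (d + 1) + 1) + 1 ≤ X * (2 ^ (d + 1) + 1) + X :=
            Nat.add_le_add (Nat.mul_le_mul_right _ (by omega)) hX1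
        _ = (2 ^ (d + 1) + 2) * X ^ 1 := by ring
        _ ≤ _ := Nat.mul_le_mul c6 hle1
    cases hF with
    | sel t d l => exact OK.const hE' hXC' fun S => l ∈ S
    | nsel t d l => exact OK.const hE' hXC' fun S => l ∉ S
    | data t d j => exact OK.data c1 hE' hXC' j
    | and h1 h2 =>
      exact (OK.and hXC (hCX _ _ h1) (hCX _ _ h2)).mono c7 two hsq1 sq
    | or h1 h2 =>
      exact (OK.or hXC (hCX _ _ h1) (hCX _ _ h2)).mono c7 two hsq1 sq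
    | all m hm F hF =>
      rcases t with _ | t
      · exact OK.bot_all hm hXC' c4 hb1 hb2 hF
      · rcases Nat.eq_zero_or_pos m with rfl | hm1
        · have h0 : OK k' C' (C' * X ^ (e + 1 + (1 + 2 * 2 ^ d))) (X ^ C') (t + 1)
              fun (_ : Finset (Fin N)) (_ : Fin M₀ → Prop) => True := OK.const hE' hXC' fun _ => True
          have : (fun (S : Finset (Fin N)) (y : Fin M₀ → Prop) => ∀ i, F i S y) = fun _ _ => True := by
            funext S y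
            simp
          rw [this]
          exact h0
        · have h1 := OK.all (M' := X) hXC hm1 (by omega) fun i => hCX t (F i) (hF i)
          refine h1.mono c8 ?_ (Nat.mul_pos hX1 hXC) ?_
          · calc m * (C * X ^ e) ≤ X * (C * X ^ e) := Nat.mul_le_mul_right _ (by omega)
              _ = C * X ^ (e + 1) := by ring
              _ ≤ _ := Nat.mul_le_mul c8 hle
          · calc X * X ^ C = X ^ (C + 1) := by ring
              _ ≤ X ^ C' := Nat.pow_le_pow_right hX1 c3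
    | ex m hm F hF =>
      rcases t with _ | t
      · exact OK.bot_ex hm hXC' c4 hb1 hb2 hF
      · rcases Nat.eq_zero_or_pos m with rfl | hm1
        · have h0 : OK k' C' (C' * X ^ (e + 1 + (1 + 2 * 2 ^ d))) (X ^ C') (t + 1)
              fun (_ : Finset (Fin N)) (_ : Fin M₀ → Prop) => False := OK.const hE' hXC' fun _ => False
          have : (fun (S : Finset (Fin N)) (y : Fin M₀ → Prop) => ∃ i, F i S y) = fun _ _ => False := by
            funext S y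
            simp
          rw [this]
          exact h0
        · have h1 := OK.ex (M' := X) hXC hm1 (by omega) fun i => hCX t (F i) (hF i)
          refine h1.mono c8 ?_ (Nat.mul_pos hX1 hXC) ?_
          · calc m * (C * X ^ e) ≤ X * (C * X ^ e) := Nat.mul_le_mul_right _ (by omega)
              _ = C * X ^ (e + 1) := by ring
              _ ≤ _ := Nat.mul_le_mul c8 hle
          · calc X * X ^ C = X ^ (C + 1) := by ring
              _ ≤ X ^ C' := Nat.pow_le_pow_right hX1 c3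

end NFCore

/-- Normal form: for every `k'`-element set `S` a formula of weft at most `t + 1` is a levelled
combination with `t + 1` levels of boundedly many data bits from a polynomial-size family. -/
theorem nf_core (t d : ℕ) : ∃ e' : ℕ, ∀ k' : ℕ, ∃ C : ℕ, ∀ (N M₀ s : ℕ)
    (F : Finset (Fin N) → (Fin M₀ → Prop) → Prop), Weft s (t + 1) d F →
    ∃ (Y : ℕ) (y : Fin Y → (Fin M₀ → Prop) → Prop), 1 ≤ Y ∧ Y ≤ C * (N + M₀ + s + 2) ^ e' ∧
      (∀ i, MF (C * (N + M₀ + s + 2) ^ e') (y i)) ∧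
      ∀ S : Finset (Fin N), S.card = k' → ∀ b, ∃ Φ : (Fin Y → Prop) → Prop,
        Lv (JnOf Coord C) ((N + M₀ + s + 2) ^ C) (t + 1) b Φ ∧ ∀ v, F S v ↔ Φ fun i => y i v := by
  obtain ⟨e', he'⟩ := NFCore.main d
  refine ⟨e', fun k' => ?_⟩
  obtain ⟨C, -, hC⟩ := he' k'
  exact ⟨C, fun N M₀ s F hF => hC t N M₀ s F hF⟩

end Pool.Agent.W_MP_5f6b2a_mon
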