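import Pool.Agent.W_MP_5f6b2a_mon.OddDefs
import Pool.Agent.W_MP_5f6b2a_mon.Tensor

/-!
Domination for the base level with bottom quantifier `∀ l ∈ S`.
-/

namespace Pool.Agent.W_MP_5f6b2a_mon

open Finset

theorem odBool_dom {Ω Ω' : Type} [Fintype Ω] [Fintype Ω'] [Nonempty Ω] [Nonempty Ω']
    (u : Ω → Bool) (v : Ω' → Bool) (h : pr (fun ω => u ω = true) ≤ pr fun ω => v ω = true)
    (g : Bool → ℝ) (hg : Monotone g) :
    av (fun ω => g (u ω)) ≤ av (fun ω => g (v ω)) + 0 := by
  have key : ∀ {Λ : Type} [Fintype Λ] [Nonempty Λ] (w : Λ → Bool),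
      av (fun ω => g (w ω)) = g false + (g true - g false) * pr fun ω => w ω = true := by
    intro Λ _ _ w
    unfold pr
    rw [← av_mul_left]
    have h0 := av_const (Ω := Λ) (g false)
    have h1 := av_add (fun _ : Λ => g false) fun ω =>
      (g true - g false) * if w ω = true then (1 : ℝ) else 0
    rw [h0] at h1
    refine Eq.trans (av_congr fun ω => ?_) (h1.trans ?_)
    · cases h : w ω <;> simp
    · congr 1
      refine av_congr fun ω => ?_
      by_cases h : w ω = true <;> simp [h]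
  rw [key, key, add_zero]
  have h2 : 0 ≤ g true - g false := sub_nonneg.2 (hg (by decide))
  have := mul_le_mul_of_nonneg_left h h2
  linarith

theorem odpr_zero {B : ℕ} (hB : 0 < B) : pr (fun b : Fin B => (b : ℕ) = 0) = 1 / (B : ℝ) := by
  classical
  have : NeZero B := ⟨hB.ne'⟩
  rw [pr_eq_card, Fintype.card_fin]
  congr 1
  have : (univ.filter fun b : Fin B => (b : ℕ) = 0) = {0} := by
    ext b
    simp only [mem_filter, mem_univ, true_and, mem_singleton]
    constructor
    · intro h; exact Fin.ext (by simpa using h)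
    · rintro rfl; simp
  rw [this]; simp

/-- Noise of density `1 / Bp` twice is dominated by noise of density `Bm ^ (-mt)`. -/
theorem noise_dom {k mt Bm Bp : ℕ} {V : Type} [Fintype V] [DecidableEq V] (hBm : 0 < Bm)
    (hBp : 2 * Bm ^ mt ≤ Bp) (g : (Fin k → V → Bool) → ℝ) (hg : Monotone g) (hg0 : ∀ y, 0 ≤ g y)
    (hg1 : ∀ y, g y ≤ 1) :
    av (fun b : (Fin k → V → Fin Bp) × (Fin k → V → Fin Bp) =>
      g fun j v => decide ((b.1 j v : ℕ) = 0 ∨ (b.2 j v : ℕ) = 0)) ≤
    av (fun b : Fin mt → Fin k → V → Fin Bm => g (meet b)) := by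
  classical
  have hBp0 : 0 < Bp := lt_of_lt_of_le (by positivity) hBp
  have : Nonempty (Fin Bp) := Fin.pos_iff_nonempty.1 hBp0
  have : Nonempty (Fin Bm) := Fin.pos_iff_nonempty.1 hBm
  let g' : (Fin k × V → Bool) → ℝ := fun y => g fun j v => y (j, v)
  have hT := tensor (I := Fin k × V) (Ω := fun _ => Fin Bp × Fin Bp)
    (Ω' := fun _ => Fin mt → Fin Bm) (X := fun _ => Bool)
    (fun _ ω => decide ((ω.1 : ℕ) = 0 ∨ (ω.2 : ℕ) = 0)) (fun _ ω => decide (∀ u, (ω u : ℕ) = 0))
    (δ := 0) le_rfl ?_ g' (fun a b hab => hg fun j v => hab (j, v)) (fun _ => hg0 _) fun _ => hg1 _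
  · rw [mul_zero, add_zero] at hT
    let e1 : (Fin k → V → Fin Bp) × (Fin k → V → Fin Bp) ≃ (Fin k × V → Fin Bp × Fin Bp) :=
      { toFun := fun b i => (b.1 i.1 i.2, b.2 i.1 i.2)
        invFun := fun c => (fun j v => (c (j, v)).1, fun j v => (c (j, v)).2)
        left_inv := fun b => rfl
        right_inv := fun c => rfl }
    let e2 : (Fin mt → Fin k → V → Fin Bm) ≃ (Fin k × V → Fin mt → Fin Bm) :=
      { toFun := fun b i u => b u i.1 i.2
        invFun := fun c u j v => c (j, v) u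
        left_inv := fun b => rfl
        right_inv := fun c => rfl }
    have h1 := av_equiv e1 fun ω : (Fin k × V → Fin Bp × Fin Bp) =>
      g' fun i => decide (((ω i).1 : ℕ) = 0 ∨ ((ω i).2 : ℕ) = 0)
    have h2 := av_equiv e2 fun ω : (Fin k × V → Fin mt → Fin Bm) =>
      g' fun i => decide (∀ u, (ω i u : ℕ) = 0)
    rw [← h1, ← h2] at hT
    exact hT
  · intro i g0 hg0' _ _
    refine odBool_dom _ _ ?_ g0 hg0'
    have hl : pr (fun ω : Fin Bp × Fin Bp =>
        decide ((ω.1 : ℕ) = 0 ∨ (ω.2 : ℕ) = 0) = true) ≤ 1 / (Bp : ℝ) + 1 / (Bp : ℝ) := by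
      refine (pr_congr fun ω => decide_eq_true_iff).trans_le ?_
      refine (pr_or_le _ _).trans_eq ?_
      rw [pr_fst (Ω' := Fin Bp) fun b : Fin Bp => (b : ℕ) = 0,
        pr_snd (Ω := Fin Bp) fun b : Fin Bp => (b : ℕ) = 0, odpr_zero hBp0]
    have hr : pr (fun ω : Fin mt → Fin Bm => decide (∀ u, (ω u : ℕ) = 0) = true) =
        (1 / (Bm : ℝ)) ^ mt := by
      rw [pr_congr fun ω => decide_eq_true_iff, pr_pi_const (I := Fin mt)
        fun b : Fin Bm => (b : ℕ) = 0, odpr_zero hBm, Fintype.card_fin]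
    refine hl.trans ?_
    rw [hr, ← add_div, div_pow, one_pow, div_le_div_iff₀ (by exact_mod_cast hBp0)
      (by positivity)]
    have : ((2 * Bm ^ mt : ℕ) : ℝ) ≤ Bp := by exact_mod_cast hBp
    push_cast at this
    linarith

/-- The common zero columns in `D` of the rows in `J`. -/
def odC {k Bp : ℕ} {V : Type} [DecidableEq V] (J : Finset (Fin k)) (D : Finset V)
    (b : Fin k → V → Fin Bp) : Finset V := D.filter fun v => ∀ j ∈ J, (b j v : ℕ) = 0

/-- Column permutations. -/
def odPerm {k Bp : ℕ} {V : Type} (σ : Equiv.Perm V) :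
    (Fin k → V → Fin Bp) ≃ (Fin k → V → Fin Bp) where
  toFun b j v := b j (σ v)
  invFun b j v := b j (σ.symm v)
  left_inv b := by funext j v; simp
  right_inv b := by funext j v; simp

theorem odC_perm {k Bp : ℕ} {V : Type} [DecidableEq V] (J : Finset (Fin k)) (D : Finset V)
    (σ : Equiv.Perm V) (hσ : ∀ v, σ v ∈ D ↔ v ∈ D) (b : Fin k → V → Fin Bp) (v : V) :
    v ∈ odC J D (odPerm σ b) ↔ σ v ∈ odC J D b := by
  unfold odC
  rw [mem_filter, mem_filter, hσ]
  rfl

theorem odC_card {k Bp : ℕ} {V : Type} [DecidableEq V] (J : Finset (Fin k)) (D : Finset V)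
    (σ : Equiv.Perm V) (hσ : ∀ v, σ v ∈ D ↔ v ∈ D) (b : Fin k → V → Fin Bp) :
    (odC J D (odPerm σ b)).card = (odC J D b).card := by
  have : odC J D b = (odC J D (odPerm σ b)).map σ.toEmbedding := by
    ext v
    rw [mem_map_equiv, odC_perm J D σ hσ]
    simp
  rw [this, card_map]

theorem odpr_empty {k Bp : ℕ} {V : Type} [Fintype V] [DecidableEq V] (hBp : 0 < Bp)
    (J : Finset (Fin k)) (D : Finset V) :
    pr (fun b : Fin k → V → Fin Bp => odC J D b = ∅) =
      (1 - (1 / (Bp : ℝ)) ^ J.card) ^ D.card := by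
  classical
  have : Nonempty (Fin Bp) := Fin.pos_iff_nonempty.1 hBp
  have h1 : pr (fun c : Fin k → Fin Bp => ∀ j ∈ J, (c j : ℕ) = 0) =
      (1 / (Bp : ℝ)) ^ J.card := by
    rw [pr_pi (I := Fin k) (Ω := fun _ => Fin Bp) fun j x => j ∈ J → (x : ℕ) = 0]
    rw [Finset.prod_congr rfl (g := fun j => if j ∈ J then (1 / (Bp : ℝ)) else 1)]
    · rw [Finset.prod_ite_mem, Finset.univ_inter, Finset.prod_const]
    · intro j _
      by_cases hj : j ∈ J
      · simp only [hj, true_imp_iff, if_true]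
        exact odpr_zero hBp
      · rw [if_neg hj]
        exact pr_true _ fun x hx => (hj hx).elim
  let e : (Fin k → V → Fin Bp) ≃ (V → Fin k → Fin Bp) :=
    { toFun := fun b v j => b j v
      invFun := fun c j v => c v j
      left_inv := fun b => rfl
      right_inv := fun c => rfl }
  have h2 : pr (fun b : Fin k → V → Fin Bp => odC J D b = ∅) =
      pr (fun c : V → Fin k → Fin Bp => ∀ v, v ∈ D → ¬ ∀ j ∈ J, (c v j : ℕ) = 0) := by
    rw [← pr_equiv e]
    refine pr_congr fun b => ?_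
    simp only [odC, Finset.filter_eq_empty_iff, e, Equiv.coe_fn_mk]
  rw [h2, pr_pi (I := V) (Ω := fun _ => Fin k → Fin Bp)
    fun v c => v ∈ D → ¬ ∀ j ∈ J, (c j : ℕ) = 0]
  rw [Finset.prod_congr rfl
    (g := fun v => if v ∈ D then (1 - (1 / (Bp : ℝ)) ^ J.card) else 1)]
  · rw [Finset.prod_ite_mem, Finset.univ_inter, Finset.prod_const]
  · intro v _
    by_cases hv : v ∈ D
    · simp only [hv, true_imp_iff, if_true]
      rw [pr_not, h1]
    · rw [if_neg hv]
      exact pr_true _ fun x hx => (hv hx).elim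

/-- A planted column, chosen uniformly in a set `D` of columns, on top of one noise is dominated on
the rows in `J` by two noises, up to the probability that the rows in `J` have no common noise
column in `D`. -/
theorem plant_dom {k r Bp : ℕ} {V : Type} [Fintype V] [DecidableEq V] (hBp : 0 < Bp)
    (J : Finset (Fin k)) (hJ : J.card ≤ r) (D : Finset V) (hD : D.Nonempty)
    (g : (Fin k → V → Bool) → ℝ) (hg : Monotone g) (hg0 : ∀ y, 0 ≤ g y) (hg1 : ∀ y, g y ≤ 1) :
    av (fun p : {v // v ∈ D} × (Fin k → V → Fin Bp) =>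
      g fun j v => if j ∈ J then decide (v = p.1.1 ∨ (p.2 j v : ℕ) = 0) else false) ≤
    av (fun b : (Fin k → V → Fin Bp) × (Fin k → V → Fin Bp) =>
      g fun j v => if j ∈ J then decide ((b.1 j v : ℕ) = 0 ∨ (b.2 j v : ℕ) = 0) else false) +
      (1 - (1 / (Bp : ℝ)) ^ r) ^ D.card := by
  classical
  have : Nonempty (Fin Bp) := Fin.pos_iff_nonempty.1 hBp
  have hDc : (0 : ℝ) < D.card := by exact_mod_cast hD.card_pos
  have : Nonempty {v // v ∈ D} := hD.to_subtype
  let h : V → (Fin k → V → Fin Bp) → ℝ := fun w b =>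
    g fun j v => if j ∈ J then decide (v = w ∨ (b j v : ℕ) = 0) else false
  let hb : V → ℝ := fun w => av (h w)
  let W : V → (Fin k → V → Fin Bp) → ℝ := fun v b =>
    if v ∈ odC J D b then 1 / ((odC J D b).card : ℝ) else 0
  -- symmetry
  have hsym : ∀ v ∈ D, ∀ w ∈ D, av (W v) = av (W w) := by
    intro v hv w hw
    have hσ : ∀ x, Equiv.swap v w x ∈ D ↔ x ∈ D := by
      intro x
      by_cases hxv : x = v
      · subst hxv; simp [hv, hw]
      · by_cases hxw : x = w
        · subst hxw; simp [hv, hw]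
        · rw [Equiv.swap_apply_of_ne_of_ne hxv hxw]
    rw [← av_equiv (odPerm (Equiv.swap v w)) (W v)]
    refine av_congr fun b => ?_
    simp only [W]
    rw [odC_card J D _ hσ]
    simp only [odC_perm J D _ hσ, Equiv.swap_apply_left]
  obtain ⟨v0, hv0⟩ := hD
  have hsum : ∑ v ∈ D, av (W v) = 1 - (1 - (1 / (Bp : ℝ)) ^ J.card) ^ D.card := by
    rw [← av_sum, ← odpr_empty hBp J D, ← pr_not]
    unfold pr
    refine av_congr fun b => ?_
    have hsub : odC J D b ⊆ D := Finset.filter_subset _ _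
    simp only [W]
    rw [Finset.sum_ite_mem, Finset.inter_eq_right.2 hsub, Finset.sum_const, nsmul_eq_mul]
    by_cases hC : odC J D b = ∅
    · simp [hC]
    · have : ((odC J D b).card : ℝ) ≠ 0 := by
        exact_mod_cast (Finset.card_pos.2 (Finset.nonempty_iff_ne_empty.2 hC)).ne'
      rw [if_pos hC]
      field_simp
  have hπ : ∀ v ∈ D, av (W v) = (1 - (1 - (1 / (Bp : ℝ)) ^ J.card) ^ D.card) / D.card := by
    intro v hv
    rw [eq_div_iff hDc.ne', ← hsum, Finset.sum_congr rfl fun w hw => hsym w hw v hv,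
      Finset.sum_const, nsmul_eq_mul, mul_comm]
  -- the left side
  have hL : av (fun p : {v // v ∈ D} × (Fin k → V → Fin Bp) =>
      g fun j v => if j ∈ J then decide (v = p.1.1 ∨ (p.2 j v : ℕ) = 0) else false) =
      (∑ v ∈ D, hb v) / D.card := by
    rw [av_prod fun (a : {v // v ∈ D}) b => h a.1 b]
    unfold av
    rw [Fintype.card_coe]
    congr 1
    rw [← Finset.sum_coe_sort D]
    rfl
  -- the right side
  have hR : ∑ v ∈ D, av (W v) * hb v ≤
      av (fun b : (Fin k → V → Fin Bp) × (Fin k → V → Fin Bp) =>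
      g fun j v => if j ∈ J then decide ((b.1 j v : ℕ) = 0 ∨ (b.2 j v : ℕ) = 0) else false) := by
    rw [av_prod fun b1 b2 : Fin k → V → Fin Bp => g fun j v =>
      if j ∈ J then decide ((b1 j v : ℕ) = 0 ∨ (b2 j v : ℕ) = 0) else false]
    rw [av_comm fun b1 b2 : Fin k → V → Fin Bp => g fun j v =>
      if j ∈ J then decide ((b1 j v : ℕ) = 0 ∨ (b2 j v : ℕ) = 0) else false]
    have hstep : ∑ v ∈ D, av (W v) * hb v = av fun b2 => av fun b1 => ∑ v ∈ D, W v b2 * h v b1 := by
      simp only [av_sum, av_mul_left]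
      refine Finset.sum_congr rfl fun v _ => ?_
      rw [av_mul_right]
    rw [hstep]
    refine av_mono fun b2 => av_mono fun b1 => ?_
    by_cases hC : odC J D b2 = ∅
    · have : ∑ v ∈ D, W v b2 * h v b1 = 0 := by
        refine Finset.sum_eq_zero fun v _ => ?_
        simp [W, hC]
      rw [this]
      exact hg0 _
    · have hCc : (0 : ℝ) < (odC J D b2).card := by
        exact_mod_cast Finset.card_pos.2 (Finset.nonempty_iff_ne_empty.2 hC)
      have hsub : odC J D b2 ⊆ D := Finset.filter_subset _ _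
      have hle : ∀ v ∈ odC J D b2, h v b1 ≤ g fun j v =>
          if j ∈ J then decide ((b1 j v : ℕ) = 0 ∨ (b2 j v : ℕ) = 0) else false := by
        intro v hv
        refine hg fun j x => ?_
        by_cases hj : j ∈ J
        · simp only [hj, if_true]
          rw [Bool.le_iff_imp]
          simp only [decide_eq_true_eq]
          rintro (rfl | hx)
          · exact Or.inr ((Finset.mem_filter.1 hv).2 j hj)
          · exact Or.inl hx
        · simp [hj]
      calc ∑ v ∈ D, W v b2 * h v b1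
          = ∑ v ∈ odC J D b2, 1 / ((odC J D b2).card : ℝ) * h v b1 := by
            simp only [W, ite_mul, zero_mul]
            rw [Finset.sum_ite_mem, Finset.inter_eq_right.2 hsub]
        _ ≤ ∑ _v ∈ odC J D b2, 1 / ((odC J D b2).card : ℝ) * g fun j v =>
            if j ∈ J then decide ((b1 j v : ℕ) = 0 ∨ (b2 j v : ℕ) = 0) else false :=
            Finset.sum_le_sum fun v hv => mul_le_mul_of_nonneg_left (hle v hv) (by positivity)
        _ = _ := by
            rw [Finset.sum_const, nsmul_eq_mul]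
            field_simp
  rw [hL]
  have hH0 : ∀ v, 0 ≤ hb v := fun v => av_nonneg fun b => hg0 _
  have hH1 : ∀ v, hb v ≤ 1 := fun v => av_le' zero_le_one fun b => hg1 _
  have hRe : ∑ v ∈ D, av (W v) * hb v =
      (1 - (1 - (1 / (Bp : ℝ)) ^ J.card) ^ D.card) * ((∑ v ∈ D, hb v) / D.card) := by
    rw [Finset.sum_congr rfl fun v hv => by rw [hπ v hv], ← Finset.mul_sum]
    ring
  rw [hRe] at hR
  have hHle : (∑ v ∈ D, hb v) / D.card ≤ 1 := by
    rw [div_le_one hDc]
    calc ∑ v ∈ D, hb v ≤ ∑ _v ∈ D, (1 : ℝ) := Finset.sum_le_sum fun v _ => hH1 v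
      _ = D.card := by simp
  have hHge : 0 ≤ (∑ v ∈ D, hb v) / D.card :=
    div_nonneg (Finset.sum_nonneg fun v _ => hH0 v) hDc.le
  have hq0 : (0 : ℝ) ≤ 1 / (Bp : ℝ) := by positivity
  have hq1 : 1 / (Bp : ℝ) ≤ 1 := by
    rw [div_le_one (by exact_mod_cast hBp)]
    exact_mod_cast hBp
  have hb1 : (0 : ℝ) ≤ 1 - (1 / (Bp : ℝ)) ^ J.card :=
    sub_nonneg.2 (pow_le_one₀ hq0 hq1)
  have hb2 : 1 - (1 / (Bp : ℝ)) ^ J.card ≤ 1 - (1 / (Bp : ℝ)) ^ r :=
    sub_le_sub_left (pow_le_pow_of_le_one hq0 hq1 hJ) _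
  have hb3 : (1 - (1 / (Bp : ℝ)) ^ J.card) ^ D.card ≤ (1 - (1 / (Bp : ℝ)) ^ r) ^ D.card :=
    pow_le_pow_left₀ hb1 hb2 _
  have hb4 : (0 : ℝ) ≤ (1 - (1 / (Bp : ℝ)) ^ J.card) ^ D.card := pow_nonneg hb1 _
  nlinarith [mul_nonneg hb4 (sub_nonneg.2 hHle)]

theorem odav_subtype {Ω : Type} [Fintype Ω] (Q : Ω → Prop) [DecidablePred Q] (F : Ω → ℝ) :
    av (fun p : {p // Q p} => F p.1) = av (fun p => if Q p then F p else 0) / pr Q := by
  classical
  rcases isEmpty_or_nonempty Ω with hΩ | hΩ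
  · have : IsEmpty {p // Q p} := ⟨fun p => hΩ.elim p.1⟩
    rw [av_of_isEmpty, av_of_isEmpty, zero_div]
  have hc : (0 : ℝ) < Fintype.card Ω := by exact_mod_cast Fintype.card_pos
  rw [pr_eq_card]
  unfold av
  rw [div_div_div_cancel_right₀ hc.ne', Fintype.card_subtype]
  congr 1
  rw [← Finset.sum_filter]
  rw [← Finset.sum_subtype_eq_sum_filter]
  simp

theorem oddiv_aux {ρ n : ℝ} (h : ρ ≠ 0) (hn : n ≠ 0) (s d : ℝ) :
    ρ * s / n / (ρ * d / n) = s / d := by
  rw [div_div_div_cancel_right₀ hn, mul_div_mul_left _ _ h]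

theorem odmix_rows {k : ℕ} {E : Type} (K J : Finset (Fin k)) (κ y : Fin k → E → Bool) :
    mix K J κ (fun j v => if j ∈ J then y j v else false) = mix K J κ y := by
  funext j
  unfold mix
  by_cases hK : j ∈ K
  · simp [hK]
  · by_cases hJ : j ∈ J
    · simp [hK, hJ]
    · simp [hK, hJ]

theorem odmix_mono {k : ℕ} {E : Type} (K J : Finset (Fin k)) (κ : Fin k → E → Bool) :
    Monotone (mix K J κ) := by
  intro a b hab j
  unfold mix
  split_ifs
  · exact le_rfl
  · exact hab j
  · exact le_rfl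

/-- One clause, conditionally on the contents of the rows in `K`. -/
theorem odd_dom_clause {k mt r d0 Bm Bp : ℕ} {V : Type} [Fintype V] [DecidableEq V]
    (hBm : 0 < Bm) (hBp : 2 * Bm ^ mt ≤ Bp) (K J : Finset (Fin k)) (hKJ : Disjoint K J)
    (hJ : J.card ≤ r) (hd : 0 < d0) (κ : Fin k → V → Bool)
    (hκ : d0 ≤ (univ.filter fun v : V => ∀ j ∈ K, κ j v = true).card)
    (g : (Fin k → V → Bool) → ℝ) (hg : Monotone g) (hg0 : ∀ y, 0 ≤ g y) (hg1 : ∀ y, g y ≤ 1) :
    av (fun p : {p : V × (Fin k → V → Fin Bp) //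
        ∀ j ∈ K, (fun v => decide (v = p.1 ∨ (p.2 j v : ℕ) = 0)) = κ j} =>
      g (mix K J κ fun j v => decide (v = p.1.1 ∨ (p.1.2 j v : ℕ) = 0))) ≤
    av (fun b : Fin mt → Fin k → V → Fin Bm => g (mix K J κ (meet b))) +
      (1 - (1 / (Bp : ℝ)) ^ r) ^ d0 := by
  classical
  have hBp0 : 0 < Bp := lt_of_lt_of_le (by positivity) hBp
  have : Nonempty (Fin Bp) := Fin.pos_iff_nonempty.1 hBp0
  set D : Finset V := univ.filter fun v : V => ∀ j ∈ K, κ j v = true with hDdef
  have hDne : D.Nonempty := Finset.card_pos.1 (lt_of_lt_of_le hd hκ)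
  have hDc : (0 : ℝ) < D.card := by exact_mod_cast hDne.card_pos
  let G : (Fin k → V → Bool) → ℝ := fun y => g (mix K J κ y)
  have hG : Monotone G := hg.comp (odmix_mono K J κ)
  have hG0 : ∀ y, 0 ≤ G y := fun y => hg0 _
  have hG1 : ∀ y, G y ≤ 1 := fun y => hg1 _
  have hGJ : ∀ y : Fin k → V → Bool, G (fun j v => if j ∈ J then y j v else false) = G y :=
    fun y => by simp only [G, odmix_rows]
  have hq0 : (0 : ℝ) ≤ 1 / (Bp : ℝ) := by positivity
  have hq1 : 1 / (Bp : ℝ) ≤ 1 := by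
    rw [div_le_one (by exact_mod_cast hBp0)]
    exact_mod_cast hBp0
  have hb0 : (0 : ℝ) ≤ 1 - (1 / (Bp : ℝ)) ^ r := sub_nonneg.2 (pow_le_one₀ hq0 hq1)
  have hb1 : 1 - (1 / (Bp : ℝ)) ^ r ≤ 1 := by
    have : (0 : ℝ) ≤ (1 / (Bp : ℝ)) ^ r := by positivity
    linarith
  -- the condition
  let Q : V × (Fin k → V → Fin Bp) → Prop := fun p =>
    ∀ j ∈ K, (fun v => decide (v = p.1 ∨ (p.2 j v : ℕ) = 0)) = κ j
  let F : V × (Fin k → V → Fin Bp) → ℝ := fun p =>
    G fun j v => decide (v = p.1 ∨ (p.2 j v : ℕ) = 0)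
  have hsub : av (fun p : {p : V × (Fin k → V → Fin Bp) //
        ∀ j ∈ K, (fun v => decide (v = p.1 ∨ (p.2 j v : ℕ) = 0)) = κ j} =>
      g (mix K J κ fun j v => decide (v = p.1.1 ∨ (p.1.2 j v : ℕ) = 0))) =
      av (fun p => if Q p then F p else 0) / pr Q := by
    rw [← odav_subtype Q F]
  -- independence
  have hind : ∀ v : V, av (fun b : Fin k → V → Fin Bp => if Q (v, b) then F (v, b) else 0) =
      pr (fun b : Fin k → V → Fin Bp => Q (v, b)) * av (fun b => F (v, b)) := by
    intro v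
    rw [av_glue K]
    have h1 : ∀ a b : Fin k → V → Fin Bp,
        (if Q (v, glue K a b) then F (v, glue K a b) else 0) =
        (if Q (v, a) then (1 : ℝ) else 0) * F (v, b) := by
      intro a b
      have hQ : Q (v, glue K a b) ↔ Q (v, a) := by
        refine forall₂_congr fun j hj => ?_
        simp only [glue_of_mem hj]
      have hF : F (v, glue K a b) = F (v, b) := by
        simp only [F]
        rw [← hGJ, ← hGJ (fun j x => decide (x = v ∨ (b j x : ℕ) = 0))]
        congr 1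
        funext j x
        by_cases hj : j ∈ J
        · have hjK : j ∉ K := fun h => Finset.disjoint_left.1 hKJ h hj
          simp only [hj, if_true, glue_of_notMem hjK]
        · simp [hj]
      rw [hF]
      by_cases h : Q (v, a)
      · rw [if_pos h, if_pos (hQ.2 h), one_mul]
      · rw [if_neg h, if_neg (fun h' => h (hQ.1 h')), zero_mul]
    simp only [h1, av_mul_left, av_mul_right]
    congr 1
    unfold pr
    refine av_congr fun a => ?_
    by_cases h : Q (v, a) <;> simp [h]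
  -- outside D
  have hout : ∀ v, v ∉ D → pr (fun b : Fin k → V → Fin Bp => Q (v, b)) = 0 := by
    intro v hv
    refine pr_false _ fun b hb => hv ?_
    rw [hDdef, Finset.mem_filter]
    refine ⟨Finset.mem_univ _, fun j hj => ?_⟩
    have := congrFun (hb j hj) v
    simpa using this.symm
  -- symmetry
  have hsym : ∀ v ∈ D, ∀ w ∈ D, pr (fun b : Fin k → V → Fin Bp => Q (v, b)) =
      pr (fun b : Fin k → V → Fin Bp => Q (w, b)) := by
    intro v hv w hw
    have hv' := (Finset.mem_filter.1 hv).2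
    have hw' := (Finset.mem_filter.1 hw).2
    have hκσ : ∀ j ∈ K, ∀ x, κ j (Equiv.swap v w x) = κ j x := by
      intro j hj x
      by_cases hxv : x = v
      · subst hxv; simp [hv' j hj, hw' j hj]
      · by_cases hxw : x = w
        · subst hxw; simp [hv' j hj, hw' j hj]
        · rw [Equiv.swap_apply_of_ne_of_ne hxv hxw]
    rw [← pr_equiv (odPerm (Equiv.swap v w)) fun b => Q (v, b)]
    refine pr_congr fun b => forall₂_congr fun j hj => ?_
    simp only [odPerm, Equiv.coe_fn_mk]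
    constructor
    · intro h
      funext x
      have := congrFun h (Equiv.swap v w x)
      simp only [Equiv.swap_apply_self, hκσ j hj] at this
      rw [← this]
      congr 1
      simp only [eq_iff_iff]
      constructor
      · rintro (rfl | h)
        · exact Or.inl (by simp)
        · exact Or.inr h
      · rintro (h | h)
        · refine Or.inl ?_
          have := congrArg (Equiv.swap v w) h
          simpa using this
        · exact Or.inr h
    · intro h
      funext x
      have := congrFun h (Equiv.swap v w x)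
      simp only [hκσ j hj] at this
      rw [← this]
      congr 1
      simp only [eq_iff_iff]
      constructor
      · rintro (rfl | h)
        · exact Or.inl (by simp)
        · exact Or.inr h
      · rintro (h | h)
        · refine Or.inl ?_
          have := congrArg (Equiv.swap v w) h
          simpa using this
        · exact Or.inr h
  obtain ⟨v0, hv0⟩ := hDne
  set ρ : ℝ := pr (fun b : Fin k → V → Fin Bp => Q (v0, b)) with hρ
  have hprv : ∀ v, pr (fun b : Fin k → V → Fin Bp => Q (v, b)) = if v ∈ D then ρ else 0 := by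
    intro v
    by_cases hv : v ∈ D
    · rw [if_pos hv]; exact hsym v hv v0 hv0
    · rw [if_neg hv]; exact hout v hv
  have hV : (0 : ℝ) < Fintype.card V := by
    have : Nonempty V := ⟨v0⟩
    exact_mod_cast Fintype.card_pos
  have hprQ : pr Q = ρ * D.card / Fintype.card V := by
    rw [show pr Q = pr (fun p : V × (Fin k → V → Fin Bp) => (fun v b => Q (v, b)) p.1 p.2) from rfl,
      pr_prod fun v b => Q (v, b)]
    unfold av
    congr 1
    simp only [hprv]
    rw [Finset.sum_ite_mem, Finset.univ_inter, Finset.sum_const, nsmul_eq_mul, mul_comm]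
  have hnum : av (fun p => if Q p then F p else 0) =
      ρ * (∑ v ∈ D, av fun b => F (v, b)) / Fintype.card V := by
    rw [show av (fun p => if Q p then F p else 0) = av (fun p : V × (Fin k → V → Fin Bp) =>
      (fun v b => if Q (v, b) then F (v, b) else 0) p.1 p.2) from rfl,
      av_prod fun v b => if Q (v, b) then F (v, b) else 0]
    simp only [hind, hprv]
    unfold av
    congr 1
    simp only [ite_mul, zero_mul]
    rw [Finset.sum_ite_mem, Finset.univ_inter, Finset.mul_sum]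
  have hRHS0 : 0 ≤ av (fun b : Fin mt → Fin k → V → Fin Bm => g (mix K J κ (meet b))) +
      (1 - (1 / (Bp : ℝ)) ^ r) ^ d0 := add_nonneg (av_nonneg fun _ => hg0 _) (pow_nonneg hb0 _)
  rw [hsub, hprQ, hnum]
  by_cases hρ0 : ρ = 0
  · rw [hρ0]; simpa using hRHS0
  have heq : ρ * (∑ v ∈ D, av fun b => F (v, b)) / Fintype.card V /
      (ρ * D.card / Fintype.card V) = (∑ v ∈ D, av fun b => F (v, b)) / D.card :=
    oddiv_aux hρ0 hV.ne' _ _
  rw [heq]
  have hL : (∑ v ∈ D, av fun b => F (v, b)) / D.card =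
      av (fun p : {v // v ∈ D} × (Fin k → V → Fin Bp) =>
      G fun j v => if j ∈ J then decide (v = p.1.1 ∨ (p.2 j v : ℕ) = 0) else false) := by
    have hcg : av (fun p : {v // v ∈ D} × (Fin k → V → Fin Bp) =>
        G fun j v => if j ∈ J then decide (v = p.1.1 ∨ (p.2 j v : ℕ) = 0) else false) =
        av (fun p : {v // v ∈ D} × (Fin k → V → Fin Bp) => F (p.1.1, p.2)) :=
      av_congr fun p => hGJ fun j v => decide (v = p.1.1 ∨ (p.2 j v : ℕ) = 0)
    rw [hcg, av_prod fun (a : {v // v ∈ D}) b => F (a.1, b)]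
    unfold av
    rw [Fintype.card_coe]
    congr 1
    rw [← Finset.sum_coe_sort D]
  rw [hL]
  refine (plant_dom hBp0 J hJ D ⟨v0, hv0⟩ G hG hG0 hG1).trans ?_
  refine add_le_add ?_ (pow_le_pow_of_le_one hb0 hb1 hκ)
  have hN := noise_dom (k := k) (mt := mt) hBm hBp G hG hG0 hG1
  refine le_trans (le_of_eq (av_congr fun b => ?_)) hN
  exact hGJ (fun j v => decide ((b.1 j v : ℕ) = 0 ∨ (b.2 j v : ℕ) = 0))

theorem odd_dom_aux (k m d0 m2 Bp Bm mt r : ℕ) (hd : 0 < d0)
    (hB : 0 < Bp) (hBm : 0 < Bm) (hBp : 2 * Bm ^ mt ≤ Bp) :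
    Dom (oddW : OddP k m d0 m2 Bp → Fin k → (Fin m × Col d0 m2) → Bool)
      (fun K κ => ∀ i, d0 ≤ (univ.filter fun v : Col d0 m2 => ∀ j ∈ K, κ j (i, v) = true).card)
      Bm mt r (m * (1 - (1 / (Bp : ℝ)) ^ r) ^ d0) := by
  classical
  have hq0 : (0 : ℝ) ≤ 1 / (Bp : ℝ) := by positivity
  have hq1 : 1 / (Bp : ℝ) ≤ 1 := by
    rw [div_le_one (by exact_mod_cast hB)]
    exact_mod_cast hB
  have hb0 : (0 : ℝ) ≤ 1 - (1 / (Bp : ℝ)) ^ r := sub_nonneg.2 (pow_le_one₀ hq0 hq1)
  have : Nonempty (Fin Bm) := Fin.pos_iff_nonempty.1 hBm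
  intro K J hKJ _ hJ κ hκ g hg hg0 hg1
  let κi : Fin m → Fin k → Col d0 m2 → Bool := fun i j v => κ j (i, v)
  let g' : (Fin m → Fin k → Col d0 m2 → Bool) → ℝ := fun y => g fun j e => y e.1 j e.2
  have hT := tensor (I := Fin m)
    (Ω := fun i => {p : Col d0 m2 × (Fin k → Col d0 m2 → Fin Bp) //
        ∀ j ∈ K, (fun v => decide (v = p.1 ∨ (p.2 j v : ℕ) = 0)) = κi i j})
    (Ω' := fun _ => Fin mt → Fin k → Col d0 m2 → Fin Bm)
    (X := fun _ => Fin k → Col d0 m2 → Bool)
    (fun i p => mix K J (κi i) fun j v => decide (v = p.1.1 ∨ (p.1.2 j v : ℕ) = 0))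
    (fun i b => mix K J (κi i) (meet b))
    (δ := (1 - (1 / (Bp : ℝ)) ^ r) ^ d0) (pow_nonneg hb0 _)
    (fun i g0 h1 h2 h3 => odd_dom_clause hBm hBp K J hKJ hJ hd (κi i) (hκ i) g0 h1 h2 h3)
    g' (fun a b hab => hg fun j e => hab e.1 j e.2) (fun _ => hg0 _) fun _ => hg1 _
  rw [Fintype.card_fin] at hT
  let e1 : {ω : OddP k m d0 m2 Bp // ∀ j ∈ K, oddW ω j = κ j} ≃
      (∀ i : Fin m, {p : Col d0 m2 × (Fin k → Col d0 m2 → Fin Bp) //
        ∀ j ∈ K, (fun v => decide (v = p.1 ∨ (p.2 j v : ℕ) = 0)) = κi i j}) :=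
    { toFun := fun ω i => ⟨ω.1 i, fun j hj => by
        funext v
        exact congrFun (ω.2 j hj) (i, v)⟩
      invFun := fun c => ⟨fun i => (c i).1, fun j hj => by
        funext e
        exact congrFun ((c e.1).2 j hj) e.2⟩
      left_inv := fun ω => rfl
      right_inv := fun c => rfl }
  let e2 : (Fin mt → Fin k → (Fin m × Col d0 m2) → Fin Bm) ≃
      (Fin m → Fin mt → Fin k → Col d0 m2 → Fin Bm) :=
    { toFun := fun b i u j v => b u j (i, v)
      invFun := fun c u j e => c e.1 u j e.2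
      left_inv := fun b => rfl
      right_inv := fun c => rfl }
  rw [← av_equiv e1, ← av_equiv e2] at hT
  have hl : ∀ ω : {ω : OddP k m d0 m2 Bp // ∀ j ∈ K, oddW ω j = κ j},
      g (mix K J κ (oddW ω.1)) = g' fun i => mix K J (κi i) fun j v =>
        decide (v = (e1 ω i).1.1 ∨ ((e1 ω i).1.2 j v : ℕ) = 0) := by
    intro ω
    simp only [g']
    congr 1
    funext j e
    unfold mix
    by_cases hK : j ∈ K
    · simp only [hK, if_true]; rfl
    · by_cases hJ : j ∈ J
      · simp only [hK, hJ, if_true, if_false]; rfl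
      · simp only [hK, hJ, if_false]; rfl
  have hr : ∀ b : Fin mt → Fin k → (Fin m × Col d0 m2) → Fin Bm,
      g (mix K J κ (meet b)) = g' fun i => mix K J (κi i) (meet (e2 b i)) := by
    intro b
    simp only [g']
    congr 1
    funext j e
    unfold mix
    by_cases hK : j ∈ K
    · simp only [hK, if_true]; rfl
    · by_cases hJ : j ∈ J
      · simp only [hK, hJ, if_true, if_false]; rfl
      · simp only [hK, hJ, if_false]; rfl
  rw [av_congr hl, av_congr hr]
  convert hT using 2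

theorem odd_domOK (k m d0 m2 Bp Bm Λ mt r : ℕ) (hk : 0 < k) (hm : 0 < m) (hd : 0 < d0)
    (hm2 : 0 < m2) (hB : 0 < Bp) (hBm : 0 < Bm) (hBp : 2 * Bm ^ mt ≤ Bp) :
    (oddLev k m d0 m2 Bp Bm Λ hk hm hd hm2 hB).DomOK Bm mt r
      (m * (1 - (1 / (Bp : ℝ)) ^ r) ^ d0) :=
  odd_dom_aux k m d0 m2 Bp Bm mt r hd hB hBm hBp

end Pool.Agent.W_MP_5f6b2a_mon
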