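import Pool.Agent.W_MP_5f6b2a_mon.OddDefs

/-!
Most negative samples are good.
-/

namespace Pool.Agent.W_MP_5f6b2a_mon

open Finset

/-- Separate the planted columns from the noise. -/
def oddGoodEquiv (k m d0 m2 Bp Λ : ℕ) :
    (Fin Λ → OddP k m d0 m2 Bp) ≃
      (Fin Λ → Fin m → Col d0 m2) × (Fin Λ × Fin m × Fin k × Col d0 m2 → Fin Bp) where
  toFun a := (fun u i => (a u i).1, fun q => (a q.1 q.2.1).2 q.2.2.1 q.2.2.2)
  invFun p := fun u i => (p.1 u i, fun j v => p.2 (u, i, j, v))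
  left_inv _ := rfl
  right_inv _ := rfl

theorem oddGood_coord {I Ω : Type*} [Fintype I] [DecidableEq I] [Fintype Ω] [Nonempty Ω] (q : I)
    (E : Ω → Prop) : pr (fun n : I → Ω => E (n q)) = pr E := by
  classical
  have h := pr_comp_injective (I := I) (Ω := Ω) (J := Unit) (fun _ => q)
    (fun _ _ _ => rfl) (fun ω => ∀ i, E (ω i))
  rw [pr_pi_const, Fintype.card_unit, pow_one] at h
  rw [← h]
  exact pr_congr fun ω => by simp

theorem oddGood_fin {B : ℕ} (hB : 0 < B) : pr (fun b : Fin B => (b : ℕ) = 0) = 1 / (B : ℝ) := by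
  classical
  rw [pr_eq_card, Fintype.card_fin]
  congr 1
  have : (univ.filter fun b : Fin B => (b : ℕ) = 0) = {⟨0, hB⟩} := by
    ext b
    simp [Fin.ext_iff]
  rw [this]
  simp

theorem oddGood_col {d0 m2 : ℕ} (c : Col d0 m2) :
    pr (fun x : Col d0 m2 => x = c) = 1 / ((d0 * m2 : ℕ) : ℝ) := by
  classical
  rw [pr_eq_card, Fintype.card_prod, Fintype.card_fin, Fintype.card_fin]
  congr 1
  have : (univ.filter fun b : Col d0 m2 => b = c) = {c} := by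
    ext b
    simp
  rw [this]
  simp

/-- The noise of all rows in `U` at a fixed place. -/
theorem oddGood_noise (k m d0 m2 Bp Λ : ℕ) (hB : 0 < Bp) (i : Fin m) (U : Finset (Fin k))
    (v : Col d0 m2) :
    pr (fun n : Fin Λ × Fin m × Fin k × Col d0 m2 → Fin Bp =>
      ∀ j ∈ U, ∃ u, (n (u, i, j, v) : ℕ) = 0) ≤ ((Λ : ℝ) / Bp) ^ U.card := by
  classical
  have hne := Fin.pos_iff_nonempty.1 hB
  rw [pr_forall_mem_of_disjoint U
    (fun j => univ.filter fun q : Fin Λ × Fin m × Fin k × Col d0 m2 => q.2.2.1 = j)]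
  · rw [← Finset.prod_const]
    refine Finset.prod_le_prod (fun _ _ => pr_nonneg _) fun j _ => ?_
    refine (pr_exists_le _).trans ?_
    have : ∀ u : Fin Λ, pr (fun n : Fin Λ × Fin m × Fin k × Col d0 m2 → Fin Bp =>
        (n (u, i, j, v) : ℕ) = 0) = 1 / (Bp : ℝ) := fun u => by
      rw [oddGood_coord (u, i, j, v) fun b : Fin Bp => (b : ℕ) = 0, oddGood_fin hB]
    rw [Finset.sum_congr rfl fun u _ => this u, Finset.sum_const, Finset.card_univ,
      Fintype.card_fin, nsmul_eq_mul]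
    rw [mul_one_div]
  · intro j _ j' _ hjj
    rw [Finset.disjoint_filter]
    intro q _ h1 h2
    exact hjj (h1.symm.trans h2)
  · intro j _ a b hab
    refine exists_congr fun u => ?_
    rw [hab (u, i, j, v) (by simp)]

theorem oddGood_same (m d0 m2 Λ : ℕ) (hd : 0 < d0) (hm2 : 0 < m2) (i : Fin m) {u u' : Fin Λ}
    (huu : u ≠ u') :
    pr (fun c : Fin Λ → Fin m → Col d0 m2 => c u i = c u' i) ≤ 1 / ((d0 * m2 : ℕ) : ℝ) := by
  classical
  have h1 := Fin.pos_iff_nonempty.1 hd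
  have h2 := Fin.pos_iff_nonempty.1 hm2
  rw [pr_glue {u'}]
  refine av_le' (by positivity) fun a => ?_
  have : pr (fun b : Fin Λ → Fin m → Col d0 m2 => glue {u'} a b u i = glue {u'} a b u' i) =
      pr (fun b : Fin Λ → Fin m → Col d0 m2 => b u i = a u' i) := by
    refine pr_congr fun b => ?_
    rw [glue_of_notMem (by simpa using huu), glue_of_mem (by simp)]
  rw [this, oddGood_coord u fun y : Fin m → Col d0 m2 => y i = a u' i,
    oddGood_coord i fun y : Col d0 m2 => y = a u' i, oddGood_col]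

/-- The damaged clause rarely has a common column. -/
theorem oddGood_damaged (k m d0 m2 Bp Λ : ℕ) (hd : 0 < d0)
    (hm2 : 0 < m2) (hB : 0 < Bp) [inst : Fintype (OddZ k m d0 m2 Bp Λ)] :
    pr (fun ζ : OddZ k m d0 m2 Bp Λ => ∃ v, ∀ j, oddRaw ζ j (ζ.2.1, v) = true) ≤
      (Λ : ℝ) ^ 2 / Bp + (Λ : ℝ) ^ 2 / (d0 * m2 : ℕ) + (d0 * m2 : ℕ) * ((Λ : ℝ) / Bp) ^ k := by
  classical
  obtain rfl : inst = instFintypeProd _ _ := Subsingleton.elim _ _
  have n1 := Fin.pos_iff_nonempty.1 hd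
  have n2 := Fin.pos_iff_nonempty.1 hm2
  have n3 := Fin.pos_iff_nonempty.1 hB
  refine (le_of_eq (pr_prod' (fun (a : Fin Λ → OddP k m d0 m2 Bp)
    (β : Fin m × (Fin Λ → Fin k)) => ∃ v, ∀ j, oddRaw (a, β) j (β.1, v) = true))).trans ?_
  refine av_le' (by positivity) fun β => ?_
  rw [← pr_equiv (oddGoodEquiv k m d0 m2 Bp Λ).symm]
  have hsub : pr (fun p : (Fin Λ → Fin m → Col d0 m2) ×
        (Fin Λ × Fin m × Fin k × Col d0 m2 → Fin Bp) =>
        ∃ v, ∀ j, oddRaw ((oddGoodEquiv k m d0 m2 Bp Λ).symm p, β) j (β.1, v) = true) ≤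
      pr (fun p : (Fin Λ → Fin m → Col d0 m2) ×
        (Fin Λ × Fin m × Fin k × Col d0 m2 → Fin Bp) =>
        ((∃ u u' : Fin Λ, u ≠ u' ∧ p.1 u β.1 = p.1 u' β.1) ∨
          (∃ u u' : Fin Λ, (p.2 (u', β.1, β.2 u, p.1 u β.1) : ℕ) = 0)) ∨
          ∃ v, ∀ j ∈ (univ : Finset (Fin k)), ∃ u, (p.2 (u, β.1, j, v) : ℕ) = 0) := by
    refine pr_mono fun p => ?_
    rintro ⟨v, hv⟩
    have hv' : ∀ j, ∃ u, (v = p.1 u β.1 ∧ j ≠ β.2 u) ∨ (p.2 (u, β.1, j, v) : ℕ) = 0 := by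
      intro j
      have := of_decide_eq_true (hv j)
      obtain ⟨u, hu⟩ := this
      refine ⟨u, ?_⟩
      rcases hu with ⟨h1, h2⟩ | h
      · exact Or.inl ⟨h1, h2 rfl⟩
      · exact Or.inr h
    by_cases hpl : ∃ u, v = p.1 u β.1
    · left
      obtain ⟨u, hu⟩ := hpl
      obtain ⟨u', hu'⟩ := hv' (β.2 u)
      rcases hu' with ⟨h1, h2⟩ | h
      · left
        refine ⟨u, u', ?_, ?_⟩
        · rintro rfl
          exact h2 rfl
        · rw [← hu, ← h1]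
      · right
        exact ⟨u, u', by rw [← hu]; exact h⟩
    · right
      refine ⟨v, fun j _ => ?_⟩
      obtain ⟨u, hu⟩ := hv' j
      rcases hu with ⟨h1, _⟩ | h
      · exact absurd ⟨u, h1⟩ hpl
      · exact ⟨u, h⟩
  refine hsub.trans ((pr_or_le _ _).trans ?_)
  refine add_le_add ((pr_or_le _ _).trans ?_) ?_
  · rw [add_comm]
    refine add_le_add ?_ ?_
    · -- noise at the planted column
      refine (pr_exists_le _).trans ?_
      have h1 : ∀ u : Fin Λ, pr (fun p : (Fin Λ → Fin m → Col d0 m2) ×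
          (Fin Λ × Fin m × Fin k × Col d0 m2 → Fin Bp) =>
          ∃ u' : Fin Λ, (p.2 (u', β.1, β.2 u, p.1 u β.1) : ℕ) = 0) ≤ Λ * (1 / (Bp : ℝ)) := by
        intro u
        refine (pr_exists_le _).trans ?_
        have h2 : ∀ u' : Fin Λ, pr (fun p : (Fin Λ → Fin m → Col d0 m2) ×
            (Fin Λ × Fin m × Fin k × Col d0 m2 → Fin Bp) =>
            (p.2 (u', β.1, β.2 u, p.1 u β.1) : ℕ) = 0) ≤ 1 / (Bp : ℝ) := by
          intro u'
          rw [pr_prod fun (c : Fin Λ → Fin m → Col d0 m2)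
            (n : Fin Λ × Fin m × Fin k × Col d0 m2 → Fin Bp) =>
            (n (u', β.1, β.2 u, c u β.1) : ℕ) = 0]
          refine av_le' (by positivity) fun c => ?_
          rw [oddGood_coord (u', β.1, β.2 u, c u β.1) fun b : Fin Bp => (b : ℕ) = 0,
            oddGood_fin hB]
        refine (Finset.sum_le_sum fun u' _ => h2 u').trans ?_
        rw [Finset.sum_const, Finset.card_univ, Fintype.card_fin, nsmul_eq_mul]
      refine (Finset.sum_le_sum fun u _ => h1 u).trans ?_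
      rw [Finset.sum_const, Finset.card_univ, Fintype.card_fin, nsmul_eq_mul]
      apply le_of_eq
      ring
    · refine (pr_exists_le _).trans ?_
      have h1 : ∀ u : Fin Λ, pr (fun p : (Fin Λ → Fin m → Col d0 m2) ×
          (Fin Λ × Fin m × Fin k × Col d0 m2 → Fin Bp) =>
          ∃ u' : Fin Λ, u ≠ u' ∧ p.1 u β.1 = p.1 u' β.1) ≤
          Λ * (1 / ((d0 * m2 : ℕ) : ℝ)) := by
        intro u
        refine (pr_exists_le _).trans ?_
        have h2 : ∀ u' : Fin Λ, pr (fun p : (Fin Λ → Fin m → Col d0 m2) ×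
            (Fin Λ × Fin m × Fin k × Col d0 m2 → Fin Bp) =>
            u ≠ u' ∧ p.1 u β.1 = p.1 u' β.1) ≤ 1 / ((d0 * m2 : ℕ) : ℝ) := by
          intro u'
          by_cases huu : u = u'
          · rw [pr_false _ fun _ h => h.1 huu]
            positivity
          · rw [pr_congr (F := fun p : (Fin Λ → Fin m → Col d0 m2) ×
              (Fin Λ × Fin m × Fin k × Col d0 m2 → Fin Bp) => p.1 u β.1 = p.1 u' β.1)
              fun p => and_iff_right huu,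
              pr_fst fun c : Fin Λ → Fin m → Col d0 m2 => c u β.1 = c u' β.1]
            exact oddGood_same m d0 m2 Λ hd hm2 β.1 huu
        refine (Finset.sum_le_sum fun u' _ => h2 u').trans ?_
        rw [Finset.sum_const, Finset.card_univ, Fintype.card_fin, nsmul_eq_mul]
      refine (Finset.sum_le_sum fun u _ => h1 u).trans ?_
      rw [Finset.sum_const, Finset.card_univ, Fintype.card_fin, nsmul_eq_mul]
      apply le_of_eq
      ring
  · refine (pr_exists_le _).trans ?_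
    have h1 : ∀ v : Col d0 m2, pr (fun p : (Fin Λ → Fin m → Col d0 m2) ×
        (Fin Λ × Fin m × Fin k × Col d0 m2 → Fin Bp) =>
        ∀ j ∈ (univ : Finset (Fin k)), ∃ u, (p.2 (u, β.1, j, v) : ℕ) = 0) ≤
        ((Λ : ℝ) / Bp) ^ k := by
      intro v
      rw [pr_snd fun n : Fin Λ × Fin m × Fin k × Col d0 m2 → Fin Bp =>
        ∀ j ∈ (univ : Finset (Fin k)), ∃ u, (n (u, β.1, j, v) : ℕ) = 0]
      have := oddGood_noise k m d0 m2 Bp Λ hB β.1 univ v
      rwa [Finset.card_univ, Fintype.card_fin] at this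
    refine (Finset.sum_le_sum fun v _ => h1 v).trans ?_
    rw [Finset.sum_const, Finset.card_univ, Fintype.card_prod, Fintype.card_fin,
      Fintype.card_fin, nsmul_eq_mul]

/-- The damaged clause rarely has a common column. -/
theorem damaged_bound (k m d0 m2 Bp Λ : ℕ) (hk : 0 < k) (hm : 0 < m) (hd : 0 < d0)
    (hm2 : 0 < m2) (hB : 0 < Bp) :
    pr (fun ζ : OddZ k m d0 m2 Bp Λ => ∃ v, ∀ j, oddRaw ζ j (ζ.2.1, v) = true) ≤
      (Λ : ℝ) ^ 2 / Bp + (Λ : ℝ) ^ 2 / (d0 * m2 : ℕ) + (d0 * m2 : ℕ) * ((Λ : ℝ) / Bp) ^ k :=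
  oddGood_damaged k m d0 m2 Bp Λ hd hm2 hB

/-- The expected number of common columns of the rows in `U`. -/
theorem oddGood_common (k m d0 m2 Bp Λ : ℕ) (hk : 0 < k) (hm : 0 < m) (hd : 0 < d0)
    (hm2 : 0 < m2) (hB : 0 < Bp) (i : Fin m) (U : Finset (Fin k))
    [inst : Fintype (OddZ k m d0 m2 Bp Λ)] :
    av (fun ζ : OddZ k m d0 m2 Bp Λ =>
      ((univ.filter fun v : Col d0 m2 => ∀ j ∈ U, oddRaw ζ j (i, v) = true).card : ℝ)) ≤
      Λ + (d0 * m2 : ℕ) * ((Λ : ℝ) / Bp) ^ U.card := by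
  classical
  have n1 := Fin.pos_iff_nonempty.1 hd
  have n2 := Fin.pos_iff_nonempty.1 hm2
  have n3 := Fin.pos_iff_nonempty.1 hB
  have n4 := Fin.pos_iff_nonempty.1 hk
  have n5 := Fin.pos_iff_nonempty.1 hm
  have n6 : Nonempty (OddZ k m d0 m2 Bp Λ) := inferInstance
  have hpt : ∀ ζ : OddZ k m d0 m2 Bp Λ,
      ((univ.filter fun v : Col d0 m2 => ∀ j ∈ U, oddRaw ζ j (i, v) = true).card : ℝ) ≤
      Λ + ∑ v : Col d0 m2, if (∀ j ∈ U, ∃ u, ((ζ.1 u i).2 j v : ℕ) = 0) then (1 : ℝ) else 0 := by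
    intro ζ
    have hsub : (univ.filter fun v : Col d0 m2 => ∀ j ∈ U, oddRaw ζ j (i, v) = true) ⊆
        (univ.image fun u : Fin Λ => (ζ.1 u i).1) ∪
          univ.filter fun v : Col d0 m2 => ∀ j ∈ U, ∃ u, ((ζ.1 u i).2 j v : ℕ) = 0 := by
      intro v hv
      rw [Finset.mem_filter] at hv
      rw [Finset.mem_union, Finset.mem_image, Finset.mem_filter]
      by_cases hpl : ∃ u, (ζ.1 u i).1 = v
      · obtain ⟨u, hu⟩ := hpl
        exact Or.inl ⟨u, Finset.mem_univ _, hu⟩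
      · refine Or.inr ⟨Finset.mem_univ _, fun j hj => ?_⟩
        obtain ⟨u, hu⟩ := of_decide_eq_true (hv.2 j hj)
        rcases hu with ⟨h1, _⟩ | h
        · exact absurd ⟨u, h1.symm⟩ hpl
        · exact ⟨u, h⟩
    have hc := (Finset.card_le_card hsub).trans (Finset.card_union_le _ _)
    have hi : (univ.image fun u : Fin Λ => (ζ.1 u i).1).card ≤ Λ :=
      Finset.card_image_le.trans_eq (by simp)
    have hs : ∑ v : Col d0 m2,
        (if (∀ j ∈ U, ∃ u, ((ζ.1 u i).2 j v : ℕ) = 0) then (1 : ℝ) else 0) =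
        ((univ.filter fun v : Col d0 m2 => ∀ j ∈ U, ∃ u, ((ζ.1 u i).2 j v : ℕ) = 0).card : ℝ) := by
      simp
    rw [hs]
    exact_mod_cast hc.trans (Nat.add_le_add_right hi _)
  refine (av_mono hpt).trans ?_
  rw [av_add, av_const, av_sum]
  gcongr
  have h1 : ∀ v : Col d0 m2, (av fun ζ : OddZ k m d0 m2 Bp Λ =>
      if (∀ j ∈ U, ∃ u, ((ζ.1 u i).2 j v : ℕ) = 0) then (1 : ℝ) else 0) ≤
      ((Λ : ℝ) / Bp) ^ U.card := by
    intro v
    have e1 : (av fun ζ : OddZ k m d0 m2 Bp Λ =>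
        if (∀ j ∈ U, ∃ u, ((ζ.1 u i).2 j v : ℕ) = 0) then (1 : ℝ) else 0) =
        pr fun ζ : OddZ k m d0 m2 Bp Λ => ∀ j ∈ U, ∃ u, ((ζ.1 u i).2 j v : ℕ) = 0 := by
      unfold pr
      refine av_congr fun ζ => ?_
      split_ifs <;> rfl
    rw [e1]
    obtain rfl : inst = instFintypeProd _ _ := Subsingleton.elim _ _
    refine (le_of_eq (pr_fst (Ω' := Fin m × (Fin Λ → Fin k))
      fun a : Fin Λ → OddP k m d0 m2 Bp => ∀ j ∈ U, ∃ u, ((a u i).2 j v : ℕ) = 0)).trans ?_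
    rw [← pr_equiv (oddGoodEquiv k m d0 m2 Bp Λ).symm]
    refine le_trans (le_of_eq ?_) (oddGood_noise k m d0 m2 Bp Λ hB i U v)
    exact pr_snd fun n : Fin Λ × Fin m × Fin k × Col d0 m2 → Fin Bp =>
      ∀ j ∈ U, ∃ u, (n (u, i, j, v) : ℕ) = 0
  refine (Finset.sum_le_sum fun v _ => h1 v).trans ?_
  rw [Finset.sum_const, Finset.card_univ, Fintype.card_prod, Fintype.card_fin,
    Fintype.card_fin, nsmul_eq_mul]

/-- The expected number of common columns of the rows in `U`. -/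
theorem common_bound (k m d0 m2 Bp Λ : ℕ) (hk : 0 < k) (hm : 0 < m) (hd : 0 < d0)
    (hm2 : 0 < m2) (hB : 0 < Bp) (i : Fin m) (U : Finset (Fin k)) :
    av (fun ζ : OddZ k m d0 m2 Bp Λ =>
      ((univ.filter fun v : Col d0 m2 => ∀ j ∈ U, oddRaw ζ j (i, v) = true).card : ℝ)) ≤
      Λ + (d0 * m2 : ℕ) * ((Λ : ℝ) / Bp) ^ U.card :=
  oddGood_common k m d0 m2 Bp Λ hk hm hd hm2 hB i U

/-- Clauses are rarely not sparse. -/
theorem oddGood_sparse (k m d0 m2 Bp Bm Λ : ℕ) (hk : 0 < k) (hm : 0 < m) (hd : 0 < d0)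
    (hm2 : 0 < m2) (hB : 0 < Bp) (hBm : 0 < Bm) (h1 : Λ * Bm ≤ Bp) (i : Fin m)
    [inst : Fintype (OddZ k m d0 m2 Bp Λ)] :
    pr (fun ζ : OddZ k m d0 m2 Bp Λ => ¬ Sparse Bm ζ i) ≤
      2 ^ k * (4 * ((Λ : ℝ) / Bm + (d0 * m2 : ℕ) * (1 / (Bm : ℝ)) ^ k)) := by
  classical
  have hBmR : (1 : ℝ) ≤ Bm := by exact_mod_cast hBm
  have hBpR : (0 : ℝ) < Bp := by exact_mod_cast hB
  have hb0 : (0 : ℝ) ≤ 1 / (Bm : ℝ) := by positivity
  have hb1 : 1 / (Bm : ℝ) ≤ 1 := by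
    rw [div_le_one (by linarith)]
    exact hBmR
  have hΛ : (Λ : ℝ) / Bp ≤ 1 / Bm := by
    rw [div_le_div_iff₀ hBpR (by linarith)]
    rw [one_mul]
    exact_mod_cast h1
  have hsub : pr (fun ζ : OddZ k m d0 m2 Bp Λ => ¬ Sparse Bm ζ i) ≤
      pr (fun ζ : OddZ k m d0 m2 Bp Λ => ∃ U : Finset (Fin k), U ≠ univ ∧ 1 / 4 ≤
        ((univ.filter fun v : Col d0 m2 => ∀ j ∈ U, oddRaw ζ j (i, v) = true).card : ℝ) *
          (1 / (Bm : ℝ)) ^ (k - U.card)) := by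
    refine pr_mono fun ζ h => ?_
    unfold Sparse at h
    push Not at h
    obtain ⟨U, hU, h⟩ := h
    exact ⟨U, hU, h.le⟩
  refine hsub.trans ((pr_exists_le _).trans ?_)
  have hU : ∀ U : Finset (Fin k), pr (fun ζ : OddZ k m d0 m2 Bp Λ => U ≠ univ ∧ 1 / 4 ≤
        ((univ.filter fun v : Col d0 m2 => ∀ j ∈ U, oddRaw ζ j (i, v) = true).card : ℝ) *
          (1 / (Bm : ℝ)) ^ (k - U.card)) ≤
      4 * ((Λ : ℝ) / Bm + (d0 * m2 : ℕ) * (1 / (Bm : ℝ)) ^ k) := by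
    intro U
    have hc := oddGood_common k m d0 m2 Bp Λ hk hm hd hm2 hB i U
    obtain ⟨f, hf⟩ : ∃ f : OddZ k m d0 m2 Bp Λ → ℝ, f = fun ζ =>
      ((univ.filter fun v : Col d0 m2 => ∀ j ∈ U, oddRaw ζ j (i, v) = true).card : ℝ) :=
      ⟨_, rfl⟩
    have hf0 : ∀ ζ, 0 ≤ f ζ := fun ζ => by
      rw [hf]
      exact Nat.cast_nonneg _
    have e0 : pr (fun ζ : OddZ k m d0 m2 Bp Λ => U ≠ univ ∧ 1 / 4 ≤
        ((univ.filter fun v : Col d0 m2 => ∀ j ∈ U, oddRaw ζ j (i, v) = true).card : ℝ) *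
          (1 / (Bm : ℝ)) ^ (k - U.card)) = pr (fun ζ : OddZ k m d0 m2 Bp Λ => U ≠ univ ∧ 1 / 4 ≤
        f ζ * (1 / (Bm : ℝ)) ^ (k - U.card)) := by
      rw [hf]
    rw [e0]
    rw [← hf] at hc
    clear e0 hf
    by_cases hU : U = univ
    · rw [pr_false _ fun _ h => h.1 hU]
      positivity
    · rw [pr_congr (F := fun ζ : OddZ k m d0 m2 Bp Λ => 1 / 4 ≤
        f ζ * (1 / (Bm : ℝ)) ^ (k - U.card)) fun ζ => and_iff_right hU]
      refine (pr_ge_le (f := fun ζ => f ζ * (1 / (Bm : ℝ)) ^ (k - U.card))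
        (fun ζ => mul_nonneg (hf0 ζ) (pow_nonneg hb0 _)) (by norm_num)).trans ?_
      rw [av_mul_right]
      have hcard : U.card < k := by
        have := Finset.card_lt_univ_of_notMem (s := U) (x := Classical.choose
          (not_forall.1 fun h => hU (Finset.eq_univ_iff_forall.2 h)))
          (Classical.choose_spec (not_forall.1 fun h => hU (Finset.eq_univ_iff_forall.2 h)))
        rwa [Fintype.card_fin] at this
      have hpow : (1 / (Bm : ℝ)) ^ (k - U.card) ≤ 1 / (Bm : ℝ) := by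
        calc (1 / (Bm : ℝ)) ^ (k - U.card) ≤ (1 / (Bm : ℝ)) ^ 1 :=
              pow_le_pow_of_le_one hb0 hb1 (by omega)
          _ = _ := pow_one _
      have e1 : (1 / (Bm : ℝ)) ^ k = (1 / (Bm : ℝ)) ^ U.card * (1 / (Bm : ℝ)) ^ (k - U.card) := by
        rw [← pow_add]
        congr 1
        omega
      rw [div_le_iff₀ (by norm_num)]
      calc _ ≤ ((Λ : ℝ) + (d0 * m2 : ℕ) * ((Λ : ℝ) / Bp) ^ U.card) *
            (1 / (Bm : ℝ)) ^ (k - U.card) := by gcongr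
        _ ≤ ((Λ : ℝ) + (d0 * m2 : ℕ) * (1 / (Bm : ℝ)) ^ U.card) *
            (1 / (Bm : ℝ)) ^ (k - U.card) := by gcongr
        _ = (Λ : ℝ) * (1 / (Bm : ℝ)) ^ (k - U.card) + (d0 * m2 : ℕ) * (1 / (Bm : ℝ)) ^ k := by
            rw [e1]; ring
        _ ≤ (Λ : ℝ) * (1 / (Bm : ℝ)) + (d0 * m2 : ℕ) * (1 / (Bm : ℝ)) ^ k := by gcongr
        _ = 4 * ((Λ : ℝ) / Bm + (d0 * m2 : ℕ) * (1 / (Bm : ℝ)) ^ k) * (1 / 4) := by ring
  refine (Finset.sum_le_sum fun U _ => hU U).trans ?_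
  rw [Finset.sum_const, Finset.card_univ, Fintype.card_finset, Fintype.card_fin, nsmul_eq_mul]
  push_cast
  exact le_rfl

/-- Most samples are good. -/
theorem oddGood_main (k m d0 m2 Bp Bm Λ : ℕ) (hk : 0 < k) (hm : 0 < m) (hd : 0 < d0)
    (hm2 : 0 < m2) (hB : 0 < Bp) (hBm : 0 < Bm) [inst : Fintype (OddZ k m d0 m2 Bp Λ)]
    (h1 : Λ * Bm ≤ Bp)
    (h2 : (Λ : ℝ) ^ 2 / Bp + (Λ : ℝ) ^ 2 / (d0 * m2 : ℕ) + (d0 * m2 : ℕ) * ((Λ : ℝ) / Bp) ^ k ≤
      1 / 32)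
    (h3 : 2 ^ (k + 3) * ((Λ : ℝ) / Bm + (d0 * m2 : ℕ) * (1 / (Bm : ℝ)) ^ k) ≤ 1 / 32) :
    pr (fun ζ : OddZ k m d0 m2 Bp Λ => ¬ Good Bm ζ) ≤ 1 / 16 := by
  classical
  have hmR : (0 : ℝ) < m := by exact_mod_cast hm
  have hsub : pr (fun ζ : OddZ k m d0 m2 Bp Λ => ¬ Good Bm ζ) ≤
      pr (fun ζ : OddZ k m d0 m2 Bp Λ => (∃ v, ∀ j, oddRaw ζ j (ζ.2.1, v) = true) ∨
        (m : ℝ) / 2 ≤ ∑ i : Fin m, if ¬ Sparse Bm ζ i then (1 : ℝ) else 0) := by
    refine pr_mono fun ζ h => ?_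
    unfold Good at h
    rw [not_and_or, not_not] at h
    rcases h with h | h
    · exact Or.inl h
    · right
      push Not at h
      have hs : ∑ i : Fin m, (if ¬ Sparse Bm ζ i then (1 : ℝ) else 0) =
          ((univ.filter fun i => ¬ Sparse Bm ζ i).card : ℝ) := by
        rw [Finset.card_filter]
        push_cast
        rfl
      rw [hs]
      have hc := Finset.card_filter_add_card_filter_not (s := (univ : Finset (Fin m)))
        (fun i => Sparse Bm ζ i)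
      rw [Finset.card_univ, Fintype.card_fin] at hc
      rw [div_le_iff₀ (by norm_num)]
      have h4 : 2 * (univ.filter fun i => Sparse Bm ζ i).card < m := by
        convert h using 2
      have : m ≤ (univ.filter fun i => ¬ Sparse Bm ζ i).card * 2 := by omega
      exact_mod_cast this
  refine hsub.trans ((pr_or_le _ _).trans ?_)
  have hd' := (oddGood_damaged k m d0 m2 Bp Λ hd hm2 hB).trans h2
  have hM : pr (fun ζ : OddZ k m d0 m2 Bp Λ =>
      (m : ℝ) / 2 ≤ ∑ i : Fin m, if ¬ Sparse Bm ζ i then (1 : ℝ) else 0) ≤ 1 / 32 := by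
    refine (pr_ge_le (fun ζ => Finset.sum_nonneg fun i _ => by split_ifs <;> norm_num)
      (by positivity)).trans ?_
    rw [av_sum, div_le_iff₀ (by positivity)]
    have hi : ∀ i : Fin m, (av fun ζ : OddZ k m d0 m2 Bp Λ =>
        if ¬ Sparse Bm ζ i then (1 : ℝ) else 0) ≤
        2 ^ k * (4 * ((Λ : ℝ) / Bm + (d0 * m2 : ℕ) * (1 / (Bm : ℝ)) ^ k)) := by
      intro i
      refine le_trans (le_of_eq ?_) (oddGood_sparse k m d0 m2 Bp Bm Λ hk hm hd hm2 hB hBm h1 i)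
      unfold pr
      refine av_congr fun ζ => ?_
      by_cases h : Sparse Bm ζ i <;> simp [h]
    refine (Finset.sum_le_sum fun i _ => hi i).trans ?_
    rw [Finset.sum_const, Finset.card_univ, Fintype.card_fin, nsmul_eq_mul]
    have h3' : 2 ^ k * (4 * ((Λ : ℝ) / Bm + (d0 * m2 : ℕ) * (1 / (Bm : ℝ)) ^ k)) ≤ 1 / 64 := by
      rw [pow_add] at h3
      linarith
    calc (m : ℝ) * (2 ^ k * (4 * ((Λ : ℝ) / Bm + (d0 * m2 : ℕ) * (1 / (Bm : ℝ)) ^ k))) ≤
          m * (1 / 64) := by gcongr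
      _ = 1 / 32 * (m / 2) := by ring
  linarith

/-- Most samples are good. -/
theorem good_bound (k m d0 m2 Bp Bm Λ : ℕ) (hk : 0 < k) (hm : 0 < m) (hd : 0 < d0)
    (hm2 : 0 < m2) (hB : 0 < Bp) (hBm : 0 < Bm) (h1 : Λ * Bm ≤ Bp)
    (h2 : (Λ : ℝ) ^ 2 / Bp + (Λ : ℝ) ^ 2 / (d0 * m2 : ℕ) + (d0 * m2 : ℕ) * ((Λ : ℝ) / Bp) ^ k ≤
      1 / 32)
    (h3 : 2 ^ (k + 3) * ((Λ : ℝ) / Bm + (d0 * m2 : ℕ) * (1 / (Bm : ℝ)) ^ k) ≤ 1 / 32) :
    pr (fun ζ : OddZ k m d0 m2 Bp Λ => ¬ Good Bm ζ) ≤ 1 / 16 :=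
  oddGood_main k m d0 m2 Bp Bm Λ hk hm hd hm2 hB hBm h1 h2 h3

end Pool.Agent.W_MP_5f6b2a_mon
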