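import Pool.Agent.W_MP_5f6b2a_mon.OddDefs

/-!
Negative contents of the base level with bottom quantifier `∀ l ∈ S` are negative.
-/

namespace Pool.Agent.W_MP_5f6b2a_mon

open Finset

theorem oddNull_pr_zero {Bm : ℕ} (hBm : 0 < Bm) :
    pr (fun x : Fin Bm => (x : ℕ) = 0) = 1 / (Bm : ℝ) := by
  classical
  rw [pr_eq_card, Fintype.card_fin]
  congr 1
  have : (univ.filter fun x : Fin Bm => (x : ℕ) = 0) = {⟨0, hBm⟩} := by
    ext x
    simp [Fin.ext_iff]
  rw [this]
  simp

theorem oddNull_pr_coord {Bm : ℕ} (hBm : 0 < Bm) {C : Type} [Fintype C] [DecidableEq C] (v : C) :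
    pr (fun d : C → Fin Bm => (d v : ℕ) = 0) = 1 / (Bm : ℝ) := by
  classical
  have : Nonempty (Fin Bm) := ⟨⟨0, hBm⟩⟩
  have h1 : pr (fun d : C → Fin Bm => (d v : ℕ) = 0) =
      pr (fun d : C → Fin Bm => ∀ v', v' = v → (d v' : ℕ) = 0) :=
    pr_congr fun d => by simp
  rw [h1, pr_pi (Ω := fun _ : C => Fin Bm) fun v' x => v' = v → (x : ℕ) = 0,
    Finset.prod_eq_single v]
  · rw [← oddNull_pr_zero hBm]
    exact pr_congr fun x => by simp
  · intro b _ hb
    exact pr_true _ fun x h => absurd h hb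
  · intro h
    exact absurd (Finset.mem_univ v) h

theorem oddNull_pr_rows {Bm : ℕ} (hBm : 0 < Bm) {ι C : Type} [Fintype ι] [DecidableEq ι] [Fintype C]
    [DecidableEq C] (v : C) (I : Finset ι) :
    pr (fun c : ι → C → Fin Bm => ∀ l ∈ I, (c l v : ℕ) = 0) = (1 / (Bm : ℝ)) ^ I.card := by
  classical
  have : Nonempty (Fin Bm) := ⟨⟨0, hBm⟩⟩
  rw [pr_pi (Ω := fun _ : ι => C → Fin Bm) fun l d => l ∈ I → (d v : ℕ) = 0,
    ← Finset.prod_const, ← Finset.prod_subset (Finset.subset_univ I)]
  · refine Finset.prod_congr rfl fun l hl => ?_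
    rw [← oddNull_pr_coord hBm v]
    exact pr_congr fun d => by simp [hl]
  · intro l _ hl
    exact pr_true _ fun x h => absurd h hl

/-- One clause. -/
theorem oddNull_clause {k n Bm : ℕ} (hBm : 0 < Bm) {C : Type} [Fintype C] [DecidableEq C]
    (S : Fin k → Fin n) (S2 : Finset (Fin k × Fin n)) (hS2 : S2.card = k)
    (y : Fin k → C → Bool) :
    pr (fun c : Fin k × Fin n → C → Fin Bm =>
      ∃ v, ∀ l ∈ S2, (if l.2 = S l.1 then y l.1 v else decide ((c l v : ℕ) = 0)) = true) ≤
      ((univ.filter fun v : C => ∀ j ∈ (S2.filter fun l => l.2 = S l.1).image Prod.fst,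
        y j v = true).card : ℝ) *
      (1 / (Bm : ℝ)) ^ (k - ((S2.filter fun l => l.2 = S l.1).image Prod.fst).card) := by
  classical
  set I₁ := S2.filter fun l => l.2 = S l.1 with hI₁
  set I₂ := S2.filter fun l => ¬ l.2 = S l.1 with hI₂
  have hcard : (I₁.image Prod.fst).card = I₁.card := by
    apply Finset.card_image_of_injOn
    intro a ha b hb hab
    rw [hI₁, Finset.coe_filter] at ha hb
    refine Prod.ext hab ?_
    rw [ha.2, hb.2, hab]
  have hI₂c : k - (I₁.image Prod.fst).card = I₂.card := by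
    have := Finset.card_filter_add_card_filter_not (s := S2) (fun l => l.2 = S l.1)
    rw [← hI₁, ← hI₂, hS2] at this
    rw [hcard]
    omega
  rw [hI₂c]
  refine (pr_exists_le _).trans ?_
  rw [← nsmul_eq_mul, ← Finset.sum_const,
    ← Finset.sum_subset (Finset.subset_univ (univ.filter fun v : C => ∀ j ∈ I₁.image Prod.fst,
        y j v = true))]
  · refine Finset.sum_le_sum fun v _ => ?_
    rw [← oddNull_pr_rows hBm v I₂]
    refine pr_mono fun c hc l hl => ?_
    rw [hI₂, Finset.mem_filter] at hl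
    have := hc l hl.1
    rw [if_neg hl.2] at this
    simpa using this
  · intro v _ hv
    refine pr_false _ fun c hc => hv ?_
    rw [Finset.mem_filter]
    refine ⟨Finset.mem_univ _, fun j hj => ?_⟩
    obtain ⟨l, hl, rfl⟩ := Finset.mem_image.1 hj
    rw [hI₁, Finset.mem_filter] at hl
    have := hc l hl.1
    rwa [if_pos hl.2] at this

theorem odd_nullOK (k m d0 m2 Bp Bm Λ : ℕ) (hk : 0 < k) (hm : 0 < m) (hd : 0 < d0)
    (hm2 : 0 < m2) (hB : 0 < Bp) (hBm : 0 < Bm)
    (hU : ((d0 * m2 : ℕ) : ℝ) * (1 / (Bm : ℝ)) ^ k ≤ 1 / 4) :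
    (oddLev k m d0 m2 Bp Bm Λ hk hm hd hm2 hB).NullOK true Bm ((1 / 2 : ℝ) ^ m) := by
  classical
  intro ζ
  change OddZ k m d0 m2 Bp Λ at ζ
  have : Nonempty (Fin Bm) := ⟨⟨0, hBm⟩⟩
  refine ⟨?_, ?_⟩
  · change ¬ ∀ i : Fin m, ∃ v, bott true (univ : Finset (Fin k)) fun j =>
      oddNeg Bm ζ j (i, v) = true
    intro h
    by_cases hG : Good Bm ζ
    · apply hG.1
      obtain ⟨v, hv⟩ := h ζ.2.1
      refine ⟨v, fun j => ?_⟩
      have := hv j (Finset.mem_univ j)
      simpa [oddNeg, hG] using this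
    · obtain ⟨v, hv⟩ := h ⟨0, hm⟩
      have := hv ⟨0, hk⟩ (Finset.mem_univ _)
      simp [oddNeg, hG] at this
  · intro n S S2 _ hbt
    obtain ⟨hc, hne⟩ := hbt rfl
    change pr (fun b : Fin k × Fin n → Fin m × Col d0 m2 → Fin Bm =>
      ∀ i : Fin m, ∃ v, bott true S2 fun l => negIn S (oddNeg Bm ζ) b l (i, v) = true) ≤ _
    set U := (S2.filter fun l => l.2 = S l.1).image Prod.fst with hUdef
    have hUne : U ≠ univ := by
      intro hUu
      apply hne
      have hcard : ((S2.filter fun l => l.2 = S l.1).image Prod.fst).card ≤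
        (S2.filter fun l => l.2 = S l.1).card := Finset.card_image_le
      rw [← hUdef, hUu, Finset.card_univ, Fintype.card_fin] at hcard
      have h1 : (S2.filter fun l => l.2 = S l.1) = S2 :=
        Finset.eq_of_subset_of_card_le (Finset.filter_subset _ _) (by rw [hc]; exact hcard)
      have hsel : (sel S (univ : Finset (Fin k))).card ≤ k := by
        unfold sel
        exact Finset.card_image_le.trans (by simp)
      refine Finset.eq_of_subset_of_card_le ?_ (by rw [hc]; exact hsel)
      intro l hl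
      rw [← h1, Finset.mem_filter] at hl
      unfold sel
      rw [Finset.mem_image]
      exact ⟨l.1, Finset.mem_univ _, Prod.ext rfl hl.2.symm⟩
    -- rewrite as a product over the clauses
    let e : (Fin k × Fin n → Fin m × Col d0 m2 → Fin Bm) ≃
        (Fin m → (Fin k × Fin n → Col d0 m2 → Fin Bm)) :=
      { toFun := fun b i l v => b l (i, v)
        invFun := fun c l p => c p.1 l p.2
        left_inv := fun b => rfl
        right_inv := fun c => rfl }
    let Ev : Fin m → (Fin k × Fin n → Col d0 m2 → Fin Bm) → Prop := fun i c =>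
      ∃ v, ∀ l ∈ S2, (if l.2 = S l.1 then oddNeg Bm ζ l.1 (i, v) else
        decide ((c l v : ℕ) = 0)) = true
    have h1 : pr (fun b : Fin k × Fin n → Fin m × Col d0 m2 → Fin Bm =>
        ∀ i : Fin m, ∃ v, bott true S2 fun l => negIn S (oddNeg Bm ζ) b l (i, v) = true) =
        ∏ i, pr (Ev i) := by
      rw [← pr_pi (Ω := fun _ : Fin m => (Fin k × Fin n → Col d0 m2 → Fin Bm)) Ev, ← pr_equiv e]
      refine pr_congr fun b => forall_congr' fun i => exists_congr fun v => ?_
      simp only [bott, if_true]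
      refine forall₂_congr fun l _ => ?_
      unfold negIn
      split_ifs <;> rfl
    rw [h1]
    have h2 : ∀ i, pr (Ev i) ≤
        ((univ.filter fun v : Col d0 m2 => ∀ j ∈ U, oddNeg Bm ζ j (i, v) = true).card : ℝ) *
        (1 / (Bm : ℝ)) ^ (k - U.card) := fun i =>
      oddNull_clause hBm S S2 hc (fun j v => oddNeg Bm ζ j (i, v))
    have h3 : ∃ T : Finset (Fin m), m ≤ 2 * T.card ∧ ∀ i ∈ T, pr (Ev i) ≤ 1 / 4 := by
      by_cases hG : Good Bm ζ
      · refine ⟨univ.filter fun i => Sparse Bm ζ i, hG.2, fun i hi => ?_⟩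
        rw [Finset.mem_filter] at hi
        have h4 := hi.2 U hUne
        refine (h2 i).trans ?_
        have h5 : ∀ j v, oddNeg Bm ζ j (i, v) = oddRaw ζ j (i, v) := by
          intro j v
          simp [oddNeg, hG]
        simp only [h5]
        exact h4
      · refine ⟨univ, by simp; omega, fun i _ => (h2 i).trans ?_⟩
        have h5 : ∀ j v, oddNeg Bm ζ j (i, v) = false := by
          intro j v
          simp [oddNeg, hG]
        simp only [h5]
        rcases Finset.eq_empty_or_nonempty U with hU0 | ⟨j, hj⟩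
        · rw [hU0]
          simp only [Finset.notMem_empty, false_imp_iff, implies_true, Finset.filter_true,
            Finset.card_univ, Finset.card_empty, Nat.sub_zero, Fintype.card_prod, Fintype.card_fin]
          exact hU
        · rw [Finset.filter_false_of_mem]
          · simp
          · intro v _ h
            exact absurd (h j hj) (by simp)
    obtain ⟨T, hT1, hT2⟩ := h3
    calc ∏ i, pr (Ev i) = (∏ i ∈ T, pr (Ev i)) * ∏ i ∈ Tᶜ, pr (Ev i) :=
          (Finset.prod_mul_prod_compl T _).symm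
      _ ≤ (∏ _i ∈ T, (1 / 4 : ℝ)) * ∏ _i ∈ Tᶜ, (1 : ℝ) := by
          refine mul_le_mul ?_ ?_ ?_ ?_
          · exact Finset.prod_le_prod (fun i _ => pr_nonneg _) hT2
          · exact Finset.prod_le_prod (fun i _ => pr_nonneg _) fun i _ => pr_le_one _
          · exact Finset.prod_nonneg fun i _ => pr_nonneg _
          · exact Finset.prod_nonneg fun i _ => by norm_num
      _ = (1 / 2 : ℝ) ^ (2 * T.card) := by
          rw [Finset.prod_const, Finset.prod_const, one_pow, mul_one, pow_mul]
          norm_num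
      _ ≤ (1 / 2 : ℝ) ^ m := pow_le_pow_of_le_one (by norm_num) (by norm_num) hT1

end Pool.Agent.W_MP_5f6b2a_mon
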