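import Pool.Agent.W_MP_5f6b2a_mon.OddDefs

/-!
The transfer property of the base level with bottom quantifier `∀ l ∈ S`.
-/

namespace Pool.Agent.W_MP_5f6b2a_mon

open Finset

theorem oddQ_pr_mem {Ω : Type*} [Fintype Ω] (s : Finset Ω) :
    pr (fun ω => ω ∈ s) = (s.card : ℝ) / Fintype.card Ω := by
  classical
  rw [pr_eq_card]
  congr 3
  ext ω
  simp

/-- Few coordinates have a small projection. -/
theorem oddQ_bad_count (m Λ M : ℕ) (hm : 0 < m) (hΛ : 0 < Λ) (hM : 0 < M)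
    (h1 : (4 * M : ℝ) < 2 ^ (m / 8)) (Φ : (Fin m → Fin Λ) → Prop)
    (hΦ : (1 / 4 : ℝ) / M ≤ pr Φ) (pj : Fin m → Finset (Fin Λ))
    (hpj : ∀ υ, Φ υ → ∀ b, υ b ∈ pj b) :
    pr (fun b : Fin m => 2 * (pj b).card ≤ Λ) ≤ 1 / 8 := by
  classical
  have hΛ' : (0 : ℝ) < Λ := by exact_mod_cast hΛ
  have hM' : (0 : ℝ) < M := by exact_mod_cast hM
  have hm' : (0 : ℝ) < m := by exact_mod_cast hm
  have e1 : pr Φ ≤ ∏ b : Fin m, (if 2 * (pj b).card ≤ Λ then (1 / 2 : ℝ) else 1) := by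
    calc pr Φ ≤ pr (fun υ : Fin m → Fin Λ => ∀ b, υ b ∈ pj b) := pr_mono hpj
      _ = ∏ b, pr (fun u => u ∈ pj b) := pr_pi (Ω := fun _ : Fin m => Fin Λ) fun b u => u ∈ pj b
      _ ≤ _ := by
        refine Finset.prod_le_prod (fun b _ => pr_nonneg _) fun b _ => ?_
        split_ifs with hb
        · rw [oddQ_pr_mem, Fintype.card_fin, div_le_div_iff₀ hΛ' two_pos]
          have : ((2 * (pj b).card : ℕ) : ℝ) ≤ Λ := by exact_mod_cast hb
          push_cast at this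
          linarith
        · exact pr_le_one _
  rw [Finset.prod_ite, Finset.prod_const, Finset.prod_const_one, mul_one] at e1
  set N := (Finset.univ.filter fun b : Fin m => 2 * (pj b).card ≤ Λ).card with hN
  have e2 : (2 : ℝ) ^ N ≤ 4 * M := by
    have h3 := hΦ.trans e1
    rw [div_pow, one_pow, div_div, div_le_div_iff₀ (by positivity) (by positivity)] at h3
    linarith
  have e3 : N < m / 8 := by
    have h4 : (2 : ℝ) ^ N < 2 ^ (m / 8) := lt_of_le_of_lt e2 h1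
    exact (pow_lt_pow_iff_right₀ (by norm_num)).1 h4
  rw [pr_eq_card, ← hN, Fintype.card_fin, div_le_div_iff₀ hm' (by norm_num)]
  have e4 : 8 * N ≤ m := by omega
  have : ((8 * N : ℕ) : ℝ) ≤ m := by exact_mod_cast e4
  push_cast at this
  linarith

/-- The random rows `lam u` rarely all belong to small sets. -/
theorem oddQ_hit (k Λ r : ℕ) (hk : 0 < k) (hr : 2 * r ≤ k) {κ : Type*} [Fintype κ]
    (pj : Finset (Fin Λ)) (hpj : Λ / 2 ≤ pj.card) (J : κ → Fin Λ → Finset (Fin k))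
    (hJ : ∀ i u, (J i u).card ≤ r) :
    pr (fun lam : Fin Λ → Fin k => ∃ i, ∀ u ∈ pj, lam u ∈ J i u) ≤
      Fintype.card κ * (1 / 2) ^ (Λ / 2) := by
  classical
  have hk' : (0 : ℝ) < k := by exact_mod_cast hk
  refine (pr_exists_le _).trans ?_
  rw [← nsmul_eq_mul, ← Finset.card_univ, ← Finset.sum_const]
  refine Finset.sum_le_sum fun i _ => ?_
  have e1 : pr (fun lam : Fin Λ → Fin k => ∀ u ∈ pj, lam u ∈ J i u) =
      ∏ u, pr (fun a : Fin k => u ∈ pj → a ∈ J i u) :=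
    pr_pi (Ω := fun _ : Fin Λ => Fin k) fun u a => u ∈ pj → a ∈ J i u
  rw [e1]
  calc ∏ u, pr (fun a : Fin k => u ∈ pj → a ∈ J i u)
      ≤ ∏ u, (if u ∈ pj then (1 / 2 : ℝ) else 1) := by
        refine Finset.prod_le_prod (fun b _ => pr_nonneg _) fun u _ => ?_
        split_ifs with hu
        · have : (fun a : Fin k => u ∈ pj → a ∈ J i u) = fun a => a ∈ J i u := by
            funext a; simp [hu]
          rw [this, oddQ_pr_mem, Fintype.card_fin, div_le_div_iff₀ hk' two_pos]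
          have h3 : 2 * (J i u).card ≤ k := (Nat.mul_le_mul_left 2 (hJ i u)).trans hr
          have : ((2 * (J i u).card : ℕ) : ℝ) ≤ k := by exact_mod_cast h3
          push_cast at this
          linarith
        · exact pr_le_one _
    _ = (1 / 2 : ℝ) ^ pj.card := by
        rw [Finset.prod_ite, Finset.prod_const, Finset.prod_const_one, mul_one]
        congr 2
        ext u
        simp
    _ ≤ (1 / 2 : ℝ) ^ (Λ / 2) :=
        pow_le_pow_of_le_one (by norm_num) (by norm_num) hpj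

/-- Mixtures: if the `Λ` positive samples `x` are such that at least a quarter of their mixtures
are accepted by one of the `A φ`, then for most `(b, lam)` one of the `A φ` accepts the negative
contents. -/
theorem mixture_bound (k m d0 m2 Bp Λ r M e : ℕ) (hk : 0 < k) (hm : 0 < m) (hΛ : 0 < Λ)
    (hr : 2 * r ≤ k)
    (h1 : (4 * M : ℝ) < 2 ^ (m / 8)) (h2 : (M : ℝ) * 2 ^ e * (1 / 2) ^ (Λ / 2) ≤ 1 / 8)
    (A : Fin M → (Fin k → Fin m × Col d0 m2 → Bool) → Prop)
    (hA : ∀ φ, Lv (JnOf (RowFn r) e) M 1 true (A φ)) (x : Fin Λ → OddP k m d0 m2 Bp)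
    (hx : 1 / 4 ≤ pr fun υ : Fin m → Fin Λ => ∃ φ, A φ (oddW fun i => x (υ i) i)) :
    3 / 4 ≤ pr fun q : Fin m × (Fin Λ → Fin k) => ∃ φ, A φ (oddRaw (x, q)) := by
  classical
  have := Fin.pos_iff_nonempty.1 hk
  have := Fin.pos_iff_nonempty.1 hm
  obtain ⟨φ, hφ⟩ := exists_pr_ge (by norm_num) hx
  have hM : 0 < M := φ.pos
  -- the structure of `A φ`
  obtain ⟨g, hg, hgA⟩ := hA φ
  have hg' : ∀ i', JnOf (RowFn r) e (g i') := hg
  choose F β hF hβ hgF using hg'
  choose G hGcard hGmono hFG using hF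
  -- the accepted mixtures
  let Φ : (Fin m → Fin Λ) → Prop := fun υ => A φ (oddW fun i => x (υ i) i)
  let pj : Fin m → Finset (Fin Λ) := fun b => univ.filter fun u => ∃ υ, Φ υ ∧ υ b = u
  have hbad : pr (fun b : Fin m => 2 * (pj b).card ≤ Λ) ≤ 1 / 8 := by
    refine oddQ_bad_count m Λ M hm hΛ hM h1 Φ hφ pj fun υ hυ b => ?_
    simp only [pj, mem_filter, mem_univ, true_and]
    exact ⟨υ, hυ, rfl⟩
  -- a good clause
  have hgood : ∀ b : Fin m, ¬ 2 * (pj b).card ≤ Λ →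
      pr (fun lam : Fin Λ → Fin k => ¬ A φ (oddRaw (x, (b, lam)))) ≤ 1 / 8 := by
    intro b hb
    have hc : Λ / 2 ≤ (pj b).card := by omega
    have hυ : ∀ u, ∃ υ, u ∈ pj b → Φ υ ∧ υ b = u := by
      intro u
      by_cases hu : u ∈ pj b
      · simp only [pj, mem_filter, mem_univ, true_and] at hu
        obtain ⟨υ, h⟩ := hu
        exact ⟨υ, fun _ => h⟩
      · exact ⟨fun _ => u, fun h => absurd h hu⟩
    choose υ hυ using hυ
    -- choice of the tests
    have hJ : ∀ (q : Fin M × Finset (Fin e)) (u : Fin Λ), ∃ J : Finset (Fin k), J.card ≤ r ∧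
        ((∃ c, c ∉ q.2 ∧ ∃ J', G q.1 c J' (oddW fun i => x (υ u i) i)) →
          ∃ c, c ∉ q.2 ∧ G q.1 c J (oddW fun i => x (υ u i) i)) := by
      intro q u
      by_cases h : ∃ c, c ∉ q.2 ∧ ∃ J', G q.1 c J' (oddW fun i => x (υ u i) i)
      · obtain ⟨c, hc, J', hJ'⟩ := h
        exact ⟨J', hGcard _ _ _ _ hJ', fun _ => ⟨c, hc, hJ'⟩⟩
      · exact ⟨∅, by simp, fun h' => absurd h' h⟩
    choose J hJcard hJ using hJ
    refine le_trans (pr_mono (F := fun lam : Fin Λ → Fin k =>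
      ∃ q : Fin M × Finset (Fin e), ∀ u ∈ pj b, lam u ∈ J q u) ?_)
      ((oddQ_hit k Λ r hk hr (pj b) hc J hJcard).trans ?_)
    · intro lam hlam
      rw [hgA] at hlam
      push Not at hlam
      obtain ⟨i', hi'⟩ := hlam
      refine ⟨(i', univ.filter fun c => F i' c (oddRaw (x, (b, lam)))), fun u hu => ?_⟩
      obtain ⟨hΦu, hub⟩ := hυ u hu
      by_contra hnot
      -- there is a test outside of the pattern
      have hex : ∃ c, c ∉ univ.filter (fun c => F i' c (oddRaw (x, (b, lam)))) ∧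
          ∃ J', G i' c J' (oddW fun i => x (υ u i) i) := by
        by_contra hno
        push Not at hno
        apply hi'
        rw [hgF]
        have h3 : g i' (oddW fun i => x (υ u i) i) := (hgA _).1 hΦu i'
        rw [hgF] at h3
        refine hβ i' ?_ h3
        intro c hc
        by_contra hc'
        obtain ⟨J', hJ'⟩ := (hFG i' c _).1 hc
        exact hno c (by simpa using hc') J' hJ'
      obtain ⟨c, hc, hcJ⟩ := hJ (i', univ.filter fun c => F i' c (oddRaw (x, (b, lam)))) u hex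
      apply hc
      simp only [mem_filter, mem_univ, true_and]
      rw [hFG]
      refine ⟨_, hGmono i' c _ _ _ ?_ hcJ⟩
      intro j hj p
      have hne : j ≠ lam u := fun h => hnot (h ▸ hj)
      rw [Bool.le_iff_imp]
      intro hp
      simp only [oddW, decide_eq_true_eq] at hp
      simp only [oddRaw, decide_eq_true_eq]
      rcases hp with hp | hp
      · refine ⟨υ u p.1, Or.inl ⟨hp, fun hpb => ?_⟩⟩
        rw [hpb, hub]
        exact hne
      · exact ⟨υ u p.1, Or.inr hp⟩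
    · rw [Fintype.card_prod, Fintype.card_fin, Fintype.card_finset, Fintype.card_fin]
      push_cast
      exact h2
  -- conclusion
  have htot : pr (fun q : Fin m × (Fin Λ → Fin k) => ¬ ∃ φ, A φ (oddRaw (x, q))) ≤ 1 / 4 := by
    calc pr (fun q : Fin m × (Fin Λ → Fin k) => ¬ ∃ φ, A φ (oddRaw (x, q)))
        ≤ pr (fun q : Fin m × (Fin Λ → Fin k) => (2 * (pj q.1).card ≤ Λ) ∨
            (¬ 2 * (pj q.1).card ≤ Λ ∧ ¬ A φ (oddRaw (x, (q.1, q.2))))) := by
          refine pr_mono fun q hq => ?_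
          by_cases h : 2 * (pj q.1).card ≤ Λ
          · exact Or.inl h
          · exact Or.inr ⟨h, fun h' => hq ⟨φ, h'⟩⟩
      _ ≤ pr (fun q : Fin m × (Fin Λ → Fin k) => 2 * (pj q.1).card ≤ Λ) +
            pr (fun q : Fin m × (Fin Λ → Fin k) =>
              (¬ 2 * (pj q.1).card ≤ Λ ∧ ¬ A φ (oddRaw (x, (q.1, q.2))))) := pr_or_le _ _
      _ ≤ 1 / 8 + 1 / 8 := by
          refine add_le_add ?_ ?_
          · rw [pr_fst fun b : Fin m => 2 * (pj b).card ≤ Λ]
            exact hbad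
          · rw [pr_prod fun (b : Fin m) (lam : Fin Λ → Fin k) =>
              (¬ 2 * (pj b).card ≤ Λ ∧ ¬ A φ (oddRaw (x, (b, lam))))]
            refine av_le fun b => ?_
            by_cases h : 2 * (pj b).card ≤ Λ
            · rw [pr_false]
              · norm_num
              · rintro lam ⟨h', -⟩
                exact h' h
            · exact (pr_mono fun lam h' => h'.2).trans (hgood b h)
      _ = 1 / 4 := by norm_num
  rw [pr_not] at htot
  linarith

theorem oddQ_pr_inst {Ω : Type*} (i1 i2 : Fintype Ω) (E : Ω → Prop) :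
    @pr Ω i1 E = @pr Ω i2 E := by
  rw [Subsingleton.elim i1 i2]

theorem odd_qOK (k m d0 m2 Bp Bm Λ r M e : ℕ) (hk : 0 < k) (hm : 0 < m) (hd : 0 < d0)
    (hm2 : 0 < m2) (hB : 0 < Bp) (hΛ : 0 < Λ) (hr : 2 * r ≤ k)
    (h1 : (4 * M : ℝ) < 2 ^ (m / 8)) (h2 : (M : ℝ) * 2 ^ e * (1 / 2) ^ (Λ / 2) ≤ 1 / 8)
    (hgood : pr (fun ζ : OddZ k m d0 m2 Bp Λ => ¬ Good Bm ζ) ≤ 1 / 16) :
    (oddLev k m d0 m2 Bp Bm Λ hk hm hd hm2 hB).QOK 1 r M e := by
  classical
  intro A hA hpos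
  have := Fin.pos_iff_nonempty.1 hd
  have := Fin.pos_iff_nonempty.1 hm2
  have := Fin.pos_iff_nonempty.1 hB
  have := Fin.pos_iff_nonempty.1 hk
  have := Fin.pos_iff_nonempty.1 hm
  have := Fin.pos_iff_nonempty.1 hΛ
  change 1 / 2 ≤ pr (fun ω : OddP k m d0 m2 Bp => ∃ φ, A φ (oddW ω)) at hpos
  change 1 / 8 ≤ pr (fun ζ : OddZ k m d0 m2 Bp Λ => ∃ φ, A φ (oddNeg Bm ζ))
  -- reduction to the raw contents
  have e1 : pr (fun ζ : OddZ k m d0 m2 Bp Λ => ∃ φ, A φ (oddRaw ζ)) - 1 / 16 ≤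
      pr (fun ζ : OddZ k m d0 m2 Bp Λ => ∃ φ, A φ (oddNeg Bm ζ)) := by
    have h3 := pr_and_ge (fun ζ : OddZ k m d0 m2 Bp Λ => ∃ φ, A φ (oddRaw ζ)) (Good Bm)
    have h4 : pr (fun ζ : OddZ k m d0 m2 Bp Λ => (∃ φ, A φ (oddRaw ζ)) ∧ Good Bm ζ) ≤
        pr (fun ζ : OddZ k m d0 m2 Bp Λ => ∃ φ, A φ (oddNeg Bm ζ)) := by
      refine pr_mono fun ζ hζ => ?_
      obtain ⟨⟨φ, hφ⟩, hG⟩ := hζ
      refine ⟨φ, ?_⟩
      have : oddNeg Bm ζ = oddRaw ζ := by
        funext j p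
        simp [oddNeg, hG]
      rwa [this]
    linarith
  -- mixtures of random positive contents
  let fr : (Fin Λ → OddP k m d0 m2 Bp) → ℝ := fun x =>
    pr fun υ : Fin m → Fin Λ => ∃ φ, A φ (oddW fun i => x (υ i) i)
  have e2 : av fr = pr (fun ω : OddP k m d0 m2 Bp => ∃ φ, A φ (oddW ω)) := by
    have h3 : av fr = av fun υ : Fin m → Fin Λ => pr fun x : Fin Λ → OddP k m d0 m2 Bp =>
        ∃ φ, A φ (oddW fun i => x (υ i) i) := by
      rw [← pr_prod' fun (x : Fin Λ → OddP k m d0 m2 Bp) (υ : Fin m → Fin Λ) =>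
        ∃ φ, A φ (oddW fun i => x (υ i) i),
        pr_prod fun (x : Fin Λ → OddP k m d0 m2 Bp) (υ : Fin m → Fin Λ) =>
        ∃ φ, A φ (oddW fun i => x (υ i) i)]
    rw [h3]
    have h4 : ∀ υ : Fin m → Fin Λ, pr (fun x : Fin Λ → OddP k m d0 m2 Bp =>
        ∃ φ, A φ (oddW fun i => x (υ i) i)) =
        pr (fun ω : OddP k m d0 m2 Bp => ∃ φ, A φ (oddW ω)) := by
      intro υ
      have h5 := pr_comp_injective (I := Fin Λ × Fin m)
        (Ω := Col d0 m2 × (Fin k → Col d0 m2 → Fin Bp)) (fun i : Fin m => (υ i, i))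
        (fun i j hij => (Prod.ext_iff.1 hij).2)
        (fun ω : OddP k m d0 m2 Bp => ∃ φ, A φ (oddW ω))
      rw [← h5]
      exact (pr_equiv (Equiv.curry (Fin Λ) (Fin m) (Col d0 m2 × (Fin k → Col d0 m2 → Fin Bp)))
        (fun x : Fin Λ → OddP k m d0 m2 Bp => ∃ φ, A φ (oddW fun i => x (υ i) i))).symm
    rw [av_congr h4, av_const]
  have e3 : 1 / 4 ≤ pr (fun x => 1 / 4 ≤ fr x) := by
    have h3 := av_le_pr_add (f := fr) (fun x => pr_le_one _) (c := 1 / 4) (by norm_num)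
    rw [e2] at h3
    linarith
  have e4 : pr (fun x => 1 / 4 ≤ fr x) * (3 / 4) ≤
      pr (fun ζ : OddZ k m d0 m2 Bp Λ => ∃ φ, A φ (oddRaw ζ)) := by
    have h3 : pr (fun ζ : OddZ k m d0 m2 Bp Λ => ∃ φ, A φ (oddRaw ζ)) =
        av fun x : Fin Λ → OddP k m d0 m2 Bp => pr fun q : Fin m × (Fin Λ → Fin k) =>
          ∃ φ, A φ (oddRaw (x, q)) := by
      have h5 := pr_prod fun (x : Fin Λ → OddP k m d0 m2 Bp) (q : Fin m × (Fin Λ → Fin k)) =>
          ∃ φ, A φ (oddRaw (x, q))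
      rw [← h5]
      exact oddQ_pr_inst _ _ _
    rw [h3]
    unfold pr
    rw [← av_mul_right]
    refine av_mono fun x => ?_
    split_ifs with hx
    · rw [one_mul]
      exact mixture_bound k m d0 m2 Bp Λ r M e hk hm hΛ hr h1 h2 A hA x hx
    · rw [zero_mul]
      exact pr_nonneg _
  linarith

end Pool.Agent.W_MP_5f6b2a_mon
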