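import Pool.Agent.W_MP_5f6b2a_mon.OddDefs

/-!
Typicality of positive contents.
-/

namespace Pool.Agent.W_MP_5f6b2a_mon

open Finset

theorem oddTy_coord {I Ω : Type} [Fintype I] [DecidableEq I] [Fintype Ω] [Nonempty Ω] (i : I)
    (E : Ω → Prop) : pr (fun ω : I → Ω => E (ω i)) = pr E := by
  have h := pr_comp_injective (Ω := Ω) (J := Unit) (fun _ => i)
    (fun a b _ => Subsingleton.elim a b) fun w : Unit → Ω => E (w ())
  rw [h]
  exact pr_equiv (Equiv.funUnique Unit Ω) E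

theorem oddTy_one {Bp : ℕ} (hB : 0 < Bp) : pr (fun x : Fin Bp => (x : ℕ) = 0) = 1 / (Bp : ℝ) := by
  rw [pr_eq_card, Fintype.card_fin]
  congr 1
  have : (Finset.univ.filter fun x : Fin Bp => (x : ℕ) = 0) = {⟨0, hB⟩} := by
    ext x
    simp [Fin.ext_iff]
  rw [this]
  simp

theorem oddTy_all {k Bp : ℕ} (hB : 0 < Bp) (K : Finset (Fin k)) :
    pr (fun x : Fin k → Fin Bp => ∀ j ∈ K, (x j : ℕ) = 0) = (1 / (Bp : ℝ)) ^ K.card := by
  have : Nonempty (Fin Bp) := Fin.pos_iff_nonempty.1 hB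
  rw [pr_pi (Ω := fun _ : Fin k => Fin Bp) fun j x => j ∈ K → (x : ℕ) = 0]
  rw [← Finset.prod_subset (Finset.subset_univ K)]
  · rw [Finset.prod_congr rfl (g := fun _ => 1 / (Bp : ℝ)), Finset.prod_const]
    intro j hj
    rw [← oddTy_one hB]
    exact pr_congr fun x => by simp [hj]
  · intro j _ hj
    exact pr_true _ fun x h => absurd h hj

theorem oddTy_not_all {k Bp r : ℕ} (hB : 0 < Bp) (K : Finset (Fin k)) (hK : K.card ≤ 2 * r) :
    pr (fun x : Fin k → Fin Bp => ¬ ∀ j ∈ K, (x j : ℕ) = 0) ≤ 1 - (1 / (Bp : ℝ)) ^ (2 * r) := by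
  have : Nonempty (Fin Bp) := Fin.pos_iff_nonempty.1 hB
  rw [pr_not, oddTy_all hB]
  have h1 : (1 : ℝ) ≤ Bp := by exact_mod_cast hB
  have : (1 / (Bp : ℝ)) ^ (2 * r) ≤ (1 / (Bp : ℝ)) ^ K.card :=
    pow_le_pow_of_le_one (by positivity) (by rw [div_le_one (by positivity)]; exact h1) hK
  linarith

theorem oddTy_fix {k m d0 m2 Bp r : ℕ} (hd : 0 < d0) (hm2 : 0 < m2) (hB : 0 < Bp) (i : Fin m)
    (K : Finset (Fin k)) (hK : K.card ≤ 2 * r) (g : Fin d0) :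
    pr (fun ω : OddP k m d0 m2 Bp => ∀ c : Fin m2, ¬ ∀ j ∈ K,
      (((ω i).2 j (g, c) : Fin Bp) : ℕ) = 0) ≤ (1 - (1 / (Bp : ℝ)) ^ (2 * r)) ^ m2 := by
  have n1 := Fin.pos_iff_nonempty.1 hd
  have n2 := Fin.pos_iff_nonempty.1 hm2
  have n3 := Fin.pos_iff_nonempty.1 hB
  have e1 : pr (fun ω : OddP k m d0 m2 Bp => ∀ c : Fin m2, ¬ ∀ j ∈ K,
      (((ω i).2 j (g, c) : Fin Bp) : ℕ) = 0) =
      pr (fun w : Fin m2 → Fin k → Fin Bp => ∀ c : Fin m2, ¬ ∀ j ∈ K, ((w c j : Fin Bp) : ℕ) = 0) := by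
    rw [oddTy_coord (Ω := Col d0 m2 × (Fin k → Col d0 m2 → Fin Bp)) i
      (fun p => ∀ c : Fin m2, ¬ ∀ j ∈ K, ((p.2 j (g, c) : Fin Bp) : ℕ) = 0)]
    rw [pr_snd (Ω := Col d0 m2) (fun n : Fin k → Col d0 m2 → Fin Bp =>
      ∀ c : Fin m2, ¬ ∀ j ∈ K, ((n j (g, c) : Fin Bp) : ℕ) = 0)]
    rw [← pr_comp_injective (Ω := Fin k → Fin Bp) (fun c : Fin m2 => ((g, c) : Col d0 m2))
      (fun a b h => by simpa using h) (fun w : Fin m2 → Fin k → Fin Bp =>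
        ∀ c : Fin m2, ¬ ∀ j ∈ K, ((w c j : Fin Bp) : ℕ) = 0)]
    exact pr_equiv (Equiv.piComm fun (_ : Fin k) (_ : Col d0 m2) => Fin Bp)
      (fun n : Col d0 m2 → Fin k → Fin Bp =>
        ∀ c : Fin m2, ¬ ∀ j ∈ K, ((n (g, c) j : Fin Bp) : ℕ) = 0)
  rw [e1, pr_pi_const (I := Fin m2) (fun x : Fin k → Fin Bp => ¬ ∀ j ∈ K, ((x j : Fin Bp) : ℕ) = 0),
    Fintype.card_fin]
  exact pow_le_pow_left₀ (pr_nonneg _) (oddTy_not_all hB K hK) m2

variable (k m d0 m2 Bp Bm Λ : ℕ) (hk : 0 < k) (hm : 0 < m) (hd : 0 < d0) (hm2 : 0 < m2)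
  (hB : 0 < Bp)

theorem odd_tyLoc : (oddLev k m d0 m2 Bp Bm Λ hk hm hd hm2 hB).TyLoc := by
  refine ⟨?_, ?_, ?_⟩
  · intro K κ κ' h hT i
    refine (hT i).trans (Finset.card_le_card fun v hv => ?_)
    simp only [Finset.mem_filter, Finset.mem_univ, true_and] at hv ⊢
    intro j hj
    rw [← h j hj]
    exact hv j hj
  · intro K K' κ h hT i
    refine (hT i).trans (Finset.card_le_card fun v hv => ?_)
    simp only [Finset.mem_filter, Finset.mem_univ, true_and] at hv ⊢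
    exact fun j hj => hv j (h hj)
  · intro K ω h i
    rcases K.eq_empty_or_nonempty with rfl | ⟨j, hj⟩
    · simp only [Finset.notMem_empty, false_imp_iff, implies_true, Finset.filter_true,
        Finset.card_univ, Fintype.card_prod, Fintype.card_fin]
      exact Nat.le_mul_of_pos_right _ hm2
    · exfalso
      have h1 := congrFun (h j hj) (i, (ω i).1)
      simp [oddLev, oddW] at h1

theorem oddTy_card {K : Finset (Fin k)} (ω : OddP k m d0 m2 Bp) (i : Fin m)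
    (h : ∀ g : Fin d0, ∃ c : Fin m2, ∀ j ∈ K, (((ω i).2 j (g, c) : Fin Bp) : ℕ) = 0) :
    d0 ≤ (univ.filter fun v : Col d0 m2 => ∀ j ∈ K, oddW ω j (i, v) = true).card := by
  choose c hc using h
  have : d0 = (univ.image fun g : Fin d0 => ((g, c g) : Col d0 m2)).card := by
    rw [Finset.card_image_of_injective _ (fun a b hab => by simpa using congrArg Prod.fst hab)]
    simp
  calc d0 = (univ.image fun g : Fin d0 => ((g, c g) : Col d0 m2)).card := this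
    _ ≤ _ := by
      refine Finset.card_le_card fun v hv => ?_
      simp only [Finset.mem_image, Finset.mem_univ, true_and, Finset.mem_filter] at hv ⊢
      obtain ⟨g, rfl⟩ := hv
      intro j hj
      simp only [oddW, decide_eq_true_eq]
      exact Or.inr (hc g j hj)

theorem odd_tyProb (r : ℕ) : (oddLev k m d0 m2 Bp Bm Λ hk hm hd hm2 hB).TyProb r
    (m * (2 ^ k * (d0 * (1 - (1 / (Bp : ℝ)) ^ (2 * r)) ^ m2))) := by
  have h1 : (1 : ℝ) ≤ Bp := by exact_mod_cast hB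
  have hq : (0 : ℝ) ≤ 1 - (1 / (Bp : ℝ)) ^ (2 * r) := by
    have : (1 / (Bp : ℝ)) ^ (2 * r) ≤ 1 :=
      pow_le_one₀ (by positivity) (by rw [div_le_one (by positivity)]; exact h1)
    linarith
  show pr (fun ω : OddP k m d0 m2 Bp => ¬ ∀ K : Finset (Fin k), K.card ≤ 2 * r → ∀ i, d0 ≤
    (univ.filter fun v : Col d0 m2 => ∀ j ∈ K, oddW ω j (i, v) = true).card) ≤ _
  have hev : ∀ ω : OddP k m d0 m2 Bp, (¬ ∀ K : Finset (Fin k), K.card ≤ 2 * r → ∀ i, d0 ≤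
      (univ.filter fun v : Col d0 m2 => ∀ j ∈ K, oddW ω j (i, v) = true).card) →
      ∃ i : Fin m, ∃ K : Finset (Fin k), ∃ g : Fin d0, K.card ≤ 2 * r ∧
        ∀ c : Fin m2, ¬ ∀ j ∈ K, (((ω i).2 j (g, c) : Fin Bp) : ℕ) = 0 := by
    intro ω hω
    push Not at hω
    obtain ⟨K, hK, i, hi⟩ := hω
    by_contra hcon
    push Not at hcon
    refine absurd (oddTy_card k m d0 m2 Bp (K := K) ω i fun g => ?_) (not_le.2 hi)
    exact hcon i K g hK
  refine (pr_mono hev).trans ?_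
  have b1 : ∀ i : Fin m, ∀ K : Finset (Fin k), ∀ g : Fin d0,
      pr (fun ω : OddP k m d0 m2 Bp => K.card ≤ 2 * r ∧
        ∀ c : Fin m2, ¬ ∀ j ∈ K, (((ω i).2 j (g, c) : Fin Bp) : ℕ) = 0) ≤
        (1 - (1 / (Bp : ℝ)) ^ (2 * r)) ^ m2 := by
    intro i K g
    by_cases hK : K.card ≤ 2 * r
    · exact (pr_mono fun ω h => h.2).trans (oddTy_fix hd hm2 hB i K hK g)
    · rw [pr_false _ fun ω h => hK h.1]
      positivity
  calc pr (fun ω : OddP k m d0 m2 Bp => ∃ i : Fin m, ∃ K : Finset (Fin k), ∃ g : Fin d0,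
        K.card ≤ 2 * r ∧ ∀ c : Fin m2, ¬ ∀ j ∈ K, (((ω i).2 j (g, c) : Fin Bp) : ℕ) = 0)
      ≤ ∑ i : Fin m, pr (fun ω : OddP k m d0 m2 Bp => ∃ K : Finset (Fin k), ∃ g : Fin d0,
        K.card ≤ 2 * r ∧ ∀ c : Fin m2, ¬ ∀ j ∈ K, (((ω i).2 j (g, c) : Fin Bp) : ℕ) = 0) :=
        pr_exists_le _
    _ ≤ ∑ i : Fin m, ∑ K : Finset (Fin k), pr (fun ω : OddP k m d0 m2 Bp => ∃ g : Fin d0,
        K.card ≤ 2 * r ∧ ∀ c : Fin m2, ¬ ∀ j ∈ K, (((ω i).2 j (g, c) : Fin Bp) : ℕ) = 0) :=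
        Finset.sum_le_sum fun i _ => pr_exists_le _
    _ ≤ ∑ i : Fin m, ∑ K : Finset (Fin k), ∑ g : Fin d0, pr (fun ω : OddP k m d0 m2 Bp =>
        K.card ≤ 2 * r ∧ ∀ c : Fin m2, ¬ ∀ j ∈ K, (((ω i).2 j (g, c) : Fin Bp) : ℕ) = 0) :=
        Finset.sum_le_sum fun i _ => Finset.sum_le_sum fun K _ => pr_exists_le _
    _ ≤ ∑ _i : Fin m, ∑ _K : Finset (Fin k), ∑ _g : Fin d0,
        (1 - (1 / (Bp : ℝ)) ^ (2 * r)) ^ m2 :=
        Finset.sum_le_sum fun i _ => Finset.sum_le_sum fun K _ => Finset.sum_le_sum fun g _ =>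
          b1 i K g
    _ = m * (2 ^ k * (d0 * (1 - (1 / (Bp : ℝ)) ^ (2 * r)) ^ m2)) := by
        simp only [Finset.sum_const, Finset.card_univ, Fintype.card_fin, Fintype.card_finset,
          nsmul_eq_mul, Nat.cast_pow, Nat.cast_ofNat]

end Pool.Agent.W_MP_5f6b2a_mon
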