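import Pool.Agent.W_MP_5f6b2a_mon.Core
import Pool.Agent.W_MP_5f6b2a_mon.Tensor

/-!
Domination passes to the next level.
-/

namespace Pool.Agent.W_MP_5f6b2a_mon

open Finset

/-- currying -/
def SD_curry (mt k : ℕ) (A : Type) (B : ℕ) :
    (Fin mt → Fin k → A → Fin B) ≃ (Fin mt × Fin k × A → Fin B) where
  toFun b := fun x => b x.1 x.2.1 x.2.2
  invFun c := fun u j a => c (u, j, a)
  left_inv _ := rfl
  right_inv _ := rfl

theorem SD_restrict {mt k B : ℕ} {A A' : Type} [Fintype A] [DecidableEq A] [Fintype A']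
    [DecidableEq A'] (hB : 0 < B) (q : A' → A) (hq : Function.Injective q)
    (h : (Fin mt → Fin k → A' → Fin B) → ℝ) :
    av (fun b : Fin mt → Fin k → A → Fin B => h fun u j e => b u j (q e)) = av h := by
  haveI : Nonempty (Fin B) := ⟨⟨0, hB⟩⟩
  have h1 := av_equiv (SD_curry mt k A B).symm
    (fun b : Fin mt → Fin k → A → Fin B => h fun u j e => b u j (q e))
  have h2 := av_equiv (SD_curry mt k A' B).symm h
  rw [← h1, ← h2]
  have hinj : Function.Injective (fun x : Fin mt × Fin k × A' => (x.1, x.2.1, q x.2.2)) := by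
    rintro ⟨a, b, c⟩ ⟨a', b', c'⟩ hh
    simp only [Prod.mk.injEq] at hh ⊢
    exact ⟨hh.1, hh.2.1, hq hh.2.2⟩
  exact av_comp_injective (Ω := Fin B) (fun x : Fin mt × Fin k × A' => (x.1, x.2.1, q x.2.2)) hinj
    (fun c => h ((SD_curry mt k A' B).symm c))

section

variable {k : ℕ} (L : Lev k) (M1 M2 : ℕ) (h1 : 0 < M1) (h2 : 0 < M2)

/-- Contents of one block of columns. -/
def SD_w1 (M2 : ℕ) (p : Fin M2 × L.P) : Fin k → Fin M2 × L.E → Bool :=
  fun j e => if e.1 = p.1 then L.w p.2 j e.2 else false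

theorem SD_cellaux {M2 : ℕ} {K : Finset (Fin k)} {κ : Fin k → Fin M2 × L.E → Bool} {s : Fin M2}
    {ω₀ : L.P} (h0 : ∀ j ∈ K, SD_w1 L M2 (s, ω₀) j = κ j) (ω : L.P) :
    (∀ j ∈ K, SD_w1 L M2 (s, ω) j = κ j) ↔ ∀ j ∈ K, L.w ω j = fun e => κ j (s, e) := by
  constructor
  · intro h j hj
    have := h j hj
    funext e
    have h3 := congrFun this (s, e)
    simpa [SD_w1] using h3
  · intro h j hj
    funext e
    obtain ⟨s', e⟩ := e
    by_cases hs : s' = s
    · subst hs
      have := congrFun (h j hj) e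
      simpa [SD_w1] using this
    · have h3 := congrFun (h0 j hj) (s', e)
      simp only [SD_w1, hs, if_false] at h3 ⊢
      exact h3

/-- The cell with block `s`. -/
def SD_cell {M2 : ℕ} {K : Finset (Fin k)} {κ : Fin k → Fin M2 × L.E → Bool} {s : Fin M2}
    {ω₀ : L.P} (h0 : ∀ j ∈ K, SD_w1 L M2 (s, ω₀) j = κ j) :
    {p : {p : Fin M2 × L.P // ∀ j ∈ K, SD_w1 L M2 p j = κ j} // p.1.1 = s} ≃
      {ω : L.P // ∀ j ∈ K, L.w ω j = fun e => κ j (s, e)} where
  toFun p := ⟨p.1.1.2, (SD_cellaux L h0 p.1.1.2).1 (by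
    have h3 := p.1.2
    have h4 : p.1.1 = (s, p.1.1.2) := Prod.ext p.2 rfl
    rw [← h4]
    exact h3)⟩
  invFun ω := ⟨⟨(s, ω.1), (SD_cellaux L h0 ω.1).2 ω.2⟩, rfl⟩
  left_inv p := by
    refine Subtype.ext (Subtype.ext ?_)
    exact Prod.ext p.2.symm rfl
  right_inv _ := rfl

theorem SD_block {M2 B mt r : ℕ} {err : ℝ} (hB : 0 < B) (herr : 0 ≤ err) (hTy : L.TyLoc)
    (hL : L.DomOK B mt r err) (K J : Finset (Fin k)) (hKJ : Disjoint K J) (hK : K.card ≤ 2 * r)
    (hJ : J.card ≤ r) (κ : Fin k → Fin M2 × L.E → Bool)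
    (hκ : ∀ s, (∀ j ∈ K, ∀ e, κ j (s, e) = false) ∨ L.Ty K fun j e => κ j (s, e))
    (g : (Fin k → Fin M2 × L.E → Bool) → ℝ) (hg : Monotone g) (hg0 : ∀ y, 0 ≤ g y)
    (hg1 : ∀ y, g y ≤ 1) :
    av (fun p : {p : Fin M2 × L.P // ∀ j ∈ K, SD_w1 L M2 p j = κ j} =>
      g (mix K J κ (SD_w1 L M2 p))) ≤
    av (fun b : Fin mt → Fin k → Fin M2 × L.E → Fin B => g (mix K J κ (meet b))) + err := by
  classical
  have hc0 : 0 ≤ av (fun b : Fin mt → Fin k → Fin M2 × L.E → Fin B => g (mix K J κ (meet b))) + err :=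
    add_nonneg (av_nonneg fun b => hg0 _) herr
  refine av_le_of_cells hc0
    (fun p : {p : Fin M2 × L.P // ∀ j ∈ K, SD_w1 L M2 p j = κ j} => p.1.1) fun s => ?_
  rcases isEmpty_or_nonempty {p : {p : Fin M2 × L.P // ∀ j ∈ K, SD_w1 L M2 p j = κ j} // p.1.1 = s}
    with hemp | ⟨⟨⟨⟨s', ω₀⟩, h0⟩, hs'⟩⟩
  · rw [av_of_isEmpty]; exact hc0
  have hs'' : s' = s := hs'
  subst hs''
  have hTyK : L.Ty K fun j e => κ j (s', e) := by
    rcases hκ s' with h3 | h3
    · have h4 : ∀ j ∈ K, L.w ω₀ j = ⊥ := by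
        intro j hj
        have h5 := (SD_cellaux L h0 ω₀).1 h0 j hj
        rw [h5]
        funext e
        exact h3 j hj e
      refine hTy.1 K (L.w ω₀) _ (fun j hj => (SD_cellaux L h0 ω₀).1 h0 j hj) (hTy.2.2 K ω₀ h4)
    · exact h3
  have hJK : ∀ j ∈ J, j ∉ K := fun j hj h => Finset.disjoint_left.1 hKJ h hj
  set g' : (Fin k → L.E → Bool) → ℝ := fun y =>
    g (mix K J κ fun j e => if e.1 = s' then y j e.2 else false) with hg'
  have hg'm : Monotone g' := by
    intro y y' hy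
    refine hg fun j => ?_
    unfold mix
    split_ifs
    · exact le_rfl
    · intro e
      by_cases h : e.1 = s'
      · simp only [h, if_true]; exact hy j e.2
      · simp only [h, if_false, le_refl]
    · exact le_rfl
  have hmixJ : ∀ y : Fin k → L.E → Bool,
      g' (mix K J (fun j e => κ j (s', e)) y) = g' y := by
    intro y
    simp only [hg']
    congr 1
    funext j
    unfold mix
    by_cases hjK : j ∈ K
    · simp only [hjK, if_true]
    · by_cases hjJ : j ∈ J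
      · simp only [hjK, hjJ, if_false, if_true]
      · simp only [hjK, hjJ, if_false]
  have hd := hL K J hKJ hK hJ (fun j e => κ j (s', e)) hTyK g' hg'm (fun y => hg0 _) (fun y => hg1 _)
  have hLHS : av (fun p : {p : {p : Fin M2 × L.P // ∀ j ∈ K, SD_w1 L M2 p j = κ j} // p.1.1 = s'} =>
      g (mix K J κ (SD_w1 L M2 p.1.1))) =
      av (fun ω : {ω : L.P // ∀ j ∈ K, L.w ω j = fun e => κ j (s', e)} =>
        g' (mix K J (fun j e => κ j (s', e)) (L.w ω))) := by
    rw [← av_equiv (SD_cell L h0)]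
    refine av_congr fun p => ?_
    rw [hmixJ]
    simp only [hg']
    congr 2
    have h4 : p.1.1.1 = s' := p.2
    funext j e
    simp only [SD_w1, h4, SD_cell, Equiv.coe_fn_mk]
  refine (le_of_eq hLHS).trans (hd.trans (add_le_add_left ?_ _))
  rw [av_congr fun b => hmixJ (meet b)]
  have hres := SD_restrict (mt := mt) (k := k) (A := Fin M2 × L.E) (A' := L.E) hB (fun e => (s', e))
    (fun a b hab => (Prod.mk.inj hab).2) (fun b => g' (meet b))
  rw [← hres]
  refine av_mono fun b => hg fun j => ?_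
  unfold mix
  split_ifs
  · exact le_rfl
  · intro e
    obtain ⟨s, e⟩ := e
    by_cases h : s = s'
    · subst h
      simp only [if_true, meet, le_refl]
    · simp only [h, if_false]
      exact bot_le
  · exact le_rfl

/-- Splitting the conditioned sample space into blocks. -/
def SD_split (K : Finset (Fin k)) (κ : Fin k → (L.step M1 M2 h1 h2).E → Bool) :
    {ω : (L.step M1 M2 h1 h2).P // ∀ j ∈ K, (L.step M1 M2 h1 h2).w ω j = κ j} ≃
      ((i : Fin M1) → {p : Fin M2 × L.P // ∀ j ∈ K, SD_w1 L M2 p j = fun e => κ j (i, e)}) where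
  toFun ω i := ⟨ω.1 i, fun j hj => by
    funext e
    exact congrFun (ω.2 j hj) (i, e)⟩
  invFun ω := ⟨fun i => (ω i).1, fun j hj => by
    funext e
    exact congrFun ((ω e.1).2 j hj) e.2⟩
  left_inv _ := rfl
  right_inv _ := rfl

/-- Splitting samples into blocks. -/
def SD_samp (mt k M1 M2 B : ℕ) (A : Type) :
    (Fin mt → Fin k → Fin M1 × Fin M2 × A → Fin B) ≃
      ((_ : Fin M1) → Fin mt → Fin k → Fin M2 × A → Fin B) where
  toFun b i u j e := b u j (i, e)
  invFun c u j e := c e.1 u j e.2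
  left_inv _ := rfl
  right_inv _ := rfl

theorem step_domOK {B mt r : ℕ} {err : ℝ} (hB : 0 < B) (herr : 0 ≤ err) (hTy : L.TyLoc)
    (hL : L.DomOK B mt r err) : (L.step M1 M2 h1 h2).DomOK B mt r (M1 * err) := by
  classical
  intro K J hKJ hK hJ κ hκ g hg hg0 hg1
  haveI : Nonempty (Fin B) := ⟨⟨0, hB⟩⟩
  have hT := tensor (I := Fin M1)
    (Ω := fun i => {p : Fin M2 × L.P // ∀ j ∈ K, SD_w1 L M2 p j = fun e => κ j (i, e)})
    (Ω' := fun _ => Fin mt → Fin k → Fin M2 × L.E → Fin B)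
    (X := fun _ => Fin k → Fin M2 × L.E → Bool)
    (fun i p => mix K J (fun j e => κ j (i, e)) (SD_w1 L M2 p))
    (fun i b => mix K J (fun j e => κ j (i, e)) (meet b)) herr
    (fun i g' hg' hg0' hg1' => SD_block L hB herr hTy hL K J hKJ hK hJ (fun j e => κ j (i, e))
      (fun s => hκ i s) g' hg' hg0' hg1')
    (fun y => g fun j e => y e.1 j e.2)
    (fun y y' hy => hg fun j e => hy e.1 j e.2) (fun y => hg0 _) (fun y => hg1 _)
  rw [Fintype.card_fin] at hT
  have hA : av (fun ω : {ω : (L.step M1 M2 h1 h2).P // ∀ j ∈ K, (L.step M1 M2 h1 h2).w ω j = κ j} =>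
      g (mix K J κ ((L.step M1 M2 h1 h2).w ω))) = _ :=
    (av_congr fun ω => ?_).trans (av_equiv (SD_split L M1 M2 h1 h2 K κ)
      (fun ω => g fun j e => mix K J (fun j e' => κ j (e.1, e')) (SD_w1 L M2 (ω e.1)) j e.2))
  swap
  · congr 1
    funext j e
    unfold mix
    split_ifs <;> rfl
  have hB' : av (fun b : Fin mt → Fin k → (L.step M1 M2 h1 h2).E → Fin B => g (mix K J κ (meet b))) = _ :=
    (av_congr fun b => ?_).trans (av_equiv (SD_samp mt k M1 M2 B L.E)
      (fun b => g fun j e => mix K J (fun j e' => κ j (e.1, e')) (meet (b e.1)) j e.2))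
  swap
  · congr 1
    funext j e
    unfold mix
    split_ifs <;> rfl
  rw [hA, hB']
  exact hT

end

end Pool.Agent.W_MP_5f6b2a_mon
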