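import Pool.Agent.W_MP_5f6b2a_mon.Iter
import Pool.Agent.W_MP_5f6b2a_mon.Finish
import Pool.Agent.W_MP_5f6b2a_mon.EvenDom
import Pool.Agent.W_MP_5f6b2a_mon.EvenNull
import Pool.Agent.W_MP_5f6b2a_mon.EvenQ

/-!
Levels for formulas ending in `∀ v ∃ l ∈ S`.
-/

namespace Pool.Agent.W_MP_5f6b2a_mon

open Finset Filter

/-- The numerical conditions of the step. -/
theorem ev_step {Mf : ℕ → ℕ} (hMf : PolyB fun z => (Mf z : ℝ)) :
    ∀ᶠ z : ℕ in atTop, ∀ M, M ≤ Mf z → (2 * M : ℝ) * (3 / 4) ^ (8 * z / 4) < 1 ∧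
      (M : ℝ) * (7 / 8) ^ (8 * z / 2) ≤ 1 / 8 := by
  have h1 := ((PolyB.const zero_le_two).mul hMf).exp_small_lt (a := (3 / 4 : ℝ) ^ 2)
    (by norm_num) (by norm_num) zero_lt_one
  have h2 := hMf.exp_small (a := (7 / 8 : ℝ) ^ 4) (by norm_num) (by norm_num)
    (ε := 1 / 8) (by norm_num)
  filter_upwards [h1, h2] with z h1 h2 M hM
  have hMR : (M : ℝ) ≤ Mf z := by exact_mod_cast hM
  have e1 : 8 * z / 4 = 2 * z := by omega
  have e2 : 8 * z / 2 = 4 * z := by omega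
  rw [e1, e2, pow_mul, pow_mul]
  refine ⟨lt_of_le_of_lt ?_ h1, le_trans ?_ h2⟩
  · gcongr
  · gcongr

theorem one_sub_inv_pow_le (x : ℕ) (hx : 1 ≤ x) : (1 - 1 / (x : ℝ)) ^ (x ^ 2) ≤
    Real.exp (-1) ^ x := by
  have hx0 : (0 : ℝ) < x := by exact_mod_cast hx
  refine (one_sub_pow_le ?_ _).trans_eq ?_
  · rw [div_le_one hx0]; exact_mod_cast hx
  · rw [← Real.exp_nat_mul]
    congr 1
    push_cast
    field_simp

theorem supply_even (h : ℕ) : Supply (1 + 2 * h) false (2 * h) := by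
  intro r hr
  set k := 2 * r + 2 ^ (8 * r + 1 + 1) with hk
  have hk0 : 0 < k := by positivity
  have h2rk : 2 * r ≤ k := by rw [hk]; exact Nat.le_add_right _ _
  refine ⟨k, 1, le_rfl, hk0, fun e Mf hMf => ?_⟩
  -- numerical conditions
  have hpz : PolyB fun z => (((8 * z : ℕ) : ℝ)) := by simpa using polyB_pow_cast 1
  have hk2 : (0 : ℝ) < (1 / 2) ^ k := by positivity
  have hk3 : (0 : ℝ) < (1 / 2) ^ (k + 3) := by positivity
  have hk2' : (1 / 2 : ℝ) ^ k ≤ 1 := pow_le_one₀ (by norm_num) (by norm_num)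
  have hk3' : (1 / 2 : ℝ) ^ (k + 3) ≤ 1 := pow_le_one₀ (by norm_num) (by norm_num)
  have e1 : ∀ᶠ z : ℕ in atTop, ((8 * z : ℕ) : ℝ) * Real.exp (-1) ^ z ≤ 1 / 8 :=
    hpz.exp_small (Real.exp_pos _).le (by rw [Real.exp_lt_one_iff]; norm_num) (by norm_num)
  have e2 : ∀ᶠ z : ℕ in atTop, (((k * ((8 * z) ^ 1) ^ 8 : ℕ) : ℝ) + 1) ^ k *
      ((8 * z : ℕ) : ℝ) ^ h * ((1 - (1 / 2 : ℝ) ^ k) ^ 8) ^ z ≤ 1 / 4 := by
    have h1 : PolyB fun z => (((k * ((8 * z) ^ 1) ^ 8 : ℕ) : ℝ) + 1) ^ k *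
        ((8 * z : ℕ) : ℝ) ^ h := by
      have h2 : PolyB fun z => ((k : ℝ) * ((8 * z : ℕ) : ℝ) ^ 8 + 1) ^ k *
          ((8 * z : ℕ) : ℝ) ^ h :=
        ((((PolyB.const (Nat.cast_nonneg k)).mul (hpz.pow 8)).add
          (PolyB.const zero_le_one)).pow k).mul (hpz.pow h)
      simpa using h2
    exact h1.exp_small (by positivity) (pow_lt_one₀ (by linarith) (by linarith) (by norm_num))
      (by norm_num)
  have e3 : ∀ᶠ z : ℕ in atTop, (2 * (Mf z : ℝ) * 2 ^ e * 2 ^ (k * e)) *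
      ((1 - (1 / 2 : ℝ) ^ (k + 3)) ^ 4) ^ z < 1 := by
    have h1 : PolyB fun z => 2 * (Mf z : ℝ) * 2 ^ e * 2 ^ (k * e) :=
      (((PolyB.const zero_le_two).mul hMf).mul (PolyB.const (by positivity))).mul
        (PolyB.const (by positivity))
    exact h1.exp_small_lt (by positivity) (pow_lt_one₀ (by linarith) (by linarith) (by norm_num))
      zero_lt_one
  filter_upwards [e1, e2, e3, ev_step hMf, eventually_ge_atTop 1] with z e1 e2 e3 e4 hz1
  have hx : 0 < 8 * z := by omega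
  have hx1 : 1 ≤ 8 * z := hx
  set L0 := evenLev k (8 * z) ((8 * z) ^ 2) (8 * z) hk0 hx with hL0
  refine ⟨L0.iter (8 * z) hx h, 2, ((8 * z : ℕ) : ℝ) ^ h * 0, ((8 * z : ℕ) : ℝ) ^ h * 0,
    ((8 * z : ℕ) : ℝ) ^ h * (1 - (1 / 2 : ℝ) ^ k) ^ (8 * z), by norm_num,
    iter_tyLoc _ _ _ (even_tyLoc _ _ _ _ _ _) _,
    iter_tyProb _ _ _ (even_tyProb _ _ _ _ _ _ _) _,
    iter_domOK _ _ _ (by norm_num) le_rfl (even_tyLoc _ _ _ _ _ _)
      (even_domOK _ _ _ _ _ _ _ _ hk.symm.le ?_) _,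
    iter_posOK _ _ _ (even_posOK _ _ _ _ _ _) _,
    iter_nullOK _ _ _ (by norm_num) (even_nullOK _ _ _ _ _ _ hx (by positivity)) _,
    ?_, iter_fqMono _ _ _ (even_fqMono _ _ _ _ _ _) _,
    iter_fqFalse _ _ _ (even_fqFalse _ _ _ _ _ _ hx (by positivity)) _,
    iter_real _ _ _ ?_ (even_real _ _ _ _ _ _ hx (by positivity) _ ?_) _, ?_, ?_, ?_⟩
  · -- `2 r ≤ 2 ^ (8 r + 1)`
    have h1 : r < 2 ^ r := Nat.lt_two_pow_self
    calc 2 * r ≤ 2 * 2 ^ r := by omega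
      _ = 2 ^ (r + 1) := by ring
      _ ≤ 2 ^ (8 * r + 1) := Nat.pow_le_pow_right (by norm_num) (by omega)
  · intro M hM
    have hq : L0.QOK 0 r M e := by
      rcases Nat.eq_zero_or_pos M with hM0 | hM0
      · subst hM0
        intro A _ hA
        exfalso
        have h0 : pr (fun ω : L0.P => ∃ φ, A φ (L0.w ω)) = 0 := by
          rw [pr_false]
          rintro ω ⟨φ, -⟩
          exact φ.elim0
        rw [h0] at hA
        norm_num at hA
      refine even_qOK _ _ _ _ _ _ _ _ _ h2rk ?_ ?_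
      · have e5 : 8 * z / 2 = 4 * z := by omega
        rw [e5, pow_mul]
        have hM0' : (0 : ℝ) < M := by exact_mod_cast hM0
        rw [lt_div_iff₀ (by positivity), mul_comm]
        refine lt_of_le_of_lt ?_ e3
        have hMR : (M : ℝ) ≤ Mf z := by exact_mod_cast hM
        have : (0 : ℝ) ≤ ((1 - (1 / 2 : ℝ) ^ (k + 3)) ^ 4) ^ z := by positivity
        refine mul_le_mul_of_nonneg_right ?_ this
        gcongr
      · have h1 := one_sub_inv_pow_le (8 * z) hx1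
        have h2 : Real.exp (-1) ^ (8 * z) ≤ Real.exp (-1) ^ z :=
          pow_le_pow_of_le_one (Real.exp_pos _).le
            (by rw [Real.exp_le_one_iff]; norm_num) (by omega)
        calc ((8 * z : ℕ) : ℝ) * (1 - 1 / ((8 * z : ℕ) : ℝ)) ^ (8 * z) ^ 2 ≤
            ((8 * z : ℕ) : ℝ) * Real.exp (-1) ^ z :=
              mul_le_mul_of_nonneg_left (h1.trans h2) (Nat.cast_nonneg _)
          _ ≤ 1 / 8 := e1
    have := iter_qOK _ _ hx (e4 M hM).1 (e4 M hM).2 hq h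
    rwa [zero_add] at this
  · calc 8 * z = (8 * z) ^ 1 := (pow_one _).symm
      _ ≤ (8 * z) ^ (9 * 1) := Nat.pow_le_pow_right hx (by norm_num)
  · calc 8 * z * (8 * z) ^ 2 = (8 * z) ^ 3 := by ring
      _ ≤ (8 * z) ^ (9 * 1) := Nat.pow_le_pow_right hx (by norm_num)
  · norm_num
  · rw [mul_zero, add_zero, pow_one]
    have hxR : (1 : ℝ) ≤ ((8 * z : ℕ) : ℝ) := by exact_mod_cast hx1
    have : ((1 : ℝ) / (((8 * z) ^ 8 : ℕ) : ℝ)) ^ r = (1 / ((8 * z : ℕ) : ℝ)) ^ (8 * r) := by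
      push_cast
      rw [pow_mul, div_pow (1 : ℝ) (8 * (z : ℝ)) 8, one_pow]
    rw [this]
    exact pow_le_pow_of_le_one (by positivity) (by rw [div_le_one (by linarith)]; exact hxR)
      (by omega)
  · rw [pow_mul, ← mul_assoc]
    exact e2

end Pool.Agent.W_MP_5f6b2a_mon
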