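import Pool.Agent.W_MP_5f6b2a_mon.SupplyEven
import Pool.Agent.W_MP_5f6b2a_mon.OddDom
import Pool.Agent.W_MP_5f6b2a_mon.OddNull
import Pool.Agent.W_MP_5f6b2a_mon.OddTy
import Pool.Agent.W_MP_5f6b2a_mon.OddGood
import Pool.Agent.W_MP_5f6b2a_mon.OddQ

/-!
Levels for formulas ending in `∀ i ∃ v ∀ l ∈ S`.
-/

namespace Pool.Agent.W_MP_5f6b2a_mon

open Finset Filter

theorem one_sub_inv_pow_le' (B x a : ℕ) (hB : 1 ≤ B) :
    (1 - (1 / (B : ℝ)) ^ a) ^ (x * B ^ a) ≤ Real.exp (-1) ^ x := by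
  have hB0 : (0 : ℝ) < B := by exact_mod_cast hB
  refine (one_sub_pow_le ?_ _).trans_eq ?_
  · refine pow_le_one₀ (by positivity) ?_
    rw [div_le_one hB0]; exact_mod_cast hB
  · rw [← Real.exp_nat_mul]
    congr 1
    push_cast
    rw [div_pow, one_pow]
    field_simp

/-- First numerical condition. -/
theorem odd_num1 {x Bp k r : ℕ} (hx : 96 ≤ x) (hBp : x ^ 4 ≤ Bp) (hr : 1 ≤ r)
    (hk : 4 * r + 1 ≤ k) :
    (x : ℝ) ^ 2 / Bp + (x : ℝ) ^ 2 / (x * Bp ^ r * (x * Bp ^ (2 * r)) : ℕ) +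
      (x * Bp ^ r * (x * Bp ^ (2 * r)) : ℕ) * ((x : ℝ) / Bp) ^ k ≤ 1 / 32 := by
  have hx0 : (0 : ℝ) < x := by exact_mod_cast (show 0 < x by omega)
  have hx1 : (1 : ℝ) ≤ x := by exact_mod_cast (show 1 ≤ x by omega)
  have hBpR : (x : ℝ) ^ 4 ≤ Bp := by exact_mod_cast hBp
  have hBp0 : (0 : ℝ) < Bp := lt_of_lt_of_le (by positivity) hBpR
  have hBp1 : (1 : ℝ) ≤ Bp := (one_le_pow₀ hx1).trans hBpR
  have h1 : (x : ℝ) ^ 2 / Bp ≤ 1 / x := by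
    rw [div_le_div_iff₀ hBp0 hx0, one_mul]
    refine le_trans ?_ hBpR
    calc (x : ℝ) ^ 2 * (x : ℝ) = (x : ℝ) ^ 3 := by ring
      _ ≤ (x : ℝ) ^ 4 := pow_le_pow_right₀ hx1 (by norm_num)
  have h2 : (x : ℝ) ^ 2 / (x * Bp ^ r * (x * Bp ^ (2 * r)) : ℕ) ≤ 1 / x := by
    refine le_trans ?_ h1
    refine div_le_div_of_nonneg_left (by positivity) hBp0 ?_
    push_cast
    calc (Bp : ℝ) = 1 * Bp ^ 1 * (1 * 1) := by ring
      _ ≤ x * Bp ^ r * (x * Bp ^ (2 * r)) := by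
        have h3 : (Bp : ℝ) ^ 1 ≤ Bp ^ r := pow_le_pow_right₀ hBp1 hr
        have h4 : (1 : ℝ) ≤ Bp ^ (2 * r) := one_le_pow₀ hBp1
        gcongr
  have h3 : ((x * Bp ^ r * (x * Bp ^ (2 * r)) : ℕ) : ℝ) * ((x : ℝ) / Bp) ^ k ≤ 1 / x := by
    obtain ⟨c, rfl⟩ : ∃ c, k = 3 * r + c := ⟨k - 3 * r, by omega⟩
    push_cast
    have e1 : (x : ℝ) * Bp ^ r * (x * Bp ^ (2 * r)) * (x / Bp) ^ (3 * r + c) =
        x ^ (3 * r + c + 2) / Bp ^ c := by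
      rw [div_pow, pow_add (Bp : ℝ) (3 * r) c]
      field_simp
      ring
    rw [e1, div_le_div_iff₀ (by positivity) hx0, one_mul]
    calc (x : ℝ) ^ (3 * r + c + 2) * x = x ^ (3 * r + c + 2 + 1) := by rw [pow_succ (x : ℝ) (3 * r + c + 2)]
      _ ≤ x ^ (4 * c) := pow_le_pow_right₀ hx1 (by omega)
      _ = (x ^ 4) ^ c := by rw [pow_mul]
      _ ≤ Bp ^ c := pow_le_pow_left₀ (by positivity) hBpR c
  have h4 : 1 / (x : ℝ) ≤ 1 / 96 := by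
    refine div_le_div_of_nonneg_left (by norm_num) (by norm_num) ?_
    exact_mod_cast hx
  calc _ ≤ 1 / (x : ℝ) + 1 / x + 1 / x := add_le_add (add_le_add h1 h2) h3
    _ ≤ 1 / 32 := by linarith

/-- Second numerical condition. -/
theorem odd_num2 {x mt k r : ℕ} (hx : 32 * (2 ^ (k + 3) * (1 + 2 ^ (3 * r))) ≤ x)
    (hk : 3 * mt * r + 1 ≤ k) :
    2 ^ (k + 3) * ((x : ℝ) / (x ^ 4 : ℕ) +
      (x * (2 * (x ^ 4) ^ mt) ^ r * (x * (2 * (x ^ 4) ^ mt) ^ (2 * r)) : ℕ) *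
        (1 / ((x ^ 4 : ℕ) : ℝ)) ^ k) ≤ 1 / 32 := by
  have hx1' : 1 ≤ x := le_trans (Nat.one_le_iff_ne_zero.2 (by positivity)) hx
  have hx0 : (0 : ℝ) < x := by exact_mod_cast hx1'
  have hx1 : (1 : ℝ) ≤ x := by exact_mod_cast hx1'
  have h1 : (x : ℝ) / (x ^ 4 : ℕ) ≤ 1 / x := by
    push_cast
    rw [div_le_div_iff₀ (by positivity) hx0, one_mul]
    calc (x : ℝ) * x = x ^ 2 := by ring
      _ ≤ x ^ 4 := pow_le_pow_right₀ hx1 (by norm_num)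
  have h2 : ((x * (2 * (x ^ 4) ^ mt) ^ r * (x * (2 * (x ^ 4) ^ mt) ^ (2 * r)) : ℕ) : ℝ) *
        (1 / ((x ^ 4 : ℕ) : ℝ)) ^ k ≤ 2 ^ (3 * r) / x := by
    push_cast
    have e1 : (x : ℝ) * (2 * (x ^ 4) ^ mt) ^ r * (x * (2 * (x ^ 4) ^ mt) ^ (2 * r)) *
        (1 / x ^ 4) ^ k = 2 ^ (3 * r) * x ^ (12 * mt * r + 2) / x ^ (4 * k) := by
      rw [div_pow, one_pow, mul_pow, mul_pow, ← pow_mul, ← pow_mul, ← pow_mul, ← pow_mul]
      field_simp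
      ring
    rw [e1, div_le_div_iff₀ (by positivity) hx0, mul_assoc, ← pow_succ]
    refine mul_le_mul_of_nonneg_left (pow_le_pow_right₀ hx1 ?_) (by positivity)
    have : 4 * (3 * mt * r + 1) ≤ 4 * k := Nat.mul_le_mul_left _ hk
    nlinarith
  have h3 : (32 : ℝ) * (2 ^ (k + 3) * (1 + 2 ^ (3 * r))) ≤ x := by exact_mod_cast hx
  calc _ ≤ 2 ^ (k + 3) * (1 / (x : ℝ) + 2 ^ (3 * r) / x) := by gcongr
    _ = 2 ^ (k + 3) * (1 + 2 ^ (3 * r)) / x := by ring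
    _ ≤ 1 / 32 := by
      rw [div_le_iff₀ hx0]
      linarith

theorem odd_num3 (x mt r : ℕ) :
    x * (2 * (x ^ 4) ^ mt) ^ r * (x * (2 * (x ^ 4) ^ mt) ^ (2 * r)) =
      2 ^ (3 * r) * x ^ (12 * mt * r + 2) := by
  rw [mul_pow, mul_pow, ← pow_mul, ← pow_mul, ← pow_mul]
  ring

theorem supply_odd (h : ℕ) : Supply (2 + 2 * h) true (1 + 2 * h) := by
  intro r hr
  set mt := 8 * r + 1 with hmt
  set k := 4 * r + 3 * mt * r + 1 with hk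
  set B1 := 12 * mt * r + 3 * r + 2 with hB1
  have hk0 : 0 < k := by positivity
  have h2rk : 2 * r ≤ k := by rw [hk]; nlinarith [Nat.zero_le (mt * r)]
  have hk4 : 4 * r + 1 ≤ k := by rw [hk]; nlinarith [Nat.zero_le (mt * r)]
  have hk3 : 3 * mt * r + 1 ≤ k := by rw [hk]; omega
  refine ⟨k, B1, by omega, hk0, fun e Mf hMf => ?_⟩
  -- numerical conditions
  have hpz : PolyB fun z => (((8 * z : ℕ) : ℝ)) := by simpa using polyB_pow_cast 1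
  have he0 : 0 ≤ Real.exp (-1) := (Real.exp_pos _).le
  have he1 : Real.exp (-1) < 1 := by rw [Real.exp_lt_one_iff]; norm_num
  have hBp : PolyB fun z => ((2 * ((8 * z) ^ 4) ^ mt : ℕ) : ℝ) := by
    have h1 : PolyB fun z => 2 * (((8 * z : ℕ) : ℝ) ^ 4) ^ mt :=
      (PolyB.const zero_le_two).mul ((hpz.pow 4).pow mt)
    simpa using h1
  -- positive contents are typical
  have e1 : ∀ᶠ z : ℕ in atTop, (((8 * z : ℕ) : ℝ) ^ h * (((8 * z : ℕ) : ℝ) * (2 ^ k *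
      (((8 * z : ℕ) : ℝ) * ((2 * ((8 * z) ^ 4) ^ mt : ℕ) : ℝ) ^ r)))) * Real.exp (-1) ^ z ≤
        1 / 8 :=
    ((hpz.pow h).mul (hpz.mul ((PolyB.const (by positivity)).mul
      (hpz.mul (hBp.pow r))))).exp_small he0 he1 (by norm_num)
  -- domination
  have e2 : ∀ᶠ z : ℕ in atTop, (2 * (((8 * z : ℕ) : ℝ) ^ h * ((8 * z : ℕ) : ℝ) *
      ((((8 * z) ^ B1 : ℕ) : ℝ) ^ 8) ^ r)) * Real.exp (-1) ^ z ≤ 1 :=
    ((PolyB.const zero_le_two).mul (((hpz.pow h).mul hpz).mul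
      (((polyB_pow_cast B1).pow 8).pow r))).exp_small he0 he1 one_pos
  -- null rows
  have e3 : ∀ᶠ z : ℕ in atTop, ((((k * ((8 * z) ^ B1) ^ 8 : ℕ) : ℝ) + 1) ^ k *
      ((8 * z : ℕ) : ℝ) ^ h) * (1 / 2 : ℝ) ^ z ≤ 1 / 4 := by
    have h1 : PolyB fun z => (((k * ((8 * z) ^ B1) ^ 8 : ℕ) : ℝ) + 1) ^ k *
        ((8 * z : ℕ) : ℝ) ^ h := by
      have h2 : PolyB fun z => ((k : ℝ) * (((8 * z) ^ B1 : ℕ) : ℝ) ^ 8 + 1) ^ k *
          ((8 * z : ℕ) : ℝ) ^ h :=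
        ((((PolyB.const (Nat.cast_nonneg k)).mul ((polyB_pow_cast B1).pow 8)).add
          (PolyB.const zero_le_one)).pow k).mul (hpz.pow h)
      simpa using h2
    exact h1.exp_small (by norm_num) (by norm_num) (by norm_num)
  -- transfer
  have e4 : ∀ᶠ z : ℕ in atTop, (4 * (Mf z : ℝ)) * (1 / 2 : ℝ) ^ z < 1 :=
    ((PolyB.const (by norm_num)).mul hMf).exp_small_lt (by norm_num) (by norm_num) one_pos
  have e5 : ∀ᶠ z : ℕ in atTop, ((Mf z : ℝ) * 2 ^ e) * (1 / 2 : ℝ) ^ z ≤ 1 / 8 :=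
    (hMf.mul (PolyB.const (by positivity))).exp_small (by norm_num) (by norm_num) (by norm_num)
  filter_upwards [e1, e2, e3, e4, e5, ev_step hMf, eventually_ge_atTop 12,
    eventually_ge_atTop (32 * (2 ^ (k + 3) * (1 + 2 ^ (3 * r))))]
    with z e1 e2 e3 e4 e5 e6 hz12 hz32
  have hx : 0 < 8 * z := by omega
  have hx1 : 1 ≤ 8 * z := hx
  have hxR : (1 : ℝ) ≤ ((8 * z : ℕ) : ℝ) := by exact_mod_cast hx1
  set x := 8 * z with hxd
  set Bm := x ^ 4 with hBmd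
  set Bp := 2 * Bm ^ mt with hBpd
  have hBm0 : 0 < Bm := by positivity
  have hBp0 : 0 < Bp := by positivity
  have hd0 : 0 < x * Bp ^ r := by positivity
  have hm20 : 0 < x * Bp ^ (2 * r) := by positivity
  have hBmp : Bm ≤ Bp := by
    calc Bm = Bm ^ 1 := (pow_one _).symm
      _ ≤ Bm ^ mt := Nat.pow_le_pow_right hBm0 (by omega)
      _ ≤ Bp := by omega
  have hn1 := odd_num1 (x := x) (Bp := Bp) (k := k) (r := r) (by omega) hBmp hr hk4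
  have hn2 := odd_num2 (x := x) (mt := mt) (k := k) (r := r) (by omega) hk3
  have hxe : Real.exp (-1) ^ x ≤ Real.exp (-1) ^ z :=
    pow_le_pow_of_le_one he0 he1.le (by omega)
  have hX : x ≤ x ^ (9 * B1) := by
    calc x = x ^ 1 := (pow_one _).symm
      _ ≤ x ^ (9 * B1) := Nat.pow_le_pow_right hx (by omega)
  have hgood : pr (fun ζ : OddZ k x (x * Bp ^ r) (x * Bp ^ (2 * r)) Bp x => ¬ Good Bm ζ) ≤
      1 / 16 := by
    refine good_bound k x (x * Bp ^ r) (x * Bp ^ (2 * r)) Bp Bm x hk0 hx hd0 hm20 hBp0 hBm0 ?_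
      hn1 hn2
    calc x * Bm = x ^ 5 := by rw [hBmd]; ring
      _ ≤ x ^ (4 * mt) := Nat.pow_le_pow_right hx (by omega)
      _ = Bm ^ mt := by rw [hBmd, pow_mul]
      _ ≤ Bp := by omega
  set L0 := oddLev k x (x * Bp ^ r) (x * Bp ^ (2 * r)) Bp Bm x hk0 hx hd0 hm20 hBp0 with hL0
  have hpr0 : (0 : ℝ) ≤ 1 - (1 / (Bp : ℝ)) ^ r := by
    rw [sub_nonneg]
    refine pow_le_one₀ (by positivity) ?_
    rw [div_le_one (by exact_mod_cast hBp0)]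
    exact_mod_cast hBp0
  refine ⟨L0.iter x hx h, Bm, (x : ℝ) ^ h * (x * (1 - (1 / (Bp : ℝ)) ^ r) ^ (x * Bp ^ r)),
    (x : ℝ) ^ h * (x * (2 ^ k * ((x * Bp ^ r : ℕ) * (1 - (1 / (Bp : ℝ)) ^ (2 * r)) ^
      (x * Bp ^ (2 * r))))),
    (x : ℝ) ^ h * (1 / 2 : ℝ) ^ x, hBm0,
    iter_tyLoc _ _ _ (odd_tyLoc _ _ _ _ _ _ _ _ _ _ _ _) _,
    iter_tyProb _ _ _ (odd_tyProb _ _ _ _ _ _ _ _ _ _ _ _ _) _,
    iter_domOK _ _ _ hBm0 (by positivity) (odd_tyLoc _ _ _ _ _ _ _ _ _ _ _ _)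
      (odd_domOK _ _ _ _ _ _ _ _ _ _ _ _ _ _ hBm0 le_rfl) _,
    iter_posOK _ _ _ (odd_posOK _ _ _ _ _ _ _ _ _ _ _ _) _,
    iter_nullOK _ _ _ hBm0 (odd_nullOK _ _ _ _ _ _ _ _ _ _ _ _ hBm0 ?_) _,
    ?_, iter_fqMono _ _ _ (odd_fqMono _ _ _ _ _ _ _ _ _ _ _ _) _,
    iter_fqFalse _ _ _ (odd_fqFalse _ _ _ _ _ _ _ _ _ _ _ _) _,
    iter_real _ _ _ hX (odd_real _ _ _ _ _ _ _ _ _ _ _ _ _ hX ?_) _, ?_, ?_, ?_⟩
  · -- `hU`
    have h1 : (1 : ℝ) ≤ 2 ^ (k + 3) := one_le_pow₀ (by norm_num)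
    have h2 : (0 : ℝ) ≤ (x : ℝ) / (x ^ 4 : ℕ) := by positivity
    have h3 : (0 : ℝ) ≤ ((x * Bp ^ r * (x * Bp ^ (2 * r)) : ℕ) : ℝ) * (1 / (Bm : ℝ)) ^ k := by
      positivity
    nlinarith
  · intro M hM
    have hMR : (M : ℝ) ≤ Mf z := by exact_mod_cast hM
    have hq : L0.QOK 1 r M e := by
      refine odd_qOK _ _ _ _ _ _ _ _ _ _ _ _ _ _ _ hx h2rk ?_ ?_ hgood
      · have e7 : x / 8 = z := by omega
        rw [e7]
        have h1 : (4 * (M : ℝ)) * (1 / 2 : ℝ) ^ z < 1 := by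
          refine lt_of_le_of_lt ?_ e4
          gcongr
        rw [one_div_pow, mul_one_div, div_lt_one (by positivity)] at h1
        exact h1
      · refine le_trans ?_ e5
        have e7 : z ≤ x / 2 := by omega
        have h1 : (1 / 2 : ℝ) ^ (x / 2) ≤ (1 / 2) ^ z :=
          pow_le_pow_of_le_one (by norm_num) (by norm_num) e7
        gcongr
    exact iter_qOK _ _ hx (e6 M hM).1 (e6 M hM).2 hq h
  · -- `d0 m2 ≤ m`
    calc x * Bp ^ r * (x * Bp ^ (2 * r)) = 2 ^ (3 * r) * x ^ (12 * mt * r + 2) :=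
          odd_num3 x mt r
      _ ≤ x ^ (3 * r) * x ^ (12 * mt * r + 2) :=
          Nat.mul_le_mul_right _ (Nat.pow_le_pow_left (by omega) _)
      _ = x ^ B1 := by rw [← pow_add]; congr 1; omega
      _ ≤ x ^ (9 * B1) := Nat.pow_le_pow_right hx (by omega)
  · -- `δ ≤ 1 / 8`
    refine le_trans ?_ e1
    have h1 := (one_sub_inv_pow_le' Bp x (2 * r) hBp0).trans hxe
    calc _ ≤ (x : ℝ) ^ h * (x * (2 ^ k * ((x * Bp ^ r : ℕ) * Real.exp (-1) ^ z))) := by gcongr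
      _ = _ := by push_cast; ring
  · -- `err`
    have h1 := (one_sub_inv_pow_le' Bp x r hBp0).trans hxe
    set X : ℝ := ((x ^ B1 : ℕ) : ℝ) with hXd
    have hX8 : (8 : ℝ) ≤ X := by
      rw [hXd]
      have : 8 ≤ x ^ B1 := by
        calc 8 ≤ x ^ 1 := by rw [pow_one]; omega
          _ ≤ x ^ B1 := Nat.pow_le_pow_right hx (by omega)
      exact_mod_cast this
    have hX0 : 0 < X := by linarith
    have e7 : (((x ^ B1) ^ 8 : ℕ) : ℝ) = X ^ 8 := by rw [hXd]; push_cast; rfl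
    rw [e7]
    have e8 : (1 / X ^ 8) ^ r = 1 / (X ^ 8) ^ r := by rw [div_pow, one_pow]
    have e9 : (1 / X) ^ (8 * r + 1) = 1 / (X ^ 8) ^ r * (1 / X) := by
      rw [div_pow, one_pow, pow_succ, pow_mul, one_div_mul_one_div]
    rw [e8, e9]
    have h2 : (x : ℝ) ^ h * (x * (1 - (1 / (Bp : ℝ)) ^ r) ^ (x * Bp ^ r)) ≤
        1 / (X ^ 8) ^ r * (1 / 2) := by
      have hp : (0 : ℝ) < (X ^ 8) ^ r := by positivity
      rw [one_div_mul_one_div, le_div_iff₀ (by positivity)]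
      calc (x : ℝ) ^ h * (x * (1 - (1 / (Bp : ℝ)) ^ r) ^ (x * Bp ^ r)) * ((X ^ 8) ^ r * 2) ≤
          (x : ℝ) ^ h * (x * Real.exp (-1) ^ z) * ((X ^ 8) ^ r * 2) := by gcongr
        _ = (2 * ((x : ℝ) ^ h * x * (X ^ 8) ^ r)) * Real.exp (-1) ^ z := by ring
        _ ≤ 1 := e2
    have h3 : 1 / X ≤ 1 / 2 := by
      refine div_le_div_of_nonneg_left (by norm_num) (by norm_num) (by linarith)
    have h4 : 0 < 1 / (X ^ 8) ^ r := by positivity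
    nlinarith
  · rw [← mul_assoc]
    refine le_trans ?_ e3
    refine mul_le_mul_of_nonneg_left ?_ (by positivity)
    exact pow_le_pow_of_le_one (by norm_num) (by norm_num) (by omega)

end Pool.Agent.W_MP_5f6b2a_mon
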