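import Pool.Agent.W_MP_5f6b2a_mon.Core

/-!
The weight lemma: a closed family has few minimal accepting sets on positive inputs.
-/

namespace Pool.Agent.W_MP_5f6b2a_mon

open Finset

theorem WL_mem_sel {k n : ℕ} {S : Fin k → Fin n} {J : Finset (Fin k)} {l : Fin k × Fin n} :
    l ∈ sel S J ↔ l.1 ∈ J ∧ l.2 = S l.1 := by
  unfold sel
  rw [Finset.mem_image]
  constructor
  · rintro ⟨j, hj, rfl⟩
    exact ⟨hj, rfl⟩
  · rintro ⟨h1, h2⟩
    exact ⟨l.1, h1, Prod.ext rfl h2.symm⟩

theorem WL_acc_congr {ι E : Type} {r : ℕ} (G : Fam ι E r) {R : Finset ι} {x x' : ι → E → Bool}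
    (h : ∀ l ∈ R, x l = x' l) : G.acc R x ↔ G.acc R x' :=
  ⟨G.mono R x x' fun l hl => (h l hl).le, G.mono R x' x fun l hl => (h l hl).ge⟩

theorem WL_pr_coord {k n : ℕ} (hn : 1 ≤ n) (j : Fin k) (a : Fin n) :
    pr (fun x : Fin k → Fin n => x j = a) = 1 / n := by
  haveI : Nonempty (Fin n) := ⟨⟨0, hn⟩⟩
  have h1 := pr_comp_injective (Ω := Fin n) (fun _ : Unit => j)
    (fun _ _ _ => Subsingleton.elim _ _) (fun y : Unit → Fin n => ∀ i, y i = a)
  have h2 := pr_pi_const (I := Unit) (Ω := Fin n) (fun b => b = a)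
  rw [h2] at h1
  rw [pr_congr (F := fun ω : Fin k → Fin n => ∀ _ : Unit, ω j = a) (fun ω => by simp), h1, pr_eq_card]
  simp [Finset.filter_eq']

theorem WL_av_indep {k n : ℕ} (hn : 1 ≤ n) (j : Fin k) (a : Fin n) (H : (Fin k → Fin n) → ℝ)
    (hH : ∀ S S', (∀ i, i ≠ j → S i = S' i) → H S = H S') :
    av (fun S => (if S j = a then (1 : ℝ) else 0) * H S) = (1 / n) * av H := by
  classical
  rw [av_glue {j}]
  have h1 : ∀ x S : Fin k → Fin n, (if glue {j} x S j = a then (1 : ℝ) else 0) * H (glue {j} x S) =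
      (if x j = a then (1 : ℝ) else 0) * H S := by
    intro x S
    rw [glue_of_mem (Finset.mem_singleton_self j)]
    congr 1
    exact hH _ _ fun i hi => glue_of_notMem (by simpa using hi)
  rw [av_congr fun x => av_congr fun S => h1 x S, av_congr fun x => av_mul_left _ _, av_mul_right]
  congr 1
  rw [← WL_pr_coord hn j a]
  unfold pr
  exact av_congr fun ω => by congr

/-- If `Q = sel S J` is not a heavy petal around `R₀`, then it is very unlikely on positive
inputs. -/
theorem light_bound {k n r B mt : ℕ} {E P : Type} [Fintype E] [DecidableEq E] [Fintype P]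
    (w : P → Fin k → E → Bool) (Ty : Finset (Fin k) → (Fin k → E → Bool) → Prop) {θ err : ℝ}
    (hB : 0 < B) (hθ : 0 < θ) (hDom : Dom w Ty B mt r err) (G : Fam (Fin k × Fin n) E r)
    (K J : Finset (Fin k)) (hKJ : Disjoint K J) (hK : K.card ≤ 2 * r) (hJ : J.card ≤ r)
    (R₀ : Finset (Fin k × Fin n)) (hR₀ : ∀ l ∈ R₀, l.1 ∈ K) (κ : Fin k → E → Bool) (hκ : Ty K κ)
    (S : Fin k → Fin n) (hlight : G.hv B R₀ (sel S J) (full κ) < θ) :
    pr (fun ω : {ω : P // ∀ j ∈ K, w ω j = κ j} => G.acc (R₀ ∪ sel S J) (full (w ω))) ≤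
      θ ^ mt + err := by
  classical
  haveI : Nonempty (Fin B) := ⟨⟨0, hB⟩⟩
  have hdis : ∀ l ∈ sel S J, l.1 ∉ K := fun l hl h =>
    Finset.disjoint_left.1 hKJ h (WL_mem_sel.1 hl).1
  let g : (Fin k → E → Bool) → ℝ := fun z => if G.acc (R₀ ∪ sel S J) (full z) then 1 else 0
  have hg : Monotone g := by
    intro z z' hz
    by_cases h : G.acc (R₀ ∪ sel S J) (full z)
    · have h' : G.acc (R₀ ∪ sel S J) (full z') := G.mono _ _ _ (fun l _ => hz l.1) h
      simp only [g, if_pos h, if_pos h', le_refl]
    · simp only [g, if_neg h]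
      split_ifs <;> norm_num
  have h0 : ∀ y, 0 ≤ g y := fun y => by simp only [g]; split_ifs <;> norm_num
  have h1 : ∀ y, g y ≤ 1 := fun y => by simp only [g]; split_ifs <;> norm_num
  have hd := hDom K J hKJ hK hJ κ hκ g hg h0 h1
  have hL : pr (fun ω : {ω : P // ∀ j ∈ K, w ω j = κ j} => G.acc (R₀ ∪ sel S J) (full (w ω))) =
      av (fun ω : {ω : P // ∀ j ∈ K, w ω j = κ j} => g (mix K J κ (w ω))) := by
    unfold pr
    refine av_congr fun ω => ?_
    have : G.acc (R₀ ∪ sel S J) (full (w ω)) ↔ G.acc (R₀ ∪ sel S J) (full (mix K J κ (w ω))) := by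
      refine WL_acc_congr G fun l hl => ?_
      rcases Finset.mem_union.1 hl with hl | hl
      · simp only [full, mix, if_pos (hR₀ l hl)]
        exact ω.2 _ (hR₀ l hl)
      · simp only [full, mix, if_neg (hdis l hl), if_pos (WL_mem_sel.1 hl).1]
    simp only [g, this]
  rw [hL]
  refine hd.trans (add_le_add_left ?_ _)
  -- the right-hand side
  set Ev : (Fin k → E → Fin B) → Prop := fun b' =>
    G.acc (R₀ ∪ sel S J) (full (mix K J κ (nul b'))) with hEv
  have hpr : pr Ev = G.hv B R₀ (sel S J) (full κ) := by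
    rw [← pr_comp_injective (Ω := E → Fin B) (fun j : Fin k => (j, S j))
      (fun a b h => (Prod.mk.inj h).1) Ev]
    unfold Fam.hv
    refine pr_congr fun b => ?_
    refine WL_acc_congr G fun l hl => ?_
    rcases Finset.mem_union.1 hl with hl | hl
    · rw [glue_of_mem hl]
      simp only [full, mix, if_pos (hR₀ l hl)]
    · have hnR : l ∉ R₀ := fun h => hdis l hl (hR₀ l h)
      rw [glue_of_notMem hnR]
      simp only [full, mix, if_neg (hdis l hl), if_pos (WL_mem_sel.1 hl).1]
      have h2 : (l.1, S l.1) = l := Prod.ext rfl (WL_mem_sel.1 hl).2.symm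
      funext e
      exact congrArg (fun x => decide ((b x e : ℕ) = 0)) h2
  have hR : av (fun b : Fin mt → Fin k → E → Fin B => g (mix K J κ (meet b))) ≤
      av (fun b : Fin mt → Fin k → E → Fin B => ∏ u, (if Ev (b u) then (1 : ℝ) else 0)) := by
    refine av_mono fun b => ?_
    by_cases h : G.acc (R₀ ∪ sel S J) (full (mix K J κ (meet b)))
    · have h2 : ∀ u, Ev (b u) := by
        intro u
        refine G.mono _ _ _ (fun l _ => ?_) h
        simp only [full, mix]
        split_ifs
        · exact le_rfl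
        · intro e
          simp only [meet, nul]
          intro h3
          simp only [decide_eq_true_eq] at h3 ⊢
          exact h3 u
        · exact le_rfl
      simp only [g, if_pos h, h2, if_true, Finset.prod_const_one, le_refl]
    · simp only [g, if_neg h]
      exact Finset.prod_nonneg fun u _ => by split_ifs <;> norm_num
  refine hR.trans ?_
  rw [av_prod_pi (I := Fin mt) (Ω := Fin k → E → Fin B) fun _ b' => if Ev b' then (1 : ℝ) else 0,
    Finset.prod_const, Finset.card_univ, Fintype.card_fin]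
  have h5 : av (fun b' : Fin k → E → Fin B => if Ev b' then (1 : ℝ) else 0) = pr Ev := by
    unfold pr
    exact av_congr fun ω => by congr
  rw [h5]
  exact pow_le_pow_left₀ (pr_nonneg _) (by rw [hpr]; exact hlight.le) _

theorem WL_exists_W {ι E : Type} {r : ℕ} [Fintype ι] [DecidableEq ι] [Fintype E] [DecidableEq E]
    {B p : ℕ} {θ : ℝ} (hθ : 0 < θ) (G : Fam ι E r) (R₀ : Finset ι) (x : ι → E → Bool)
    (hG : ¬ G.Petals B θ p R₀ x) :
    ∃ W : Finset ι, W.card ≤ (p - 1) * r ∧
      ∀ Q : Finset ι, Q.Nonempty → Disjoint Q R₀ → Disjoint Q W → G.hv B R₀ Q x < θ := by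
  classical
  let Pf : Finset (Finset ι) → Prop := fun 𝒬 =>
    (∀ Q ∈ 𝒬, Q.Nonempty ∧ Disjoint Q R₀ ∧ θ ≤ G.hv B R₀ Q x) ∧
      ∀ Q ∈ 𝒬, ∀ Q' ∈ 𝒬, Q ≠ Q' → Disjoint Q Q'
  have hcard : ∀ 𝒬, Pf 𝒬 → 𝒬.card < p := by
    intro 𝒬 h𝒬
    by_contra hc
    push Not at hc
    obtain ⟨𝒬', hsub, hc'⟩ := Finset.exists_subset_card_eq hc
    exact hG ⟨𝒬', hc', fun Q hQ => h𝒬.1 Q (hsub hQ),
      fun Q hQ Q' hQ' hne => h𝒬.2 Q (hsub hQ) Q' (hsub hQ') hne⟩
  obtain ⟨𝒬, h𝒬, hmax⟩ := Finset.exists_max_image
    ((Finset.univ : Finset (Finset (Finset ι))).filter Pf) Finset.card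
    ⟨∅, by simp [Pf]⟩
  have h𝒬 : Pf 𝒬 := (Finset.mem_filter.1 h𝒬).2
  have hQr : ∀ Q ∈ 𝒬, Q.card ≤ r := by
    intro Q hQ
    have h1 := (h𝒬.1 Q hQ).2.2
    obtain ⟨b, hb⟩ := exists_of_pr_pos (hθ.trans_le h1)
    exact (Finset.card_le_card Finset.subset_union_right).trans (G.card_le _ _ hb)
  refine ⟨𝒬.biUnion id, ?_, ?_⟩
  · calc (𝒬.biUnion id).card ≤ 𝒬.card * r := Finset.card_biUnion_le_card_mul _ _ _ hQr
      _ ≤ (p - 1) * r := Nat.mul_le_mul_right _ (by have := hcard 𝒬 h𝒬; omega)
  · intro Q hne hdR hdW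
    by_contra hc
    push Not at hc
    have hnot : Q ∉ 𝒬 := by
      intro hQ
      have hsub : Q ⊆ 𝒬.biUnion id := Finset.subset_biUnion_of_mem id hQ
      have := Finset.disjoint_of_subset_right hsub hdW
      rw [Finset.disjoint_self_iff_empty] at this
      exact hne.ne_empty this
    have hPf : Pf (insert Q 𝒬) := by
      constructor
      · intro Q' hQ'
        rcases Finset.mem_insert.1 hQ' with rfl | hQ'
        · exact ⟨hne, hdR, hc⟩
        · exact h𝒬.1 Q' hQ'
      · have hd : ∀ Q' ∈ 𝒬, Disjoint Q Q' := fun Q' hQ' =>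
          Finset.disjoint_of_subset_right (Finset.subset_biUnion_of_mem id hQ') hdW
        intro Q1 h1 Q2 h2 hne'
        rcases Finset.mem_insert.1 h1 with h3 | h3 <;> rcases Finset.mem_insert.1 h2 with h4 | h4
        · exact absurd (h3.trans h4.symm) hne'
        · rw [h3]; exact hd _ h4
        · rw [h4]; exact (hd _ h3).symm
        · exact h𝒬.2 _ h3 _ h4 hne'
    have := hmax _ (Finset.mem_filter.2 ⟨Finset.mem_univ _, hPf⟩)
    rw [Finset.card_insert_of_notMem hnot] at this
    omega

/-- The cells of the sample space, according to the value of the row `j`. -/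
def WL_cell {k : ℕ} {E P : Type} (w : P → Fin k → E → Bool) (K : Finset (Fin k))
    (κ : Fin k → E → Bool) (j : Fin k) (hj : j ∉ K) (v : E → Bool) :
    {ω : {ω : P // ∀ j' ∈ K, w ω j' = κ j'} // w ω.1 j = v} ≃
      {ω : P // ∀ j' ∈ insert j K, w ω j' = Function.update κ j v j'} where
  toFun ω := ⟨ω.1.1, fun j' hj' => by
    rcases Finset.mem_insert.1 hj' with h | h
    · rw [h, Function.update_self]; exact ω.2
    · have hne : j' ≠ j := fun h' => hj (by rw [← h']; exact h)
      rw [Function.update_of_ne hne]; exact ω.1.2 j' h⟩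
  invFun ω := ⟨⟨ω.1, fun j' hj' => by
    have := ω.2 j' (Finset.mem_insert_of_mem hj')
    have hne : j' ≠ j := fun h' => hj (by rw [← h']; exact hj')
    rwa [Function.update_of_ne hne] at this⟩, by
    have := ω.2 j (Finset.mem_insert_self _ _)
    rwa [Function.update_self] at this⟩
  left_inv _ := rfl
  right_inv _ := rfl

theorem wlemma {k n r B mt p : ℕ} {E P : Type} [Fintype E] [DecidableEq E] [Fintype P]
    (w : P → Fin k → E → Bool) (Ty : Finset (Fin k) → (Fin k → E → Bool) → Prop) {θ err : ℝ}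
    (hn : 1 ≤ n) (hp : 1 ≤ p) (hB : 0 < B) (hθ : 0 < θ)
    (hTy : ∀ K κ κ', (∀ j ∈ K, κ j = κ' j) → Ty K κ → Ty K κ')
    (hTy' : ∀ K K' κ, K ⊆ K' → Ty K' κ → Ty K κ)
    (hDom : Dom w Ty B mt r err) (hle : θ ^ mt + err ≤ (1 / (n : ℝ)) ^ r)
    (G : Fam (Fin k × Fin n) E r) (hG : G.Closed B θ p) (J : Finset (Fin k)) :
    ∀ (K : Finset (Fin k)) (R₀ : Finset (Fin k × Fin n)), Disjoint K J →
      K.card + J.card ≤ 2 * r → (∀ l ∈ R₀, l.1 ∈ K) → R₀.card + J.card ≤ r →
      ∀ κ : Fin k → E → Bool,
      av (fun S : Fin k → Fin n => pr fun ω : {ω : P // ∀ j ∈ K, w ω j = κ j} =>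
        Ty (K ∪ J) (w ω) ∧ G.Min (R₀ ∪ sel S J) (full (w ω))) ≤
        (((p * r + 1 : ℕ) : ℝ) / n) ^ J.card := by
  classical
  have hn0 : (0 : ℝ) < n := by exact_mod_cast hn
  obtain ⟨m, hm⟩ : ∃ m, J.card = m := ⟨_, rfl⟩
  induction m generalizing J with
  | zero =>
    intro K R₀ _ _ _ _ κ
    rw [hm, pow_zero]
    exact av_le' zero_le_one fun S => pr_le_one _
  | succ m ih =>
    intro K R₀ hKJ hKJr hR₀ hR₀r κ
    have hJne : J.Nonempty := by rw [← Finset.card_pos]; omega
    set C : ℝ := ((p * r + 1 : ℕ) : ℝ) / n with hC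
    have hC0 : 0 ≤ C := by positivity
    have hC1 : 1 / (n : ℝ) ≤ C := by
      rw [hC]
      apply div_le_div_of_nonneg_right _ hn0.le
      push_cast
      nlinarith [Nat.cast_nonneg (α := ℝ) p, Nat.cast_nonneg (α := ℝ) r, mul_nonneg (Nat.cast_nonneg (α := ℝ) p) (Nat.cast_nonneg (α := ℝ) r)]
    have hdis : ∀ S : Fin k → Fin n, ∀ l ∈ sel S J, l.1 ∉ K := fun S l hl h =>
      Finset.disjoint_left.1 hKJ h (WL_mem_sel.1 hl).1
    by_cases hacc : G.acc R₀ (full κ)
    · -- nothing is minimal
      have hz : ∀ S : Fin k → Fin n, (pr fun ω : {ω : P // ∀ j ∈ K, w ω j = κ j} =>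
        Ty (K ∪ J) (w ω) ∧ G.Min (R₀ ∪ sel S J) (full (w ω))) = 0 := by
        intro S
        refine pr_false _ fun ω h => ?_
        refine h.2.2 R₀ ?_ ?_
        · refine Finset.ssubset_iff_subset_ne.2 ⟨Finset.subset_union_left, fun heq => ?_⟩
          obtain ⟨j, hj⟩ := hJne
          have hmem : (j, S j) ∈ sel S J := WL_mem_sel.2 ⟨hj, rfl⟩
          have : (j, S j) ∈ R₀ := by rw [heq]; exact Finset.mem_union_right _ hmem
          exact hdis S _ hmem (hR₀ _ this)
        · refine (WL_acc_congr G fun l hl => ?_).1 hacc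
          simp only [full]
          exact (ω.2 _ (hR₀ l hl)).symm
      rw [av_congr hz]
      refine (av_le' (pow_nonneg hC0 _) fun _ => pow_nonneg hC0 _)
    · have hPet : ¬ G.Petals B θ p R₀ (full κ) := fun h => hacc (hG _ _ h)
      obtain ⟨W, hWc, hW⟩ := WL_exists_W hθ G R₀ (full κ) hPet
      -- the function H
      set H : Fin k × Fin n → (Fin k → Fin n) → ℝ := fun l S =>
        pr fun ω : {ω : P // ∀ j ∈ K, w ω j = κ j} =>
          Ty (K ∪ J) (w ω) ∧ G.Min (insert l R₀ ∪ sel S (J.erase l.1)) (full (w ω)) with hH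
      have hH0 : ∀ l S, 0 ≤ H l S := fun l S => pr_nonneg _
      have hstep : ∀ l : Fin k × Fin n, l.1 ∈ J → av (H l) ≤ C ^ m := by
        intro l hl
        have hlK : l.1 ∉ K := fun h => Finset.disjoint_left.1 hKJ h hl
        have h1 : av (H l) = av fun ω : {ω : P // ∀ j ∈ K, w ω j = κ j} => av fun S : Fin k → Fin n =>
            if Ty (K ∪ J) (w ω) ∧ G.Min (insert l R₀ ∪ sel S (J.erase l.1)) (full (w ω)) then (1 : ℝ)
              else 0 := by
          rw [← av_comm]
          refine av_congr fun S => ?_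
          simp only [hH]
          unfold pr
          exact av_congr fun ω => by congr
        rw [h1]
        refine av_le_of_cells (pow_nonneg hC0 _) (fun ω : {ω : P // ∀ j ∈ K, w ω j = κ j} => w ω.1 l.1)
          fun v => ?_
        have hKer : insert l.1 K ∪ J.erase l.1 = K ∪ J := by
          ext j
          simp only [Finset.mem_union, Finset.mem_insert, Finset.mem_erase]
          constructor
          · rintro ((rfl | h) | h)
            · exact Or.inr hl
            · exact Or.inl h
            · exact Or.inr h.2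
          · rintro (h | h)
            · exact Or.inl (Or.inr h)
            · by_cases hj : j = l.1
              · exact Or.inl (Or.inl hj)
              · exact Or.inr ⟨hj, h⟩
        have hih := ih (J.erase l.1) (by rw [Finset.card_erase_of_mem hl, hm]; rfl)
          (insert l.1 K) (insert l R₀) ?_ ?_ ?_ ?_ (Function.update κ l.1 v)
        · rw [hKer, Finset.card_erase_of_mem hl, hm, Nat.add_sub_cancel] at hih
          refine le_trans (le_of_eq ?_) hih
          have h2 := av_equiv (WL_cell w K κ l.1 hlK v)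
            (fun ω => av fun S : Fin k → Fin n =>
              if Ty (K ∪ J) (w ω) ∧ G.Min (insert l R₀ ∪ sel S (J.erase l.1)) (full (w ω)) then (1 : ℝ)
              else 0)
          refine Eq.trans ?_ (h2.trans ?_)
          · exact congrArg₂ _ (Subsingleton.elim _ _) rfl
          · rw [← av_comm]
            refine av_congr fun S => ?_
            unfold pr
            exact av_congr fun ω => by congr
        · rw [Finset.disjoint_left]
          intro j hj hj'
          rcases Finset.mem_insert.1 hj with rfl | hj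
          · exact (Finset.mem_erase.1 hj').1 rfl
          · exact Finset.disjoint_left.1 hKJ hj (Finset.mem_erase.1 hj').2
        · rw [Finset.card_insert_of_notMem hlK, Finset.card_erase_of_mem hl]
          omega
        · intro l' hl'
          rcases Finset.mem_insert.1 hl' with rfl | hl'
          · exact Finset.mem_insert_self _ _
          · exact Finset.mem_insert_of_mem (hR₀ l' hl')
        · have := Finset.card_insert_le l R₀
          rw [Finset.card_erase_of_mem hl]
          omega
      -- pointwise bound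
      have hpt : ∀ S : Fin k → Fin n, (pr fun ω : {ω : P // ∀ j ∈ K, w ω j = κ j} =>
          Ty (K ∪ J) (w ω) ∧ G.Min (R₀ ∪ sel S J) (full (w ω))) ≤
          (1 / (n : ℝ)) ^ (m + 1) +
            ∑ l ∈ W.filter (fun l => l.1 ∈ J), (if S l.1 = l.2 then (1 : ℝ) else 0) * H l S := by
        intro S
        have hsum0 : 0 ≤ ∑ l ∈ W.filter (fun l => l.1 ∈ J),
            (if S l.1 = l.2 then (1 : ℝ) else 0) * H l S :=
          Finset.sum_nonneg fun l _ => mul_nonneg (by split_ifs <;> norm_num) (hH0 _ _)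
        by_cases hdW : Disjoint (sel S J) W
        · have hlight : G.hv B R₀ (sel S J) (full κ) < θ := by
            refine hW _ ?_ ?_ hdW
            · obtain ⟨j, hj⟩ := hJne
              exact ⟨(j, S j), WL_mem_sel.2 ⟨hj, rfl⟩⟩
            · rw [Finset.disjoint_left]
              exact fun l hl h => hdis S l hl (hR₀ l h)
          have hbd : (pr fun ω : {ω : P // ∀ j ∈ K, w ω j = κ j} =>
              Ty (K ∪ J) (w ω) ∧ G.Min (R₀ ∪ sel S J) (full (w ω))) ≤ (1 / (n : ℝ)) ^ (m + 1) := by
            by_cases hTK : Ty K κ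
            · refine (pr_mono fun ω h => h.2.1).trans ?_
              refine (light_bound w Ty hB hθ hDom G K J hKJ (by omega) (by omega) R₀ hR₀ κ hTK S
                hlight).trans ?_
              refine hle.trans ?_
              exact pow_le_pow_of_le_one (by positivity)
                (by rw [div_le_one hn0]; exact_mod_cast hn) (by omega)
            · rw [pr_false _ fun ω h => hTK ?_]
              · positivity
              · refine hTy K (w ω) κ (fun j hj => ω.2 j hj) ?_
                exact hTy' _ _ _ Finset.subset_union_left h.1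
          linarith
        · rw [Finset.not_disjoint_iff] at hdW
          obtain ⟨l, hl, hlW⟩ := hdW
          have hl' := WL_mem_sel.1 hl
          have hmem : l ∈ W.filter (fun l => l.1 ∈ J) := Finset.mem_filter.2 ⟨hlW, hl'.1⟩
          have hset : R₀ ∪ sel S J = insert l R₀ ∪ sel S (J.erase l.1) := by
            ext x
            simp only [Finset.mem_union, Finset.mem_insert, WL_mem_sel, Finset.mem_erase]
            constructor
            · rintro (h | h)
              · exact Or.inl (Or.inr h)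
              · by_cases hx : x.1 = l.1
                · left; left
                  refine Prod.ext hx ?_
                  rw [h.2, hx, hl'.2]
                · exact Or.inr ⟨⟨hx, h.1⟩, h.2⟩
            · rintro ((rfl | h) | h)
              · exact Or.inr hl'
              · exact Or.inl h
              · exact Or.inr ⟨h.1.2, h.2⟩
          have hone : (if S l.1 = l.2 then (1 : ℝ) else 0) * H l S = H l S := by
            rw [if_pos hl'.2.symm, one_mul]
          have hle2 := Finset.single_le_sum
            (f := fun l => (if S l.1 = l.2 then (1 : ℝ) else 0) * H l S)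
            (fun l _ => mul_nonneg (by split_ifs <;> norm_num) (hH0 l S)) hmem
          simp only [hone] at hle2
          have heq : (pr fun ω : {ω : P // ∀ j ∈ K, w ω j = κ j} =>
              Ty (K ∪ J) (w ω) ∧ G.Min (R₀ ∪ sel S J) (full (w ω))) = H l S := by
            rw [hset]
          rw [heq]
          have : (0 : ℝ) ≤ (1 / (n : ℝ)) ^ (m + 1) := by positivity
          linarith
      refine (av_mono hpt).trans ?_
      rw [av_add, av_sum]
      have hlin : ∀ l ∈ W.filter (fun l => l.1 ∈ J),
          av (fun S : Fin k → Fin n => (if S l.1 = l.2 then (1 : ℝ) else 0) * H l S) ≤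
            (1 / n) * C ^ m := by
        intro l hl
        rw [WL_av_indep hn l.1 l.2 (H l)]
        · exact mul_le_mul_of_nonneg_left (hstep l (Finset.mem_filter.1 hl).2) (by positivity)
        · intro S S' hSS
          have : sel S (J.erase l.1) = sel S' (J.erase l.1) := by
            ext x
            simp only [WL_mem_sel, Finset.mem_erase]
            constructor
            · rintro ⟨h1, h2⟩; exact ⟨h1, by rw [h2, hSS _ h1.1]⟩
            · rintro ⟨h1, h2⟩; exact ⟨h1, by rw [h2, hSS _ h1.1]⟩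
          simp only [hH, this]
      have hsum := Finset.sum_le_sum hlin
      rw [Finset.sum_const, nsmul_eq_mul] at hsum
      have hc1 : ((W.filter (fun l => l.1 ∈ J)).card : ℝ) ≤ (((p - 1) * r : ℕ) : ℝ) := by
        exact_mod_cast (Finset.card_filter_le _ _).trans hWc
      have hc2 : (((p - 1) * r : ℕ) : ℝ) ≤ (p : ℝ) * r := by
        have : (p - 1) * r ≤ p * r := Nat.mul_le_mul_right _ (Nat.sub_le _ _)
        exact_mod_cast this
      have hCm : (0 : ℝ) ≤ C ^ m := pow_nonneg hC0 _
      have hconst : av (fun _ : Fin k → Fin n => (1 / (n : ℝ)) ^ (m + 1)) ≤ (1 / n) * C ^ m := by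
        refine av_le' (by positivity) fun _ => ?_
        rw [pow_succ, mul_comm]
        exact mul_le_mul_of_nonneg_left (pow_le_pow_left₀ (by positivity) hC1 _) (by positivity)
      have hfin : (1 / (n : ℝ)) * C ^ m + (p * r) * ((1 / n) * C ^ m) = C ^ (m + 1) := by
        rw [pow_succ, hC]
        push_cast
        field_simp
        ring
      rw [hm]
      have hmono : ((W.filter (fun l => l.1 ∈ J)).card : ℝ) * ((1 / n) * C ^ m) ≤
          (p * r) * ((1 / n) * C ^ m) :=
        mul_le_mul_of_nonneg_right (hc1.trans hc2) (by positivity)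
      linarith

end Pool.Agent.W_MP_5f6b2a_mon
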